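import Pool.Agent.Run7.h19.Loop

/-!
# The class of an idempotent in the graph monoid (helper19)
-/

namespace Run7.h19

open Pool.Agent.Helper665_GA LoopGraph

variable {K : Type*} [Field K] {G : Graph}

section atom

variable {X : Set G.V} {t : G.V}

theorem fr_atom_left (ht : Atom X t) {g' : LPA K G} {s' : Multiset G.V}
    (hf : Fr (QA (LX K X)) (pp K) g' s') (hs : ∀ v ∈ s', ¬ ReachX X v t) {a : LPA K G}
    (ha : a ∈ LX K X) : pp K t * a * g' = 0 := by
  induction hf with
  | zero => exact mul_zero _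
  | @cons x y e v s h0 h1 h2 h3 h4 h5 h6 ih =>
    have e1 := atom_left ht (hs v (Multiset.mem_cons_self v s)) (mul_mem ha h0.1)
    rw [mul_add, ih fun w hw => hs w (Multiset.mem_cons_of_mem hw), add_zero]
    have e2 : pp K t * a * (x * y) = pp K t * (a * x) * pp K v * y := by
      conv_lhs => rw [← h2]
      noncomm_ring
    rw [e2, e1, zero_mul]

theorem fr_atom_right (ht : Atom X t) {g' : LPA K G} {s' : Multiset G.V}
    (hf : Fr (QA (LX K X)) (pp K) g' s') (hs : ∀ v ∈ s', ¬ ReachX X v t) {a : LPA K G}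
    (ha : a ∈ LX K X) : g' * a * pp K t = 0 := by
  induction hf with
  | zero => rw [zero_mul, zero_mul]
  | @cons x y e v s h0 h1 h2 h3 h4 h5 h6 ih =>
    have e1 := atom_right ht (hs v (Multiset.mem_cons_self v s)) (mul_mem h0.2 ha)
    rw [add_mul, add_mul, ih fun w hw => hs w (Multiset.mem_cons_of_mem hw), add_zero]
    have e2 : x * y * a * pp K t = x * (pp K v * (y * a) * pp K t) := by
      conv_lhs => rw [← h3]
      noncomm_ring
    rw [e2, e1, mul_zero]

theorem atom_coef (ht : Atom X t) {y a x : LPA K G} (hy : pp K t * y = y)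
    (hx : x * pp K t = x) (hm : y * a * x ∈ LX K X) :
    ∃ r : K, y * a * x = r • pp K t := by
  obtain ⟨r, hr⟩ := atom_self ht hm
  refine ⟨r, ?_⟩
  rw [← hr]
  have : pp K t * (y * a * x) * pp K t = (pp K t * y) * a * (x * pp K t) := by noncomm_ring
  rw [this, hy, hx]

theorem T0_atom (ht : Atom X t) {n : ℕ} {x y : Fin n → LPA K G}
    (hx : ∀ i, x i ∈ LX K X) (hy : ∀ i, y i ∈ LX K X) (hd : Dual (pp K t) x y) {g' : LPA K G}
    {s' : Multiset G.V} (hf : Fr (QA (LX K X)) (pp K) g' s') (hs : ∀ v ∈ s', ¬ ReachX X v t)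
    (ho1 : dsum x y * g' = 0) (ho2 : g' * dsum x y = 0) {e : LPA K G} (he : e ∈ LX K X)
    (hee : e * e = e) (heg : e * (dsum x y + g') = e) (hge : (dsum x y + g') * e = e)
    (IH : ∀ e2 : LPA K G, e2 ∈ LX K X → e2 * e2 = e2 → e2 * g' = e2 → g' * e2 = e2 →
      ∃ s2, Fr (QA (LX K X)) (pp K) e2 s2) :
    ∃ s2, Fr (QA (LX K X)) (pp K) e s2 := by
  classical
  have h1 : ∀ i j, ∃ r : K, y i * e * x j = r • pp K t := fun i j =>
    atom_coef ht (hd.py i) (hd.xp j) (mul_mem (mul_mem (hy i) he) (hx j))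
  choose ε0 hε0 using h1
  set ε : Matrix (Fin n) (Fin n) K := Matrix.of ε0 with hεdef
  have hε : ∀ i j, y i * e * x j = ε i j • pp K t := hε0
  have hex : ∀ j, e * x j = ∑ i, ε i j • x i := by
    intro j
    have h2 : g' * e * x j = 0 := by
      have := fr_atom_right ht hf hs (mul_mem he (hx j))
      rw [← hd.xp j, ← mul_assoc]
      rwa [← mul_assoc] at this
    have h3 : e * x j = (dsum x y + g') * e * x j := by rw [hge]
    rw [h3, add_mul, add_mul, h2, add_zero, dsum_def, Finset.sum_mul, Finset.sum_mul]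
    apply Finset.sum_congr rfl
    intro i _
    have h4 : x i * y i * e * x j = x i * (y i * e * x j) := by noncomm_ring
    rw [h4, hε, mul_smul_comm, hd.xp]
  have hye : ∀ i, y i * e = ∑ j, ε i j • y j := by
    intro i
    have h2 : y i * e * g' = 0 := by
      have := fr_atom_left ht hf hs (mul_mem (hy i) he)
      rwa [← mul_assoc, hd.py] at this
    have h3 : y i * e = y i * (e * (dsum x y + g')) := by rw [heg]
    rw [h3, mul_add, mul_add, ← mul_assoc (y i) e g', h2, add_zero, dsum_def, Finset.mul_sum,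
      Finset.mul_sum]
    apply Finset.sum_congr rfl
    intro j _
    have h4 : y i * (e * (x j * y j)) = (y i * e * x j) * y j := by noncomm_ring
    rw [h4, hε, smul_mul_assoc, hd.py]
  have hp0 : pp K t ≠ 0 := LPA.p_ne_zero t
  have hεε : ε * ε = ε := by
    ext1 i j
    apply smul_left_injective K hp0
    show (ε * ε) i j • pp K t = ε i j • pp K t
    rw [← hε, Matrix.mul_apply, Finset.sum_smul]
    have h2 : y i * e * x j = (y i * e) * (e * x j) := by
      have : (y i * e) * (e * x j) = y i * (e * e) * x j := by noncomm_ring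
      rw [this, hee]
    rw [h2, hex, Finset.mul_sum]
    apply Finset.sum_congr rfl
    intro l _
    rw [mul_smul_comm, hε, smul_smul, mul_comm]
  obtain ⟨U, U', J, hUU', hU'U, hεU⟩ := exists_diag ε hεε
  have hU'ε : U' * ε = (Matrix.diagonal fun j => if j ∈ J then 1 else 0) * U' := by
    calc U' * ε = U' * (ε * U) * U' := by
          rw [Matrix.mul_assoc, Matrix.mul_assoc, hUU', Matrix.mul_one]
      _ = _ := by rw [hεU, ← Matrix.mul_assoc, hU'U, Matrix.one_mul]
  set z : Fin n → LPA K G := fun j => ∑ i, U i j • x i with hz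
  set w : Fin n → LPA K G := fun i => ∑ j, U' i j • y j with hw
  have hwz : ∀ i j, w i * z j = if i = j then pp K t else 0 := by
    intro i j
    have h2 : w i * z j = ∑ l, (U' i l * U l j) • pp K t := by
      rw [hw, hz]
      simp only
      rw [Finset.sum_mul]
      apply Finset.sum_congr rfl
      intro l _
      rw [Finset.mul_sum, Finset.sum_eq_single_of_mem l (Finset.mem_univ l)]
      · rw [smul_mul_smul_comm, hd.yx, if_pos rfl]
      · intro m _ hm
        rw [smul_mul_smul_comm, hd.yx, if_neg hm.symm, smul_zero]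
    rw [h2, ← Finset.sum_smul, ← Matrix.mul_apply, hU'U, Matrix.one_apply]
    split_ifs
    · rw [one_smul]
    · rw [zero_smul]
  have hez : ∀ j, e * z j = if j ∈ J then z j else 0 := by
    intro j
    have h2 : e * z j = ∑ i, (ε * U) i j • x i := by
      rw [hz]
      simp only
      rw [Finset.mul_sum]
      have h3 : ∀ l, e * (U l j • x l) = ∑ i, (ε i l * U l j) • x i := by
        intro l
        rw [mul_smul_comm, hex, Finset.smul_sum]
        apply Finset.sum_congr rfl
        intro i _
        rw [smul_smul, mul_comm]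
      rw [Finset.sum_congr rfl fun l _ => h3 l, Finset.sum_comm]
      apply Finset.sum_congr rfl
      intro i _
      rw [← Finset.sum_smul, Matrix.mul_apply]
    rw [h2, hεU]
    have h3 : ∀ i, (U * Matrix.diagonal fun j => if j ∈ J then (1 : K) else 0) i j • x i
        = if j ∈ J then U i j • x i else 0 := by
      intro i
      rw [Matrix.mul_diagonal]
      split_ifs
      · rw [mul_one]
      · rw [mul_zero, zero_smul]
    rw [Finset.sum_congr rfl fun i _ => h3 i]
    split_ifs
    · rfl
    · exact Finset.sum_const_zero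
  have hwe : ∀ i, w i * e = if i ∈ J then w i else 0 := by
    intro i
    have h2 : w i * e = ∑ j, (U' * ε) i j • y j := by
      rw [hw]
      simp only
      rw [Finset.sum_mul]
      have h3 : ∀ l, (U' i l • y l) * e = ∑ j, (U' i l * ε l j) • y j := by
        intro l
        rw [smul_mul_assoc, hye, Finset.smul_sum]
        apply Finset.sum_congr rfl
        intro j _
        rw [smul_smul]
      rw [Finset.sum_congr rfl fun l _ => h3 l, Finset.sum_comm]
      apply Finset.sum_congr rfl
      intro j _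
      rw [← Finset.sum_smul, Matrix.mul_apply]
    rw [h2, hU'ε]
    have h3 : ∀ j, ((Matrix.diagonal fun j => if j ∈ J then (1 : K) else 0) * U') i j • y j
        = if i ∈ J then U' i j • y j else 0 := by
      intro j
      rw [Matrix.diagonal_mul]
      split_ifs
      · rw [one_mul]
      · rw [zero_mul, zero_smul]
    rw [Finset.sum_congr rfl fun j _ => h3 j]
    split_ifs
    · rfl
    · exact Finset.sum_const_zero
  have hzw : dsum z w = dsum x y := by
    rw [dsum_def, dsum_def]
    have h2 : ∀ j, z j * w j = ∑ i, ∑ l, (U i j * U' j l) • (x i * y l) := by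
      intro j
      rw [hz, hw]
      simp only
      rw [Finset.sum_mul]
      apply Finset.sum_congr rfl
      intro i _
      rw [Finset.mul_sum]
      apply Finset.sum_congr rfl
      intro l _
      rw [smul_mul_smul_comm]
    rw [Finset.sum_congr rfl fun j _ => h2 j, Finset.sum_comm]
    apply Finset.sum_congr rfl
    intro i _
    rw [Finset.sum_comm, Finset.sum_eq_single_of_mem i (Finset.mem_univ i)]
    · rw [← Finset.sum_smul, ← Matrix.mul_apply, hUU', Matrix.one_apply_eq, one_smul]
    · intro l _ hl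
      rw [← Finset.sum_smul, ← Matrix.mul_apply, hUU', Matrix.one_apply_ne hl.symm, zero_smul]
  set e1 := ∑ j ∈ J, z j * w j with he1
  have hf1 : Fr (QA (LX K X)) (pp K) e1 (J.val.map fun _ => t) := by
    apply Fr.of_finset
    · intro i _
      exact ⟨sum_mem fun l _ => (LX K X).smul_mem _ (hx l),
        sum_mem fun l _ => (LX K X).smul_mem _ (hy l)⟩
    · intro i _
      rw [hwz, if_pos rfl]
    · intro i _ j _ hij
      rw [hwz, if_neg hij]
    · intro i _
      rw [hz]
      simp only
      rw [Finset.sum_mul]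
      exact Finset.sum_congr rfl fun l _ => by rw [smul_mul_assoc, hd.xp]
    · intro i _
      rw [hw]
      simp only
      rw [Finset.mul_sum]
      exact Finset.sum_congr rfl fun l _ => by rw [mul_smul_comm, hd.py]
  have h5 : e * dsum x y = e1 := by
    rw [← hzw, dsum_def, Finset.mul_sum, he1, ← Finset.sum_subset (Finset.subset_univ J)]
    · exact Finset.sum_congr rfl fun j hj => by rw [← mul_assoc, hez, if_pos hj]
    · intro j _ hj
      rw [← mul_assoc, hez, if_neg hj, zero_mul]
  have h6 : dsum x y * e = e1 := by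
    rw [← hzw, dsum_def, Finset.sum_mul, he1, ← Finset.sum_subset (Finset.subset_univ J)]
    · exact Finset.sum_congr rfl fun j hj => by rw [mul_assoc, hwe, if_pos hj]
    · intro j _ hj
      rw [mul_assoc, hwe, if_neg hj, mul_zero]
  have h7 : e * g' = g' * e := by
    have a1 : e * g' = e - e1 := by rw [← h5, eq_sub_iff_add_eq, add_comm, ← mul_add, heg]
    have a2 : g' * e = e - e1 := by rw [← h6, eq_sub_iff_add_eq, add_comm, ← add_mul, hge]
    rw [a1, a2]
  have h8 : e = e1 + e * g' := by rw [← h5, ← mul_add, heg]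
  have hgg := hf.idem
  obtain ⟨s2, hs2⟩ := IH (e * g') (mul_mem he hf.mem)
    (by
      calc e * g' * (e * g') = e * (g' * e) * g' := by noncomm_ring
        _ = (e * e) * (g' * g') := by rw [← h7]; noncomm_ring
        _ = e * g' := by rw [hee, hgg])
    (by rw [mul_assoc, hgg]) (by rw [h7, ← mul_assoc, hgg])
  refine ⟨(J.val.map fun _ => t) + s2, ?_⟩
  rw [h8]
  apply hf1.add hs2
  · rw [← h5, h7, mul_assoc, ← mul_assoc (dsum x y), ho1, zero_mul, mul_zero]
  · rw [← h6, mul_assoc, ← mul_assoc g', ho2, zero_mul, mul_zero]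

theorem T1_atom (ht : Atom X t) {n n' : ℕ}
    {x y : Fin n → LPA K G} {x' y' : Fin n' → LPA K G}
    (hx : ∀ i, x i ∈ LX K X) (hy : ∀ i, y i ∈ LX K X) (hd : Dual (pp K t) x y)
    (hx' : ∀ i, x' i ∈ LX K X) (hy' : ∀ i, y' i ∈ LX K X) (hd' : Dual (pp K t) x' y')
    {g g' : LPA K G} {s s' : Multiset G.V}
    (hf : Fr (QA (LX K X)) (pp K) g s) (hs : ∀ v ∈ s, ¬ ReachX X v t)
    (hf' : Fr (QA (LX K X)) (pp K) g' s') (hs' : ∀ v ∈ s', ¬ ReachX X v t)
    (ho1 : dsum x y * g = 0) (ho2 : g * dsum x y = 0)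
    (ho1' : dsum x' y' * g' = 0) (ho2' : g' * dsum x' y' = 0)
    (heq : dsum x y + g = dsum x' y' + g') : n = n' ∧ g = g' := by
  have half : ∀ {n n' : ℕ} {x y : Fin n → LPA K G} {x' y' : Fin n' → LPA K G}
      (_ : ∀ i, x i ∈ LX K X) (_ : ∀ i, y i ∈ LX K X) (_ : Dual (pp K t) x y)
      {g g' : LPA K G} {s' : Multiset G.V}
      (_ : Fr (QA (LX K X)) (pp K) g' s') (_ : ∀ v ∈ s', ¬ ReachX X v t)
      (_ : dsum x y * g = 0) (_ : g * dsum x y = 0)
      (_ : dsum x y + g = dsum x' y' + g'),
      dsum x y * dsum x' y' = dsum x y ∧ dsum x' y' * dsum x y = dsum x y := by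
    intro n n' x y x' y' hx hy hd g g' s' hf' hs' ho1 ho2 heq
    have a1 : dsum x y * g' = 0 := by
      rw [dsum_def, Finset.sum_mul]
      refine Finset.sum_eq_zero fun i _ => ?_
      have := fr_atom_left ht hf' hs' (hy i)
      rw [hd.py] at this
      rw [mul_assoc, this, mul_zero]
    have a2 : g' * dsum x y = 0 := by
      rw [dsum_def, Finset.mul_sum]
      refine Finset.sum_eq_zero fun i _ => ?_
      have := fr_atom_right ht hf' hs' (hx i)
      rw [mul_assoc, hd.xp] at this
      rw [← mul_assoc, this, zero_mul]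
    constructor
    · have := congrArg (fun z => dsum x y * z) heq
      simp only [mul_add, hd.dsum_idem, ho1, a1, add_zero] at this
      exact this.symm
    · have := congrArg (fun z => z * dsum x y) heq
      simp only [add_mul, hd.dsum_idem, ho2, a2, add_zero] at this
      exact this.symm
  obtain ⟨a1, a2⟩ := half (x' := x') (y' := y') hx hy hd hf' hs' ho1 ho2 heq
  obtain ⟨b1, b2⟩ := half (x' := x) (y' := y) hx' hy' hd' hf hs ho1' ho2' heq.symm
  have hdd : dsum x y = dsum x' y' := by rw [← a1, b2]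
  refine ⟨?_, ?_⟩
  · have h1 : ∀ i j, ∃ r : K, y' i * x j = r • pp K t := by
      intro i j
      obtain ⟨r, hr⟩ := atom_self ht (mul_mem (hy' i) (hx j))
      refine ⟨r, ?_⟩
      rw [← hr, ← mul_assoc, hd'.py, mul_assoc, hd.xp]
    have h2 : ∀ i j, ∃ r : K, y i * x' j = r • pp K t := by
      intro i j
      obtain ⟨r, hr⟩ := atom_self ht (mul_mem (hy i) (hx' j))
      refine ⟨r, ?_⟩
      rw [← hr, ← mul_assoc, hd.py, mul_assoc, hd'.xp]
    choose U hU using h1
    choose V hV using h2
    have hp0 : pp K t ≠ 0 := LPA.p_ne_zero t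
    have hUV : Matrix.of U * Matrix.of V = 1 := by
      ext1 i j
      apply smul_left_injective K hp0
      show (Matrix.of U * Matrix.of V) i j • pp K t = (1 : Matrix _ _ K) i j • pp K t
      rw [Matrix.mul_apply, Finset.sum_smul]
      have h3 : ∀ l, (Matrix.of U i l * Matrix.of V l j) • pp K t
          = y' i * (x l * y l) * x' j := by
        intro l
        have h4 : y' i * (x l * y l) * x' j = (y' i * x l) * (y l * x' j) := by noncomm_ring
        rw [h4, hU, hV, smul_mul_smul_comm, pp_pp]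
        rfl
      rw [Finset.sum_congr rfl fun l _ => h3 l, ← Finset.sum_mul, ← Finset.mul_sum,
        ← dsum_def, hdd, hd'.mul_dsum, hd'.yx, Matrix.one_apply]
      split_ifs
      · rw [one_smul]
      · rw [zero_smul]
    have hVU : Matrix.of V * Matrix.of U = 1 := by
      ext1 i j
      apply smul_left_injective K hp0
      show (Matrix.of V * Matrix.of U) i j • pp K t = (1 : Matrix _ _ K) i j • pp K t
      rw [Matrix.mul_apply, Finset.sum_smul]
      have h3 : ∀ l, (Matrix.of V i l * Matrix.of U l j) • pp K t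
          = y i * (x' l * y' l) * x j := by
        intro l
        have h4 : y i * (x' l * y' l) * x j = (y i * x' l) * (y' l * x j) := by noncomm_ring
        rw [h4, hU, hV, smul_mul_smul_comm, pp_pp]
        rfl
      rw [Finset.sum_congr rfl fun l _ => h3 l, ← Finset.sum_mul, ← Finset.mul_sum,
        ← dsum_def, ← hdd, hd.mul_dsum, hd.yx, Matrix.one_apply]
      split_ifs
      · rw [one_smul]
      · rw [zero_smul]
    have := Matrix.square_of_invertible _ _ hVU hUV
    simpa using this
  · have := heq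
    rw [hdd] at this
    exact add_left_cancel this

end atom

variable [LoopGraph G]

/-- A finite level with a rank function. -/
structure Lev (X Y : Finset G.V) (rk : G.V → ℕ) : Prop where
  sub : X ⊆ Y
  closed : ∀ v ∈ X, ∀ w ∈ xs v, w ∈ Y
  inj : ∀ v ∈ Y, ∀ w ∈ Y, rk v = rk w → v = w
  lt : ∀ v ∈ Y, ∀ w ∈ Y, Reach v w → v ≠ w → rk w < rk v

theorem exists_lev (X Y0 : Finset G.V) : ∃ Y rk, Y0 ⊆ Y ∧ Lev X Y rk := by
  classical
  set Y := X ∪ Y0 ∪ X.biUnion fun v => (xs v).toFinset with hY
  obtain ⟨rk, h1, h2⟩ := exists_rank Y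
  refine ⟨Y, rk, ?_, ?_, ?_, h1, h2⟩
  · intro v hv
    rw [hY, Finset.mem_union, Finset.mem_union]
    exact Or.inl (Or.inr hv)
  · intro v hv
    rw [hY, Finset.mem_union, Finset.mem_union]
    exact Or.inl (Or.inl hv)
  · intro v hv w hw
    rw [hY, Finset.mem_union, Finset.mem_biUnion]
    exact Or.inr ⟨v, hv, Multiset.mem_toFinset.2 hw⟩

variable {X Y : Finset G.V} {rk : G.V → ℕ}

theorem Lev.cases (t : G.V) : Atom (X : Set G.V) t ∨ (t ∈ X ∧ Nl t) ∨ (t ∈ X ∧ IsLoop t) := by
  by_cases h1 : t ∈ X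
  · by_cases h2 : IsLoop t
    · exact Or.inr (Or.inr ⟨h1, h2⟩)
    · by_cases h3 : (exits t).Nonempty
      · exact Or.inr (Or.inl ⟨h1, h2, h3⟩)
      · left
        intro e he
        exfalso
        apply h3
        exact ⟨e, mem_exits.2 ⟨he, fun h4 => h2 ⟨e, he, h4⟩⟩⟩
  · exact Or.inl fun e _ => by simpa using h1

theorem expand_replicate {Q : LPA K G → LPA K G → Prop} {X : Set G.V} (hQ : GoodQ Q X) {t : G.V}
    (h : Nl t) (ht : t ∈ X) {e : LPA K G} (n : ℕ) : ∀ {s : Multiset G.V},
    Fr Q (pp K) e (Multiset.replicate n t + s) → Fr Q (pp K) e (n • xs t + s) := by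
  induction n with
  | zero => intro s hf; simpa using hf
  | succ n ih =>
    intro s hf
    rw [Multiset.replicate_succ, Multiset.cons_add] at hf
    have h1 := expand_nl hQ h ht hf
    have e1 : xs t + (Multiset.replicate n t + s) = Multiset.replicate n t + (xs t + s) := by abel
    rw [e1] at h1
    have h2 := ih h1
    have e2 : n • xs t + (xs t + s) = (n + 1) • xs t + s := by rw [succ_nsmul]; abel
    rwa [e2] at h2

omit [LoopGraph G] in
theorem split_count (s : Multiset G.V) (t : G.V) : ∃ (n : ℕ) (s' : Multiset G.V),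
    s = Multiset.replicate n t + s' ∧ ∀ v ∈ s', v ∈ s ∧ v ≠ t := by
  classical
  refine ⟨s.count t, s.filter (fun l => l ≠ t), ?_, ?_⟩
  · rw [← Multiset.filter_eq', Multiset.filter_add_not]
  · intro v hv
    exact Multiset.mem_filter.1 hv

theorem mem_nsmul_xs {n : ℕ} {t w : G.V} (h : w ∈ n • xs t) : w ∈ xs t := by
  induction n with
  | zero => simp at h
  | succ n ih =>
    rw [succ_nsmul, Multiset.mem_add] at h
    rcases h with h | h
    · exact ih h
    · exact h

theorem Lev.xs_lt (L : Lev X Y rk) {t : G.V} (ht : t ∈ X) {w : G.V} (hw : w ∈ xs t) :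
    w ∈ Y ∧ rk w < rk t := by
  have h1 := L.closed t ht w hw
  refine ⟨h1, L.lt t (L.sub ht) w h1 (reach_of_mem_xs hw) ?_⟩
  rintro rfl
  exact not_reach_of_mem_xs hw Relation.ReflTransGen.refl

/-- Subidempotents of idempotents with frames have frames. -/
theorem T0_main (L : Lev X Y rk) : ∀ (m : ℕ) (g : LPA K G) (s : Multiset G.V),
    (∀ v ∈ s, v ∈ Y ∧ rk v < m) → Fr (QA (LX K (X : Set G.V))) (pp K) g s →
    ∀ e ∈ LX K (X : Set G.V), e * e = e → e * g = e → g * e = e →
    ∃ s', Fr (QA (LX K (X : Set G.V))) (pp K) e s' := by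
  intro m
  induction m with
  | zero =>
    intro g s hs hf e he hee heg hge
    have h1 : s = 0 := by
      rw [Multiset.eq_zero_iff_forall_notMem]
      intro v hv
      exact absurd (hs v hv).2 (Nat.not_lt_zero _)
    subst h1
    rw [hf.of_zero, mul_zero] at heg
    exact ⟨0, heg ▸ Fr.zero⟩
  | succ m ih =>
    intro g s hs hf e he hee heg hge
    by_cases hex : ∃ t ∈ s, rk t = m
    · obtain ⟨t, hts, htm⟩ := hex
      have htY := (hs t hts).1
      obtain ⟨n, s', hss, hs'⟩ := split_count s t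
      have hlow : ∀ v ∈ s', v ∈ Y ∧ rk v < m := by
        intro v hv
        obtain ⟨h1, h2⟩ := hs' v hv
        obtain ⟨h3, h4⟩ := hs v h1
        refine ⟨h3, lt_of_le_of_ne (Nat.lt_succ_iff.1 h4) ?_⟩
        rintro h5
        exact h2 (L.inj v h3 t htY (by rw [h5, htm]))
      have hnr : ∀ v ∈ s', ¬ Reach v t := by
        intro v hv hr
        have h1 := L.lt v (hlow v hv).1 t htY hr (hs' v hv).2
        have h2 := (hlow v hv).2
        omega
      rw [hss] at hf
      rcases Lev.cases (X := X) t with ht | ⟨htX, ht⟩ | ⟨htX, ht⟩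
      · obtain ⟨g0, g', hg, f0, f', o1, o2⟩ := hf.split
        obtain ⟨x, y, k0, k1, k2, k3, k4⟩ := f0.exists_fin
        rw [k4] at o1 o2 hg
        apply T0_atom ht (fun i => (k0 i).1) (fun i => (k0 i).2) ⟨k1, k2, k3⟩ f'
          (fun v hv hr => hnr v hv hr.reach) o1 o2 he hee
          (by rw [dsum_def, ← hg]; exact heg) (by rw [dsum_def, ← hg]; exact hge)
        exact fun e2 => ih g' s' hlow f' e2
      · have h1 := expand_replicate (goodQA _) ht (by exact_mod_cast htX) n hf
        refine ih g _ ?_ h1 e he hee heg hge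
        intro v hv
        rcases Multiset.mem_add.1 hv with hv | hv
        · have h2 := L.xs_lt htX (mem_nsmul_xs hv)
          rw [htm] at h2
          exact h2
        · exact hlow v hv
      · obtain ⟨c, hc⟩ := exists_loopAt ht
        obtain ⟨g0, g', hg, f0, f', o1, o2⟩ := hf.split
        obtain ⟨x, y, k0, k1, k2, k3, k4⟩ := f0.exists_fin
        rw [k4] at o1 o2 hg
        apply T0_loop hc (by exact_mod_cast htX) (fun i => (k0 i).1) (fun i => (k0 i).2)
          ⟨k1, k2, k3⟩ f' hnr o1 o2 he hee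
          (by rw [dsum_def, ← hg]; exact heg) (by rw [dsum_def, ← hg]; exact hge)
        intro D g2 e2 hf2 h1 h2 h3 h4
        refine ih g2 _ ?_ hf2 e2 h1 h2 h3 h4
        intro v hv
        rcases Multiset.mem_add.1 hv with hv | hv
        · have h2 := L.xs_lt htX (mem_nsmul_xs hv)
          rw [htm] at h2
          exact h2
        · exact hlow v hv
    · push Not at hex
      refine ih g s ?_ hf e he hee heg hge
      intro v hv
      obtain ⟨h3, h4⟩ := hs v hv
      exact ⟨h3, lt_of_le_of_ne (Nat.lt_succ_iff.1 h4) (hex v hv)⟩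

theorem mk_replicate_nl {t : G.V} (h : Nl t) (n : ℕ) (s : Multiset G.V) :
    mk (Multiset.replicate n t + s) = mk (n • xs t + s) := by
  rw [mk_add, mk_add, mk_nsmul]
  congr 1
  induction n with
  | zero => simp [mk_zero]
  | succ n ih =>
    rw [Multiset.replicate_succ, mk_cons, ih, succ_nsmul, add_comm]
    congr 1
    exact mk_eq'.2 (Mc_nl h)

theorem mk_absorb_loop {t : G.V} (h : IsLoop t) {n : ℕ} (hn : n ≠ 0) (D : ℕ)
    (s : Multiset G.V) : mk (Multiset.replicate n t + (D • xs t + s))
      = mk (Multiset.replicate n t + s) := by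
  have h1 : mk (Multiset.replicate n t + (D • xs t + s))
      = mk (Multiset.replicate n t + s + (Multiset.replicate D t).bind xs) := by
    rw [bind_replicate]
    congr 1
    abel
  rw [h1]
  refine mk_eq'.2 (Mc_absorb_bind fun l hl => ?_)
  rw [Multiset.eq_of_mem_replicate hl]
  refine ⟨h, Rch_of_mem (Multiset.mem_add.2 (Or.inl ?_))⟩
  exact Multiset.mem_replicate.2 ⟨hn, rfl⟩

/-- Two frames of the same idempotent have the same class. -/
theorem T1_main (L : Lev X Y rk) : ∀ (m : ℕ) (e : LPA K G) (a b : Multiset G.V),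
    (∀ v ∈ a, v ∈ Y ∧ rk v < m) → (∀ v ∈ b, v ∈ Y ∧ rk v < m) →
    Fr (QA (LX K (X : Set G.V))) (pp K) e a → Fr (QA (LX K (X : Set G.V))) (pp K) e b →
    mk a = mk b := by
  intro m
  induction m with
  | zero =>
    intro e a b ha hb _ _
    have h1 : a = 0 := by
      rw [Multiset.eq_zero_iff_forall_notMem]
      intro v hv
      exact absurd (ha v hv).2 (Nat.not_lt_zero _)
    have h2 : b = 0 := by
      rw [Multiset.eq_zero_iff_forall_notMem]
      intro v hv
      exact absurd (hb v hv).2 (Nat.not_lt_zero _)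
    rw [h1, h2]
  | succ m ih =>
    intro e a b ha hb hfa hfb
    by_cases hex : ∃ t ∈ Y, rk t = m
    · obtain ⟨t, htY, htm⟩ := hex
      obtain ⟨n, a', haa, ha'⟩ := split_count a t
      obtain ⟨n', b', hbb, hb'⟩ := split_count b t
      have hlowa : ∀ v ∈ a', v ∈ Y ∧ rk v < m := by
        intro v hv
        obtain ⟨h1, h2⟩ := ha' v hv
        obtain ⟨h3, h4⟩ := ha v h1
        refine ⟨h3, lt_of_le_of_ne (Nat.lt_succ_iff.1 h4) ?_⟩
        rintro h5
        exact h2 (L.inj v h3 t htY (by rw [h5, htm]))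
      have hlowb : ∀ v ∈ b', v ∈ Y ∧ rk v < m := by
        intro v hv
        obtain ⟨h1, h2⟩ := hb' v hv
        obtain ⟨h3, h4⟩ := hb v h1
        refine ⟨h3, lt_of_le_of_ne (Nat.lt_succ_iff.1 h4) ?_⟩
        rintro h5
        exact h2 (L.inj v h3 t htY (by rw [h5, htm]))
      have hnra : ∀ v ∈ a', ¬ Reach v t := by
        intro v hv hr
        have h1 := L.lt v (hlowa v hv).1 t htY hr (ha' v hv).2
        have h2 := (hlowa v hv).2
        omega
      have hnrb : ∀ v ∈ b', ¬ Reach v t := by
        intro v hv hr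
        have h1 := L.lt v (hlowb v hv).1 t htY hr (hb' v hv).2
        have h2 := (hlowb v hv).2
        omega
      rw [haa] at hfa
      rw [hbb] at hfb
      rcases Lev.cases (X := X) t with ht | ⟨htX, ht⟩ | ⟨htX, ht⟩
      · obtain ⟨g0, g, hg, f0, f, o1, o2⟩ := hfa.split
        obtain ⟨x, y, k0, k1, k2, k3, k4⟩ := f0.exists_fin
        rw [k4] at o1 o2 hg
        obtain ⟨g0', g', hg', f0', f', o1', o2'⟩ := hfb.split
        obtain ⟨x', y', k0', k1', k2', k3', k4'⟩ := f0'.exists_fin
        rw [k4'] at o1' o2' hg'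
        obtain ⟨h1, h2⟩ := T1_atom ht (fun i => (k0 i).1) (fun i => (k0 i).2) ⟨k1, k2, k3⟩
          (fun i => (k0' i).1) (fun i => (k0' i).2) ⟨k1', k2', k3'⟩ f
          (fun v hv hr => hnra v hv hr.reach) f' (fun v hv hr => hnrb v hv hr.reach) o1 o2 o1' o2'
          (by rw [dsum_def, dsum_def, ← hg, ← hg'])
        subst h1 h2
        rw [haa, hbb, mk_add, mk_add, ih g a' b' hlowa hlowb f f']
      · have h1 := expand_replicate (goodQA _) ht (by exact_mod_cast htX) n hfa
        have h2 := expand_replicate (goodQA _) ht (by exact_mod_cast htX) n' hfb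
        rw [haa, hbb, mk_replicate_nl ht, mk_replicate_nl ht]
        refine ih e _ _ ?_ ?_ h1 h2
        · intro v hv
          rcases Multiset.mem_add.1 hv with hv | hv
          · have h2 := L.xs_lt htX (mem_nsmul_xs hv)
            rw [htm] at h2
            exact h2
          · exact hlowa v hv
        · intro v hv
          rcases Multiset.mem_add.1 hv with hv | hv
          · have h2 := L.xs_lt htX (mem_nsmul_xs hv)
            rw [htm] at h2
            exact h2
          · exact hlowb v hv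
      · obtain ⟨c, hc⟩ := exists_loopAt ht
        obtain ⟨g0, g, hg, f0, f, o1, o2⟩ := hfa.split
        obtain ⟨x, y, k0, k1, k2, k3, k4⟩ := f0.exists_fin
        rw [k4] at o1 o2 hg
        obtain ⟨g0', g', hg', f0', f', o1', o2'⟩ := hfb.split
        obtain ⟨x', y', k0', k1', k2', k3', k4'⟩ := f0'.exists_fin
        rw [k4'] at o1' o2' hg'
        obtain ⟨h1, D, D', e2, h2, h3⟩ := T1_loop hc (by exact_mod_cast htX)
          (fun i => (k0 i).1) (fun i => (k0 i).2) ⟨k1, k2, k3⟩
          (fun i => (k0' i).1) (fun i => (k0' i).2) ⟨k1', k2', k3'⟩ f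
          hnra f' hnrb o1 o2 o1' o2'
          (by rw [dsum_def, dsum_def, ← hg, ← hg'])
        subst h1
        by_cases hn : n = 0
        · subst hn
          have a1 : e = g := by rw [hg]; simp
          have a2 : e = g' := by rw [hg']; simp
          rw [haa, hbb, mk_add, mk_add, ih e a' b' hlowa hlowb (a1 ▸ f) (a2 ▸ f')]
        · rw [haa, hbb, ← mk_absorb_loop ht hn D a', ← mk_absorb_loop ht hn D' b', mk_add,
            mk_add (Multiset.replicate n t)]
          congr 1
          refine ih e2 _ _ ?_ ?_ h2 h3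
          · intro v hv
            rcases Multiset.mem_add.1 hv with hv | hv
            · have h2 := L.xs_lt htX (mem_nsmul_xs hv)
              rw [htm] at h2
              exact h2
            · exact hlowa v hv
          · intro v hv
            rcases Multiset.mem_add.1 hv with hv | hv
            · have h2 := L.xs_lt htX (mem_nsmul_xs hv)
              rw [htm] at h2
              exact h2
            · exact hlowb v hv
    · push Not at hex
      refine ih e a b ?_ ?_ hfa hfb
      · intro v hv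
        obtain ⟨h3, h4⟩ := ha v hv
        exact ⟨h3, lt_of_le_of_ne (Nat.lt_succ_iff.1 h4) (hex v h3)⟩
      · intro v hv
        obtain ⟨h3, h4⟩ := hb v hv
        exact ⟨h3, lt_of_le_of_ne (Nat.lt_succ_iff.1 h4) (hex v h3)⟩

/-! ### frames without restrictions -/

/-- Frames in the whole algebra. -/
def AF (K : Type*) [Field K] {G : Graph} (e : LPA K G) (s : Multiset G.V) : Prop :=
  Fr (fun _ _ => True) (pp K) e s

omit [LoopGraph G] in
theorem AF.level {e : LPA K G} {s : Multiset G.V} (h : AF K e s) : ∃ X : Finset G.V,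
    ∀ X' : Finset G.V, X ⊆ X' → Fr (QA (LX K (X' : Set G.V))) (pp K) e s := by
  classical
  have h' : Fr (fun _ _ => True) (pp K) e s := h
  clear h
  induction h' with
  | zero => exact ⟨∅, fun _ _ => Fr.zero⟩
  | @cons x y e v s h0 h1 h2 h3 h4 h5 h6 ih =>
    obtain ⟨X1, hX1⟩ := ih
    obtain ⟨X2, hX2⟩ := exists_LX x
    obtain ⟨X3, hX3⟩ := exists_LX y
    refine ⟨X1 ∪ X2 ∪ X3, fun X' hX' => ?_⟩
    have i1 : X1 ⊆ X' := fun v hv => hX' (by simp [hv])
    have i2 : X2 ⊆ X' := fun v hv => hX' (by simp [hv])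
    have i3 : X3 ⊆ X' := fun v hv => hX' (by simp [hv])
    exact Fr.cons ⟨LX_mono (by exact_mod_cast i2) hX2, LX_mono (by exact_mod_cast i3) hX3⟩
      h1 h2 h3 h4 h5 (hX1 X' i1)

omit [LoopGraph G] in
theorem goodTrue : GoodQ (K := K) (G := G) (fun _ _ => True) Set.univ :=
  ⟨fun _ _ _ _ _ => trivial, fun _ _ _ _ _ => trivial, fun _ _ _ _ _ _ => trivial, trivial⟩

theorem AF_unique {e : LPA K G} {s t : Multiset G.V} (h : AF K e s) (h' : AF K e t) :
    mk s = mk t := by
  classical
  obtain ⟨X1, hX1⟩ := h.level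
  obtain ⟨X2, hX2⟩ := h'.level
  obtain ⟨Y, rk, hY, L⟩ := exists_lev (X1 ∪ X2) (s.toFinset ∪ t.toFinset)
  set m := Y.sup rk + 1 with hm
  have hlt : ∀ v ∈ Y, rk v < m := fun v hv => Nat.lt_succ_of_le (Finset.le_sup hv)
  refine T1_main L m e s t ?_ ?_ (hX1 _ Finset.subset_union_left) (hX2 _ Finset.subset_union_right)
  · intro v hv
    have : v ∈ Y := hY (by simp [hv])
    exact ⟨this, hlt v this⟩
  · intro v hv
    have : v ∈ Y := hY (by simp [hv])
    exact ⟨this, hlt v this⟩

theorem exists_AF {e : LPA K G} (he : e * e = e) : ∃ s, AF K e s := by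
  classical
  obtain ⟨S1, hS1⟩ := LPA.exists_unit_left e
  obtain ⟨S2, hS2⟩ := LPA.exists_unit_right e
  obtain ⟨X, hX⟩ := exists_LX e
  obtain ⟨Y, rk, hY, L⟩ := exists_lev X (S1 ∪ S2)
  set m := Y.sup rk + 1 with hm
  have hlt : ∀ v ∈ Y, rk v < m := fun v hv => Nat.lt_succ_of_le (Finset.le_sup hv)
  have hg : Fr (QA (LX K (X : Set G.V))) (pp K) (∑ v ∈ S1 ∪ S2, pp K v * pp K v)
      ((S1 ∪ S2).val.map id) := by
    apply Fr.of_finset
    · exact fun v _ => ⟨pp_mem v, pp_mem v⟩
    · exact fun v _ => pp_pp v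
    · exact fun v _ w _ hvw => pp_ne hvw
    · exact fun v _ => pp_pp v
    · exact fun v _ => pp_pp v
  have hsum : ∑ v ∈ S1 ∪ S2, pp K v * pp K v = ∑ v ∈ S1 ∪ S2, pp K v :=
    Finset.sum_congr rfl fun v _ => pp_pp v
  rw [hsum] at hg
  obtain ⟨s, hs⟩ := T0_main L m _ _ (by
    intro v hv
    rw [Multiset.map_id] at hv
    have : v ∈ Y := hY hv
    exact ⟨this, hlt v this⟩) hg e hX he (hS2 _ Finset.subset_union_right)
    (hS1 _ Finset.subset_union_left)
  exact ⟨s, hs.mono fun _ _ _ => trivial⟩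

open Classical in
/-- The class of an idempotent in the graph monoid. -/
noncomputable def cl (e : LPA K G) : MG G :=
  if h : e * e = e then mk (exists_AF h).choose else 0

theorem cl_eq {e : LPA K G} {s : Multiset G.V} (h : AF K e s) : cl e = mk s := by
  have he : e * e = e := Fr.idem h
  rw [cl, dif_pos he]
  exact AF_unique (exists_AF he).choose_spec h

theorem AF_congr {e : LPA K G} {a b : Multiset G.V} (h : mk a = mk b) : AF K e a ↔ AF K e b :=
  Fr_congr goodTrue (mk_eq'.1 h) e

theorem AF_of_cl {e : LPA K G} {s : Multiset G.V} (he : e * e = e) (h : cl e = mk s) :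
    AF K e s := by
  obtain ⟨t, ht⟩ := exists_AF he
  rw [cl_eq ht] at h
  exact (AF_congr h).1 ht

theorem cl_add {e e' : LPA K G} (he : e * e = e) (he' : e' * e' = e') (h1 : e * e' = 0)
    (h2 : e' * e = 0) : cl (e + e') = cl e + cl e' := by
  obtain ⟨s, hs⟩ := exists_AF he
  obtain ⟨t, ht⟩ := exists_AF he'
  rw [cl_eq hs, cl_eq ht, ← mk_add]
  exact cl_eq (Fr.add hs ht h1 h2)

theorem cl_zero : cl (0 : LPA K G) = 0 := cl_eq (Fr.zero)

omit [LoopGraph G] in
theorem AF_pp (v : G.V) : AF K (pp K v) {v} := by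
  have := Fr.single (Q := fun _ _ => True) (p := pp K) (v := v) (x := pp K v) (y := pp K v)
    trivial (pp_pp v) (pp_pp v) (pp_pp v)
  rwa [pp_pp] at this

theorem cl_pp (v : G.V) : cl (pp K v) = mk {v} := cl_eq (AF_pp v)

theorem cl_equiv {x y : LPA K G} (h1 : x * (y * x) = x) (h2 : (y * x) * y = y) :
    cl (x * y) = cl (y * x) := by
  have he : (y * x) * (y * x) = y * x := by rw [← mul_assoc, h2]
  obtain ⟨s, hs⟩ := exists_AF he
  rw [cl_eq hs]
  have h3 : Fr (fun _ _ => True) (pp K) (x * (y * x) * y) s :=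
    Fr.transport (Q' := fun _ _ => True) (w := y) (z := x) hs rfl fun _ _ _ _ _ => trivial
  rw [h1] at h3
  exact cl_eq h3

section iso

variable {H : Graph} [LoopGraph H]

theorem cl_map (φ : LPA K G →ₙₐ[K] LPA K H) {e : LPA K G} {s : Multiset G.V}
    (h : AF K e s) : cl (φ e) = (s.map fun v => cl (φ (pp K v))).sum := by
  have h' : Fr (fun _ _ => True) (pp K) e s := h
  clear h
  induction h' with
  | zero => rw [map_zero, cl_zero]; simp
  | @cons x y e v s h0 h1 h2 h3 h4 h5 h6 ih =>
    have e1 : cl (φ (x * y)) = cl (φ (pp K v)) := by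
      rw [← h1, map_mul, map_mul]
      apply cl_equiv
      · rw [← map_mul, ← map_mul, h1, h2]
      · rw [← map_mul, ← map_mul, h1, h3]
    rw [Multiset.map_cons, Multiset.sum_cons, ← ih, ← e1, map_add]
    apply cl_add
    · rw [← map_mul]
      congr 1
      rw [mul_assoc, ← mul_assoc y x y, h1, h3]
    · rw [← map_mul, h6.idem]
    · rw [← map_mul, mul_assoc, h5, mul_zero, map_zero]
    · rw [← map_mul, ← mul_assoc, h4, zero_mul, map_zero]

/-- The homomorphism of graph monoids given by an algebra homomorphism. -/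
noncomputable def clHom (φ : LPA K G →ₙₐ[K] LPA K H) : MG G →+ MG H :=
  AddCon.lift (Mc G)
    { toFun := fun s => (s.map fun v => cl (φ (pp K v))).sum
      map_zero' := by simp
      map_add' := fun s t => by rw [Multiset.map_add, Multiset.sum_add] } (by
    apply AddCon.addConGen_le.2
    intro a b hab
    rw [AddCon.ker_rel]
    show (a.map fun v => cl (φ (pp K v))).sum = (b.map fun v => cl (φ (pp K v))).sum
    cases hab with
    | nl v hv =>
      rw [← cl_map φ (AF_pp v), ← cl_map φ ((AF_congr (mk_eq'.2 (Mc_nl hv))).1 (AF_pp v))]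
    | lp v hv =>
      rw [← cl_map φ (AF_pp v), ← cl_map φ ((AF_congr (mk_eq'.2 (Mc_lp hv))).1 (AF_pp v))])

theorem clHom_mk (φ : LPA K G →ₙₐ[K] LPA K H) (s : Multiset G.V) :
    clHom φ (mk s) = (s.map fun v => cl (φ (pp K v))).sum := rfl

theorem clHom_cl (φ : LPA K G →ₙₐ[K] LPA K H) {e : LPA K G} (he : e * e = e) :
    clHom φ (cl e) = cl (φ e) := by
  obtain ⟨s, hs⟩ := exists_AF he
  rw [cl_eq hs, clHom_mk, cl_map φ hs]

theorem clHom_comp (φ : LPA K G →ₙₐ[K] LPA K H) (ψ : LPA K H →ₙₐ[K] LPA K G)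
    (h : ∀ a, ψ (φ a) = a) (m : MG G) : clHom ψ (clHom φ m) = m := by
  obtain ⟨s, rfl⟩ := mk_surj m
  induction s using Multiset.induction_on with
  | empty => rw [mk_zero, map_zero, map_zero]
  | cons v s ih =>
    rw [mk_cons, map_add, map_add, ih]
    congr 1
    rw [← cl_pp (K := K), clHom_cl φ (pp_pp v), clHom_cl ψ (by rw [← map_mul, pp_pp]), h]

/-- The isomorphism of graph monoids given by an algebra isomorphism. -/
noncomputable def clIso (φ : LPA K G →ₙₐ[K] LPA K H) (ψ : LPA K H →ₙₐ[K] LPA K G)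
    (h : ∀ a, ψ (φ a) = a) (h' : ∀ a, φ (ψ a) = a) : MG G ≃+ MG H :=
  { clHom φ with
    invFun := clHom ψ
    left_inv := clHom_comp φ ψ h
    right_inv := clHom_comp ψ φ h' }

theorem clIso_cl (φ : LPA K G →ₙₐ[K] LPA K H) (ψ : LPA K H →ₙₐ[K] LPA K G)
    (h : ∀ a, ψ (φ a) = a) (h' : ∀ a, φ (ψ a) = a) {e : LPA K G} (he : e * e = e) :
    clIso φ ψ h h' (cl e) = cl (φ e) := clHom_cl φ he

end iso

end Run7.h19
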