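import Pool.Agent.Run7.h19.Pres

/-!
# The isomorphism of graph monoids induced by an algebra isomorphism respects loops (helper19)
-/

namespace Run7.h19

open Pool.Agent.Helper665_GA LoopGraph Polynomial

section

variable {G G' : Graph} [LoopGraph G] [LoopGraph G']

/-- The class of a loop without exits is irreducible. -/
theorem irr_loop {i : G.V} (hi : IsLoop i) (hx : xs i = 0) {m m' : MG G}
    (h : mk {i} = m + m') : m = 0 ∨ m' = 0 := by
  obtain ⟨a, rfl⟩ := mk_surj m
  obtain ⟨b, rfl⟩ := mk_surj m'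
  rw [← mk_add, mk_eq] at h
  obtain ⟨t, t', ht, ht', W, hW⟩ := h
  have h1 : t.bind xs = 0 := by
    rw [Multiset.eq_zero_iff_forall_notMem]
    intro w hw
    rw [Multiset.mem_bind] at hw
    obtain ⟨l, hl, hw⟩ := hw
    have h2 := (ht l hl).2
    rw [Rch_singleton] at h2
    have h3 : i = l := by
      by_contra hne
      obtain ⟨u, hu, -⟩ := exists_xs h2 hne
      rw [hx] at hu
      simp at hu
    rw [← h3, hx] at hw
    simp at hw
  rw [h1, add_zero, ExM_singleton, Ex_not (not_isRes_loop hi), ExM_add, ExM_add] at hW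
  have hc := congrArg Multiset.card hW
  rw [Multiset.card_singleton, Multiset.card_add, Multiset.card_add] at hc
  by_cases ha : a = 0
  · left; rw [ha, mk_zero]
  · right
    have h5 : ExM W a ≠ 0 := fun h6 => ha (ExM_eq_zero h6)
    have h6 : 0 < Multiset.card (ExM W a) := Multiset.card_pos.2 h5
    have h7 : Multiset.card (ExM W b) = 0 := by omega
    rw [ExM_eq_zero (Multiset.card_eq_zero.1 h7), mk_zero]

theorem irr_singleton {m : MG G} (h0 : m ≠ 0)
    (hm : ∀ a b : MG G, m = a + b → a = 0 ∨ b = 0) {s : Multiset G.V} (hs : m = mk s) :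
    ∃ v, s = {v} := by
  obtain ⟨v, hv⟩ : ∃ v, v ∈ s := by
    by_contra hne
    push Not at hne
    apply h0
    rw [hs, Multiset.eq_zero_iff_forall_notMem.2 hne, mk_zero]
  obtain ⟨s', rfl⟩ := Multiset.exists_cons_of_mem hv
  rw [mk_cons] at hs
  rcases hm _ _ hs with h | h
  · exact absurd (mk_eq_zero h) (Multiset.singleton_ne_zero v)
  · exact ⟨v, by rw [mk_eq_zero h]; rfl⟩

variable {K : Type*} [Field K]

/-- An irreducible vertex carrying a non scalar corner comes from a loop without exits. -/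
theorem exists_loop_of_corner {X Y : Finset G.V} {rk : G.V → ℕ} (L : Lev X Y rk) {e c : LPA K G}
    (hc : c ∈ LX K (X : Set G.V)) (hec : e * c = c) (hce : c * e = c)
    (hne : ∀ r : K, c ≠ r • e) : ∀ (m : ℕ) (t : G.V), t ∈ Y → rk t < m →
    (∀ a b : MG G, mk {t} = a + b → a = 0 ∨ b = 0) → Fr (QA (LX K (X : Set G.V))) (pp K) e {t} →
    ∃ k, IsLoop k ∧ xs k = 0 ∧ mk {t} = mk {k} := by
  intro m
  induction m with
  | zero => intro t _ h; omega
  | succ m ih =>
    intro t htY hlt hirr hf
    have h0 : mk {t} ≠ (0 : MG G) := fun h => Multiset.singleton_ne_zero t (mk_eq_zero h)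
    rcases Lev.cases (X := X) t with h1 | ⟨h1, h2⟩ | ⟨h1, h2⟩
    · exfalso
      obtain ⟨x, y, ⟨hx, hy⟩, g1, g2, g3, g4⟩ := hf.of_singleton
      obtain ⟨r, hr⟩ := atom_self h1 (a := y * c * x) (mul_mem (mul_mem hy hc) hx)
      apply hne r
      have e1 : pp K t * (y * c * x) * pp K t = y * c * x := by
        have : pp K t * (y * c * x) * pp K t = (pp K t * y) * c * (x * pp K t) := by noncomm_ring
        rw [this, g2, g3]
      rw [e1] at hr
      calc c = e * c * e := by rw [hec, hce]
        _ = x * y * c * (x * y) := by rw [g4]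
        _ = x * (y * c * x) * y := by noncomm_ring
        _ = x * (r • pp K t) * y := by rw [hr]
        _ = r • (x * pp K t * y) := by rw [mul_smul_comm, smul_mul_assoc]
        _ = r • e := by rw [g2, g4]
    · obtain ⟨w, hw⟩ := irr_singleton h0 hirr (mk_eq'.2 (Mc_nl h2))
      have hw1 : mk {t} = mk {w} := by rw [← hw]; exact mk_eq'.2 (Mc_nl h2)
      have h3 : w ∈ xs t := by rw [hw]; exact Multiset.mem_singleton_self w
      obtain ⟨h4, h5⟩ := L.xs_lt h1 h3
      have hf' := expand_nl (s := 0) (goodQA (X : Set G.V)) h2 h1 hf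
      rw [hw, add_zero] at hf'
      obtain ⟨k, k1, k2, k3⟩ := ih w h4 (by omega) (by rw [← hw1]; exact hirr) hf'
      exact ⟨k, k1, k2, hw1.trans k3⟩
    · refine ⟨t, h2, ?_, rfl⟩
      rcases hirr (mk {t}) (mk (xs t)) (by rw [← mk_add]; exact mk_eq'.2 (Mc_lp h2)) with h | h
      · exact absurd h h0
      · exact mk_eq_zero h

end

variable {K : Type*} [Field K] [StarRing K]
  {A : Type*} [NonUnitalRing A] [StarRing A] [Module K A]
  [IsScalarTower K A A] [SMulCommClass K A A] [StarModule K A]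
  {B : Type*} [NonUnitalRing B] [StarRing B] [Module K B]
  [IsScalarTower K B B] [SMulCommClass K B B] [StarModule K B]
  {G G' : Graph} [LoopGraph G] [LoopGraph G']
  {X : Set G.V} {j : A →⋆ₙₐ[K] LPA K G}
  {X' : Set G'.V} {j' : B →⋆ₙₐ[K] LPA K G'}

namespace Pres

theorem corr (h : Pres G X j) (h' : Pres G' X' j') (φ : A →ₙₐ[K] B) (ψ : B →ₙₐ[K] A)
    (hφ : ∀ a, ψ (φ a) = a) (hψ : ∀ b, φ (ψ b) = b) : Corr (h.iso h' φ ψ hφ hψ) := by
  classical
  intro i hi
  set f := h.iso h' φ ψ hφ hψ with hf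
  by_cases hx : xs i = 0
  swap
  · obtain ⟨k, h1, -, h3, h4⟩ := loop_corr f hi hx
    exact ⟨k, h1, h3, h4⟩
  have h0 : mk {i} ≠ (0 : MG G) := fun h => Multiset.singleton_ne_zero i (mk_eq_zero h)
  have hf0 : f (mk {i}) ≠ 0 := fun h => h0 ((map_eq_zero_iff f f.injective).1 h)
  have hirr : ∀ a b : MG G', f (mk {i}) = a + b → a = 0 ∨ b = 0 := by
    intro a b hab
    have h1 : mk {i} = f.symm a + f.symm b := by
      rw [← map_add, ← hab, f.symm_apply_apply]
    rcases irr_loop hi hx h1 with h2 | h2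
    · exact Or.inl ((map_eq_zero_iff f.symm f.symm.injective).1 h2)
    · exact Or.inr ((map_eq_zero_iff f.symm f.symm.injective).1 h2)
  obtain ⟨s, hs⟩ := mk_surj (f (mk {i}))
  obtain ⟨t, rfl⟩ := irr_singleton hf0 hirr hs.symm
  obtain ⟨c, hc⟩ := exists_loopAt hi
  -- the elements of the corner
  obtain ⟨γ, u, hu, g1, g2, g3, g4⟩ := (h.exists_r i).choose_spec
  have g2' : j (h.r i) = γ * star γ := g2
  have g5 : star γ * pp K u = star γ := by
    conv_lhs => rw [← star_pp, ← star_mul, g1]
  have g6 : pp K i * star γ = star γ := by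
    conv_lhs => rw [← star_pp, ← star_mul, g4]
  obtain ⟨cA, hcA⟩ := h.cor {u} (γ * ss K c * star γ) (by simpa using hu)
    (by rw [Finset.sum_singleton, ← mul_assoc, ← mul_assoc, g1])
    (by rw [Finset.sum_singleton, mul_assoc, g5])
  have hcl : cl (j' (φ (h.r i))) = mk {t} := by
    have h1 := h.iso_cl h' φ ψ hφ hψ (h.r_idem i)
    rw [cl_eq (h.AF_r i)] at h1
    rw [← h1, hs]
  have hid : j' (φ (h.r i)) * j' (φ (h.r i)) = j' (φ (h.r i)) := by
    rw [← map_mul, ← map_mul, h.r_idem]
  have hAF : AF K (j' (φ (h.r i))) {t} := AF_of_cl hid hcl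
  obtain ⟨X1, hX1⟩ := hAF.level
  obtain ⟨X2, hX2⟩ := exists_LX (j' (φ cA))
  obtain ⟨Y, rk, hY, L⟩ := exists_lev (X1 ∪ X2) {t}
  have hrc : h.r i * cA = cA := by
    apply h.inj
    rw [map_mul, g2', hcA]
    have : γ * star γ * (γ * ss K c * star γ) = γ * ((star γ * γ) * ss K c) * star γ := by
      noncomm_ring
    rw [this, g3, hc.inCor.pc]
  have hcr : cA * h.r i = cA := by
    apply h.inj
    rw [map_mul, g2', hcA]
    have : γ * ss K c * star γ * (γ * star γ) = γ * (ss K c * (star γ * γ)) * star γ := by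
      noncomm_ring
    rw [this, g3, hc.inCor.cp]
  obtain ⟨k, k1, k2, k3⟩ := exists_loop_of_corner L (e := j' (φ (h.r i))) (c := j' (φ cA))
    (LX_mono (by exact_mod_cast Finset.subset_union_right) hX2)
    (by rw [← map_mul, ← map_mul, hrc]) (by rw [← map_mul, ← map_mul, hcr]) (by
      intro r hr
      have h1 : cA = r • h.r i := by
        have h2 : φ cA = φ (r • h.r i) := h'.inj (by rw [hr, map_smul, map_smul])
        rw [← hφ cA, h2, hφ]
      have h2 : ss K c = r • pp K i := by
        have h3 : star γ * (j cA) * γ = star γ * (j (r • h.r i)) * γ := by rw [h1]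
        rw [hcA, map_smul, g2'] at h3
        have e1 : star γ * (γ * ss K c * star γ) * γ = (star γ * γ) * ss K c * (star γ * γ) := by
          noncomm_ring
        have e2 : star γ * (r • (γ * star γ)) * γ = r • ((star γ * γ) * (star γ * γ)) := by
          rw [mul_smul_comm, smul_mul_assoc]; congr 1; noncomm_ring
        rw [e1, e2, g3, hc.inCor.pc, hc.inCor.cp, pp_pp] at h3
        exact h3
      have h4 : evp K (pp K i) (ss K c) Polynomial.X = evp K (pp K i) (ss K c) (C r) := by
        rw [evp_X hc.inCor, evp_C, h2]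
      have h5 := evp_injective hc h4
      have h6 := congrArg (fun p => Polynomial.coeff p 1) h5
      simp at h6) (rk t + 1) t (hY (Finset.mem_singleton_self t))
    (by omega) (by rw [hs]; exact hirr) (hX1 _ Finset.subset_union_left)
  refine ⟨k, k1, ?_, 0, ?_, by simp⟩
  · rw [hx, k2, mk_zero, mk_zero, map_zero]
  · rw [← hs, k3, mk_zero, add_zero]

end Pres

end Run7.h19
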