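import Pool.Agent.Run7.h19.StarHom

/-!
# Row-finite graphs with disjoint cycles (helper19)
-/

namespace Run7.h19

open Pool.Agent.Helper665_GA

/-- The edge lies on a cycle. -/
def Cyc {D : Graph} (e : D.E) : Prop := Relation.ReflTransGen D.Adj (D.rng e) (D.src e)

/-- Row-finite graphs with disjoint cycles. -/
class DisjGraph (D : Graph) where
  /-- the edges emitted by a vertex -/
  outD : D.V → Finset D.E
  mem_outD : ∀ v e, e ∈ outD v ↔ D.src e = v
  disj : ∀ e f : D.E, D.src e = D.src f → Cyc e → Cyc f → e = f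

open DisjGraph

variable {D : Graph}

/-- The vertex lies on a cycle. -/
def IsCyc (v : D.V) : Prop := ∃ e : D.E, D.src e = v ∧ Cyc e

open Classical in
/-- The next vertex on the cycle. -/
noncomputable def nxt (v : D.V) : D.V := if h : IsCyc v then D.rng h.choose else v

theorem nxt_of {v : D.V} (h : IsCyc v) : nxt v = D.rng h.choose := dif_pos h

theorem nxt_not {v : D.V} (h : ¬ IsCyc v) : nxt v = v := dif_neg h

theorem adj_nxt {v : D.V} (h : IsCyc v) : D.Adj v (nxt v) :=
  ⟨h.choose, h.choose_spec.1, (nxt_of h).symm⟩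

theorem reach_nxt (v : D.V) : Reach v (nxt v) := by
  by_cases h : IsCyc v
  · exact Relation.ReflTransGen.single (adj_nxt h)
  · rw [nxt_not h]

theorem nxt_reach (v : D.V) : Reach (nxt v) v := by
  by_cases h : IsCyc v
  · have h1 := h.choose_spec.2
    rw [Cyc, h.choose_spec.1] at h1
    rw [nxt_of h]
    exact h1
  · rw [nxt_not h]

theorem isCyc_of_reach {v w : D.V} (h1 : Reach v w) (h2 : Reach w v) (hne : v ≠ w) :
    IsCyc v := by
  induction h1 using Relation.ReflTransGen.head_induction_on with
  | refl => exact absurd rfl hne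
  | head h3 h4 _ =>
    obtain ⟨e, rfl, rfl⟩ := h3
    exact ⟨e, rfl, h4.trans h2⟩

theorem isCyc_nxt {v : D.V} (h : IsCyc v) : IsCyc (nxt v) := by
  by_cases h1 : nxt v = v
  · rw [h1]; exact h
  · exact isCyc_of_reach (nxt_reach v) (reach_nxt v) h1

theorem isCyc_iter {v : D.V} (h : IsCyc v) (i : ℕ) : IsCyc (nxt^[i] v) := by
  induction i generalizing v with
  | zero => exact h
  | succ i ih => rw [Function.iterate_succ_apply]; exact ih (isCyc_nxt h)

theorem reach_iter (v : D.V) (i : ℕ) : Reach v (nxt^[i] v) := by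
  induction i generalizing v with
  | zero => exact Relation.ReflTransGen.refl
  | succ i ih => rw [Function.iterate_succ_apply]; exact (reach_nxt v).trans (ih _)

theorem iter_reach (v : D.V) (i : ℕ) : Reach (nxt^[i] v) v := by
  induction i generalizing v with
  | zero => exact Relation.ReflTransGen.refl
  | succ i ih => rw [Function.iterate_succ_apply]; exact (ih _).trans (nxt_reach v)

/-- Mutual reachability. -/
def mrSetoid (D : Graph) : Setoid D.V where
  r v w := Reach v w ∧ Reach w v
  iseqv := ⟨fun _ => ⟨Relation.ReflTransGen.refl, Relation.ReflTransGen.refl⟩,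
    fun h => ⟨h.2, h.1⟩, fun h h' => ⟨h.1.trans h'.1, h'.2.trans h.2⟩⟩

/-- The chosen vertex in the class of a vertex. -/
noncomputable def base (v : D.V) : D.V := (Quotient.mk (mrSetoid D) v).out

theorem base_spec (v : D.V) : Reach (base v) v ∧ Reach v (base v) := by
  have : (mrSetoid D).r (base v) v := Quotient.mk_out (s := mrSetoid D) v
  exact this

theorem base_eq {v w : D.V} (h1 : Reach v w) (h2 : Reach w v) : base v = base w := by
  have : Quotient.mk (mrSetoid D) v = Quotient.mk (mrSetoid D) w :=
    Quotient.sound (s := mrSetoid D) ⟨h1, h2⟩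
  rw [base, base, this]

theorem base_nxt (v : D.V) : base (nxt v) = base v := base_eq (nxt_reach v) (reach_nxt v)

theorem base_not {v : D.V} (h : ¬ IsCyc v) : base v = v := by
  by_contra hne
  exact h (isCyc_of_reach (base_spec v).2 (base_spec v).1 (Ne.symm hne))

variable [DisjGraph D]

theorem eq_choose {v : D.V} (h : IsCyc v) {e : D.E} (h1 : D.src e = v) (h2 : Cyc e) :
    e = h.choose :=
  disj e h.choose (h1.trans h.choose_spec.1.symm) h2 h.choose_spec.2

theorem exists_iter {v w : D.V} (h1 : Reach v w) (h2 : Reach w v) : ∃ i, nxt^[i] v = w := by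
  induction h1 using Relation.ReflTransGen.head_induction_on with
  | refl => exact ⟨0, rfl⟩
  | @head a c h3 h4 ih =>
    obtain ⟨e, rfl, rfl⟩ := h3
    have h5 : Cyc e := h4.trans h2
    have h6 : IsCyc (D.src e) := ⟨e, rfl, h5⟩
    have h7 : nxt (D.src e) = D.rng e := by
      rw [nxt_of h6, ← eq_choose h6 rfl h5]
    obtain ⟨i, hi⟩ := ih (h2.trans (Reach.edge e))
    exact ⟨i + 1, by rw [Function.iterate_succ_apply, h7, hi]⟩

theorem exists_ln (v : D.V) : ∃ i, nxt^[i + 1] v = base v := by
  obtain ⟨i, hi⟩ := exists_iter ((nxt_reach v).trans (base_spec v).2)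
    ((base_spec v).1.trans (reach_nxt v))
  exact ⟨i, by rw [Function.iterate_succ_apply, hi]⟩

open Classical in
/-- The number of steps to the chosen vertex. -/
noncomputable def ln (v : D.V) : ℕ := Nat.find (exists_ln v)

theorem ln_spec (v : D.V) : nxt^[ln v + 1] v = base v := by
  classical
  exact Nat.find_spec (exists_ln v)

theorem ln_succ {v : D.V} (h : nxt v ≠ base v) : ln v = ln (nxt v) + 1 := by
  classical
  apply le_antisymm
  · apply Nat.find_min' (exists_ln v)
    rw [Function.iterate_succ_apply, ln_spec, base_nxt]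
  · have h1 := ln_spec v
    rcases hm : ln v with _ | m
    · rw [hm] at h1; exact absurd h1 h
    · rw [hm, Function.iterate_succ_apply] at h1
      have h2 : ln (nxt v) ≤ m := Nat.find_min' (exists_ln (nxt v)) (by rw [base_nxt, h1])
      omega

theorem ln_zero {v : D.V} (h : nxt v = base v) : ln v = 0 := by
  classical
  exact Nat.le_zero.1 (Nat.find_min' (exists_ln v) h)

theorem ln_not {v : D.V} (h : ¬ IsCyc v) : ln v = 0 :=
  ln_zero (by rw [nxt_not h, base_not h])

open Classical in
/-- The edges emitted by `v` which do not lie on cycles. -/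
noncomputable def nex (v : D.V) : Finset D.E := (outD v).filter fun e => ¬ Cyc e

theorem mem_nex {v : D.V} {e : D.E} : e ∈ nex v ↔ D.src e = v ∧ ¬ Cyc e := by
  classical
  rw [nex, Finset.mem_filter, mem_outD]

/-- The edges of the normalised graph. -/
abbrev NE (D : Graph) [DisjGraph D] : Type :=
  (Σ v : D.V, Σ i : Fin (ln v + 1), {g : D.E // g ∈ nex (nxt^[(i : ℕ)] v)}) ⊕
    {v : D.V // IsCyc v}

/-- The normalised graph: the edges are the paths which follow the cycle and leave it, and the
paths along the cycle to the chosen vertex. -/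
noncomputable def norm (D : Graph) [DisjGraph D] : Graph where
  V := D.V
  E := NE D
  src e := match e with
    | Sum.inl x => x.1
    | Sum.inr v => v.1
  rng e := match e with
    | Sum.inl x => D.rng x.2.2.1
    | Sum.inr v => base v.1

/-- The edges which follow the cycle and leave it. -/
noncomputable def eInl (v : D.V) : (Σ i : Fin (ln v + 1), {g : D.E // g ∈ nex (nxt^[(i : ℕ)] v)}) ↪
    (norm D).E :=
  ⟨fun x => (Sum.inl ⟨v, x⟩ : NE D), fun x y h => by
    have h1 : (⟨v, x⟩ : Σ v : D.V, Σ i : Fin (ln v + 1), {g : D.E // g ∈ nex (nxt^[(i : ℕ)] v)})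
        = ⟨v, y⟩ := Sum.inl_injective h
    exact eq_of_heq (Sigma.mk.inj h1).2⟩

open Classical in
/-- The edges emitted by a vertex of the normalised graph. -/
noncomputable def outN (v : D.V) : Finset (norm D).E :=
  (Finset.univ.map (eInl v)).disjUnion
    (if h : IsCyc v then {(Sum.inr ⟨v, h⟩ : NE D)} else ∅) (by
      rw [Finset.disjoint_left]
      intro e he he'
      rw [Finset.mem_map] at he
      obtain ⟨x, -, rfl⟩ := he
      split_ifs at he' with h
      · have h1 : (eInl v x : NE D) = Sum.inr ⟨v, h⟩ := Finset.mem_singleton.1 he'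
        exact absurd h1 Sum.inl_ne_inr
      · simp at he')

theorem mem_outN (v : D.V) (e : (norm D).E) : e ∈ outN v ↔ (norm D).src e = v := by
  classical
  rw [outN, Finset.mem_disjUnion, Finset.mem_map]
  constructor
  · rintro (⟨x, -, rfl⟩ | h)
    · rfl
    · split_ifs at h with h'
      · have h1 : (e : NE D) = Sum.inr ⟨v, h'⟩ := Finset.mem_singleton.1 h
        rw [h1]; rfl
      · simp at h
  · intro h
    rcases e with ⟨w, x⟩ | ⟨w, hw⟩
    · have h1 : w = v := h
      subst h1
      exact Or.inl ⟨x, Finset.mem_univ _, rfl⟩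
    · have h1 : w = v := h
      subst h1
      right
      rw [dif_pos hw]
      exact Finset.mem_singleton_self _

theorem adj_norm {v w : D.V} (h : (norm D).Adj v w) : Reach v w ∧ (Reach w v → w = base v) := by
  obtain ⟨e, h1, h2⟩ := h
  rcases e with ⟨u, i, g, hg⟩ | ⟨u, hu⟩
  · have h3 : u = v := h1
    have h4 : D.rng g = w := h2
    subst h3 h4
    rw [mem_nex] at hg
    refine ⟨(reach_iter u i).trans (by rw [← hg.1]; exact Reach.edge g), fun h5 => ?_⟩
    exfalso
    apply hg.2
    rw [Cyc, hg.1]
    exact h5.trans (reach_iter u i)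
  · have h3 : u = v := h1
    have h4 : base u = w := h2
    subst h3 h4
    exact ⟨(base_spec u).2, fun _ => rfl⟩

theorem reach_norm {v w : D.V} (h : Relation.ReflTransGen (norm D).Adj v w) :
    v = w ∨ (Reach v w ∧ (Reach w v → w = base v)) := by
  induction h with
  | refl => exact Or.inl rfl
  | @tail u w h1 h2 ih =>
    right
    obtain ⟨h3, h4⟩ := adj_norm h2
    rcases ih with rfl | ⟨h5, h6⟩
    · exact ⟨h3, h4⟩
    · refine ⟨h5.trans h3, fun h7 => ?_⟩
      rw [h4 (h7.trans h5), base_eq (h3.trans h7) h5]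

noncomputable instance instNorm : LoopGraph (norm D) where
  out := outN (D := D)
  mem_out v e := mem_outN (D := D) v e
  antisymm v w h1 h2 := by
    rcases reach_norm h1 with h3 | ⟨h3, h4⟩
    · exact h3
    · rcases reach_norm h2 with h5 | ⟨h5, h6⟩
      · exact h5.symm
      · exact (h6 h3).trans ((base_eq h5 h3).trans (h4 h5).symm)
  loop_unique e f h1 h2 h3 := by
    have key : ∀ e : (norm D).E, (norm D).rng e = (norm D).src e →
        ∃ h : @IsCyc D ((norm D).src e), e = (Sum.inr ⟨(norm D).src e, h⟩ : NE D) := by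
      intro e he
      rcases e with ⟨u, i, g, hg⟩ | ⟨u, hu⟩
      · exfalso
        have h4 : D.rng g = u := he
        rw [mem_nex] at hg
        apply hg.2
        rw [Cyc, hg.1, h4]
        exact reach_iter u i
      · exact ⟨hu, rfl⟩
    obtain ⟨k1, k2⟩ := key e h1
    obtain ⟨k3, k4⟩ := key f h2
    rw [k2, k4]
    congr 1
    exact Subtype.ext h3

end Run7.h19
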