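import Pool.Agent.Run7.h19.SFrames

/-!
# Honest pairs (helper19)
-/

namespace Run7.h19

open Pool.Agent.Helper665_GA LoopGraph

variable {K : Type*} [Field K] [StarRing K] {G : Graph} [LoopGraph G]

/-- A projection together with an isometry which looks like a loop. -/
structure Honest (P C : LPA K G) (k : G.V) (c : G.E) : Prop where
  ofH ::
  loop : LoopAt k c
  cor : InCor P C
  isom : star C * C = P
  frame : ∃ (x0 P' : LPA K G) (y : Multiset G.V), P = x0 * star x0 + P' ∧
    star x0 * x0 = pp K k ∧ x0 * pp K k = x0 ∧ P' * x0 = 0 ∧ SF K P' y ∧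
    (∀ v ∈ y, Rch (xs k) v) ∧
    ∃ N, C * x0 * pw (pp K k) (ss K c) N = x0 * pw (pp K k) (ss K c) (N + 1)
  pure : ∀ v, Rch (xs k) v → ∀ a, ∃ N, pw P (star C) N * a * pp K v = 0
  defect : SF K (P - C * star C) (xs k)

omit [LoopGraph G] in
theorem exists_path_elt {u v : G.V} (h : Reach u v) : ∃ γ : LPA K G, star γ * γ = pp K v ∧
    pp K u * γ = γ ∧ γ * pp K v = γ := by
  induction h with
  | refl => exact ⟨pp K u, by rw [star_pp, pp_pp], pp_pp u, pp_pp u⟩
  | tail h1 h2 ih =>
    obtain ⟨γ, g1, g2, g3⟩ := ih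
    obtain ⟨e, rfl, rfl⟩ := h2
    refine ⟨γ * ss K e, ?_, ?_, ?_⟩
    · rw [star_mul, star_ss, mul_assoc, ← mul_assoc (star γ), g1, pp_ss, tt_ss_self]
    · rw [← mul_assoc, g2]
    · rw [mul_assoc, ss_pp]

variable {k : G.V} {c : G.E}

omit [LoopGraph G] [StarRing K] in
theorem defect_idem (h : LoopAt k c) : (pp K k - ss K c * tt K c) * (pp K k - ss K c * tt K c)
    = pp K k - ss K c * tt K c := by
  have e1 : (pp K k - ss K c * tt K c) * (pp K k - ss K c * tt K c)
      = pp K k * pp K k - (pp K k * ss K c) * tt K c - ss K c * (tt K c * pp K k)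
        + ss K c * (tt K c * ss K c) * tt K c := by noncomm_ring
  rw [e1, pp_pp, h.inCor.pc, h.inCor'.cp, h.tt_mul_ss, h.inCor.cp]; abel

omit [LoopGraph G] in
theorem defect_star (c : G.E) : star (pp K k - ss K c * tt K c)
    = pp K k - ss K c * tt K c := by
  rw [star_sub, star_pp, star_mul, star_ss, star_tt]

/-- The path through an exit. -/
theorem exists_exit_elt (h : LoopAt k c) {v : G.V} (hv : Rch (xs k) v) :
    ∃ γ : LPA K G, star γ * γ = pp K v ∧ (pp K k - ss K c * tt K c) * γ = γ ∧
      γ * pp K v = γ := by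
  obtain ⟨u, hu, huv⟩ := hv
  obtain ⟨e, he1, he2, he3⟩ := mem_xs.1 hu
  obtain ⟨γ, g1, g2, g3⟩ := exists_path_elt (K := K) huv
  subst he2
  have hce : c ≠ e := by rintro rfl; exact he3 h.rng
  refine ⟨ss K e * γ, ?_, ?_, by rw [mul_assoc, g3]⟩
  · rw [star_mul, star_ss, mul_assoc, ← mul_assoc (tt K e), tt_ss_self, g2, g1]
  · have e1 : (pp K k - ss K c * tt K c) * (ss K e * γ)
        = (pp K k * ss K e) * γ - ss K c * (tt K c * ss K e) * γ := by noncomm_ring
    rw [e1, tt_ss_ne hce, ← he1, pp_ss]; simp

omit [LoopGraph G] in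
theorem kill_low_star (h : LoopAt k c) {v : G.V} (hv : ¬ Reach v k) (a : LPA K G) :
    ∃ N, pw (pp K k) (tt K c) N * a * pp K v = 0 := by
  obtain ⟨N, hN⟩ := kill_low (K := K) h hv (star a)
  refine ⟨N, ?_⟩
  have h1 := congrArg star hN
  rw [star_zero, star_mul, star_mul, star_star, star_pp, pw_star (star_pp k) h.inCor,
    star_ss, ← mul_assoc] at h1
  exact h1

/-- The data constructed by induction. -/
def Hon0 (P C w : LPA K G) (k : G.V) (c : G.E) : Prop :=
  InCor P C ∧ star C * C = P ∧ (∃ (x0 P' : LPA K G) (y : Multiset G.V), P = x0 * star x0 + P' ∧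
    star x0 * x0 = pp K k ∧ x0 * pp K k = x0 ∧ P' * x0 = 0 ∧ SF K P' y ∧
    (∀ v ∈ y, Rch (xs k) v) ∧
    ∃ N, C * x0 * pw (pp K k) (ss K c) N = x0 * pw (pp K k) (ss K c) (N + 1)) ∧
  (∀ v, Rch (xs k) v → ∀ a, ∃ N, pw P (star C) N * a * pp K v = 0) ∧
  star w * w = pp K k - ss K c * tt K c ∧ w * star w = P - C * star C ∧ star C * w = 0 ∧
    P * w = w

theorem hon0_base (h : LoopAt k c) {x0 : LPA K G} (h1 : star x0 * x0 = pp K k)
    (h2 : x0 * pp K k = x0) :
    Hon0 (x0 * star x0) (x0 * ss K c * star x0) (x0 * (pp K k - ss K c * tt K c)) k c := by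
  have h3 : pp K k * star x0 = star x0 := by
    conv_lhs => rw [← star_pp, ← star_mul, h2]
  have hC : star (x0 * ss K c * star x0) = x0 * tt K c * star x0 := by
    rw [star_mul, star_mul, star_star, star_ss, mul_assoc]
  refine ⟨⟨?_, ?_, ?_⟩, ?_, ⟨x0, 0, 0, ?_, h1, h2, zero_mul _, Fr.zero, by simp, 0, ?_⟩, ?_, ?_,
    ?_, ?_, ?_⟩
  · rw [mul_assoc, ← mul_assoc (star x0), h1, ← mul_assoc, h2]
  · have e1 : x0 * star x0 * (x0 * ss K c * star x0)
        = x0 * ((star x0 * x0) * ss K c) * star x0 := by noncomm_ring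
    rw [e1, h1, h.inCor.pc]
  · have e1 : x0 * ss K c * star x0 * (x0 * star x0)
        = x0 * (ss K c * (star x0 * x0)) * star x0 := by noncomm_ring
    rw [e1, h1, h.inCor.cp]
  · rw [hC]
    have e1 : x0 * tt K c * star x0 * (x0 * ss K c * star x0)
        = x0 * (tt K c * (star x0 * x0) * ss K c) * star x0 := by noncomm_ring
    rw [e1, h1, h.inCor'.cp, h.tt_mul_ss, h2]
  · rw [add_zero]
  · rw [pw_zero, zero_add, pw_one h.inCor]
    have e1 : x0 * ss K c * star x0 * x0 * pp K k
        = x0 * (ss K c * ((star x0 * x0) * pp K k)) := by noncomm_ring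
    rw [e1, h1, pp_pp, h.inCor.cp]
  · intro v hv a
    have hv' : ¬ Reach v k := fun hr => not_Rch_xs_self k (hv.trans hr)
    have hpw : ∀ n, pw (x0 * star x0) (star (x0 * ss K c * star x0)) n
        = x0 * pw (pp K k) (tt K c) n * star x0 := by
      intro n
      induction n with
      | zero => rw [pw_zero, pw_zero, h2]
      | succ n ih =>
        rw [pw_succ, ih, hC, pw_succ]
        have e1 : x0 * pw (pp K k) (tt K c) n * star x0 * (x0 * tt K c * star x0)
            = x0 * (pw (pp K k) (tt K c) n * (star x0 * x0) * tt K c) * star x0 := by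
          noncomm_ring
        rw [e1, h1, pw_p h.inCor']
    obtain ⟨N, hN⟩ := kill_low_star (K := K) h hv' (star x0 * a)
    refine ⟨N, ?_⟩
    rw [hpw]
    have e1 : x0 * pw (pp K k) (tt K c) N * star x0 * a * pp K v
        = x0 * (pw (pp K k) (tt K c) N * (star x0 * a) * pp K v) := by noncomm_ring
    rw [e1, hN, mul_zero]
  · rw [star_mul, defect_star]
    have e1 : (pp K k - ss K c * tt K c) * star x0 * (x0 * (pp K k - ss K c * tt K c))
        = (pp K k - ss K c * tt K c) * ((star x0 * x0) * (pp K k - ss K c * tt K c)) := by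
      noncomm_ring
    have e2 : pp K k * (pp K k - ss K c * tt K c) = pp K k - ss K c * tt K c := by
      rw [mul_sub, pp_pp, ← mul_assoc, h.inCor.pc]
    rw [e1, h1, e2, defect_idem h]
  · rw [star_mul, defect_star, hC]
    have e1 : x0 * (pp K k - ss K c * tt K c) * ((pp K k - ss K c * tt K c) * star x0)
        = x0 * ((pp K k - ss K c * tt K c) * (pp K k - ss K c * tt K c)) * star x0 := by
      noncomm_ring
    have e2 : x0 * ss K c * star x0 * (x0 * tt K c * star x0)
        = x0 * (ss K c * ((star x0 * x0) * tt K c)) * star x0 := by noncomm_ring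
    rw [e1, defect_idem h, e2, h1, h.inCor'.pc]
    have e3 : x0 * (pp K k - ss K c * tt K c) * star x0
        = (x0 * pp K k) * star x0 - x0 * (ss K c * tt K c) * star x0 := by noncomm_ring
    rw [e3, h2]
  · rw [hC]
    have e1 : x0 * tt K c * star x0 * (x0 * (pp K k - ss K c * tt K c))
        = x0 * (tt K c * (star x0 * x0) * pp K k
          - (tt K c * (star x0 * x0) * ss K c) * tt K c) := by noncomm_ring
    rw [e1, h1, h.inCor'.cp, h.inCor'.cp, h.tt_mul_ss, h.inCor'.pc, sub_self, mul_zero]
  · rw [← mul_assoc, mul_assoc x0 (star x0), h1, h2]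

theorem hon0_step {P' C' w' : LPA K G} (h0 : Hon0 P' C' w' k c)
    {v : G.V} {x : LPA K G} (hx1 : star x * x = pp K v) (hx2 : x * pp K v = x)
    (hPx : P' * x = 0) {γ : LPA K G} (hγ1 : star γ * γ = pp K v)
    (hγ2 : (pp K k - ss K c * tt K c) * γ = γ) (hγ3 : γ * pp K v = γ) (hvk : Rch (xs k) v) :
    Hon0 (x * star x + P') (C' + w' * γ * star x)
      (w' * (pp K k - ss K c * tt K c - γ * star γ) + x * star γ) k c := by
  obtain ⟨hcor, hCC, ⟨x0, P0, y0, f1, f2, f3, f4, f5, f6, N0, f7⟩, hpure, o1, o2, o3, o4⟩ := h0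
  set D0 := pp K k - ss K c * tt K c with hD0
  have hD0s : star D0 = D0 := defect_star c
  have sP' : star P' = P' := by rw [← hCC, star_mul, star_star]
  have hxP : star x * P' = 0 := by rw [← star_star (star x * P'), star_mul, star_star, sP', hPx,
    star_zero]
  have hγ4 : star γ * D0 = star γ := by
    rw [← star_star (star γ * D0), star_mul, star_star, hD0s, hγ2]
  have hγ5 : pp K v * star γ = star γ := by
    conv_lhs => rw [← star_pp, ← star_mul, hγ3]
  have hx3 : pp K v * star x = star x := by
    conv_lhs => rw [← star_pp, ← star_mul, hx2]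
  have hxw : star x * w' = 0 := by rw [← o4, ← mul_assoc, hxP, zero_mul]
  have hwx : star w' * x = 0 := by
    rw [← star_star (star w' * x), star_mul, star_star, hxw, star_zero]
  have hC'x : C' * x = 0 := by rw [← hcor.cp, mul_assoc, hPx, mul_zero]
  have hxC' : star x * C' = 0 := by rw [← hcor.pc, ← mul_assoc, hxP, zero_mul]
  have hsC'x : star C' * x = 0 := by
    rw [← star_star (star C' * x), star_mul, star_star, hxC', star_zero]
  have hxsC' : star x * star C' = 0 := by rw [← star_mul, hC'x, star_zero]
  have hsC'P : star C' * P' = star C' := by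
    conv_lhs => rw [← sP', ← star_mul, hcor.pc]
  have hPsC' : P' * star C' = star C' := by
    conv_lhs => rw [← sP', ← star_mul, hcor.cp]
  have hwP : star w' * P' = star w' := by
    conv_lhs => rw [← sP', ← star_mul, o4]
  have hwC' : star w' * C' = 0 := by
    rw [← star_star (star w' * C'), star_mul, star_star, o3, star_zero]
  have hwD : w' * D0 = w' := by
    rw [← o1, ← mul_assoc, o2, sub_mul, o4, mul_assoc, o3, mul_zero, sub_zero]
  have hDw : D0 * star w' = star w' := by
    rw [← hD0s, ← star_mul, hwD]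
  set β := w' * γ * star x with hβ
  have hsβ : star β = x * star γ * star w' := by
    rw [hβ, star_mul, star_mul, star_star, mul_assoc]
  have b1 : star C' * β = 0 := by
    have : star C' * β = (star C' * w') * γ * star x := by rw [hβ]; noncomm_ring
    rw [this, o3, zero_mul, zero_mul]
  have b2 : star β * C' = 0 := by
    rw [← star_star (star β * C'), star_mul, star_star, b1, star_zero]
  have b3 : star β * β = x * star x := by
    rw [hsβ, hβ]
    have : x * star γ * star w' * (w' * γ * star x)
        = x * (star γ * (star w' * w') * γ) * star x := by noncomm_ring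
    rw [this, o1, hγ4, hγ1, hx2]
  have b4 : C' * star β = 0 := by
    rw [hsβ, ← mul_assoc, ← mul_assoc, hC'x, zero_mul, zero_mul]
  have b5 : β * star C' = 0 := by
    rw [← star_star (β * star C'), star_mul, star_star, b4, star_zero]
  have b6 : β * star β = w' * γ * star γ * star w' := by
    rw [hsβ, hβ]
    have : w' * γ * star x * (x * star γ * star w')
        = w' * γ * ((star x * x) * star γ) * star w' := by noncomm_ring
    rw [this, hx1, hγ5]
  have b7 : P' * β = β := by
    rw [hβ, ← mul_assoc, ← mul_assoc, o4]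
  have b8 : β * P' = 0 := by rw [hβ, mul_assoc, hxP, mul_zero]
  have b9 : star x * β = 0 := by
    rw [hβ, ← mul_assoc, ← mul_assoc, hxw, zero_mul, zero_mul]
  have b10 : β * x = w' * γ := by
    rw [hβ, mul_assoc, hx1, mul_assoc, hγ3]
  refine ⟨⟨?_, ?_, ?_⟩, ?_, ⟨x0, x * star x + P0, v ::ₘ y0, ?_, f2, f3, ?_, ?_, ?_, N0, ?_⟩, ?_,
    ?_, ?_, ?_, ?_⟩
  · have : (x * star x + P') * (x * star x + P')
        = x * (star x * x) * star x + x * (star x * P') + P' * x * star x + P' * P' := by
      noncomm_ring
    rw [this, hx1, hx2, hxP, hPx, hcor.pp]; simp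
  · have : (x * star x + P') * (C' + β)
        = x * (star x * C') + x * (star x * β) + P' * C' + P' * β := by noncomm_ring
    rw [this, hxC', b9, hcor.pc, b7]; simp
  · have : (C' + β) * (x * star x + P')
        = C' * x * star x + C' * P' + β * x * star x + β * P' := by noncomm_ring
    rw [this, hC'x, hcor.cp, b10, b8]
    rw [← hβ]; simp
  · rw [star_add, add_mul, mul_add, mul_add, hCC, b1, b2, b3]; abel
  · rw [f1]; abel
  · have e1 : star x * x0 = 0 := by
      have : P' * x0 = x0 := by
        rw [f1, add_mul, f4, mul_assoc, f2, f3, add_zero]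
      rw [← this, ← mul_assoc, hxP, zero_mul]
    rw [add_mul, f4, mul_assoc, e1]; simp
  · have i1 := f5.idem
    have e1 : P0 * P' = P0 := by
      rw [f1, mul_add, i1, ← mul_assoc, f4, zero_mul, zero_add]
    have e2 : P0 * x = 0 := by rw [← e1, mul_assoc, hPx, mul_zero]
    have sP0 : star P0 = P0 := f5.star_eq
    have e3 : star x * P0 = 0 := by
      rw [← star_star (star x * P0), star_mul, star_star, sP0, e2, star_zero]
    exact Fr.cons (Q := QSt) rfl hx1 hx2 hx3 e2 e3 f5
  · intro w hw
    rcases Multiset.mem_cons.1 hw with rfl | hw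
    · exact hvk
    · exact f6 w hw
  · have e1 : star x * x0 = 0 := by
      have : P' * x0 = x0 := by
        rw [f1, add_mul, f4, mul_assoc, f2, f3, add_zero]
      rw [← this, ← mul_assoc, hxP, zero_mul]
    have e2 : β * x0 = 0 := by rw [hβ, mul_assoc, e1, mul_zero]
    rw [add_mul, e2, add_zero, f7]
  · intro u hu a
    have hsCx : star (C' + β) * x = 0 := by
      rw [star_add, add_mul, hsC'x, hsβ, zero_add, mul_assoc, hwx, mul_zero]
    have hcor' : InCor (x * star x + P') (star (C' + β)) := by
      apply InCor.star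
      · rw [star_add, star_mul, star_star, sP']
      · refine ⟨?_, ?_, ?_⟩
        · have : (x * star x + P') * (x * star x + P')
            = x * (star x * x) * star x + x * (star x * P') + P' * x * star x + P' * P' := by
            noncomm_ring
          rw [this, hx1, hx2, hxP, hPx, hcor.pp]; simp
        · have : (x * star x + P') * (C' + β)
            = x * (star x * C') + x * (star x * β) + P' * C' + P' * β := by noncomm_ring
          rw [this, hxC', b9, hcor.pc, b7]; simp
        · have : (C' + β) * (x * star x + P')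
            = C' * x * star x + C' * P' + β * x * star x + β * P' := by noncomm_ring
          rw [this, hC'x, hcor.cp, b10, b8]
          rw [← hβ]; simp
    have hcor'' : InCor P' (star C') := hcor.star sP'
    have hpw : ∀ n, pw (x * star x + P') (star (C' + β)) (n + 1)
        = pw P' (star C') (n + 1) + x * star γ * star w' * pw P' (star C') n := by
      intro n
      induction n with
      | zero =>
        rw [zero_add, pw_one hcor', pw_one hcor'', star_add, hsβ, pw_zero, mul_assoc _ (star w'),
          hwP]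
      | succ n ih =>
        rw [pw_succ' hcor', ih, mul_add]
        have e1 : star (C' + β) * (x * star γ * star w' * pw P' (star C') n) = 0 := by
          have : star (C' + β) * (x * star γ * star w' * pw P' (star C') n)
              = (star (C' + β) * x) * (star γ * star w' * pw P' (star C') n) := by noncomm_ring
          rw [this, hsCx, zero_mul]
        rw [e1, add_zero, star_add, add_mul, ← pw_succ' hcor'', hsβ]
    obtain ⟨N, hN⟩ := hpure u hu a
    refine ⟨N + 1, ?_⟩
    rw [hpw, add_mul, add_mul]
    have e1 : pw P' (star C') (N + 1) * a * pp K u = 0 := by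
      rw [pw_succ' hcor'', mul_assoc, mul_assoc, ← mul_assoc (pw _ _ _), hN, mul_zero]
    have e2 : x * star γ * star w' * pw P' (star C') N * a * pp K u
        = x * star γ * star w' * (pw P' (star C') N * a * pp K u) := by noncomm_ring
    rw [e1, e2, hN]; simp
  · have hs : star (w' * (D0 - γ * star γ) + x * star γ)
        = (D0 - γ * star γ) * star w' + γ * star x := by
      rw [star_add, star_mul, star_mul, star_sub, star_mul, star_star, hD0s]
    rw [hs]
    have e1 : ((D0 - γ * star γ) * star w' + γ * star x)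
        * (w' * (D0 - γ * star γ) + x * star γ)
        = (D0 - γ * star γ) * ((star w' * w') * (D0 - γ * star γ))
          + (D0 - γ * star γ) * (star w' * x) * star γ
          + γ * (star x * w') * (D0 - γ * star γ) + γ * (star x * x) * star γ := by
      noncomm_ring
    have e2 : D0 * (D0 - γ * star γ) = D0 - γ * star γ := by
      rw [mul_sub, ← mul_assoc, hγ2]
      congr 1
      have hidem : D0 * D0 = D0 := by
        have hloop : InCor (pp K k) (ss K c) ∨ True := Or.inr trivial
        have : D0 * D0 = star w' * (w' * D0) := by rw [← o1]; noncomm_ring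
        rw [this, hwD, o1]
      exact hidem
    have e3 : (D0 - γ * star γ) * (D0 - γ * star γ) = D0 - γ * star γ := by
      rw [sub_mul, e2]
      have : γ * star γ * (D0 - γ * star γ) = γ * (star γ * D0 - (star γ * γ) * star γ) := by
        noncomm_ring
      rw [this, hγ4, hγ1, hγ5, sub_self, mul_zero, sub_zero]
    rw [e1, o1, e2, e3, hwx, hxw, hx1, hγ3]
    simp only [mul_zero, zero_mul, add_zero, sub_add_cancel]
    exact hD0
  · have hs : star (w' * (D0 - γ * star γ) + x * star γ)
        = (D0 - γ * star γ) * star w' + γ * star x := by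
      rw [star_add, star_mul, star_mul, star_sub, star_mul, star_star, hD0s]
    rw [hs]
    have e1 : (w' * (D0 - γ * star γ) + x * star γ)
        * ((D0 - γ * star γ) * star w' + γ * star x)
        = w' * ((D0 - γ * star γ) * (D0 - γ * star γ)) * star w'
          + w' * (D0 * γ - γ * (star γ * γ)) * star x
          + x * (star γ * D0 - (star γ * γ) * star γ) * star w'
          + x * (star γ * γ) * star x := by noncomm_ring
    have e2 : D0 * (D0 - γ * star γ) = D0 - γ * star γ := by
      rw [mul_sub, ← mul_assoc, hγ2]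
      congr 1
      have : D0 * D0 = star w' * (w' * D0) := by rw [← o1]; noncomm_ring
      rw [this, hwD, o1]
    have e3 : (D0 - γ * star γ) * (D0 - γ * star γ) = D0 - γ * star γ := by
      rw [sub_mul, e2]
      have : γ * star γ * (D0 - γ * star γ) = γ * (star γ * D0 - (star γ * γ) * star γ) := by
        noncomm_ring
      rw [this, hγ4, hγ1, hγ5, sub_self, mul_zero, sub_zero]
    rw [e1, e3, hγ2, hγ1, hγ3, hγ4, hγ5, hx2, sub_self, sub_self, star_add, mul_add, add_mul,
      add_mul, b4, b5, b6]
    have e4 : w' * (D0 - γ * star γ) * star w' = w' * star w' - w' * γ * star γ * star w' := by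
      have : w' * (D0 - γ * star γ) * star w'
          = (w' * D0) * star w' - w' * γ * star γ * star w' := by noncomm_ring
      rw [this, hwD]
    rw [e4, o2]
    simp only [mul_zero, zero_mul, add_zero, zero_add]
    abel
  · rw [star_add, hsβ]
    have e1 : (star C' + x * star γ * star w') * (w' * (D0 - γ * star γ) + x * star γ)
        = (star C' * w') * (D0 - γ * star γ) + (star C' * x) * star γ
          + x * (star γ * ((star w' * w') * D0) - (star γ * (star w' * w')) * γ * star γ)
          + x * star γ * (star w' * x) * star γ := by noncomm_ring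
    have hidem : D0 * D0 = D0 := by
      have : D0 * D0 = star w' * (w' * D0) := by rw [← o1]; noncomm_ring
      rw [this, hwD, o1]
    rw [e1, o3, hsC'x, o1, hidem, hγ4, hγ1, hγ5, hwx]; simp
  · have e1 : (x * star x + P') * (w' * (D0 - γ * star γ) + x * star γ)
        = x * (star x * w') * (D0 - γ * star γ) + x * ((star x * x) * star γ)
          + (P' * w') * (D0 - γ * star γ) + (P' * x) * star γ := by noncomm_ring
    rw [e1, hxw, hx1, hγ5, o4, hPx]; simp [add_comm]

/-- Existence of honest pairs. -/
theorem exists_hon0 (h : LoopAt k c) : ∀ (y : Multiset G.V) (P : LPA K G),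
    SF K P (k ::ₘ y) → (∀ v ∈ y, Rch (xs k) v) → ∃ C w, Hon0 P C w k c := by
  intro y
  induction y using Multiset.induction_on with
  | empty =>
    intro P hP _
    obtain ⟨x, z, g0, g1, g2, g3, g4⟩ := Fr.of_singleton (hP : Fr QSt (pp K) P {k})
    rw [QSt] at g0
    subst g0
    rw [g4]
    exact ⟨_, _, hon0_base h g1 g2⟩
  | cons v y ih =>
    intro P hP hy
    obtain ⟨x, z, P', g0, g1, g2, g3, g4, g5, g6, g7⟩ :=
      Fr.inv (hP : Fr QSt (pp K) P (k ::ₘ v ::ₘ y)) (Multiset.cons_swap k v y)
    rw [QSt] at g0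
    subst g0
    obtain ⟨C', w', h'⟩ := ih P' g6 fun u hu => hy u (Multiset.mem_cons_of_mem hu)
    have hv := hy v (Multiset.mem_cons_self v y)
    obtain ⟨γ, hγ1, hγ2, hγ3⟩ := exists_exit_elt (K := K) h hv
    rw [g7]
    exact ⟨_, _, hon0_step h' g1 g2 g4 hγ1 hγ2 hγ3 hv⟩

theorem SF_defect (h : LoopAt k c) : SF K (pp K k - ss K c * tt K c) (xs k) := by
  have h1 := fr_exits (K := K) (goodSt (G := G)) (Set.mem_univ k) (x := pp K k) (y := pp K k)
    (star_pp k).symm (pp_pp k)
  rw [← loop_defect h] at h1
  have e1 : pp K k * (pp K k - ss K c * tt K c) * pp K k = pp K k - ss K c * tt K c := by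
    rw [mul_sub, sub_mul, pp_pp, pp_pp, ← mul_assoc, h.inCor.pc, mul_assoc, h.inCor'.cp]
  rwa [e1] at h1

omit [LoopGraph G] in
theorem w_mul_D {P C w D : LPA K G} (h5 : star w * w = D) (h6 : w * star w = P - C * star C)
    (h7 : star C * w = 0) (h8 : P * w = w) : w * D = w := by
  rw [← h5, ← mul_assoc, h6, sub_mul, h8, mul_assoc, h7, mul_zero, sub_zero]

theorem exists_honest (h : LoopAt k c) {y : Multiset G.V} {P : LPA K G}
    (hP : SF K P (k ::ₘ y)) (hy : ∀ v ∈ y, Rch (xs k) v) : ∃ C, Honest P C k c := by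
  obtain ⟨C, w, h1, h2, h3, h4, h5, h6, h7, h8⟩ := exists_hon0 h y P hP hy
  refine ⟨C, h, h1, h2, h3, h4, ?_⟩
  have h9 := Fr.transport_star' (x := w) (SF_defect (K := K) h) h5
    (w_mul_D h5 h6 h7 h8)
  rw [h6] at h9
  exact h9

/-- The canonical honest pair of a copy of a loop. -/
theorem honest_copy (h : LoopAt k c) {x0 : LPA K G} (h1 : star x0 * x0 = pp K k)
    (h2 : x0 * pp K k = x0) : Honest (x0 * star x0) (x0 * ss K c * star x0) k c := by
  obtain ⟨g1, g2, g3, g4, g5, g6, g7, g8⟩ := hon0_base h h1 h2
  refine ⟨h, g1, g2, g3, g4, ?_⟩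
  have h9 := Fr.transport_star' (SF_defect (K := K) h) g5
    (w_mul_D g5 g6 g7 g8)
  rw [g6] at h9
  exact h9

end Run7.h19
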