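import Pool.Agent.Run7.h19.Cycl
import Pool.Agent.Run7.h19.Honest

/-!
# Disjointness of cycles is an algebraic invariant (helper19)
-/

namespace Run7.h19

open Pool.Agent.Helper665_GA LoopGraph

variable {G : Graph} [LoopGraph G]

theorem dbl_zero {m c : MG G} (h : m = m + m + c) : m = 0 := by
  classical
  obtain ⟨a, rfl⟩ := mk_surj m
  obtain ⟨b, rfl⟩ := mk_surj c
  rw [← mk_add, ← mk_add, mk_eq] at h
  obtain ⟨t, t', h1, h2, W, hW⟩ := h
  by_contra hne
  have ha : a ≠ 0 := by rintro rfl; exact hne mk_zero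
  have hA : ExM W a ≠ 0 := fun h => ha (ExM_eq_zero h)
  obtain ⟨k, hk, hmax⟩ := exists_max hA
  have h3 : k ∉ ExM W (t.bind xs) := by
    intro hk'
    have h4 := Rch_of_mem_ExM hk'
    rw [Rch_bind] at h4
    obtain ⟨l, hl, h5⟩ := h4
    obtain ⟨h6, h7⟩ := h1 l hl
    obtain ⟨v, hv, h8⟩ := Rch_ExM (W := W) h6 h7
    have h9 := Rch_xs.1 h5
    have h10 := hmax v hv (h8.trans h9.1)
    subst h10
    exact h9.2 (antisymm _ _ h9.1 h8)
  have h4 := congrArg (Multiset.count k) hW
  rw [ExM_add, ExM_add, ExM_add, ExM_add, Multiset.count_add, Multiset.count_add,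
    Multiset.count_add, Multiset.count_add, Multiset.count_eq_zero.2 h3] at h4
  have h5 : 0 < Multiset.count k (ExM W a) := Multiset.count_pos.2 hk
  omega

variable {K : Type*} [Field K]

theorem eq_zero_of_cl {e : LPA K G} (he : e * e = e) (h : cl e = 0) : e = 0 := by
  obtain ⟨s, hs⟩ := exists_AF he
  rw [cl_eq hs] at h
  have h1 := mk_eq_zero h
  subst h1
  exact hs.of_zero

/-- An idempotent which contains two orthogonal copies of itself vanishes. -/
theorem no_double {p x1 y1 x2 y2 : LPA K G} (h1 : y1 * x1 = p) (h2 : y2 * x2 = p)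
    (h3 : p * x1 = x1) (h3' : x1 * p = x1) (h4 : p * x2 = x2) (h4' : x2 * p = x2)
    (h5 : y1 * p = y1) (h5' : p * y1 = y1) (h6 : y2 * p = y2) (h6' : p * y2 = y2)
    (h7 : y1 * x2 = 0) (h8 : y2 * x1 = 0) : p = 0 := by
  have hp : p * p = p := by rw [← h1, mul_assoc, ← mul_assoc x1, mul_assoc x1, h1, h3', h1]
  have c1 : cl (x1 * y1) = cl p := by
    rw [cl_equiv (by rw [h1, h3']) (by rw [h1, h5']), h1]
  have c2 : cl (x2 * y2) = cl p := by
    rw [cl_equiv (by rw [h2, h4']) (by rw [h2, h6']), h2]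
  have e1 : (x1 * y1) * (x1 * y1) = x1 * y1 := by
    rw [mul_assoc, ← mul_assoc y1, h1, h5']
  have e2 : (x2 * y2) * (x2 * y2) = x2 * y2 := by
    rw [mul_assoc, ← mul_assoc y2, h2, h6']
  have e12 : (x1 * y1) * (x2 * y2) = 0 := by
    rw [mul_assoc, ← mul_assoc y1, h7, zero_mul, mul_zero]
  have e21 : (x2 * y2) * (x1 * y1) = 0 := by
    rw [mul_assoc, ← mul_assoc y2, h8, zero_mul, mul_zero]
  have p1 : p * (x1 * y1) = x1 * y1 := by rw [← mul_assoc, h3]
  have p1' : (x1 * y1) * p = x1 * y1 := by rw [mul_assoc, h5]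
  have p2 : p * (x2 * y2) = x2 * y2 := by rw [← mul_assoc, h4]
  have p2' : (x2 * y2) * p = x2 * y2 := by rw [mul_assoc, h6]
  generalize x1 * y1 = a at *
  generalize x2 * y2 = b at *
  have d1 : cl p = cl a + cl (p - a) := by
    rw [← cl_add e1 (by rw [mul_sub, sub_mul, sub_mul, hp, p1, p1', e1]; abel)
      (by rw [mul_sub, p1', e1, sub_self]) (by rw [sub_mul, p1, e1, sub_self])]
    congr 1; abel
  have d2 : cl (p - a) = cl b + cl (p - a - b) := by
    rw [← cl_add e2 (by
        simp only [mul_sub, sub_mul, hp, p1, p1', p2, p2', e1, e2, e12, e21]; abel)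
      (by simp only [mul_sub, p2', e21, e2]; abel)
      (by simp only [sub_mul, p2, e12, e2]; abel)]
    congr 1; abel
  have d3 : cl p = 0 := dbl_zero (m := cl p) (c := cl (p - a - b)) (by
    conv_lhs => rw [d1, d2, c1, c2]
    rw [add_assoc])
  exact eq_zero_of_cl hp d3

variable [StarRing K]

/-- If the algebra of a graph embeds in the algebra of a loop graph, then its cycles are
disjoint. -/
theorem disj_of_injective {F : Graph} (φ : LPA K F →ₙₐ[K] LPA K G) (hφ : Function.Injective φ)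
    (e f : F.E) (h : F.src e = F.src f) (he : Cyc e) (hf : Cyc f) : e = f := by
  by_contra hne
  obtain ⟨γ, g1, g2, g3⟩ := exists_path_elt (K := K) he
  obtain ⟨δ, d1, d2, d3⟩ := exists_path_elt (K := K) hf
  have sg : star γ * pp K (F.rng e) = star γ := by
    conv_lhs => rw [← star_pp, ← star_mul, g2]
  have sd : star δ * pp K (F.rng f) = star δ := by
    conv_lhs => rw [← star_pp, ← star_mul, d2]
  have k1 : star (ss K e * γ) * (ss K e * γ) = pp K (F.src e) := by
    rw [star_mul, star_ss, mul_assoc, ← mul_assoc (tt K e), tt_ss_self, g2, g1]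
  have k2 : star (ss K f * δ) * (ss K f * δ) = pp K (F.src e) := by
    rw [star_mul, star_ss, mul_assoc, ← mul_assoc (tt K f), tt_ss_self, d2, d1, h]
  have k3 : star (ss K e * γ) * (ss K f * δ) = 0 := by
    rw [star_mul, star_ss, mul_assoc, ← mul_assoc (tt K e), tt_ss_ne hne, zero_mul, mul_zero]
  have k4 : star (ss K f * δ) * (ss K e * γ) = 0 := by
    rw [star_mul, star_ss, mul_assoc, ← mul_assoc (tt K f), tt_ss_ne (Ne.symm hne), zero_mul,
      mul_zero]
  have k5 : pp K (F.src e) * (ss K e * γ) = ss K e * γ := by rw [← mul_assoc, pp_ss]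
  have k6 : (ss K e * γ) * pp K (F.src e) = ss K e * γ := by rw [mul_assoc, g3]
  have k7 : pp K (F.src e) * (ss K f * δ) = ss K f * δ := by rw [h, ← mul_assoc, pp_ss]
  have k8 : (ss K f * δ) * pp K (F.src e) = ss K f * δ := by rw [h, mul_assoc, d3]
  have tr : ∀ {a b : LPA K F}, a * b = a → φ a * φ b = φ a := by
    intro a b hab; rw [← map_mul, hab]
  have sp : ∀ {a : LPA K F}, pp K (F.src e) * a = a → star a * pp K (F.src e) = star a := by
    intro a ha
    conv_lhs => rw [← star_pp, ← star_mul, ha]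
  have sp' : ∀ {a : LPA K F}, a * pp K (F.src e) = a → pp K (F.src e) * star a = star a := by
    intro a ha
    conv_lhs => rw [← star_pp, ← star_mul, ha]
  have h0 : φ (pp K (F.src e)) = 0 :=
    no_double (x1 := φ (ss K e * γ)) (y1 := φ (star (ss K e * γ))) (x2 := φ (ss K f * δ))
      (y2 := φ (star (ss K f * δ))) (by rw [← map_mul, k1]) (by rw [← map_mul, k2])
      (by rw [← map_mul, k5]) (by rw [← map_mul, k6]) (by rw [← map_mul, k7])
      (by rw [← map_mul, k8]) (by rw [← map_mul, sp k5]) (by rw [← map_mul, sp' k6])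
      (by rw [← map_mul, sp k7]) (by rw [← map_mul, sp' k8])
      (by rw [← map_mul, k3, map_zero]) (by rw [← map_mul, k4, map_zero])
  exact LPA.p_ne_zero (K := K) (F.src e) (hφ (by rw [map_zero]; exact h0))

end Run7.h19
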