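import Pool.Agent.Run7.h19.Norm

/-!
# Removing infinite emitters (helper19)
-/

namespace Run7.h19

open Pool.Agent.Helper665_GA

/-- The vertex emits infinitely many edges. -/
def InfE {Γ : Graph} (v : Γ.V) : Prop := {e | Γ.src e = v}.Infinite

/-- Graphs with disjoint cycles and a numbering of the edges of every infinite emitter. -/
class NumGraph (Γ : Graph) where
  /-- the number of an edge -/
  idx : Γ.E → ℕ
  idx_zero : ∀ e, ¬ InfE (Γ.src e) → idx e = 0
  idx_inj : ∀ e f, InfE (Γ.src e) → Γ.src e = Γ.src f → idx e = idx f → e = f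
  dj : ∀ e f : Γ.E, Γ.src e = Γ.src f → Cyc e → Cyc f → e = f

theorem exists_numGraph (Γ : Graph) [Countable Γ.E]
    (h : ∀ e f : Γ.E, Γ.src e = Γ.src f → Cyc e → Cyc f → e = f) : Nonempty (NumGraph Γ) := by
  classical
  obtain ⟨g, hg⟩ := exists_injective_nat Γ.E
  exact ⟨{ idx := fun e => if InfE (Γ.src e) then g e else 0
           idx_zero := fun e he => if_neg he
           idx_inj := fun e f he hef hi => by
             rw [if_pos he, if_pos (hef ▸ he)] at hi
             exact hg hi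
           dj := h }⟩

open NumGraph

variable {Γ : Graph} [NumGraph Γ]

theorem idx_ok (e : Γ.E) : idx e = 0 ∨ InfE (Γ.src e) := by
  by_cases h : InfE (Γ.src e)
  · exact Or.inr h
  · exact Or.inl (idx_zero e h)

/-- Every infinite emitter is replaced by an infinite path. -/
def dsg (Γ : Graph) [NumGraph Γ] : Graph where
  V := {x : Γ.V × ℕ // x.2 = 0 ∨ InfE x.1}
  E := Γ.E ⊕ ({v : Γ.V // InfE v} × ℕ)
  src e := match e with
    | Sum.inl e => ⟨(Γ.src e, idx e), idx_ok e⟩
    | Sum.inr x => ⟨(x.1.1, x.2), Or.inr x.1.2⟩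
  rng e := match e with
    | Sum.inl e => ⟨(Γ.rng e, 0), Or.inl rfl⟩
    | Sum.inr x => ⟨(x.1.1, x.2 + 1), Or.inr x.1.2⟩

/-- the vertices of the new graph -/
def dv (v : Γ.V) (n : ℕ) (h : n = 0 ∨ InfE v) : (dsg Γ).V := ⟨(v, n), h⟩

/-- the old vertices -/
def d0 (v : Γ.V) : (dsg Γ).V := dv v 0 (Or.inl rfl)

/-- the old edges -/
def de (e : Γ.E) : (dsg Γ).E := Sum.inl e

/-- the new edges -/
def df (v : Γ.V) (h : InfE v) (n : ℕ) : (dsg Γ).E := Sum.inr (⟨v, h⟩, n)

theorem src_de (e : Γ.E) : (dsg Γ).src (de e) = dv (Γ.src e) (idx e) (idx_ok e) := rfl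
theorem rng_de (e : Γ.E) : (dsg Γ).rng (de e) = d0 (Γ.rng e) := rfl
theorem src_df (v : Γ.V) (h : InfE v) (n : ℕ) : (dsg Γ).src (df v h n) = dv v n (Or.inr h) := rfl
theorem rng_df (v : Γ.V) (h : InfE v) (n : ℕ) :
    (dsg Γ).rng (df v h n) = dv v (n + 1) (Or.inr h) := rfl

theorem dE_cases {P : (dsg Γ).E → Prop} (h1 : ∀ e, P (de e)) (h2 : ∀ v h n, P (df v h n))
    (e : (dsg Γ).E) : P e := by
  rcases e with e | ⟨⟨v, h⟩, n⟩
  · exact h1 e
  · exact h2 v h n

theorem dV_cases {P : (dsg Γ).V → Prop} (h1 : ∀ v n h, P (dv v n h)) (x : (dsg Γ).V) : P x := by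
  obtain ⟨⟨v, n⟩, h⟩ := x
  exact h1 v n h

theorem dv_inj {v w : Γ.V} {n m : ℕ} {h h'} (hvw : (dv v n h : (dsg Γ).V) = dv w m h') :
    v = w ∧ n = m := by
  have := congrArg Subtype.val hvw
  exact Prod.ext_iff.1 this

theorem finite_src_dsg (x : (dsg Γ).V) : {e | (dsg Γ).src e = x}.Finite := by
  classical
  induction x using dV_cases with
  | h1 v n h =>
    have h1 : {e : (dsg Γ).E | (dsg Γ).src e = dv v n h} ⊆
        (de '' {e : Γ.E | Γ.src e = v ∧ idx e = n}) ∪
          (if h : InfE v then {df v h n} else ∅) := by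
      intro e he
      induction e using dE_cases with
      | h1 e =>
        left
        have h2 := dv_inj (he : dv _ _ _ = dv _ _ _)
        exact ⟨e, h2, rfl⟩
      | h2 w h' m =>
        right
        obtain ⟨rfl, rfl⟩ := dv_inj (he : dv _ _ _ = dv _ _ _)
        rw [dif_pos h']
        rfl
    refine Set.Finite.subset (Set.Finite.union (Set.Finite.image _ ?_) ?_) h1
    · by_cases hv : InfE v
      · apply Set.Subsingleton.finite
        rintro e ⟨rfl, he⟩ f ⟨h2, hf⟩
        exact idx_inj e f hv h2.symm (he.trans hf.symm)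
      · exact (Set.not_infinite.1 hv).subset fun e he => he.1
    · split_ifs
      · exact Set.finite_singleton _
      · exact Set.finite_empty

/-- Paths of the new graph. -/
theorem reach_dsg {x y : (dsg Γ).V} (h : Relation.ReflTransGen (dsg Γ).Adj x y) :
    Reach x.1.1 y.1.1 := by
  induction h with
  | refl => exact Relation.ReflTransGen.refl
  | tail _ h2 ih =>
    obtain ⟨e, rfl, rfl⟩ := h2
    induction e using dE_cases with
    | h1 e => exact ih.trans (Reach.edge e)
    | h2 w h' m => exact ih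

theorem reach_tail {v : Γ.V} {n : ℕ} {hn} {y : (dsg Γ).V}
    (h : Relation.ReflTransGen (dsg Γ).Adj (dv v n hn) y) :
    (y.1.1 = v ∧ n ≤ y.1.2) ∨ ∃ e, Γ.src e = v ∧ n ≤ idx e ∧ Reach (Γ.rng e) y.1.1 := by
  induction h with
  | refl => exact Or.inl ⟨rfl, le_rfl⟩
  | tail _ h2 ih =>
    obtain ⟨e, rfl, rfl⟩ := h2
    induction e using dE_cases with
    | h1 e =>
      right
      rcases ih with ⟨h3, h4⟩ | ⟨e', h3, h4, h5⟩
      · exact ⟨e, h3, h4, Relation.ReflTransGen.refl⟩
      · exact ⟨e', h3, h4, h5.trans (Reach.edge e)⟩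
    | h2 w h' m =>
      rcases ih with ⟨h3, h4⟩ | ⟨e', h3, h4, h5⟩
      · left
        have h6 : n ≤ m := h4
        exact ⟨h3, h6.trans (Nat.le_succ m)⟩
      · exact Or.inr ⟨e', h3, h4, h5⟩

theorem cyc_de {e : Γ.E} (h : Cyc (de e : (dsg Γ).E)) : Cyc e := reach_dsg h

theorem cyc_df {v : Γ.V} {hv : InfE v} {n : ℕ} (h : Cyc (df v hv n : (dsg Γ).E)) :
    ∃ e : Γ.E, Γ.src e = v ∧ n + 1 ≤ idx e ∧ Cyc e := by
  rcases reach_tail h with ⟨-, h1⟩ | ⟨e, h1, h2, h3⟩
  · have h2 : n + 1 ≤ n := h1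
    omega
  · refine ⟨e, h1, h2, ?_⟩
    have h4 : Reach (Γ.rng e) v := h3
    rw [Cyc, h1]
    exact h4

noncomputable instance instDsg : DisjGraph (dsg Γ) where
  outD x := (finite_src_dsg x).toFinset
  mem_outD x e := by rw [Set.Finite.mem_toFinset]; rfl
  disj e f h he hf := by
    induction e using dE_cases with
    | h1 e =>
      induction f using dE_cases with
      | h1 f =>
        have h1 := dv_inj (h : dv _ _ _ = dv _ _ _)
        rw [dj e f h1.1 (cyc_de he) (cyc_de hf)]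
      | h2 w h' m =>
        exfalso
        obtain ⟨h1, h2⟩ := dv_inj (h : dv _ _ _ = dv _ _ _)
        obtain ⟨e', h3, h4, h5⟩ := cyc_df hf
        have h6 := dj e e' (h1.trans h3.symm) (cyc_de he) h5
        subst h6
        omega
    | h2 v hv n =>
      induction f using dE_cases with
      | h1 f =>
        exfalso
        obtain ⟨h1, h2⟩ := dv_inj (h : dv _ _ _ = dv _ _ _)
        obtain ⟨e', h3, h4, h5⟩ := cyc_df he
        have h6 := dj e' f (h3.trans h1) h5 (cyc_de hf)
        subst h6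
        omega
      | h2 w h' m =>
        obtain ⟨rfl, rfl⟩ := dv_inj (h : dv _ _ _ = dv _ _ _)
        rfl

end Run7.h19
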