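import Pool.Agent.Run7.h19.Desing

/-!
# The embedding into the algebra of the row-finite graph (helper19)
-/

namespace Run7.h19

open Pool.Agent.Helper665_GA NumGraph DisjGraph

section tail

variable (K : Type*) [Field K] {Γ : Graph} [NumGraph Γ]

open Classical in
/-- The path along the tail. -/
noncomputable def tl (v : Γ.V) : ℕ → LPA K (dsg Γ)
  | 0 => pp K (d0 v)
  | n + 1 => tl v n * (if h : InfE v then ss K (df v h n) else 0)

variable {K}

@[simp] theorem tl_zero (v : Γ.V) : tl K v 0 = pp K (d0 v) := rfl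

theorem tl_succ {v : Γ.V} (h : InfE v) (n : ℕ) : tl K v (n + 1) = tl K v n * ss K (df v h n) := by
  rw [tl, dif_pos h]

theorem pp_tl (v : Γ.V) (n : ℕ) : pp K (d0 v) * tl K v n = tl K v n := by
  induction n with
  | zero => exact pp_pp _
  | succ n ih => rw [tl, ← mul_assoc, ih]

theorem tl_pp (v : Γ.V) (n : ℕ) (h : n = 0 ∨ InfE v) : tl K v n * pp K (dv v n h) = tl K v n := by
  cases n with
  | zero => exact pp_pp _
  | succ n =>
    have hv : InfE v := h.resolve_left (Nat.succ_ne_zero n)
    rw [tl_succ hv, mul_assoc]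
    congr 1
    exact ss_pp (df v hv n)

variable [StarRing K]

theorem star_tl_tl (v : Γ.V) (n : ℕ) (h : n = 0 ∨ InfE v) :
    star (tl K v n) * tl K v n = pp K (dv v n h) := by
  induction n with
  | zero => rw [tl_zero, star_pp, pp_pp]; rfl
  | succ n ih =>
    have hv : InfE v := h.resolve_left (Nat.succ_ne_zero n)
    have h1 : pp K (dv v n (Or.inr hv)) * ss K (df v hv n) = ss K (df v hv n) :=
      pp_ss (df v hv n)
    rw [tl_succ hv, star_mul, mul_assoc, ← mul_assoc (star (tl K v n)), ih (Or.inr hv), h1,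
      star_ss, tt_ss_self]
    rfl

theorem star_tl_pp (v : Γ.V) (n : ℕ) : star (tl K v n) * pp K (d0 v) = star (tl K v n) := by
  conv_lhs => rw [← star_pp, ← star_mul, pp_tl]

theorem tl_orth {v : Γ.V} (hv : InfE v) {e : Γ.E} (he : Γ.src e = v) {m : ℕ} (hm : idx e < m) :
    star (tl K v (idx e) * ss K (de e)) * tl K v m = 0 := by
  induction m with
  | zero => omega
  | succ m ih =>
    rw [tl_succ hv, ← mul_assoc]
    rcases Nat.lt_succ_iff_lt_or_eq.1 hm with h | h
    · rw [ih h, zero_mul]
    · subst h
      have h1 : pp K (dv v (idx e) (Or.inr hv)) * ss K (df v hv (idx e)) = ss K (df v hv (idx e)) :=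
        pp_ss (df v hv (idx e))
      rw [star_mul, mul_assoc, mul_assoc, ← mul_assoc (star (tl K v (idx e))),
        star_tl_tl v (idx e) (Or.inr hv), h1, star_ss]
      apply tt_ss_ne
      exact Sum.inl_ne_inr

end tail

variable {K : Type*} [Field K] [StarRing K] {Γ : Graph} [NumGraph Γ]

theorem de_src (e : Γ.E) : pp K (dv (Γ.src e) (idx e) (idx_ok e)) * ss K (de e) = ss K (de e) :=
  pp_ss (de e)

theorem de_src' (e : Γ.E) (h) :
    pp K (dv (Γ.src e) (idx e) h) * ss K (de e) = ss K (de e) :=
  pp_ss (de e)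

/-- The family of the embedding. -/
noncomputable def dfam (K : Type*) [Field K] [StarRing K] (Γ : Graph) [NumGraph Γ] :
    SFam Γ (LPA K (dsg Γ)) where
  p v := pp K (d0 v)
  s e := tl K (Γ.src e) (idx e) * ss K (de e)
  star_p v := star_pp _
  idem v := pp_pp _
  orth v w h := pp_ne fun h' => h (dv_inj h').1
  src_mul e := by rw [← mul_assoc, pp_tl]
  mul_rng e := by
    rw [mul_assoc]
    congr 1
    exact ss_pp (de e)
  isom e := by
    rw [star_mul, mul_assoc, ← mul_assoc (star (tl K (Γ.src e) (idx e))),
      star_tl_tl _ _ (idx_ok e), de_src, star_ss, tt_ss_self]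
    rfl
  range_orth e f hef := by
    by_cases hs : Γ.src e = Γ.src f
    swap
    · have h1 : (d0 (Γ.src e) : (dsg Γ).V) ≠ d0 (Γ.src f) := fun h' => hs (dv_inj h').1
      rw [star_mul, ← star_tl_pp, ← pp_tl (Γ.src f) (idx f), mul_assoc, mul_assoc,
        mul_assoc (pp K (d0 (Γ.src f))), ← mul_assoc (pp K (d0 (Γ.src e))), pp_ne h1, zero_mul,
        mul_zero, mul_zero]
    · by_cases hi : idx e = idx f
      · have h1 : tl K (Γ.src f) (idx f) = tl K (Γ.src e) (idx e) := by rw [hs, hi]
        have h2 : pp K (dv (Γ.src e) (idx e) (idx_ok e)) * ss K (de f) = ss K (de f) := by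
          have h3 := de_src (K := K) f
          have h4 : (dv (Γ.src e) (idx e) (idx_ok e) : (dsg Γ).V)
              = dv (Γ.src f) (idx f) (idx_ok f) := Subtype.ext (Prod.ext hs hi)
          rw [h4]; exact h3
        rw [h1, star_mul, mul_assoc, ← mul_assoc (star (tl K (Γ.src e) (idx e))),
          star_tl_tl _ _ (idx_ok e), h2, star_ss]
        apply tt_ss_ne
        intro h5
        exact hef (Sum.inl_injective h5)
      · have hv : InfE (Γ.src e) := by
          by_contra hv
          exact hi ((idx_zero e hv).trans (idx_zero f (hs ▸ hv)).symm)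
        rcases Nat.lt_or_gt_of_ne hi with h | h
        · rw [← hs, ← mul_assoc, tl_orth hv rfl h, zero_mul]
        · have h1 : star (star (tl K (Γ.src e) (idx e) * ss K (de e)) *
              (tl K (Γ.src f) (idx f) * ss K (de f))) = 0 := by
            rw [star_mul, star_star, hs, ← mul_assoc, tl_orth (hs ▸ hv) rfl h, zero_mul]
          rw [← star_star (star (tl K (Γ.src e) (idx e) * ss K (de e)) *
              (tl K (Γ.src f) (idx f) * ss K (de f))), h1, star_zero]
  sum_eq v S hS hm := by
    classical
    have hv : ¬ InfE v := by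
      intro h
      apply h
      exact S.finite_toSet.subset fun e he => (hm e).2 he
    have hidx : ∀ e ∈ S, tl K (Γ.src e) (idx e) * ss K (de e) = ss K (de e) := by
      intro e he
      have h1 := (hm e).1 he
      have h2 : idx e = 0 := idx_zero e (by rw [h1]; exact hv)
      have h3 := de_src' (K := K) e (idx_ok e)
      have h4 : (dv (Γ.src e) (idx e) (idx_ok e) : (dsg Γ).V) = d0 (Γ.src e) :=
        Subtype.ext (Prod.ext rfl h2)
      rw [h4] at h3
      rw [h2, tl_zero, h3]
    have h1 := (LPA.family K (dsg Γ)).sum_eq (d0 v) (S.map ⟨de, Sum.inl_injective⟩)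
      (by rw [Finset.map_nonempty]; exact hS) (by
        intro e
        rw [Finset.mem_map]
        constructor
        · rintro ⟨e', he', rfl⟩
          have h1 := (hm e').1 he'
          have h2 : idx e' = 0 := idx_zero e' (by rw [h1]; exact hv)
          exact Subtype.ext (Prod.ext h1 h2)
        · intro he
          induction e using dE_cases with
          | h1 e =>
            exact ⟨e, (hm e).2 (dv_inj (he : dv _ _ _ = dv _ _ _)).1, rfl⟩
          | h2 w h' m =>
            exfalso
            obtain ⟨rfl, -⟩ := dv_inj (he : dv _ _ _ = dv _ _ _)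
            exact hv h')
    rw [Finset.sum_map] at h1
    refine Eq.trans ?_ h1
    apply Finset.sum_congr rfl
    intro e he
    rw [hidx e he]
    exact congrArg _ (star_ss (de e))

/-- The embedding. -/
noncomputable def dhom (K : Type*) [Field K] [StarRing K] (Γ : Graph) [NumGraph Γ] :
    LPA K Γ →⋆ₙₐ[K] LPA K (dsg Γ) := (dfam K Γ).hom K

theorem dhom_p (v : Γ.V) : dhom K Γ (pp K v) = pp K (d0 v) := (dfam K Γ).hom_p v

theorem dhom_s (e : Γ.E) : dhom K Γ (ss K e) = tl K (Γ.src e) (idx e) * ss K (de e) :=
  (dfam K Γ).hom_s e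

end Run7.h19
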