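import Pool.Agent.Run7.h19.Incl

/-!
# Presentations as corners and the induced isomorphism of graph monoids (helper19)
-/

namespace Run7.h19

open Pool.Agent.Helper665_GA LoopGraph

variable {K : Type*} [Field K] [StarRing K]
  {A : Type*} [NonUnitalRing A] [StarRing A] [Module K A]
  [IsScalarTower K A A] [SMulCommClass K A A] [StarModule K A]
  {B : Type*} [NonUnitalRing B] [StarRing B] [Module K B]
  [IsScalarTower K B B] [SMulCommClass K B B] [StarModule K B]
  {G G' : Graph} [LoopGraph G] [LoopGraph G']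

/-- Presentation of an algebra as a corner of the algebra of a graph. -/
structure Pres (G : Graph) (X : Set G.V) (j : A →⋆ₙₐ[K] LPA K G) : Prop where
  ofP ::
  inj : Function.Injective j
  loc : ∀ a : A, ∃ S : Finset G.V, (S : Set G.V) ⊆ X ∧ (∑ v ∈ S, pp K v) * j a = j a ∧
    j a * (∑ v ∈ S, pp K v) = j a
  cor : ∀ (S : Finset G.V) (c : LPA K G), (S : Set G.V) ⊆ X → (∑ v ∈ S, pp K v) * c = c →
    c * (∑ v ∈ S, pp K v) = c → ∃ a, j a = c
  reach : ∀ v, ∃ (γ : LPA K G) (x : G.V), x ∈ X ∧ star γ * γ = pp K v ∧ pp K x * γ = γ ∧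
    γ * pp K v = γ

omit [StarRing K] [LoopGraph G] in
theorem ppS_sub {S T : Finset G.V} (h : S ⊆ T) :
    (∑ v ∈ T, pp K v) * (∑ v ∈ S, pp K v) = ∑ v ∈ S, pp K v := by
  rw [Finset.mul_sum]
  exact Finset.sum_congr rfl fun v hv => ppS_mul (h hv)

omit [StarRing K] [LoopGraph G] in
theorem ppS_sub' {S T : Finset G.V} (h : S ⊆ T) :
    (∑ v ∈ S, pp K v) * (∑ v ∈ T, pp K v) = ∑ v ∈ S, pp K v := by
  rw [Finset.sum_mul]
  exact Finset.sum_congr rfl fun v hv => mul_ppS (h hv)

variable {X : Set G.V} {j : A →⋆ₙₐ[K] LPA K G}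

namespace Pres

variable (h : Pres G X j)

include h in
theorem cor' {c : LPA K G} {S S' : Finset G.V} (hS : (S : Set G.V) ⊆ X)
    (hS' : (S' : Set G.V) ⊆ X) (h1 : (∑ v ∈ S, pp K v) * c = c)
    (h2 : c * (∑ v ∈ S', pp K v) = c) : ∃ a, j a = c := by
  classical
  apply h.cor (S ∪ S') c
  · rw [Finset.coe_union]; exact Set.union_subset hS hS'
  · rw [← h1, ← mul_assoc, ppS_sub Finset.subset_union_left]
  · rw [← h2, mul_assoc, ppS_sub' Finset.subset_union_right]

include h in
theorem exists_r (v : G.V) : ∃ (r : A) (γ : LPA K G) (x : G.V), x ∈ X ∧ pp K x * γ = γ ∧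
    j r = γ * star γ ∧ star γ * γ = pp K v ∧ γ * pp K v = γ := by
  obtain ⟨γ, x, hx, g1, g2, g3⟩ := h.reach v
  have g4 : star γ * pp K x = star γ := by
    conv_lhs => rw [← star_pp, ← star_mul, g2]
  obtain ⟨r, hr⟩ := h.cor {x} (γ * star γ) (by simpa using hx)
    (by rw [Finset.sum_singleton, ← mul_assoc, g2])
    (by rw [Finset.sum_singleton, mul_assoc, g4])
  exact ⟨r, γ, x, hx, g2, hr, g1, g3⟩

/-- The projections of the corner equivalent to the vertices. -/
noncomputable def r (v : G.V) : A := (h.exists_r v).choose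

include h in
theorem AF_r (v : G.V) : AF K (j (h.r v)) {v} := by
  obtain ⟨γ, x, hx, g1, g2, g3, g4⟩ := (h.exists_r v).choose_spec
  rw [show j (h.r v) = γ * star γ from g2]
  refine Fr.single (Q := fun _ _ => True) trivial g3 g4 ?_
  conv_lhs => rw [← star_pp, ← star_mul, g4]

/-- The classes of the images of idempotents. -/
theorem cl_map (φ : A →ₙₐ[K] LPA K G') : ∀ {E : LPA K G} {s : Multiset G.V}, AF K E s →
    ∀ e, j e = E → cl (φ e) = (s.map fun v => cl (φ (h.r v))).sum := by
  intro E s hE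
  have h' : Fr (fun _ _ => True) (pp K) E s := hE
  clear hE
  induction h' with
  | zero =>
    intro e he
    have : e = 0 := h.inj (by rw [he, map_zero])
    rw [this, map_zero, cl_zero]; simp
  | @cons x y E' v s h0 h1 h2 h3 h4 h5 h6 ih =>
    intro e he
    obtain ⟨S, hS, s1, s2⟩ := h.loc e
    obtain ⟨γ, u, hu, g1, g2, g3, g4⟩ := (h.exists_r v).choose_spec
    have g2' : j (h.r v) = γ * star γ := g2
    have hux : ((({u} : Finset G.V)) : Set G.V) ⊆ X := by simpa using hu
    have g5 : star γ * pp K u = star γ := by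
      conv_lhs => rw [← star_pp, ← star_mul, g1]
    have g6 : pp K v * star γ = star γ := by
      conv_lhs => rw [← star_pp, ← star_mul, g4]
    have ex : j e * x = x := by rw [he, add_mul, h4, mul_assoc, h1, h2, add_zero]
    have ye : y * j e = y := by rw [he, mul_add, h5, ← mul_assoc, h1, h3, add_zero]
    have eE : j e * E' = E' := by
      rw [he, add_mul, mul_assoc, h5, mul_zero, zero_add, h6.idem]
    have Ee : E' * j e = E' := by
      rw [he, mul_add, ← mul_assoc, h4, zero_mul, zero_add, h6.idem]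
    obtain ⟨z, hz⟩ := h.cor' hS hux (c := x * star γ)
      (by rw [← ex, mul_assoc (j e), ← mul_assoc, s1])
      (by rw [Finset.sum_singleton, mul_assoc, g5])
    obtain ⟨w, hw⟩ := h.cor' hux hS (c := γ * y)
      (by rw [Finset.sum_singleton, ← mul_assoc, g1])
      (by rw [← ye, mul_assoc, mul_assoc, s2])
    obtain ⟨e', he'⟩ := h.cor' hS hS (c := E')
      (by rw [← eE, ← mul_assoc, s1]) (by rw [← Ee, mul_assoc, s2])
    have k1 : z * w + e' = e := by
      apply h.inj
      rw [map_add, map_mul, hz, hw, he', he]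
      have : x * star γ * (γ * y) = x * (star γ * γ) * y := by noncomm_ring
      rw [this, g3, h2]
    have k2 : w * z = h.r v := by
      apply h.inj
      rw [map_mul, hz, hw, g2']
      have : γ * y * (x * star γ) = γ * (y * x) * star γ := by noncomm_ring
      rw [this, h1, g4]
    have k3 : z * (w * z) = z := by
      apply h.inj
      rw [map_mul, k2, g2', hz]
      have : x * star γ * (γ * star γ) = x * ((star γ * γ) * star γ) := by noncomm_ring
      rw [this, g3, g6]
    have k4 : (w * z) * w = w := by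
      apply h.inj
      rw [map_mul, k2, g2', hw]
      have : γ * star γ * (γ * y) = γ * (star γ * γ) * y := by noncomm_ring
      rw [this, g3, g4]
    have k5 : z * w * e' = 0 := by
      apply h.inj
      rw [map_mul, map_mul, hz, hw, he', map_zero]
      have : x * star γ * (γ * y) * E' = x * (star γ * γ) * (y * E') := by noncomm_ring
      rw [this, h5, mul_zero]
    have k6 : e' * (z * w) = 0 := by
      apply h.inj
      rw [map_mul, map_mul, hz, hw, he', map_zero]
      have : E' * (x * star γ * (γ * y)) = (E' * x) * (star γ * γ) * y := by noncomm_ring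
      rw [this, h4, zero_mul, zero_mul]
    have k7 : (z * w) * (z * w) = z * w := by
      have : (z * w) * (z * w) = z * (w * z) * w := by noncomm_ring
      rw [this, k3]
    have k8 : e' * e' = e' := by
      apply h.inj
      rw [map_mul, he', h6.idem]
    rw [← k1, map_add, cl_add (by rw [← map_mul, k7]) (by rw [← map_mul, k8])
      (by rw [← map_mul, k5, map_zero]) (by rw [← map_mul, k6, map_zero]), ih e' he',
      Multiset.map_cons, Multiset.sum_cons]
    congr 1
    rw [map_mul, cl_equiv (by rw [← map_mul, ← map_mul, k3]) (by rw [← map_mul, ← map_mul, k4]),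
      ← map_mul, k2]

/-- The induced homomorphism of graph monoids. -/
noncomputable def clA (φ : A →ₙₐ[K] LPA K G') : MG G →+ MG G' :=
  AddCon.lift (Mc G)
    { toFun := fun s => (s.map fun v => cl (φ (h.r v))).sum
      map_zero' := by simp
      map_add' := fun s t => by rw [Multiset.map_add, Multiset.sum_add] } (by
    apply AddCon.addConGen_le.2
    intro a b hab
    rw [AddCon.ker_rel]
    cases hab with
    | nl v hv =>
      have h1 : AF K (j (h.r v)) (xs v) := (AF_congr (mk_eq'.2 (Mc_nl hv))).1 (h.AF_r v)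
      exact (h.cl_map φ (h.AF_r v) _ rfl).symm.trans (h.cl_map φ h1 _ rfl)
    | lp v hv =>
      have h1 : AF K (j (h.r v)) ({v} + xs v) := (AF_congr (mk_eq'.2 (Mc_lp hv))).1 (h.AF_r v)
      exact (h.cl_map φ (h.AF_r v) _ rfl).symm.trans (h.cl_map φ h1 _ rfl))

theorem clA_mk (φ : A →ₙₐ[K] LPA K G') (s : Multiset G.V) :
    h.clA φ (mk s) = (s.map fun v => cl (φ (h.r v))).sum := rfl

theorem clA_cl (φ : A →ₙₐ[K] LPA K G') {e : A} (he : e * e = e) :
    h.clA φ (cl (j e)) = cl (φ e) := by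
  obtain ⟨s, hs⟩ := exists_AF (e := j e) (by rw [← map_mul, he])
  rw [cl_eq hs, clA_mk, h.cl_map φ hs e rfl]

include h in
theorem r_idem (v : G.V) : h.r v * h.r v = h.r v := by
  apply h.inj
  rw [map_mul]
  exact Fr.idem (h.AF_r v)

variable {X' : Set G'.V} {j' : B →⋆ₙₐ[K] LPA K G'} (h' : Pres G' X' j')

include h h' in
theorem clA_clA (φ : A →ₙₐ[K] B) (ψ : B →ₙₐ[K] A) (hφ : ∀ a, ψ (φ a) = a) (m : MG G) :
    h'.clA ((j : A →ₙₐ[K] LPA K G).comp ψ) (h.clA ((j' : B →ₙₐ[K] LPA K G').comp φ) m) = m := by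
  obtain ⟨s, rfl⟩ := mk_surj m
  induction s using Multiset.induction_on with
  | empty => rw [mk_zero, map_zero, map_zero]
  | cons v s ih =>
    rw [mk_cons, map_add, map_add, ih]
    congr 1
    rw [clA_mk, Multiset.map_singleton, Multiset.sum_singleton]
    have h1 := h'.clA_cl ((j : A →ₙₐ[K] LPA K G).comp ψ) (e := φ (h.r v))
      (by rw [← map_mul, h.r_idem])
    refine h1.trans ?_
    show cl (j (ψ (φ (h.r v)))) = _
    rw [hφ]
    exact cl_eq (h.AF_r v)

/-- The induced isomorphism of graph monoids. -/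
noncomputable def iso (φ : A →ₙₐ[K] B) (ψ : B →ₙₐ[K] A) (hφ : ∀ a, ψ (φ a) = a)
    (hψ : ∀ b, φ (ψ b) = b) : MG G ≃+ MG G' :=
  { h.clA ((j' : B →ₙₐ[K] LPA K G').comp φ) with
    invFun := h'.clA ((j : A →ₙₐ[K] LPA K G).comp ψ)
    left_inv := h.clA_clA h' φ ψ hφ
    right_inv := h'.clA_clA h ψ φ hψ }

theorem iso_cl (φ : A →ₙₐ[K] B) (ψ : B →ₙₐ[K] A) (hφ : ∀ a, ψ (φ a) = a)
    (hψ : ∀ b, φ (ψ b) = b) {e : A} (he : e * e = e) :
    h.iso h' φ ψ hφ hψ (cl (j e)) = cl (j' (φ e)) := h.clA_cl _ he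

theorem iso_symm (φ : A →ₙₐ[K] B) (ψ : B →ₙₐ[K] A) (hφ : ∀ a, ψ (φ a) = a)
    (hψ : ∀ b, φ (ψ b) = b) :
    (h.iso h' φ ψ hφ hψ).symm = h'.iso h ψ φ hψ hφ := rfl

end Pres

end Run7.h19
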