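import Pool.Agent.Run7.h19.Desing2
import Pool.Agent.Run7.h19.Pres

/-!
# The corner of the algebra of the row-finite graph (helper19)
-/

namespace Run7.h19

open Pool.Agent.Helper665_GA NumGraph DisjGraph

variable {K : Type*} [Field K] [StarRing K] {Γ : Graph} [NumGraph Γ]

/-- The range of the embedding. -/
noncomputable def dR (K : Type*) [Field K] [StarRing K] (Γ : Graph) [NumGraph Γ] :
    NonUnitalSubalgebra K (LPA K (dsg Γ)) :=
  NonUnitalAlgHom.range (dhom K Γ : LPA K Γ →ₙₐ[K] LPA K (dsg Γ))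

theorem mem_dR {a : LPA K (dsg Γ)} : a ∈ dR K Γ ↔ ∃ b, dhom K Γ b = a :=
  NonUnitalAlgHom.mem_range _

theorem star_dR {a : LPA K (dsg Γ)} (h : a ∈ dR K Γ) : star a ∈ dR K Γ := by
  rw [mem_dR] at h ⊢
  obtain ⟨b, rfl⟩ := h
  exact ⟨star b, map_star _ _⟩

theorem dhom_dR (b : LPA K Γ) : dhom K Γ b ∈ dR K Γ := mem_dR.2 ⟨b, rfl⟩

theorem d0_dR (v : Γ.V) : pp K (d0 v) ∈ dR K Γ := mem_dR.2 ⟨_, dhom_p v⟩

/-- The range projections of the tails. -/
theorem tl_star_dR (v : Γ.V) (n : ℕ) (h : n = 0 ∨ InfE v) :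
    tl K v n * star (tl K v n) ∈ dR K Γ := by
  classical
  induction n with
  | zero => rw [tl_zero, star_pp, pp_pp]; exact d0_dR v
  | succ n ih =>
    have hv : InfE v := h.resolve_left (Nat.succ_ne_zero n)
    have h1 : df v hv n ∈ outD (dv v n (Or.inr hv)) := (mem_outD _ _).2 rfl
    have h2 := (LPA.family K (dsg Γ)).sum_eq (dv v n (Or.inr hv)) (outD (dv v n (Or.inr hv)))
      ⟨_, h1⟩ (mem_outD _)
    have h3 : ∑ e ∈ outD (dv v n (Or.inr hv)), ss K e * star (ss K e)
        = pp K (dv v n (Or.inr hv)) :=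
      (Finset.sum_congr rfl fun e _ => congrArg _ (star_ss e)).trans h2
    rw [← Finset.add_sum_erase _ _ h1] at h3
    have h4 : tl K v n * star (tl K v n)
        = tl K v n * pp K (dv v n (Or.inr hv)) * star (tl K v n) := by rw [tl_pp]
    rw [← h3, mul_add, add_mul, Finset.mul_sum, Finset.sum_mul] at h4
    have h5 : tl K v n * (ss K (df v hv n) * star (ss K (df v hv n))) * star (tl K v n)
        = tl K v (n + 1) * star (tl K v (n + 1)) := by
      rw [tl_succ hv, star_mul]; simp only [mul_assoc]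
    rw [h5] at h4
    rw [← sub_eq_of_eq_add h4]
    refine sub_mem (ih (Or.inr hv)) (sum_mem ?_)
    intro e he
    rw [Finset.mem_erase, mem_outD] at he
    induction e using dE_cases with
    | h1 e =>
      obtain ⟨rfl, rfl⟩ := dv_inj (he.2 : dv _ _ _ = dv _ _ _)
      have h6 : tl K (Γ.src e) (idx e) * (ss K (de e) * star (ss K (de e))) *
          star (tl K (Γ.src e) (idx e)) = dhom K Γ (ss K e) * star (dhom K Γ (ss K e)) := by
        rw [dhom_s, star_mul]; simp only [mul_assoc]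
      rw [h6]
      exact mul_mem (dhom_dR _) (star_dR (dhom_dR _))
    | h2 w h' m =>
      exfalso
      obtain ⟨rfl, rfl⟩ := dv_inj (he.2 : dv _ _ _ = dv _ _ _)
      exact he.1 rfl

theorem dcor_path : ∀ (l : List (dsg Γ).E) (u : (dsg Γ).V) (v : Γ.V) (n : ℕ)
    (hn : n = 0 ∨ InfE v), tl K v n * LPA.sp K (dsg Γ) l u = 0 ∨
      ∃ w m hm b, u = dv w m hm ∧ tl K v n * LPA.sp K (dsg Γ) l u = dhom K Γ b * tl K w m := by
  intro l
  induction l with
  | nil =>
    intro u v n hn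
    have h1 : LPA.sp K (dsg Γ) [] u = pp K u := rfl
    rw [h1]
    by_cases h : dv v n hn = u
    · right
      subst h
      refine ⟨v, n, hn, pp K v, rfl, ?_⟩
      rw [tl_pp, dhom_p, pp_tl]
    · left
      rw [← tl_pp v n hn, mul_assoc, pp_ne h, mul_zero]
  | cons e l ih =>
    intro u v n hn
    have h1 : LPA.sp K (dsg Γ) (e :: l) u = ss K e * LPA.sp K (dsg Γ) l u := rfl
    rw [h1, ← mul_assoc]
    by_cases h : (dsg Γ).src e = dv v n hn
    · induction e using dE_cases with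
      | h1 e =>
        obtain ⟨rfl, rfl⟩ := dv_inj (h : dv _ _ _ = dv _ _ _)
        have h2 : tl K (Γ.src e) (idx e) * ss K (de e)
            = dhom K Γ (ss K e) * tl K (Γ.rng e) 0 := by
          rw [dhom_s, tl_zero, mul_assoc]
          congr 1
          exact (ss_pp (de e)).symm
        rw [h2, mul_assoc]
        rcases ih u (Γ.rng e) 0 (Or.inl rfl) with h3 | ⟨w, m, hm, b, h3, h4⟩
        · left; rw [h3, mul_zero]
        · right
          exact ⟨w, m, hm, ss K e * b, h3, by rw [h4, map_mul, mul_assoc]⟩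
      | h2 w h' m =>
        obtain ⟨rfl, rfl⟩ := dv_inj (h : dv _ _ _ = dv _ _ _)
        rw [← tl_succ h']
        exact ih u w (m + 1) (Or.inr h')
    · left
      have h2 : pp K (dv v n hn) * ss K e = 0 := (LPA.family K (dsg Γ)).p_mul_s_of_ne h
      rw [← tl_pp v n hn, mul_assoc (tl K v n), h2, mul_zero, zero_mul]

theorem dcor (v w : Γ.V) (a : LPA K (dsg Γ)) : pp K (d0 v) * a * pp K (d0 w) ∈ dR K Γ := by
  induction a using LPA.mono_induction with
  | hm l l' u =>
    have h1 : pp K (d0 v) * (LPA.sp K (dsg Γ) l u * LPA.tp K (dsg Γ) l' u) * pp K (d0 w)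
        = (tl K v 0 * LPA.sp K (dsg Γ) l u) * star (tl K w 0 * LPA.sp K (dsg Γ) l' u) := by
      rw [star_mul, LPA.star_sp, tl_zero, tl_zero, star_pp]; simp only [mul_assoc]
    rw [h1]
    rcases dcor_path (K := K) l u v 0 (Or.inl rfl) with h | ⟨x, m, hm, b, h2, h3⟩
    · rw [h, zero_mul]; exact zero_mem _
    · rcases dcor_path (K := K) l' u w 0 (Or.inl rfl) with h | ⟨y, m', hm', b', h4, h5⟩
      · rw [h, star_zero, mul_zero]; exact zero_mem _
      · obtain ⟨rfl, rfl⟩ := dv_inj (h2.symm.trans h4)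
        rw [h3, h5, star_mul]
        have h6 : dhom K Γ b * tl K x m * (star (tl K x m) * star (dhom K Γ b'))
            = dhom K Γ b * (tl K x m * star (tl K x m)) * star (dhom K Γ b') := by
          simp only [mul_assoc]
        rw [h6]
        exact mul_mem (mul_mem (dhom_dR _) (tl_star_dR x m hm)) (star_dR (dhom_dR _))
  | hz => rw [mul_zero, zero_mul]; exact zero_mem _
  | ha a b ha hb => rw [mul_add, add_mul]; exact add_mem ha hb
  | hs r a ha => rw [mul_smul_comm, smul_mul_assoc]; exact (dR K Γ).smul_mem r ha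

/-- The old vertices. -/
def dX (Γ : Graph) [NumGraph Γ] : Set (dsg Γ).V := {x | x.1.2 = 0}

theorem mem_dX {x : (dsg Γ).V} (h : x ∈ dX Γ) : ∃ v, x = d0 v := by
  obtain ⟨⟨v, n⟩, hn⟩ := x
  have h1 : n = 0 := h
  subst h1
  exact ⟨v, rfl⟩

theorem dcor_sum (S : Finset (dsg Γ).V) (c : LPA K (dsg Γ)) (hS : (S : Set (dsg Γ).V) ⊆ dX Γ)
    (h1 : (∑ v ∈ S, pp K v) * c = c) (h2 : c * (∑ v ∈ S, pp K v) = c) : ∃ a, dhom K Γ a = c := by
  rw [← mem_dR, ← h2, ← h1, Finset.sum_mul, Finset.sum_mul]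
  apply sum_mem
  intro x hx
  rw [Finset.mul_sum]
  apply sum_mem
  intro y hy
  obtain ⟨v, rfl⟩ := mem_dX (hS hx)
  obtain ⟨w, rfl⟩ := mem_dX (hS hy)
  exact dcor v w c

end Run7.h19
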