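import Pool.Agent.Run7.h19.Desing3

/-!
# Injectivity of the embedding (helper19)
-/

namespace Run7.h19

open Pool.Agent.Helper665_GA NumGraph DisjGraph

section op

variable (K : Type*) [Field K] {A : Type*} [NonUnitalRing A] [Module K A]
  [IsScalarTower K A A] [SMulCommClass K A A] {W : Type*} [DecidableEq W]

/-- The operator given by a matrix with one entry. -/
noncomputable def op (x y : W) (a : A) : Module.End K (W → A) :=
  (LinearMap.single K (fun _ => A) x) ∘ₗ (LinearMap.mulLeft K a) ∘ₗ (LinearMap.proj y)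

variable {K}

omit [IsScalarTower K A A] in
theorem op_apply (x y : W) (a : A) (f : W → A) : op K x y a f = Pi.single x (a * f y) := rfl

omit [IsScalarTower K A A] in
theorem op_mul (x y z : W) (a b : A) : op K x y a * op K y z b = op K x z (a * b) := by
  apply LinearMap.ext
  intro f
  rw [Module.End.mul_apply, op_apply, op_apply, op_apply, Pi.single_eq_same, mul_assoc]

omit [IsScalarTower K A A] in
theorem op_mul' {x y y' z : W} (h : y = y') (a b : A) :
    op K x y a * op K y' z b = op K x z (a * b) := by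
  subst h; exact op_mul x y z a b

omit [IsScalarTower K A A] in
theorem op_mul_ne {x y y' z : W} (h : y ≠ y') (a b : A) : op K x y a * op K y' z b = 0 := by
  apply LinearMap.ext
  intro f
  rw [Module.End.mul_apply, op_apply, op_apply, Pi.single_eq_of_ne h, mul_zero, Pi.single_zero]
  rfl

omit [IsScalarTower K A A] in
theorem op_add (x y : W) (a b : A) : op K x y (a + b) = op K x y a + op K x y b := by
  apply LinearMap.ext
  intro f
  rw [LinearMap.add_apply, op_apply, op_apply, op_apply, add_mul, Pi.single_add]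

omit [IsScalarTower K A A] in
theorem op_zero (x y : W) : op K x y (0 : A) = 0 := by
  apply LinearMap.ext
  intro f
  rw [op_apply, zero_mul, Pi.single_zero]
  rfl

omit [IsScalarTower K A A] in
theorem op_sum (x y : W) {ι : Type*} (S : Finset ι) (a : ι → A) :
    op K x y (∑ i ∈ S, a i) = ∑ i ∈ S, op K x y (a i) := by
  classical
  induction S using Finset.induction_on with
  | empty => rw [Finset.sum_empty, Finset.sum_empty, op_zero]
  | insert i S hi ih => rw [Finset.sum_insert hi, Finset.sum_insert hi, op_add, ih]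

end op

variable {K : Type*} [Field K] {Γ : Graph} [NumGraph Γ]

theorem finite_blw (v : Γ.V) (n : ℕ) : {e : Γ.E | Γ.src e = v ∧ idx e < n}.Finite := by
  by_cases hv : InfE v
  · apply Set.Finite.of_finite_image (f := idx)
    · exact (Set.finite_lt_nat n).subset (by rintro _ ⟨e, he, rfl⟩; exact he.2)
    · rintro e ⟨he, -⟩ f ⟨hf, -⟩ hef
      exact idx_inj e f (he ▸ hv) (he.trans hf.symm) hef
  · exact (Set.not_infinite.1 hv).subset fun e he => he.1

/-- The edges of small number. -/
noncomputable def blw (v : Γ.V) (n : ℕ) : Finset Γ.E := (finite_blw v n).toFinset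

theorem mem_blw {v : Γ.V} {n : ℕ} {e : Γ.E} : e ∈ blw v n ↔ Γ.src e = v ∧ idx e < n := by
  rw [blw, Set.Finite.mem_toFinset]; rfl

variable (K) in
/-- The projections of the tails. -/
noncomputable def qq (v : Γ.V) (n : ℕ) : LPA K Γ := pp K v - ∑ e ∈ blw v n, ss K e * tt K e

theorem qq_zero (v : Γ.V) : qq K v 0 = pp K v := by
  have : blw v 0 = ∅ := by
    rw [Finset.eq_empty_iff_forall_notMem]
    intro e he
    exact absurd (mem_blw.1 he).2 (Nat.not_lt_zero _)
  rw [qq, this, Finset.sum_empty, sub_zero]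

theorem pp_qq (v : Γ.V) (n : ℕ) : pp K v * qq K v n = qq K v n := by
  rw [qq, mul_sub, pp_pp, Finset.mul_sum]
  congr 1
  apply Finset.sum_congr rfl
  intro e he
  rw [← mul_assoc, ← (mem_blw.1 he).1, pp_ss]

theorem qq_pp (v : Γ.V) (n : ℕ) : qq K v n * pp K v = qq K v n := by
  rw [qq, sub_mul, pp_pp, Finset.sum_mul]
  congr 1
  apply Finset.sum_congr rfl
  intro e he
  rw [mul_assoc, ← (mem_blw.1 he).1, tt_pp]

theorem qq_ss_mem {v : Γ.V} {n : ℕ} {f : Γ.E} (h : f ∈ blw v n) : qq K v n * ss K f = 0 := by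
  rw [qq, sub_mul, Finset.sum_mul, Finset.sum_eq_single_of_mem f h, mul_assoc, tt_ss_self, ss_pp,
    ← (mem_blw.1 h).1, pp_ss, sub_self]
  intro e _ he
  rw [mul_assoc, tt_ss_ne he, mul_zero]

theorem tt_qq_mem {v : Γ.V} {n : ℕ} {f : Γ.E} (h : f ∈ blw v n) : tt K f * qq K v n = 0 := by
  rw [qq, mul_sub, Finset.mul_sum, Finset.sum_eq_single_of_mem f h, ← mul_assoc, tt_ss_self,
    pp_tt, ← (mem_blw.1 h).1, tt_pp, sub_self]
  intro e _ he
  rw [← mul_assoc, tt_ss_ne (Ne.symm he), zero_mul]

theorem qq_ss {v : Γ.V} {n : ℕ} {f : Γ.E} (hf : Γ.src f = v) (h : n ≤ idx f) :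
    qq K v n * ss K f = ss K f := by
  rw [qq, sub_mul, Finset.sum_mul, Finset.sum_eq_zero, sub_zero, ← hf, pp_ss]
  intro e he
  have : e ≠ f := by
    rintro rfl
    have := (mem_blw.1 he).2
    omega
  rw [mul_assoc, tt_ss_ne this, mul_zero]

theorem tt_qq {v : Γ.V} {n : ℕ} {f : Γ.E} (hf : Γ.src f = v) (h : n ≤ idx f) :
    tt K f * qq K v n = tt K f := by
  rw [qq, mul_sub, Finset.mul_sum, Finset.sum_eq_zero, sub_zero, ← hf, tt_pp]
  intro e he
  have : f ≠ e := by
    rintro rfl
    have := (mem_blw.1 he).2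
    omega
  rw [← mul_assoc, tt_ss_ne this, zero_mul]

theorem blw_mono (v : Γ.V) {n m : ℕ} (h : n ≤ m) {e : Γ.E} (he : e ∈ blw v n) : e ∈ blw v m := by
  rw [mem_blw] at he ⊢
  exact ⟨he.1, lt_of_lt_of_le he.2 h⟩

theorem qq_qq (v : Γ.V) {n m : ℕ} (h : n ≤ m) : qq K v m * qq K v n = qq K v m := by
  conv_lhs => rw [qq.eq_def K v n]
  rw [mul_sub, qq_pp, Finset.mul_sum, Finset.sum_eq_zero, sub_zero]
  intro e he
  rw [← mul_assoc, qq_ss_mem (blw_mono v h he), zero_mul]

theorem qq_qq' (v : Γ.V) {n m : ℕ} (h : n ≤ m) : qq K v n * qq K v m = qq K v m := by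
  conv_lhs => rw [qq.eq_def K v n]
  rw [sub_mul, pp_qq, Finset.sum_mul, Finset.sum_eq_zero, sub_zero]
  intro e he
  rw [mul_assoc, tt_qq_mem (blw_mono v h he), mul_zero]

/-- The entries of the edges. -/
noncomputable def gS (K : Type*) [Field K] {Γ : Graph} [NumGraph Γ] (e : (dsg Γ).E) : LPA K Γ :=
  match e with
  | Sum.inl e => ss K e
  | Sum.inr x => qq K x.1.1 (x.2 + 1)

/-- The entries of the ghost edges. -/
noncomputable def gT (K : Type*) [Field K] {Γ : Graph} [NumGraph Γ] (e : (dsg Γ).E) : LPA K Γ :=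
  match e with
  | Sum.inl e => tt K e
  | Sum.inr x => qq K x.1.1 (x.2 + 1)

theorem gS_de (e : Γ.E) : gS K (de e) = ss K e := rfl
theorem gT_de (e : Γ.E) : gT K (de e) = tt K e := rfl
theorem gS_df (v : Γ.V) (h : InfE v) (n : ℕ) : gS K (df v h n) = qq K v (n + 1) := rfl
theorem gT_df (v : Γ.V) (h : InfE v) (n : ℕ) : gT K (df v h n) = qq K v (n + 1) := rfl

open Classical in
/-- The family of operators. -/
noncomputable def ofam (K : Type*) [Field K] (Γ : Graph) [NumGraph Γ] :
    LeavittFamily (dsg Γ) (Module.End K ((dsg Γ).V → LPA K Γ)) where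
  p x := op K x x (qq K x.1.1 x.1.2)
  s e := op K ((dsg Γ).src e) ((dsg Γ).rng e) (gS K e)
  t e := op K ((dsg Γ).rng e) ((dsg Γ).src e) (gT K e)
  p_mul_self x := by rw [op_mul, qq_qq _ le_rfl]
  p_mul_of_ne x y h := op_mul_ne h _ _
  src_mul e := by
    rw [op_mul]
    induction e using dE_cases with
    | h1 e => rw [gS_de]; congr 1; exact qq_ss rfl le_rfl
    | h2 v h n => rw [gS_df]; congr 1; exact qq_qq' v (Nat.le_succ n)
  mul_rng e := by
    rw [op_mul]
    induction e using dE_cases with
    | h1 e =>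
      rw [gS_de]; congr 1
      show ss K e * qq K (Γ.rng e) 0 = ss K e
      rw [qq_zero, ss_pp]
    | h2 v h n => rw [gS_df]; congr 1; exact qq_qq v le_rfl
  rng_mul e := by
    rw [op_mul]
    induction e using dE_cases with
    | h1 e =>
      rw [gT_de]; congr 1
      show qq K (Γ.rng e) 0 * tt K e = tt K e
      rw [qq_zero, pp_tt]
    | h2 v h n => rw [gT_df]; congr 1; exact qq_qq v le_rfl
  mul_src e := by
    rw [op_mul]
    induction e using dE_cases with
    | h1 e => rw [gT_de]; congr 1; exact tt_qq rfl le_rfl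
    | h2 v h n => rw [gT_df]; congr 1; exact qq_qq v (Nat.le_succ n)
  ghost_mul_self e := by
    rw [op_mul]
    induction e using dE_cases with
    | h1 e =>
      rw [gT_de, gS_de]; congr 1
      show tt K e * ss K e = qq K (Γ.rng e) 0
      rw [qq_zero, tt_ss_self]
    | h2 v h n => rw [gT_df, gS_df]; congr 1; exact qq_qq v le_rfl
  ghost_mul_of_ne e f hef := by
    by_cases hs : (dsg Γ).src e = (dsg Γ).src f
    swap
    · exact op_mul_ne hs _ _
    · rw [op_mul' hs]
      have h0 : gT K e * gS K f = 0 := by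
        induction e using dE_cases with
        | h1 e =>
          induction f using dE_cases with
          | h1 f =>
            rw [gT_de, gS_de]
            exact tt_ss_ne fun h => hef (by rw [h])
          | h2 w h' m =>
            obtain ⟨h1, h2⟩ := dv_inj (hs : dv _ _ _ = dv _ _ _)
            rw [gT_de, gS_df]
            exact tt_qq_mem (mem_blw.2 ⟨h1, by omega⟩)
        | h2 v hv n =>
          induction f using dE_cases with
          | h1 f =>
            obtain ⟨h1, h2⟩ := dv_inj (hs : dv _ _ _ = dv _ _ _)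
            rw [gT_df, gS_de]
            exact qq_ss_mem (mem_blw.2 ⟨h1.symm, by omega⟩)
          | h2 w h' m =>
            obtain ⟨rfl, rfl⟩ := dv_inj (hs : dv _ _ _ = dv _ _ _)
            exact absurd rfl hef
      rw [h0, op_zero]
  sum_eq x S hS hm := by
    have h1 : ∀ e ∈ S, op K ((dsg Γ).src e) ((dsg Γ).rng e) (gS K e) *
        op K ((dsg Γ).rng e) ((dsg Γ).src e) (gT K e) = op K x x (gS K e * gT K e) := by
      intro e he
      rw [op_mul, (hm e).1 he]
    rw [Finset.sum_congr rfl h1, ← op_sum]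
    congr 1
    induction x using dV_cases with
    | h1 v n hn =>
    show _ = qq K v n
    by_cases hv : InfE v
    · have h2 : S = insert (df v hv n)
          ((blw v (n + 1) \ blw v n).map ⟨de, Sum.inl_injective⟩) := by
        ext e
        rw [hm, Finset.mem_insert, Finset.mem_map]
        constructor
        · intro he
          induction e using dE_cases with
          | h1 e =>
            obtain ⟨rfl, rfl⟩ := dv_inj (he : dv _ _ _ = dv _ _ _)
            right
            refine ⟨e, ?_, rfl⟩
            rw [Finset.mem_sdiff, mem_blw, mem_blw]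
            exact ⟨⟨rfl, Nat.lt_succ_self _⟩, fun h => absurd h.2 (lt_irrefl _)⟩
          | h2 w h' m =>
            obtain ⟨rfl, rfl⟩ := dv_inj (he : dv _ _ _ = dv _ _ _)
            exact Or.inl rfl
        · rintro (rfl | ⟨e, he, rfl⟩)
          · rfl
          · rw [Finset.mem_sdiff, mem_blw, mem_blw] at he
            have h3 : idx e = n := by
              by_contra hne
              exact he.2 ⟨he.1.1, by omega⟩
            exact Subtype.ext (Prod.ext he.1.1 h3)
      have h3 : (df v hv n) ∉ ((blw v (n + 1) \ blw v n).map ⟨de, Sum.inl_injective⟩ :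
          Finset (dsg Γ).E) := by
        rw [Finset.mem_map]
        rintro ⟨e, -, he⟩
        exact Sum.inl_ne_inr he
      rw [h2, Finset.sum_insert h3, Finset.sum_map, gS_df, gT_df, qq_qq v le_rfl]
      have h4 : ∑ e ∈ blw v (n + 1) \ blw v n, gS K (de e) * gT K (de e)
          = ∑ e ∈ blw v (n + 1) \ blw v n, ss K e * tt K e := rfl
      have h5 : blw v n ⊆ blw v (n + 1) := fun e he => blw_mono v (Nat.le_succ n) he
      show qq K v (n + 1) + ∑ e ∈ blw v (n + 1) \ blw v n, gS K (de e) * gT K (de e) = _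
      rw [h4, qq, qq, ← Finset.sum_sdiff h5]
      abel
    · obtain rfl : n = 0 := hn.resolve_right hv
      have hfin : {e : Γ.E | Γ.src e = v}.Finite := Set.not_infinite.1 hv
      have h2 : S = hfin.toFinset.map ⟨de, Sum.inl_injective⟩ := by
        ext e
        rw [hm, Finset.mem_map]
        constructor
        · intro he
          induction e using dE_cases with
          | h1 e =>
            obtain ⟨rfl, h3⟩ := dv_inj (he : dv _ _ _ = dv _ _ _)
            exact ⟨e, by rw [Set.Finite.mem_toFinset]; rfl, rfl⟩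
          | h2 w h' m =>
            obtain ⟨rfl, -⟩ := dv_inj (he : dv _ _ _ = dv _ _ _)
            exact absurd h' hv
        · rintro ⟨e, he, rfl⟩
          rw [Set.Finite.mem_toFinset] at he
          have h3 : Γ.src e = v := he
          exact Subtype.ext (Prod.ext h3 (idx_zero e (by rw [h3]; exact hv)))
      rw [h2] at hS ⊢
      rw [Finset.map_nonempty] at hS
      rw [Finset.sum_map, qq_zero]
      exact (LPA.family K Γ).sum_eq v hfin.toFinset hS
        (fun e => by rw [Set.Finite.mem_toFinset]; rfl)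

end Run7.h19
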