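import Pool.Agent.Run7.h19.Desing4

/-!
# Presentation of the algebra of a countable graph with disjoint cycles (helper19)
-/

namespace Run7.h19

open Pool.Agent.Helper665_GA NumGraph DisjGraph

section vec

variable {K : Type*} [Field K] {Γ : Graph} [NumGraph Γ]

variable (K Γ) in
/-- The representation. -/
noncomputable def Om : LPA K (dsg Γ) →ₙₐ[K] Module.End K ((dsg Γ).V → LPA K Γ) :=
  LPA.lift (K := K) (ofam K Γ)

open Classical in
theorem Om_p (x : (dsg Γ).V) : Om K Γ (pp K x) = op K x x (qq K x.1.1 x.1.2) :=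
  congrFun (congrArg LeavittFamily.p (LPA.lift_family (K := K) (ofam K Γ))) x

open Classical in
theorem Om_s (e : (dsg Γ).E) :
    Om K Γ (ss K e) = op K ((dsg Γ).src e) ((dsg Γ).rng e) (gS K e) :=
  congrFun (congrArg LeavittFamily.s (LPA.lift_family (K := K) (ofam K Γ))) e

open Classical in
theorem Om_t (e : (dsg Γ).E) :
    Om K Γ (tt K e) = op K ((dsg Γ).rng e) ((dsg Γ).src e) (gT K e) :=
  congrFun (congrArg LeavittFamily.t (LPA.lift_family (K := K) (ofam K Γ))) e

open Classical in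
theorem Om_tl (v : Γ.V) (n : ℕ) (h : n = 0 ∨ InfE v) :
    Om K Γ (tl K v n) = op K (d0 v) (dv v n h) (qq K v n) := by
  induction n with
  | zero => exact Om_p (d0 v)
  | succ n ih =>
    have hv : InfE v := h.resolve_left (Nat.succ_ne_zero n)
    rw [tl_succ hv, map_mul, ih (Or.inr hv), Om_s]
    refine (op_mul' rfl _ _).trans ?_
    rw [gS_df, qq_qq' v (Nat.le_succ n)]
    rfl

/-- The vectors. -/
noncomputable def vc (b : LPA K Γ) (x : (dsg Γ).V) : LPA K Γ :=
  if x.1.2 = 0 then pp K x.1.1 * b else 0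

theorem vc_d0 (b : LPA K Γ) (v : Γ.V) : vc b (d0 v) = pp K v * b := if_pos rfl

open Classical in
theorem single_eq_vc {v : Γ.V} {b : LPA K Γ} (h : pp K v * b = b) :
    (Pi.single (d0 v) b : (dsg Γ).V → LPA K Γ) = vc b := by
  funext x
  by_cases hx : x = d0 v
  · subst hx
    rw [Pi.single_eq_same, vc_d0, h]
  · rw [Pi.single_eq_of_ne hx, vc]
    split_ifs with h1
    · have h2 : x.1.1 ≠ v := fun h3 => hx (Subtype.ext (Prod.ext h3 h1))
      rw [← h, ← mul_assoc, pp_ne h2, zero_mul]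
    · rfl

theorem vc_add (a b : LPA K Γ) : vc (a + b) = vc a + vc b := by
  funext x
  rw [Pi.add_apply, vc, vc, vc]
  split_ifs
  · rw [mul_add]
  · rw [add_zero]

theorem vc_zero : vc (0 : LPA K Γ) = 0 := by
  funext x
  rw [vc, mul_zero, ite_self]
  rfl

theorem vc_smul (r : K) (a : LPA K Γ) : vc (r • a) = r • vc a := by
  funext x
  rw [Pi.smul_apply, vc, vc]
  split_ifs
  · rw [mul_smul_comm]
  · rw [smul_zero]

variable [StarRing K]

open Classical in
theorem Om_tl_star (v : Γ.V) (n : ℕ) (h : n = 0 ∨ InfE v) :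
    Om K Γ (star (tl K v n)) = op K (dv v n h) (d0 v) (qq K v n) := by
  induction n with
  | zero => rw [tl_zero, star_pp]; exact Om_p (d0 v)
  | succ n ih =>
    have hv : InfE v := h.resolve_left (Nat.succ_ne_zero n)
    rw [tl_succ hv, star_mul, star_ss, map_mul, ih (Or.inr hv), Om_t]
    refine (op_mul' rfl _ _).trans ?_
    rw [gT_df, qq_qq v (Nat.le_succ n)]
    rfl

theorem Om_vc (a b : LPA K Γ) : Om K Γ (dhom K Γ a) (vc b) = vc (a * b) := by
  classical
  induction a using LPA.induction generalizing b with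
  | hgen x =>
    cases x with
    | vert v =>
      show Om K Γ (dhom K Γ (pp K v)) (vc b) = vc (pp K v * b)
      rw [dhom_p, Om_p, op_apply]
      have h1 : qq K (d0 v : (dsg Γ).V).1.1 (d0 v : (dsg Γ).V).1.2 = pp K v := qq_zero v
      rw [h1, vc_d0, ← mul_assoc, pp_pp]
      exact single_eq_vc (by rw [← mul_assoc, pp_pp])
    | edge e =>
      show Om K Γ (dhom K Γ (ss K e)) (vc b) = vc (ss K e * b)
      rw [dhom_s, map_mul, Om_tl _ _ (idx_ok e), Om_s]
      have h1 : op K (d0 (Γ.src e)) (dv (Γ.src e) (idx e) (idx_ok e)) (qq K (Γ.src e) (idx e)) *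
          op K ((dsg Γ).src (de e)) ((dsg Γ).rng (de e)) (gS K (de e))
          = op K (d0 (Γ.src e)) (d0 (Γ.rng e)) (ss K e) := by
        refine (op_mul' rfl _ _).trans ?_
        rw [gS_de, qq_ss rfl le_rfl]
        rfl
      rw [h1, op_apply, vc_d0, ← mul_assoc, ss_pp]
      exact single_eq_vc (by rw [← mul_assoc, pp_ss])
    | ghost e =>
      show Om K Γ (dhom K Γ (tt K e)) (vc b) = vc (tt K e * b)
      have h0 : dhom K Γ (tt K e) = tt K (de e) * star (tl K (Γ.src e) (idx e)) := by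
        rw [← star_ss, map_star, dhom_s, star_mul, star_ss]
      rw [h0, map_mul, Om_tl_star _ _ (idx_ok e), Om_t]
      have h1 : op K ((dsg Γ).rng (de e)) ((dsg Γ).src (de e)) (gT K (de e)) *
          op K (dv (Γ.src e) (idx e) (idx_ok e)) (d0 (Γ.src e)) (qq K (Γ.src e) (idx e))
          = op K (d0 (Γ.rng e)) (d0 (Γ.src e)) (tt K e) := by
        refine (op_mul' rfl _ _).trans ?_
        rw [gT_de, tt_qq rfl le_rfl]
        rfl
      rw [h1, op_apply, vc_d0, ← mul_assoc, tt_pp]
      exact single_eq_vc (by rw [← mul_assoc, pp_tt])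
  | hadd a a' ha ha' =>
    rw [map_add, map_add, LinearMap.add_apply, ha, ha', add_mul, vc_add]
  | hzero => rw [map_zero, map_zero, LinearMap.zero_apply, zero_mul, vc_zero]
  | hmul a a' ha ha' =>
    rw [map_mul, map_mul, Module.End.mul_apply, ha', ha, mul_assoc]
  | hsmul r a ha =>
    rw [map_smul, map_smul, LinearMap.smul_apply, ha, smul_mul_assoc, vc_smul]

theorem dhom_injective : Function.Injective (dhom K Γ) := by
  rw [injective_iff_map_eq_zero]
  intro a ha
  have h1 : ∀ b : LPA K Γ, a * b = 0 := by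
    intro b
    have h2 := Om_vc a b
    rw [ha, map_zero, LinearMap.zero_apply] at h2
    obtain ⟨S, hS⟩ := LPA.exists_unit_left (a * b)
    rw [← hS S subset_rfl, Finset.sum_mul]
    apply Finset.sum_eq_zero
    intro v _
    have h3 := congrFun h2 (d0 v)
    rw [vc_d0] at h3
    exact h3.symm
  obtain ⟨S, hS⟩ := LPA.exists_unit_right a
  rw [← hS S subset_rfl, h1]

end vec

variable {K : Type*} [Field K] [StarRing K]

section inverse

variable {A : Type*} [NonUnitalRing A] [StarRing A] [Module K A]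
  {B : Type*} [NonUnitalRing B] [StarRing B] [Module K B]

/-- The inverse of a bijective star homomorphism. -/
theorem exists_star_inverse (f : A →⋆ₙₐ[K] B) (h1 : Function.Injective f)
    (h2 : Function.Surjective f) : ∃ g : B →⋆ₙₐ[K] A, (∀ a, g (f a) = a) ∧ ∀ b, f (g b) = b := by
  choose g hg using h2
  refine ⟨{ toFun := g
            map_smul' := fun r b => h1 (by rw [hg]; simp only [MonoidHom.id_apply, map_smul, hg])
            map_zero' := h1 (by rw [hg, map_zero])
            map_add' := fun a b => h1 (by rw [hg, map_add, hg, hg])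
            map_mul' := fun a b => h1 (by rw [hg, map_mul, hg, hg])
            map_star' := fun a => h1 (by
              show f (g (star a)) = f (star (g a))
              rw [hg, map_star, hg]) }, fun a => h1 (hg (f a)), hg⟩

end inverse

/-- The algebra of a countable graph with disjoint cycles as a corner. -/
theorem exists_pres (Γ : Graph) [Countable Γ.V] [Countable Γ.E]
    (hdj : ∀ e f : Γ.E, Γ.src e = Γ.src f → Cyc e → Cyc f → e = f) :
    ∃ (N : Graph) (_ : LoopGraph N) (_ : Countable N.V) (X : Set N.V)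
      (j : LPA K Γ →⋆ₙₐ[K] LPA K N), Pres N X j := by
  classical
  obtain ⟨hn⟩ := exists_numGraph Γ hdj
  haveI : Countable (dsg Γ).V :=
    inferInstanceAs (Countable {x : Γ.V × ℕ // x.2 = 0 ∨ InfE x.1})
  obtain ⟨ψ, hψ1, hψ2⟩ := exists_star_inverse (nhom K (dsg Γ)) nhom_injective nhom_surjective
  have hpp : ∀ v : (dsg Γ).V, ψ (pp K v) = pp K (G := norm (dsg Γ)) v := by
    intro v
    rw [← nhom_p, hψ1]
  have hsum : ∀ S : Finset (dsg Γ).V, ψ (∑ v ∈ S, pp K v) = ∑ v ∈ S, pp K (G := norm (dsg Γ)) v := by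
    intro S
    rw [map_sum]
    exact Finset.sum_congr rfl fun v _ => hpp v
  refine ⟨norm (dsg Γ), instNorm, ‹Countable (dsg Γ).V›, dX Γ, ψ.comp (dhom K Γ), ?_, ?_, ?_, ?_⟩
  · intro a b hab
    have h1 : dhom K Γ a = dhom K Γ b := by
      have h2 : ψ (dhom K Γ a) = ψ (dhom K Γ b) := hab
      rw [← hψ2 (dhom K Γ a), h2, hψ2]
    exact dhom_injective h1
  · intro a
    obtain ⟨S1, hS1⟩ := LPA.exists_unit_left a
    obtain ⟨S2, hS2⟩ := LPA.exists_unit_right a
    let d : Γ.V ↪ (dsg Γ).V := ⟨d0, fun v w h => (dv_inj h).1⟩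
    have h3 : ∑ v ∈ (S1 ∪ S2).map d, pp K v = dhom K Γ (∑ v ∈ S1 ∪ S2, pp K v) := by
      rw [Finset.sum_map, map_sum]
      exact Finset.sum_congr rfl fun v _ => (dhom_p v).symm
    refine ⟨(S1 ∪ S2).map d, ?_, ?_, ?_⟩
    · intro x hx
      obtain ⟨v, -, rfl⟩ := Finset.mem_map.1 (Finset.mem_coe.1 hx)
      rfl
    · show (∑ v ∈ (S1 ∪ S2).map d, pp K (G := norm (dsg Γ)) v) * ψ (dhom K Γ a) = ψ (dhom K Γ a)
      rw [← hsum, ← map_mul, h3, ← map_mul, hS1 _ Finset.subset_union_left]
    · show ψ (dhom K Γ a) * (∑ v ∈ (S1 ∪ S2).map d, pp K (G := norm (dsg Γ)) v) = ψ (dhom K Γ a)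
      rw [← hsum, ← map_mul, h3, ← map_mul, hS2 _ Finset.subset_union_right]
  · intro S c hS h1 h2
    have hn : ∀ S : Finset (dsg Γ).V, nhom K (dsg Γ) (∑ v ∈ S, pp K (G := norm (dsg Γ)) v)
        = ∑ v ∈ S, pp K v := by
      intro S
      rw [← hsum, hψ2]
    obtain ⟨a, ha⟩ := dcor_sum (K := K) S (nhom K (dsg Γ) c) hS
      (by rw [← hn S, ← map_mul]; exact congrArg _ h1)
      (by rw [← hn S, ← map_mul]; exact congrArg _ h2)
    refine ⟨a, ?_⟩
    show ψ (dhom K Γ a) = c
    rw [ha, hψ1]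
  · intro x
    obtain ⟨⟨v, n⟩, h⟩ := x
    refine ⟨ψ (tl K v n), d0 v, rfl, ?_, ?_, ?_⟩
    · rw [← map_star, ← map_mul, star_tl_tl v n h]
      exact hpp _
    · have h1 := hpp (d0 v)
      rw [← h1, ← map_mul, pp_tl]
    · have h1 := hpp (dv v n h)
      have h2 : ψ (tl K v n) * ψ (pp K (dv v n h)) = ψ (tl K v n) := by
        rw [← map_mul, tl_pp]
      rw [h1] at h2
      exact h2

end Run7.h19
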