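import Pool.Agent.Run7.h19.Factor

/-!
# Frames and the graph monoid (helper19)
-/

namespace Run7.h19

open Pool.Agent.Helper665_GA LoopGraph

variable {K : Type*} [Field K] {G : Graph} [LoopGraph G]

theorem ck_nl {v : G.V} (h : Nl v) : ∑ e ∈ exits v, ss K e * tt K e = pp K v := by
  classical
  have h1 : exits v = out v := by
    rw [exits, Finset.filter_true_of_mem]
    intro e he hc
    exact h.1 ⟨e, (mem_out v e).1 he, hc⟩
  rw [h1]
  apply (LPA.family K G).sum_eq v (out v) _ (mem_out v)
  rw [← h1]; exact h.2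

theorem ck_loop {k : G.V} {c : G.E} (h : LoopAt k c) :
    ss K c * tt K c + ∑ e ∈ exits k, ss K e * tt K e = pp K k := by
  classical
  have h0 : c ∉ exits k := fun hc => (mem_exits.1 hc).2 h.rng
  have h1 : out k = insert c (exits k) := by
    ext e
    rw [Finset.mem_insert, mem_exits, mem_out]
    constructor
    · intro he
      by_cases h2 : G.rng e = k
      · left
        apply loop_unique e c
        · rw [h2, he]
        · rw [h.src, h.rng]
        · rw [he, h.src]
      · exact Or.inr ⟨he, h2⟩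
    · rintro (rfl | h2)
      · exact h.src
      · exact h2.1
  have h2 := (LPA.family K G).sum_eq k (out k) (by rw [h1]; exact Finset.insert_nonempty _ _)
    (mem_out k)
  rw [h1, Finset.sum_insert h0] at h2
  exact h2

/-- The defect of a loop. -/
theorem loop_defect {k : G.V} {c : G.E} (h : LoopAt k c) :
    pp K k - ss K c * tt K c = ∑ e ∈ exits k, ss K e * tt K e := by
  rw [← ck_loop h]; abel

/-- Conditions on the pairs of a frame. -/
structure GoodQ (Q : LPA K G → LPA K G → Prop) (X : Set G.V) : Prop where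
  edge : ∀ x y e, G.src e ∈ X → Q x y → Q (x * ss K e) (tt K e * y)
  ghost : ∀ x y e, G.src e ∈ X → Q x y → Q (x * tt K e) (ss K e * y)
  add : ∀ x y x' y', Q x y → Q x' y' → Q (x + x') (y + y')
  zero : Q 0 0

variable {Q : LPA K G → LPA K G → Prop} {X : Set G.V}

omit [LoopGraph G] in
theorem tt_ss_ne {e f : G.E} (h : e ≠ f) : tt K e * ss K f = 0 :=
  (LPA.family K G).ghost_mul_of_ne e f h

omit [LoopGraph G] in
theorem tt_ss_self (e : G.E) : tt K e * ss K e = pp K (G.rng e) :=
  (LPA.family K G).ghost_mul_self e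

omit [LoopGraph G] in
theorem ss_pp (e : G.E) : ss K e * pp K (G.rng e) = ss K e := (LPA.family K G).mul_rng e

omit [LoopGraph G] in
theorem pp_tt (e : G.E) : pp K (G.rng e) * tt K e = tt K e := (LPA.family K G).rng_mul e

omit [LoopGraph G] in
theorem pp_ss (e : G.E) : pp K (G.src e) * ss K e = ss K e := (LPA.family K G).src_mul e

omit [LoopGraph G] in
theorem tt_pp (e : G.E) : tt K e * pp K (G.src e) = tt K e := (LPA.family K G).mul_src e

omit [LoopGraph G] in
theorem pp_pp (v : G.V) : pp K v * pp K v = pp K v := (LPA.family K G).p_mul_self v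

omit [LoopGraph G] in
theorem pp_ne {v w : G.V} (h : v ≠ w) : pp K v * pp K w = 0 := (LPA.family K G).p_mul_of_ne v w h

/-- The frame of the exits inside a copy of a vertex. -/
theorem fr_exits {S : Set G.V} (hQ : GoodQ Q S) {v : G.V} (hv : v ∈ S) {x y : LPA K G}
    (h0 : Q x y) (h1 : y * x = pp K v) :
    Fr Q (pp K) (x * (∑ e ∈ exits v, ss K e * tt K e) * y) (xs v) := by
  have h := Fr.of_finset (Q := Q) (p := pp K) (exits v) G.rng (fun e => x * ss K e)
    (fun e => tt K e * y) ?_ ?_ ?_ ?_ ?_
  · have e1 : x * (∑ e ∈ exits v, ss K e * tt K e) * y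
        = ∑ e ∈ exits v, x * ss K e * (tt K e * y) := by
      rw [Finset.mul_sum, Finset.sum_mul]
      exact Finset.sum_congr rfl fun e _ => by noncomm_ring
    rw [e1]; exact h
  · intro e he
    exact hQ.edge x y e (by rw [(mem_exits.1 he).1]; exact hv) h0
  · intro e he
    have e2 : tt K e * y * (x * ss K e) = tt K e * (y * x) * ss K e := by noncomm_ring
    rw [e2, h1, ← (mem_exits.1 he).1, tt_pp, tt_ss_self]
  · intro e he f hf hef
    have e2 : tt K e * y * (x * ss K f) = tt K e * (y * x) * ss K f := by noncomm_ring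
    rw [e2, h1, ← (mem_exits.1 he).1, tt_pp, tt_ss_ne hef]
  · intro e _
    rw [mul_assoc, ss_pp]
  · intro e _
    rw [← mul_assoc, pp_tt]

theorem expand_nl (hQ : GoodQ Q X) {v : G.V} (h : Nl v) (hv : v ∈ X) {e : LPA K G}
    {s : Multiset G.V} (hf : Fr Q (pp K) e (v ::ₘ s)) : Fr Q (pp K) e (xs v + s) := by
  obtain ⟨x, y, e', g0, g1, g2, g3, g4, g5, g6, g7⟩ := hf.inv rfl
  have h1 := fr_exits hQ hv g0 g1
  rw [ck_nl h, g2] at h1
  rw [g7]
  exact h1.add g6 (by rw [mul_assoc, g5, mul_zero]) (by rw [← mul_assoc, g4, zero_mul])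

theorem expand_loop (hQ : GoodQ Q X) {k : G.V} {c : G.E} (h : LoopAt k c) (hv : k ∈ X)
    {e : LPA K G} {s : Multiset G.V} (hf : Fr Q (pp K) e (k ::ₘ s)) :
    Fr Q (pp K) e (k ::ₘ (xs k + s)) := by
  obtain ⟨x, y, e', g0, g1, g2, g3, g4, g5, g6, g7⟩ := hf.inv rfl
  have h1 := fr_exits hQ hv g0 g1
  rw [← loop_defect h] at h1
  have h2 : Fr Q (pp K) (x * ss K c * (tt K c * y)) {k} := by
    apply Fr.single
    · exact hQ.edge x y c (by rw [h.src]; exact hv) g0
    · have e2 : tt K c * y * (x * ss K c) = tt K c * (y * x) * ss K c := by noncomm_ring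
      rw [e2, g1, h.inCor'.cp, h.tt_mul_ss]
    · rw [mul_assoc, h.inCor.cp]
    · rw [← mul_assoc, h.inCor'.pc]
  have h3 := h2.add h1 (by
    have e2 : x * ss K c * (tt K c * y) * (x * (pp K k - ss K c * tt K c) * y)
      = x * (ss K c * (tt K c * ((y * x) * pp K k) - tt K c * (y * x) * ss K c * tt K c)) * y := by
      noncomm_ring
    rw [e2, g1, h.inCor'.cp, h.tt_mul_ss, h.inCor'.pc, pp_pp, h.inCor'.cp, sub_self, mul_zero,
      mul_zero, zero_mul]) (by
    have e2 : x * (pp K k - ss K c * tt K c) * y * (x * ss K c * (tt K c * y))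
      = x * (((pp K k * (y * x)) * ss K c - ss K c * (tt K c * (y * x) * ss K c)) * tt K c) * y := by
      noncomm_ring
    rw [e2, g1, h.inCor'.cp, h.tt_mul_ss, h.inCor.cp, pp_pp, h.inCor.pc, sub_self, zero_mul,
      mul_zero, zero_mul])
  have e3 : x * ss K c * (tt K c * y) + x * (pp K k - ss K c * tt K c) * y = x * y := by
    have : x * ss K c * (tt K c * y) + x * (pp K k - ss K c * tt K c) * y = (x * pp K k) * y := by
      noncomm_ring
    rw [this, g2]
  rw [e3] at h3
  have h4 := h3.add g6 (by rw [mul_assoc, g5, mul_zero]) (by rw [← mul_assoc, g4, zero_mul])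
  rw [g7]
  rwa [add_assoc, Multiset.singleton_add] at h4

theorem contract_nl (hQ : GoodQ Q X) {v : G.V} (h : Nl v) (hv : v ∈ X) {e : LPA K G}
    {s : Multiset G.V} (hf : Fr Q (pp K) e (xs v + s)) : Fr Q (pp K) e (v ::ₘ s) := by
  classical
  obtain ⟨e1, e2, g1, g2, g3, g4, g5⟩ := hf.split
  obtain ⟨x, y, k0, k1, k2, k3, k4, k5⟩ := g2.exists_finset
  have hQs : ∀ S : Finset G.E, S ⊆ exits v →
      Q (∑ f ∈ S, x f * tt K f) (∑ f ∈ S, ss K f * y f) := by
    intro S
    induction S using Finset.induction_on with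
    | empty => intro _; simpa using hQ.zero
    | insert a S ha ih =>
      intro hS
      rw [Finset.sum_insert ha, Finset.sum_insert ha]
      have ha' := hS (Finset.mem_insert_self a S)
      exact hQ.add _ _ _ _ (hQ.ghost _ _ a (by rw [(mem_exits.1 ha').1]; exact hv) (k0 a ha'))
        (ih fun f hf => hS (Finset.mem_insert_of_mem hf))
  have h1 : (∑ f ∈ exits v, ss K f * y f) * (∑ f ∈ exits v, x f * tt K f) = pp K v := by
    rw [← ck_nl h, Finset.sum_mul]
    apply Finset.sum_congr rfl
    intro f hf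
    rw [Finset.mul_sum, Finset.sum_eq_single_of_mem f hf]
    · have e2 : ss K f * y f * (x f * tt K f) = ss K f * (y f * x f) * tt K f := by noncomm_ring
      rw [e2, k1 f hf, ss_pp]
    · intro f' hf' hne
      have e2 : ss K f * y f * (x f' * tt K f') = ss K f * (y f * x f') * tt K f' := by
        noncomm_ring
      rw [e2, k2 f hf f' hf' hne.symm, mul_zero, zero_mul]
  have h2 : (∑ f ∈ exits v, x f * tt K f) * (∑ f ∈ exits v, ss K f * y f) = e1 := by
    rw [k5, Finset.sum_mul]
    apply Finset.sum_congr rfl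
    intro f hf
    rw [Finset.mul_sum, Finset.sum_eq_single_of_mem f hf]
    · have e2 : x f * tt K f * (ss K f * y f) = x f * (tt K f * ss K f) * y f := by noncomm_ring
      rw [e2, tt_ss_self, k3 f hf]
    · intro f' hf' hne
      have e2 : x f * tt K f * (ss K f' * y f') = x f * (tt K f * ss K f') * y f' := by
        noncomm_ring
      rw [e2, tt_ss_ne hne.symm, mul_zero, zero_mul]
  have h3 : Fr Q (pp K) e1 {v} := by
    rw [← h2]
    apply Fr.single (hQs _ subset_rfl) h1
    · rw [Finset.sum_mul]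
      apply Finset.sum_congr rfl
      intro f hf
      rw [mul_assoc, ← (mem_exits.1 hf).1, tt_pp]
    · rw [Finset.mul_sum]
      apply Finset.sum_congr rfl
      intro f hf
      rw [← mul_assoc, ← (mem_exits.1 hf).1, pp_ss]
  rw [g1, ← Multiset.singleton_add]
  exact h3.add g3 g4 g5

theorem contract_loop (hQ : GoodQ Q X) {k : G.V} {c : G.E} (h : LoopAt k c) (hv : k ∈ X)
    {e : LPA K G} {s : Multiset G.V} (hf : Fr Q (pp K) e (k ::ₘ (xs k + s))) :
    Fr Q (pp K) e (k ::ₘ s) := by
  classical
  rw [← Multiset.singleton_add] at hf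
  obtain ⟨e0, e12, g1, g2, g3, g4, g5⟩ := hf.split
  obtain ⟨e1, e2, j1, j2, j3, j4, j5⟩ := g3.split
  obtain ⟨x0, y0, l0, l1, l2, l3, l4⟩ := g2.of_singleton
  obtain ⟨x, y, k0, k1, k2, k3, k4, k5⟩ := j2.exists_finset
  have he1 := j2.idem
  have he2 := j3.idem
  have hx : ∀ f ∈ exits k, e1 * x f = x f := by
    intro i hi
    rw [k5, Finset.sum_mul, Finset.sum_eq_single_of_mem i hi]
    · rw [mul_assoc, k1 i hi, k3 i hi]
    · intro j hj hji
      rw [mul_assoc, k2 j hj i hi hji, mul_zero]
  have hy : ∀ f ∈ exits k, y f * e1 = y f := by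
    intro i hi
    rw [k5, Finset.mul_sum, Finset.sum_eq_single_of_mem i hi]
    · rw [← mul_assoc, k1 i hi, k4 i hi]
    · intro j hj hji
      rw [← mul_assoc, k2 i hi j hj hji.symm, zero_mul]
  have m1 : e12 * e1 = e1 := by rw [j1, add_mul, he1, j5, add_zero]
  have m2 : e1 * e12 = e1 := by rw [j1, mul_add, he1, j4, add_zero]
  have m3 : e0 * e1 = 0 := by rw [← m1, ← mul_assoc, g4, zero_mul]
  have m4 : e1 * e0 = 0 := by rw [← m2, mul_assoc, g5, mul_zero]
  have hy0e : y0 * e0 = y0 := by rw [l4, ← mul_assoc, l1, l3]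
  have hx0e : e0 * x0 = x0 := by rw [l4, mul_assoc, l1, l2]
  have o1 : ∀ f ∈ exits k, y0 * x f = 0 := by
    intro f hf
    rw [← hy0e, ← hx f hf, mul_assoc, ← mul_assoc e0, m3, zero_mul, mul_zero]
  have o2 : ∀ f ∈ exits k, y f * x0 = 0 := by
    intro f hf
    rw [← hy f hf, ← hx0e, mul_assoc, ← mul_assoc e1, m4, zero_mul, mul_zero]
  have hQs : ∀ S : Finset G.E, S ⊆ exits k →
      Q (∑ f ∈ S, x f * tt K f) (∑ f ∈ S, ss K f * y f) := by
    intro S
    induction S using Finset.induction_on with
    | empty => intro _; simpa using hQ.zero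
    | insert a S ha ih =>
      intro hS
      rw [Finset.sum_insert ha, Finset.sum_insert ha]
      have ha' := hS (Finset.mem_insert_self a S)
      exact hQ.add _ _ _ _ (hQ.ghost _ _ a (by rw [(mem_exits.1 ha').1]; exact hv) (k0 a ha'))
        (ih fun f hf => hS (Finset.mem_insert_of_mem hf))
  set xx := ∑ f ∈ exits k, x f * tt K f with hxx
  set yy := ∑ f ∈ exits k, ss K f * y f with hyy
  have hcf : ∀ f ∈ exits k, c ≠ f := by
    rintro f hf rfl
    exact (mem_exits.1 hf).2 h.rng
  have h1 : yy * xx = ∑ e ∈ exits k, ss K e * tt K e := by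
    rw [hyy, Finset.sum_mul]
    apply Finset.sum_congr rfl
    intro f hf
    rw [hxx, Finset.mul_sum, Finset.sum_eq_single_of_mem f hf]
    · have e2 : ss K f * y f * (x f * tt K f) = ss K f * (y f * x f) * tt K f := by noncomm_ring
      rw [e2, k1 f hf, ss_pp]
    · intro f' hf' hne
      have e2 : ss K f * y f * (x f' * tt K f') = ss K f * (y f * x f') * tt K f' := by
        noncomm_ring
      rw [e2, k2 f hf f' hf' hne.symm, mul_zero, zero_mul]
  have h2 : xx * yy = e1 := by
    rw [k5, hxx, Finset.sum_mul]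
    apply Finset.sum_congr rfl
    intro f hf
    rw [hyy, Finset.mul_sum, Finset.sum_eq_single_of_mem f hf]
    · have e2 : x f * tt K f * (ss K f * y f) = x f * (tt K f * ss K f) * y f := by noncomm_ring
      rw [e2, tt_ss_self, k3 f hf]
    · intro f' hf' hne
      have e2 : x f * tt K f * (ss K f' * y f') = x f * (tt K f * ss K f') * y f' := by
        noncomm_ring
      rw [e2, tt_ss_ne hne.symm, mul_zero, zero_mul]
  have p1 : ss K c * y0 * xx = 0 := by
    rw [hxx, Finset.mul_sum]
    apply Finset.sum_eq_zero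
    intro f hf
    have e2 : ss K c * y0 * (x f * tt K f) = ss K c * (y0 * x f) * tt K f := by noncomm_ring
    rw [e2, o1 f hf, mul_zero, zero_mul]
  have p2 : yy * (x0 * tt K c) = 0 := by
    rw [hyy, Finset.sum_mul]
    apply Finset.sum_eq_zero
    intro f hf
    have e2 : ss K f * y f * (x0 * tt K c) = ss K f * (y f * x0) * tt K c := by noncomm_ring
    rw [e2, o2 f hf, mul_zero, zero_mul]
  have p3 : x0 * tt K c * yy = 0 := by
    rw [hyy, Finset.mul_sum]
    apply Finset.sum_eq_zero
    intro f hf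
    have e2 : x0 * tt K c * (ss K f * y f) = x0 * (tt K c * ss K f) * y f := by noncomm_ring
    rw [e2, tt_ss_ne (hcf f hf), mul_zero, zero_mul]
  have p4 : xx * (ss K c * y0) = 0 := by
    rw [hxx, Finset.sum_mul]
    apply Finset.sum_eq_zero
    intro f hf
    have e2 : x f * tt K f * (ss K c * y0) = x f * (tt K f * ss K c) * y0 := by noncomm_ring
    rw [e2, tt_ss_ne (hcf f hf).symm, mul_zero, zero_mul]
  have h3 : Fr Q (pp K) (e0 + e1) {k} := by
    have q1 : (x0 * tt K c + xx) * (ss K c * y0 + yy) = e0 + e1 := by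
      have e2 : x0 * tt K c * (ss K c * y0) = x0 * (tt K c * ss K c) * y0 := by noncomm_ring
      rw [add_mul, mul_add, mul_add, p3, p4, h2, e2, h.tt_mul_ss, l2, ← l4]
      abel
    have q2 : (ss K c * y0 + yy) * (x0 * tt K c + xx) = pp K k := by
      have e2 : ss K c * y0 * (x0 * tt K c) = ss K c * (y0 * x0) * tt K c := by noncomm_ring
      rw [add_mul, mul_add, mul_add, p1, p2, h1, e2, l1, h.inCor.cp, ← ck_loop h]
      abel
    rw [← q1]
    apply Fr.single _ q2
    · rw [add_mul, mul_assoc, h.inCor'.cp, hxx, Finset.sum_mul]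
      congr 1
      apply Finset.sum_congr rfl
      intro f hf
      have e3 := tt_pp (K := K) f
      rw [(mem_exits.1 hf).1] at e3
      rw [mul_assoc, e3]
    · rw [mul_add, ← mul_assoc, h.inCor.pc, hyy, Finset.mul_sum]
      congr 1
      apply Finset.sum_congr rfl
      intro f hf
      have e3 := pp_ss (K := K) f
      rw [(mem_exits.1 hf).1] at e3
      rw [← mul_assoc, e3]
    · exact hQ.add _ _ _ _ (hQ.ghost _ _ c (by rw [h.src]; exact hv) l0) (hQs _ subset_rfl)
  have m5 : e12 * e2 = e2 := by rw [j1, add_mul, he2, j4, zero_add]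
  have m6 : e2 * e12 = e2 := by rw [j1, mul_add, he2, j5, zero_add]
  have h4 := h3.add j3 (by
    rw [add_mul, j4, add_zero, ← m5, ← mul_assoc, g4, zero_mul]) (by
    rw [mul_add, j5, add_zero, ← m6, mul_assoc, g5, mul_zero])
  rw [g1, j1, ← add_assoc, ← Multiset.singleton_add]
  exact h4

/-- Frames are compatible with the relation of the graph monoid. -/
theorem Fr_congr (hQ : GoodQ Q Set.univ) {a b : Multiset G.V} (h : Mc G a b) :
    ∀ e, Fr Q (pp K) e a ↔ Fr Q (pp K) e b := by
  have h' : AddConGen.Rel (Mgen G) a b := h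
  induction h' with
  | of a b hab =>
    intro e
    cases hab with
    | nl v hv =>
      constructor
      · intro hf
        have := expand_nl hQ hv (Set.mem_univ v) (s := 0) (by simpa using hf)
        simpa using this
      · intro hf
        have := contract_nl hQ hv (Set.mem_univ v) (s := 0) (by simpa using hf)
        simpa using this
    | lp v hv =>
      obtain ⟨c, hc⟩ := exists_loopAt hv
      constructor
      · intro hf
        have := expand_loop hQ hc (Set.mem_univ v) (s := 0) (by simpa using hf)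
        simpa using this
      · intro hf
        have := contract_loop hQ hc (Set.mem_univ v) (s := 0) (by simpa using hf)
        simpa using this
  | refl a => exact fun e => Iff.rfl
  | symm _ ih => exact fun e => (ih (AddConGen.Rel.symm h) e).symm
  | trans h1 h2 ih1 ih2 => exact fun e => (ih1 h1 e).trans (ih2 h2 e)
  | add h1 h2 ih1 ih2 =>
    intro e
    constructor
    · intro hf
      obtain ⟨e1, e2, g1, g2, g3, g4, g5⟩ := hf.split
      rw [g1]
      exact ((ih1 h1 e1).1 g2).add ((ih2 h2 e2).1 g3) g4 g5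
    · intro hf
      obtain ⟨e1, e2, g1, g2, g3, g4, g5⟩ := hf.split
      rw [g1]
      exact ((ih1 h1 e1).2 g2).add ((ih2 h2 e2).2 g3) g4 g5

end Run7.h19
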