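import Pool.Agent.Run7.h19.Level

/-!
# Star homomorphisms from families (helper19)
-/

namespace Run7.h19

open Pool.Agent.Helper665_GA

variable {Γ : Graph} {A : Type*} [NonUnitalRing A] [StarRing A]

/-- A family of projections and isometries which satisfies the relations. -/
structure SFam (Γ : Graph) (A : Type*) [NonUnitalRing A] [StarRing A] where
  p : Γ.V → A
  s : Γ.E → A
  star_p : ∀ v, star (p v) = p v
  idem : ∀ v, p v * p v = p v
  orth : ∀ v w, v ≠ w → p v * p w = 0
  src_mul : ∀ e, p (Γ.src e) * s e = s e
  mul_rng : ∀ e, s e * p (Γ.rng e) = s e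
  isom : ∀ e, star (s e) * s e = p (Γ.rng e)
  range_orth : ∀ e f, e ≠ f → star (s e) * s f = 0
  sum_eq : ∀ (v : Γ.V) (S : Finset Γ.E), S.Nonempty → (∀ e, e ∈ S ↔ Γ.src e = v) →
    ∑ e ∈ S, s e * star (s e) = p v

/-- The underlying Leavitt family. -/
def SFam.toL (F : SFam Γ A) : LeavittFamily Γ A where
  p := F.p
  s := F.s
  t := fun e => star (F.s e)
  p_mul_self := F.idem
  p_mul_of_ne := F.orth
  src_mul := F.src_mul
  mul_rng := F.mul_rng
  rng_mul e := by
    conv_lhs => rw [← F.star_p, ← star_mul, F.mul_rng]
  mul_src e := by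
    conv_lhs => rw [← F.star_p, ← star_mul, F.src_mul]
  ghost_mul_self := F.isom
  ghost_mul_of_ne := F.range_orth
  sum_eq := F.sum_eq

variable {K : Type*} [Field K] [StarRing K] [Module K A] [IsScalarTower K A A]
  [SMulCommClass K A A] [StarModule K A]

/-- The star homomorphism of a family. -/
noncomputable def SFam.hom (K : Type*) [Field K] [StarRing K] [Module K A] [IsScalarTower K A A]
    [SMulCommClass K A A] [StarModule K A] (F : SFam Γ A) : LPA K Γ →⋆ₙₐ[K] A :=
  { LPA.lift (K := K) F.toL with
    map_star' := LPA.map_star_of (LPA.lift (K := K) F.toL)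
      (fun v => by
        have : LPA.lift (K := K) F.toL ((LPA.family K Γ).p v) = F.p v :=
          congrFun (congrArg LeavittFamily.p (LPA.lift_family (K := K) F.toL)) v
        rw [this, F.star_p])
      (fun e => by
        have h1 : LPA.lift (K := K) F.toL ((LPA.family K Γ).s e) = F.s e :=
          congrFun (congrArg LeavittFamily.s (LPA.lift_family (K := K) F.toL)) e
        have h2 : LPA.lift (K := K) F.toL ((LPA.family K Γ).t e) = star (F.s e) :=
          congrFun (congrArg LeavittFamily.t (LPA.lift_family (K := K) F.toL)) e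
        rw [h1, h2]) }

theorem SFam.hom_p (F : SFam Γ A) (v : Γ.V) : F.hom K (pp K v) = F.p v :=
  congrFun (congrArg LeavittFamily.p (LPA.lift_family (K := K) F.toL)) v

theorem SFam.hom_s (F : SFam Γ A) (e : Γ.E) : F.hom K (ss K e) = F.s e :=
  congrFun (congrArg LeavittFamily.s (LPA.lift_family (K := K) F.toL)) e

theorem SFam.hom_t (F : SFam Γ A) (e : Γ.E) : F.hom K (tt K e) = star (F.s e) :=
  congrFun (congrArg LeavittFamily.t (LPA.lift_family (K := K) F.toL)) e

omit [IsScalarTower K A A] [SMulCommClass K A A] [StarModule K A] in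
/-- Star homomorphisms are determined by the vertices and the edges. -/
theorem star_hom_ext {f g : LPA K Γ →⋆ₙₐ[K] A} (hp : ∀ v, f (pp K v) = g (pp K v))
    (hs : ∀ e, f (ss K e) = g (ss K e)) (x : LPA K Γ) : f x = g x := by
  have ht : ∀ e, f (tt K e) = g (tt K e) := by
    intro e
    have h : star (ss K e) = tt K e := LPA.star_s e
    rw [← h, map_star, map_star, hs]
  induction x using LPA.induction with
  | hgen x =>
    cases x with
    | vert v => exact hp v
    | edge e => exact hs e
    | ghost e => exact ht e
  | hadd a b ha hb => rw [map_add, map_add, ha, hb]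
  | hzero => rw [map_zero, map_zero]
  | hmul a b ha hb => rw [map_mul, map_mul, ha, hb]
  | hsmul r a ha => rw [map_smul, map_smul, ha]

omit [IsScalarTower K A A] [SMulCommClass K A A] [StarModule K A] in
/-- The images of the generators generate the image. -/
theorem map_mem_of_gen (f : LPA K Γ →⋆ₙₐ[K] A) (S : NonUnitalSubalgebra K A)
    (hp : ∀ v, f (pp K v) ∈ S) (hs : ∀ e, f (ss K e) ∈ S) (ht : ∀ e, f (tt K e) ∈ S)
    (x : LPA K Γ) : f x ∈ S := by
  induction x using LPA.induction with
  | hgen x =>
    cases x with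
    | vert v => exact hp v
    | edge e => exact hs e
    | ghost e => exact ht e
  | hadd a b ha hb => rw [map_add]; exact add_mem ha hb
  | hzero => rw [map_zero]; exact zero_mem _
  | hmul a b ha hb => rw [map_mul]; exact mul_mem ha hb
  | hsmul r a ha => rw [map_smul]; exact S.smul_mem r ha

end Run7.h19
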