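import Pool.Agent.Run7.h19.Order
import Pool.Agent.Run7.h19.StarHom

/-!
# Extensions of finite graphs (helper19)
-/

namespace Run7.h19

open Pool.Agent.Helper665_GA LoopGraph

/-- New vertices, new loops and the other resolved new vertices. -/
structure XB (H : Graph) where
  N : Type
  L : N → Prop
  T : N → Prop

/-- Data for an extension of a graph: new vertices, new loops, new edges. -/
structure XD (H : Graph) extends XB H where
  n : H.V ⊕ N → ℕ
  r : ∀ v, Fin (n v) → H.V ⊕ N

variable {H : Graph}

/-- The extended graph. -/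
abbrev XD.graph (D : XD H) : Graph where
  V := H.V ⊕ D.N
  E := H.E ⊕ ({x // D.L x} ⊕ Σ v, Fin (D.n v))
  src := Sum.elim (fun e => Sum.inl (H.src e)) (Sum.elim (fun l => Sum.inr l.1) fun x => x.1)
  rng := Sum.elim (fun e => Sum.inl (H.rng e)) (Sum.elim (fun l => Sum.inr l.1)
    fun x => D.r x.1 x.2)

instance (D : XD H) [Finite H.V] [Finite D.N] : Finite D.graph.V :=
  inferInstanceAs (Finite (H.V ⊕ D.N))

instance (D : XD H) [Finite H.V] [Finite H.E] [Finite D.N] : Finite D.graph.E := by
  have : Finite (Σ v, Fin (D.n v)) := inferInstance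
  exact inferInstanceAs (Finite (H.E ⊕ ({x // D.L x} ⊕ Σ v, Fin (D.n v))))

section rank

variable {D : XD H} {R : H.V ⊕ D.N → ℕ}

/-- The rank function of an extension. -/
structure XD.Ranked (D : XD H) (R : H.V ⊕ D.N → ℕ) : Prop where
  old : ∀ e : H.E, H.rng e ≠ H.src e → R (Sum.inl (H.rng e)) < R (Sum.inl (H.src e))
  new : ∀ v j, R (D.r v j) < R v

theorem XD.Ranked.edge (h : D.Ranked R) (e : D.graph.E) :
    D.graph.rng e = D.graph.src e ∨ R (D.graph.rng e) < R (D.graph.src e) := by
  rcases e with e | (l | ⟨v, j⟩)
  · by_cases h1 : H.rng e = H.src e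
    · left; show Sum.inl (H.rng e) = Sum.inl (H.src e); rw [h1]
    · right; exact h.old e h1
  · left; rfl
  · right; exact h.new v j

theorem XD.Ranked.reach (h : D.Ranked R) {v w : D.graph.V} (hr : Reach v w) :
    v = w ∨ R w < R v := by
  induction hr with
  | refl => exact Or.inl rfl
  | tail h1 h2 ih =>
    obtain ⟨e, rfl, rfl⟩ := h2
    rcases ih with h3 | h3
    · rcases h.edge e with h4 | h4
      · left; rw [h3, h4]
      · right; rw [h3]; exact h4
    · right
      rcases h.edge e with h4 | h4
      · rw [h4]; exact h3
      · exact h4.trans h3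

/-- The extended graph is again a graph whose only cycles are loops. -/
@[implicit_reducible]
noncomputable def XD.loopGraph [LoopGraph H] (h : D.Ranked R) [Finite H.V] [Finite H.E]
    [Finite D.N] : LoopGraph D.graph where
  out v := (Set.toFinite {e | D.graph.src e = v}).toFinset
  mem_out v e := by simp
  antisymm v w h1 h2 := by
    rcases h.reach h1 with h3 | h3
    · exact h3
    · rcases h.reach h2 with h4 | h4
      · exact h4.symm
      · omega
  loop_unique := by
    intro e f he hf hef
    have hne : ∀ (v : H.V ⊕ D.N) (j : Fin (D.n v)), D.r v j ≠ v := by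
      intro v j h1
      have := h.new v j
      rw [h1] at this
      exact lt_irrefl _ this
    rcases e with e | (l | ⟨v, j⟩)
    · rcases f with f | (l' | ⟨v', j'⟩)
      · congr 1
        exact loop_unique e f (Sum.inl_injective he) (Sum.inl_injective hf)
          (Sum.inl_injective hef)
      · exact absurd hef (by simp [XD.graph])
      · exact absurd hf (hne v' j')
    · rcases f with f | (l' | ⟨v', j'⟩)
      · exact absurd hef (by simp [XD.graph])
      · congr 2
        exact Subtype.ext (Sum.inr_injective hef)
      · exact absurd hf (hne v' j')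
    · exact absurd he (hne v j)

end rank

variable {K : Type*} [Field K] [StarRing K] {G : Graph}

/-- The projections of an extension. -/
noncomputable def PV {B : XB H} (σ : LPA K H →⋆ₙₐ[K] LPA K G) (P : B.N → LPA K G) :
    H.V ⊕ B.N → LPA K G := Sum.elim (fun v => σ (pp K v)) P

open Classical in
/-- The defect projections of an extension. -/
noncomputable def Df {B : XB H} (σ : LPA K H →⋆ₙₐ[K] LPA K G) (P C : B.N → LPA K G) :
    H.V ⊕ B.N → LPA K G :=
  Sum.elim (fun v => if ∀ e, H.src e ≠ v then σ (pp K v) else 0)
    fun x => if B.L x then P x - C x * star (C x) else if B.T x then P x else 0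

/-- Data for the extension of a star homomorphism. -/
structure XSide (D : XD H) (σ : LPA K H →⋆ₙₐ[K] LPA K G) where
  P : D.N → LPA K G
  C : D.N → LPA K G
  X : ∀ v, Fin (D.n v) → LPA K G
  star_P : ∀ x, star (P x) = P x
  idem : ∀ x, P x * P x = P x
  orth : ∀ x y, x ≠ y → P x * P y = 0
  orth' : ∀ v x, σ (pp K v) * P x = 0
  isom : ∀ x, D.L x → star (C x) * C x = P x
  PC : ∀ x, D.L x → P x * C x = C x
  CP : ∀ x, D.L x → C x * P x = C x
  XX : ∀ v i, star (X v i) * X v i = PV (B := D.toXB) σ P (D.r v i)
  XX' : ∀ v i j, i ≠ j → star (X v i) * X v j = 0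
  XP : ∀ v i, X v i * PV (B := D.toXB) σ P (D.r v i) = X v i
  sum : ∀ v, ∑ i, X v i * star (X v i) = Df (B := D.toXB) σ P C v

variable {D : XD H} {σ : LPA K H →⋆ₙₐ[K] LPA K G} (S : XSide D σ)

namespace XSide

/-- The projections. -/
noncomputable def q (v : H.V ⊕ D.N) : LPA K G := PV (B := D.toXB) σ S.P v

theorem q_inl (v : H.V) : S.q (Sum.inl v) = σ (pp K v) := rfl

theorem q_inr (x : D.N) : S.q (Sum.inr x) = S.P x := rfl

theorem orth'' (v : H.V) (x : D.N) : S.P x * σ (pp K v) = 0 := by
  rw [← star_star (S.P x * _), star_mul, S.star_P, ← map_star, star_pp, S.orth', star_zero]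

theorem star_q (v : H.V ⊕ D.N) : star (S.q v) = S.q v := by
  rcases v with v | x
  · rw [q_inl, ← map_star, star_pp]
  · exact S.star_P x

theorem q_idem (v : H.V ⊕ D.N) : S.q v * S.q v = S.q v := by
  rcases v with v | x
  · rw [q_inl, ← map_mul]
    congr 1
    exact (LPA.family K H).p_mul_self v
  · exact S.idem x

theorem q_orth {v w : H.V ⊕ D.N} (h : v ≠ w) : S.q v * S.q w = 0 := by
  rcases v with v | x
  · rcases w with w | y
    · rw [q_inl, q_inl, ← map_mul]
      have h1 : pp K v * pp K w = 0 :=
        (LPA.family K H).p_mul_of_ne v w fun h' => h (by rw [h'])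
      rw [h1, map_zero]
    · exact S.orth' v y
  · rcases w with w | y
    · exact S.orth'' w x
    · exact S.orth x y fun h' => h (by rw [h'])

theorem df_star (v : H.V ⊕ D.N) : star (Df (B := D.toXB) σ S.P S.C v) = Df (B := D.toXB) σ S.P S.C v := by
  rw [← S.sum, star_sum]
  exact Finset.sum_congr rfl fun i _ => by rw [star_mul, star_star]

theorem q_df (v : H.V ⊕ D.N) : S.q v * Df (B := D.toXB) σ S.P S.C v = Df (B := D.toXB) σ S.P S.C v := by
  rcases v with v | x
  · rw [q_inl]
    simp only [Df, Sum.elim_inl]
    split_ifs
    · exact S.q_idem (Sum.inl v)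
    · exact mul_zero _
  · rw [q_inr]
    simp only [Df, Sum.elim_inr]
    split_ifs with h1 h2
    · rw [mul_sub, S.idem, ← mul_assoc, S.PC x h1]
    · exact S.idem x
    · exact mul_zero _

theorem df_X (v : H.V ⊕ D.N) (i : Fin (D.n v)) : Df (B := D.toXB) σ S.P S.C v * S.X v i = S.X v i := by
  rw [← S.sum, Finset.sum_mul, Finset.sum_eq_single_of_mem i (Finset.mem_univ i)]
  · rw [mul_assoc, S.XX, S.XP]
  · intro j _ hj
    rw [mul_assoc, S.XX' v j i hj, mul_zero]

theorem q_X (v : H.V ⊕ D.N) (i : Fin (D.n v)) : S.q v * S.X v i = S.X v i := by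
  rw [← df_X, ← mul_assoc, q_df]

theorem n_eq (hP : ∀ v, S.q v ≠ 0) {v : H.V ⊕ D.N} (h : Df (B := D.toXB) σ S.P S.C v = 0)
    (j : Fin (D.n v)) : False := by
  have h1 := S.df_X v j
  rw [h, zero_mul] at h1
  apply hP (D.r v j)
  have h2 := S.XX v j
  rw [← h1, mul_zero] at h2
  exact h2.symm

theorem star_src {a b c d : LPA K G} (ha : a * c = c) (hb : b * d = d) (has : star a = a)
    (hab : a * b = 0) : star c * d = 0 := by
  have h1 : star c * a = star c := by
    conv_lhs => rw [← has, ← star_mul, ha]
  rw [← h1, ← hb, mul_assoc, ← mul_assoc a, hab, zero_mul, mul_zero]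

/-- The edges. -/
noncomputable def sE : D.graph.E → LPA K G
  | Sum.inl e => σ (ss K e)
  | Sum.inr (Sum.inl l) => S.C l.1
  | Sum.inr (Sum.inr x) => S.X x.1 x.2

theorem q_sE (e : D.graph.E) : S.q (D.graph.src e) * S.sE e = S.sE e := by
  rcases e with e | (l | ⟨v, j⟩)
  · show σ (pp K (H.src e)) * σ (ss K e) = σ (ss K e)
    rw [← map_mul]
    congr 1
    exact (LPA.family K H).src_mul e
  · exact S.PC l.1 l.2
  · exact S.q_X v j

theorem sE_q (e : D.graph.E) : S.sE e * S.q (D.graph.rng e) = S.sE e := by
  rcases e with e | (l | ⟨v, j⟩)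
  · show σ (ss K e) * σ (pp K (H.rng e)) = σ (ss K e)
    rw [← map_mul]
    congr 1
    exact (LPA.family K H).mul_rng e
  · exact S.CP l.1 l.2
  · exact S.XP v j

theorem star_sE_sE (e : D.graph.E) : star (S.sE e) * S.sE e = S.q (D.graph.rng e) := by
  rcases e with e | (l | ⟨v, j⟩)
  · show star (σ (ss K e)) * σ (ss K e) = σ (pp K (H.rng e))
    rw [← map_star, ← map_mul]
    congr 1
    rw [LPA.star_s]
    exact (LPA.family K H).ghost_mul_self e
  · exact S.isom l.1 l.2
  · exact S.XX v j

theorem sE_orth {e f : D.graph.E} (h : e ≠ f) : star (S.sE e) * S.sE f = 0 := by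
  by_cases hs : D.graph.src e = D.graph.src f
  · rcases e with e | (l | ⟨v, j⟩)
    · rcases f with f | (l' | ⟨v', j'⟩)
      · show star (σ (ss K e)) * σ (ss K f) = 0
        rw [← map_star, ← map_mul, LPA.star_s]
        have : tt K e * ss K f = 0 :=
          (LPA.family K H).ghost_mul_of_ne e f fun h' => h (by rw [h'])
        rw [this, map_zero]
      · exact absurd hs (by simp [XD.graph])
      · have hv : v' = Sum.inl (H.src e) := hs.symm
        subst hv
        have h0 : Df (B := D.toXB) σ S.P S.C (Sum.inl (H.src e)) = 0 := by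
          simp only [Df, Sum.elim_inl]
          rw [if_neg]
          intro h1
          exact h1 e rfl
        have h1 := S.df_X _ j'
        rw [h0, zero_mul] at h1
        show star (σ (ss K e)) * S.X _ j' = 0
        rw [← h1, mul_zero]
    · rcases f with f | (l' | ⟨v', j'⟩)
      · exact absurd hs (by simp [XD.graph])
      · exfalso
        apply h
        congr 2
        exact Subtype.ext (Sum.inr_injective hs)
      · have hv : v' = Sum.inr l.1 := hs.symm
        subst hv
        have h1 := S.df_X _ j'
        show star (S.C l.1) * S.X _ j' = 0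
        rw [← h1, ← mul_assoc]
        have h2 : star (S.C l.1) * Df (B := D.toXB) σ S.P S.C (Sum.inr l.1) = 0 := by
          simp only [Df, Sum.elim_inr]
          rw [if_pos l.2, mul_sub, ← mul_assoc, S.isom _ l.2]
          have h3 : star (S.C l.1) * S.P l.1 = star (S.C l.1) := by
            conv_lhs => rw [← S.star_P, ← star_mul, S.PC _ l.2]
          have h4 : S.P l.1 * star (S.C l.1) = star (S.C l.1) := by
            conv_lhs => rw [← S.star_P, ← star_mul, S.CP _ l.2]
          rw [h3, h4, sub_self]
        rw [h2, zero_mul]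
    · rcases f with f | (l' | ⟨v', j'⟩)
      · have hv : v = Sum.inl (H.src f) := hs
        subst hv
        have h0 : Df (B := D.toXB) σ S.P S.C (Sum.inl (H.src f)) = 0 := by
          simp only [Df, Sum.elim_inl]
          rw [if_neg]
          intro h1
          exact h1 f rfl
        have h1 := S.df_X _ j
        rw [h0, zero_mul] at h1
        show star (S.X _ j) * σ (ss K f) = 0
        rw [← h1, star_zero, zero_mul]
      · have hv : v = Sum.inr l'.1 := hs
        subst hv
        have h1 := S.df_X _ j
        show star (S.X _ j) * S.C l'.1 = 0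
        rw [← h1, star_mul, S.df_star, mul_assoc]
        have h2 : Df (B := D.toXB) σ S.P S.C (Sum.inr l'.1) * S.C l'.1 = 0 := by
          simp only [Df, Sum.elim_inr]
          rw [if_pos l'.2, sub_mul, mul_assoc, S.isom _ l'.2, S.PC _ l'.2, S.CP _ l'.2, sub_self]
        rw [h2, mul_zero]
      · have hv : v = v' := hs
        subst hv
        apply S.XX' v j j'
        rintro rfl
        exact h rfl
  · exact star_src (S.q_sE e) (S.q_sE f) (S.star_q _) (S.q_orth hs)

/-- The family of the extension. -/
noncomputable def fam [Finite H.V] [Finite H.E] [Finite D.N] (hP : ∀ v, S.q v ≠ 0) :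
    SFam D.graph (LPA K G) where
  p := S.q
  s := S.sE
  star_p := S.star_q
  idem := S.q_idem
  orth _ _ h := S.q_orth h
  src_mul := S.q_sE
  mul_rng := S.sE_q
  isom := S.star_sE_sE
  range_orth _ _ h := S.sE_orth h
  sum_eq := by
    classical
    have : Fintype H.E := Fintype.ofFinite _
    intro v F hF hv
    have hX : ∀ v (T : Finset (Fin (D.n v))), (∑ e ∈ T.map ⟨fun j => (Sum.inr (Sum.inr ⟨v, j⟩) :
        D.graph.E), fun i j h => by simpa using h⟩, S.sE e * star (S.sE e))
        = ∑ j ∈ T, S.X v j * star (S.X v j) := by
      intro v T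
      rw [Finset.sum_map]
      rfl
    have hzero : Df (B := D.toXB) σ S.P S.C v = 0 → ∀ j : Fin (D.n v), False := fun h j => S.n_eq hP h j
    rcases v with v | x
    · by_cases hv0 : ∀ e, H.src e ≠ v
      · have h1 : F = Finset.univ.map ⟨fun j => (Sum.inr (Sum.inr ⟨Sum.inl v, j⟩) :
            D.graph.E), fun i j h => by simpa using h⟩ := by
          ext e
          rw [hv, Finset.mem_map]
          constructor
          · intro h
            rcases e with e | (l | ⟨w, j⟩)
            · exact absurd (Sum.inl_injective h) (hv0 e)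
            · exact absurd h (by simp [XD.graph])
            · have hw : w = Sum.inl v := h
              subst hw
              exact ⟨j, Finset.mem_univ _, rfl⟩
          · rintro ⟨j, -, rfl⟩
            rfl
        rw [h1, hX, S.sum]
        simp only [Df, Sum.elim_inl]
        rw [if_pos hv0]; rfl
      · have h0 : Df (B := D.toXB) σ S.P S.C (Sum.inl v) = 0 := by
          simp only [Df, Sum.elim_inl]
          rw [if_neg hv0]
        push Not at hv0
        obtain ⟨e0, he0⟩ := hv0
        have h1 : F = (Finset.univ.filter fun e => H.src e = v).map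
            ⟨fun e => (Sum.inl e : D.graph.E), Sum.inl_injective⟩ := by
          ext e
          rw [hv, Finset.mem_map]
          constructor
          · intro h
            rcases e with e | (l | ⟨w, j⟩)
            · exact ⟨e, Finset.mem_filter.2 ⟨Finset.mem_univ _, Sum.inl_injective h⟩, rfl⟩
            · exact absurd h (by simp [XD.graph])
            · have hw : w = Sum.inl v := h
              subst hw
              exact (hzero h0 j).elim
          · rintro ⟨e, he, rfl⟩
            rw [Finset.mem_filter] at he
            show Sum.inl (H.src e) = Sum.inl v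
            rw [he.2]
        rw [h1, Finset.sum_map]
        show ∑ e ∈ Finset.univ.filter (fun e => H.src e = v), σ (ss K e) * star (σ (ss K e))
          = σ (pp K v)
        have h2 := (LPA.family K H).sum_eq v (Finset.univ.filter fun e => H.src e = v)
          ⟨e0, Finset.mem_filter.2 ⟨Finset.mem_univ _, he0⟩⟩ (by intro e; simp)
        rw [show pp K v = _ from h2.symm, map_sum]
        apply Finset.sum_congr rfl
        intro e _
        rw [map_mul, ← map_star, LPA.star_s]
    · by_cases hL : D.L x
      · have h1 : F = insert (Sum.inr (Sum.inl ⟨x, hL⟩) : D.graph.E)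
            (Finset.univ.map ⟨fun j => (Sum.inr (Sum.inr ⟨Sum.inr x, j⟩) :
            D.graph.E), fun i j h => by simpa using h⟩) := by
          ext e
          rw [hv, Finset.mem_insert, Finset.mem_map]
          constructor
          · intro h
            rcases e with e | (l | ⟨w, j⟩)
            · exact absurd h (by simp [XD.graph])
            · left
              congr 2
              exact Subtype.ext (Sum.inr_injective h)
            · have hw : w = Sum.inr x := h
              subst hw
              exact Or.inr ⟨j, Finset.mem_univ _, rfl⟩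
          · rintro (rfl | ⟨j, -, rfl⟩)
            · rfl
            · rfl
        rw [h1, Finset.sum_insert, hX, S.sum]
        · simp only [Df, Sum.elim_inr]
          rw [if_pos hL]
          show S.C x * star (S.C x) + (S.P x - S.C x * star (S.C x)) = S.P x
          abel
        · rw [Finset.mem_map]
          rintro ⟨j, -, h⟩
          simp at h
      · have h1 : F = Finset.univ.map ⟨fun j => (Sum.inr (Sum.inr ⟨Sum.inr x, j⟩) :
            D.graph.E), fun i j h => by simpa using h⟩ := by
          ext e
          rw [hv, Finset.mem_map]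
          constructor
          · intro h
            rcases e with e | (l | ⟨w, j⟩)
            · exact absurd h (by simp [XD.graph])
            · exact absurd (Sum.inr_injective h) (by rintro rfl; exact hL l.2)
            · have hw : w = Sum.inr x := h
              subst hw
              exact ⟨j, Finset.mem_univ _, rfl⟩
          · rintro ⟨j, -, rfl⟩
            rfl
        by_cases hT : D.T x
        · rw [h1, hX, S.sum]
          simp only [Df, Sum.elim_inr]
          rw [if_neg hL, if_pos hT]; rfl
        · exfalso
          obtain ⟨e, he⟩ := hF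
          rw [h1, Finset.mem_map] at he
          obtain ⟨j, -, -⟩ := he
          apply hzero _ j
          simp only [Df, Sum.elim_inr]
          rw [if_neg hL, if_neg hT]

end XSide

/-- The inclusion of the graph in the extension. -/
noncomputable def XD.inclFam (D : XD H) (h : ∀ v : H.V, (∃ e, H.src e = v) →
    D.n (Sum.inl v) = 0) : SFam H (LPA K D.graph) where
  p v := (LPA.family K D.graph).p (Sum.inl v)
  s e := (LPA.family K D.graph).s (Sum.inl e)
  star_p v := LPA.star_p _
  idem v := (LPA.family K D.graph).p_mul_self _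
  orth v w h := (LPA.family K D.graph).p_mul_of_ne _ _ fun h' => h (Sum.inl_injective h')
  src_mul e := (LPA.family K D.graph).src_mul (Sum.inl e)
  mul_rng e := (LPA.family K D.graph).mul_rng (Sum.inl e)
  isom e := by
    rw [LPA.star_s]; exact (LPA.family K D.graph).ghost_mul_self (Sum.inl e)
  range_orth e f h := by
    rw [LPA.star_s]
    exact (LPA.family K D.graph).ghost_mul_of_ne _ _ fun h' => h (Sum.inl_injective h')
  sum_eq v F hF hv := by
    obtain ⟨e0, he0⟩ := hF
    have h1 := (LPA.family K D.graph).sum_eq (Sum.inl v)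
      (F.map ⟨fun e => (Sum.inl e : D.graph.E), Sum.inl_injective⟩)
      (by rw [Finset.map_nonempty]; exact ⟨e0, he0⟩) (by
        intro e
        rw [Finset.mem_map]
        constructor
        · rintro ⟨e, he, rfl⟩
          show Sum.inl (H.src e) = Sum.inl v
          rw [(hv e).1 he]
        · intro he
          rcases e with e | (l | ⟨w, j⟩)
          · exact ⟨e, (hv e).2 (Sum.inl_injective he), rfl⟩
          · exact absurd he (by simp [XD.graph])
          · have hw : w = Sum.inl v := he
            subst hw
            have := h v ⟨e0, (hv e0).1 he0⟩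
            rw [this] at j
            exact j.elim0)
    rw [Finset.sum_map] at h1
    rw [← h1]
    exact Finset.sum_congr rfl fun e _ => by rw [LPA.star_s]; rfl

namespace XSide

variable [Finite H.V] [Finite H.E] [Finite D.N] (hP : ∀ v, S.q v ≠ 0)

/-- The extended homomorphism. -/
noncomputable def hom : LPA K D.graph →⋆ₙₐ[K] LPA K G := (S.fam hP).hom K

theorem hom_p (v : H.V ⊕ D.N) : S.hom hP (pp K (G := D.graph) v) = S.q v := (S.fam hP).hom_p v

theorem hom_s (e : D.graph.E) : S.hom hP (ss K e) = S.sE e := (S.fam hP).hom_s e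

theorem hom_t (e : D.graph.E) : S.hom hP (tt K e) = star (S.sE e) := (S.fam hP).hom_t e

include hP in
omit [Finite H.V] [Finite H.E] [Finite D.N] in
theorem n_zero (v : H.V) (h : ∃ e, H.src e = v) : D.n (Sum.inl v) = 0 := by
  by_contra hne
  apply S.n_eq hP (v := Sum.inl v) _ ⟨0, Nat.pos_of_ne_zero hne⟩
  simp only [Df, Sum.elim_inl]
  rw [if_neg]
  intro h1
  obtain ⟨e, he⟩ := h
  exact h1 e he

theorem hom_incl (h : ∀ v : H.V, (∃ e, H.src e = v) → D.n (Sum.inl v) = 0) (x : LPA K H) :
    S.hom hP ((D.inclFam h).hom K x) = σ x := by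
  have h1 := star_hom_ext (f := (S.hom hP).comp ((D.inclFam h).hom K)) (g := σ)
    (fun v => by
      show S.hom hP ((D.inclFam h).hom K (pp K v)) = _
      rw [SFam.hom_p]
      exact S.hom_p hP (Sum.inl v)) (fun e => by
      show S.hom hP ((D.inclFam h).hom K (ss K e)) = _
      rw [SFam.hom_s]
      exact S.hom_s hP (Sum.inl e)) x
  exact h1

end XSide

end Run7.h19
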