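import Pool.Agent.Run7.h19.Level

/-!
# Polynomial matrices and complements (helper19)
-/

namespace Run7.h19

open Pool.Agent.Helper665_GA LoopGraph Polynomial

section dual

variable {K : Type*} [Field K] {A : Type*} [NonUnitalRing A] [Module K A] [IsScalarTower K A A]
  [SMulCommClass K A A] {ι : Type} [Fintype ι] [DecidableEq ι]

/-- Dual families over a corner. -/
structure Dual (p : A) (x y : ι → A) : Prop where
  yx : ∀ i j, y i * x j = if i = j then p else 0
  xp : ∀ i, x i * p = x i
  py : ∀ i, p * y i = y i

/-- The idempotent of a dual family. -/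
def dsum (x y : ι → A) : A := ∑ i, x i * y i

omit [DecidableEq ι] in
theorem dsum_def (x y : ι → A) : dsum x y = ∑ i, x i * y i := rfl

theorem Dual.dsum_mul {p : A} {x y : ι → A} (h : Dual p x y) (j : ι) : dsum x y * x j = x j := by
  rw [dsum, Finset.sum_mul, Finset.sum_eq_single_of_mem j (Finset.mem_univ j)]
  · rw [mul_assoc, h.yx, if_pos rfl, h.xp]
  · intro i _ hi
    rw [mul_assoc, h.yx, if_neg hi, mul_zero]

theorem Dual.mul_dsum {p : A} {x y : ι → A} (h : Dual p x y) (j : ι) : y j * dsum x y = y j := by
  rw [dsum, Finset.mul_sum, Finset.sum_eq_single_of_mem j (Finset.mem_univ j)]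
  · rw [← mul_assoc, h.yx, if_pos rfl, h.py]
  · intro i _ hi
    rw [← mul_assoc, h.yx, if_neg hi.symm, zero_mul]

theorem Dual.dsum_idem {p : A} {x y : ι → A} (h : Dual p x y) :
    dsum x y * dsum x y = dsum x y := by
  conv_lhs => rw [dsum_def x y, Finset.sum_mul]
  rw [dsum_def]
  exact Finset.sum_congr rfl fun i _ => by rw [mul_assoc, ← dsum_def, h.mul_dsum]

variable {p c d : A}

/-- The action of polynomial matrices. -/
noncomputable def act (p c : A) (x : ι → A) (Q : Matrix ι ι K[X]) (j : ι) : A :=
  ∑ i, x i * evp K p c (Q i j)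

omit [IsScalarTower K A A] [SMulCommClass K A A] [DecidableEq ι] in
theorem act_mem (S : NonUnitalSubalgebra K A) (hp : p ∈ S) (hc : c ∈ S) {x : ι → A}
    (hx : ∀ i, x i ∈ S) (Q : Matrix ι ι K[X]) (j : ι) : act p c x Q j ∈ S :=
  sum_mem fun i _ => mul_mem (hx i) (evp_mem S hp hc _)

theorem mul_act {x y : ι → A} (h : Dual p x y) (hc : InCor p c) (Q : Matrix ι ι K[X])
    (i j : ι) : y i * act p c x Q j = evp K p c (Q i j) := by
  rw [act, Finset.mul_sum, Finset.sum_eq_single_of_mem i (Finset.mem_univ i)]
  · rw [← mul_assoc, h.yx, if_pos rfl, p_evp hc]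
  · intro l _ hl
    rw [← mul_assoc, h.yx, if_neg hl.symm, zero_mul]

omit [IsScalarTower K A A] [SMulCommClass K A A] in
theorem dsum_act {x y : ι → A} (h : Dual p x y) (Q : Matrix ι ι K[X]) (j : ι) :
    dsum x y * act p c x Q j = act p c x Q j := by
  rw [act, Finset.mul_sum]
  exact Finset.sum_congr rfl fun i _ => by rw [← mul_assoc, h.dsum_mul]

omit [DecidableEq ι] in
theorem act_p (hc : InCor p c) (x : ι → A) (Q : Matrix ι ι K[X]) (j : ι) :
    act p c x Q j * p = act p c x Q j := by
  rw [act, Finset.sum_mul]
  exact Finset.sum_congr rfl fun i _ => by rw [mul_assoc, evp_p hc]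

/-- The case of an invertible matrix. -/
theorem factor_zero (S : NonUnitalSubalgebra K A) (hp : p ∈ S) (hcS : c ∈ S) (hc : InCor p c)
    {x y : ι → A} (h : Dual p x y) (hy : ∀ i, y i ∈ S) (Q : Matrix ι ι K[X])
    (hdet : IsUnit Q.det) : ∃ w : ι → A, (∀ i, w i ∈ S) ∧ Dual p (act p c x Q) w ∧
      (∀ i, w i * dsum x y = w i) ∧ dsum (act p c x Q) w = dsum x y := by
  set R := Q⁻¹ with hR
  have hRQ : R * Q = 1 := Matrix.nonsing_inv_mul Q hdet
  have hQR : Q * R = 1 := Matrix.mul_nonsing_inv Q hdet
  refine ⟨fun i => ∑ j, evp K p c (R i j) * y j, ?_, ⟨?_, ?_, ?_⟩, ?_, ?_⟩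
  · exact fun i => sum_mem fun j _ => mul_mem (evp_mem S hp hcS _) (hy j)
  · intro i j
    rw [Finset.sum_mul]
    have e1 : ∀ l, evp K p c (R i l) * y l * act p c x Q j = evp K p c (R i l * Q l j) := by
      intro l
      rw [mul_assoc, mul_act h hc, evp_mul hc]
    rw [Finset.sum_congr rfl fun l _ => e1 l, ← map_sum, ← Matrix.mul_apply, hRQ,
      Matrix.one_apply]
    split_ifs with hij
    · exact evp_one
    · exact map_zero _
  · exact fun i => act_p hc x Q i
  · intro i
    rw [Finset.mul_sum]
    exact Finset.sum_congr rfl fun j _ => by rw [← mul_assoc, p_evp hc]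
  · intro i
    rw [Finset.sum_mul]
    exact Finset.sum_congr rfl fun j _ => by rw [mul_assoc, h.mul_dsum]
  · rw [dsum_def, dsum_def]
    have e1 : ∀ j, act p c x Q j * ∑ l, evp K p c (R j l) * y l
        = ∑ i, ∑ l, x i * evp K p c (Q i j * R j l) * y l := by
      intro j
      rw [act, Finset.sum_mul]
      apply Finset.sum_congr rfl
      intro i _
      rw [Finset.mul_sum]
      apply Finset.sum_congr rfl
      intro l _
      rw [evp_mul hc]; noncomm_ring
    rw [Finset.sum_congr rfl fun j _ => e1 j, Finset.sum_comm]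
    apply Finset.sum_congr rfl
    intro i _
    rw [Finset.sum_comm, Finset.sum_eq_single_of_mem i (Finset.mem_univ i)]
    · rw [← Finset.sum_mul, ← Finset.mul_sum, ← map_sum, ← Matrix.mul_apply, hQR,
        Matrix.one_apply_eq, evp_one, h.xp]
    · intro l _ hl
      rw [← Finset.sum_mul, ← Finset.mul_sum, ← map_sum, ← Matrix.mul_apply, hQR,
        Matrix.one_apply_ne hl.symm, map_zero, mul_zero, zero_mul]

/-- The factorization lemma. -/
theorem factor {V : Type*} {P : V → A} {s : Multiset V} (S : NonUnitalSubalgebra K A)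
    (hp : p ∈ S) (hcS : c ∈ S) (hdS : d ∈ S) (hc : InCor p c) (hd : InCor p d)
    (hdc : d * c = p)
    (hdef : ∀ x y : A, x ∈ S → y ∈ S → y * x = p → x * p = x → p * y = y →
      Fr (fun a b => a ∈ S ∧ b ∈ S) P (x * (p - c * d) * y) s)
    {x y : ι → A} (h : Dual p x y) (hx : ∀ i, x i ∈ S) (hy : ∀ i, y i ∈ S) :
    ∀ (D : ℕ) (Q : Matrix ι ι K[X]) (r : K), r ≠ 0 → Q.det = C r * X ^ D →
      ∃ w : ι → A, (∀ i, w i ∈ S) ∧ Dual p (act p c x Q) w ∧ (∀ i, w i * dsum x y = w i) ∧
        Fr (fun a b => a ∈ S ∧ b ∈ S) P (dsum x y - dsum (act p c x Q) w) (D • s) := by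
  intro D
  induction D with
  | zero =>
    intro Q r hr hdet
    obtain ⟨w, h1, h2, h3, h4⟩ := factor_zero S hp hcS hc h hy Q (by
      rw [hdet, pow_zero, mul_one]; exact Polynomial.isUnit_C.2 (isUnit_iff_ne_zero.2 hr))
    refine ⟨w, h1, h2, h3, ?_⟩
    rw [h4, sub_self, zero_nsmul]
    exact Fr.zero
  | succ D ih =>
    intro Q r hr hdet
    have h0 : (Q.map (Polynomial.evalRingHom 0)).det = 0 := by
      have : (Polynomial.evalRingHom (0 : K)) Q.det = (Q.map (Polynomial.evalRingHom 0)).det := by
        rw [RingHom.map_det]; rfl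
      rw [← this, hdet]
      simp
    obtain ⟨u, hu0, hu⟩ := Matrix.exists_mulVec_eq_zero_iff.2 h0
    obtain ⟨i0, hi0⟩ := Function.ne_iff.1 hu0
    have hi0' : u i0 ≠ 0 := hi0
    have hdvd : ∀ i, ∃ q', (Q.mulVec fun j => C (u j)) i = q' * X := by
      intro i
      have h1 : (X : K[X]) ∣ (Q.mulVec fun j => C (u j)) i := by
        rw [Polynomial.X_dvd_iff, Polynomial.coeff_zero_eq_eval_zero]
        have h2 := congrFun hu i
        rw [Matrix.mulVec, dotProduct] at h2 ⊢
        rw [Polynomial.eval_finsetSum]
        refine Eq.trans (Finset.sum_congr rfl fun j _ => ?_) h2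
        rw [Polynomial.eval_mul, Polynomial.eval_C]; rfl
      obtain ⟨q', hq'⟩ := h1
      exact ⟨q', by rw [hq', mul_comm]⟩
    choose q' hq' using hdvd
    set Q' := Q.updateCol i0 q' with hQ'
    have hdet' : Q'.det = C (u i0 * r) * X ^ D := by
      have h1 : X * Q'.det = C (u i0) * Q.det := by
        have h2 : (Q.updateCol i0 (Q.mulVec fun j => C (u j))).det = C (u i0) * Q.det := by
          rw [← Matrix.cramer_apply, Matrix.cramer_eq_adjugate_mulVec, Matrix.mulVec_mulVec,
            Matrix.adjugate_mul, Matrix.smul_mulVec, Matrix.one_mulVec, Pi.smul_apply,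
            smul_eq_mul, mul_comm]
        rw [← h2]
        have h3 : (Q.mulVec fun j => C (u j)) = (X : K[X]) • q' := by
          funext i
          rw [hq' i, Pi.smul_apply, smul_eq_mul, mul_comm]
        rw [h3, Matrix.det_updateCol_smul]
      have h2 : X * Q'.det = X * (C (u i0 * r) * X ^ D) := by
        rw [h1, hdet, C_mul]; ring
      exact mul_left_cancel₀ Polynomial.X_ne_zero h2
    obtain ⟨w', k1, k2, k3, k4⟩ := ih Q' (u i0 * r) (mul_ne_zero hi0' hr) hdet'
    set z := act p c x Q with hz
    set z' := act p c x Q' with hz'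
    have hzz : ∀ j, j ≠ i0 → z' j = z j := by
      intro j hj
      rw [hz, hz', act, act]
      apply Finset.sum_congr rfl
      intro i _
      rw [hQ', Matrix.updateCol_ne hj]
    have hz0 : z' i0 = ∑ i, x i * evp K p c (q' i) := by
      rw [hz', act]
      apply Finset.sum_congr rfl
      intro i _
      rw [hQ', Matrix.updateCol_self]
    have hrel : ∑ j, u j • z j = z' i0 * c := by
      rw [hz0, Finset.sum_mul]
      have e1 : ∀ j, u j • z j = ∑ i, x i * evp K p c (Q i j * C (u j)) := by
        intro j
        rw [hz, act, Finset.smul_sum]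
        apply Finset.sum_congr rfl
        intro i _
        rw [mul_comm, Polynomial.C_mul', map_smul, mul_smul_comm]
      rw [Finset.sum_congr rfl fun j _ => e1 j, Finset.sum_comm]
      apply Finset.sum_congr rfl
      intro i _
      rw [← Finset.mul_sum, ← map_sum, mul_assoc]
      have e2 : ∑ j, Q i j * C (u j) = q' i * X := by rw [← hq' i]; rfl
      rw [e2, evp_mul hc, evp_X hc]
    have hzp : ∀ j, z j * p = z j := fun j => act_p hc x Q j
    have hw'p : ∀ i, w' i * z' i = p := fun i => by rw [k2.yx, if_pos rfl]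
    refine ⟨fun i => (if i = i0 then 0 else w' i) + u i • (d * w' i0), ?_, ⟨?_, hzp, ?_⟩, ?_, ?_⟩
    · intro i
      refine add_mem ?_ (SMulMemClass.smul_mem _ (mul_mem hdS (k1 i0)))
      split_ifs
      · exact zero_mem _
      · exact k1 i
    · -- duality
      have a1 : ∀ i j, j ≠ i0 → ((if i = i0 then 0 else w' i) + u i • (d * w' i0)) * z j
          = if i = j then p else 0 := by
        intro i j hj
        rw [← hzz j hj, add_mul, smul_mul_assoc, mul_assoc, k2.yx i0 j, if_neg hj.symm,
          mul_zero, smul_zero, add_zero]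
        by_cases hi : i = i0
        · rw [if_pos hi, zero_mul, if_neg (by rintro rfl; exact hj hi)]
        · rw [if_neg hi, k2.yx]
      intro i j
      by_cases hj : j = i0
      · subst hj
        have a2 : ((if i = j then 0 else w' i) + u i • (d * w' j)) * (z' j * c) = u i • p := by
          rw [add_mul, smul_mul_assoc, mul_assoc d, ← mul_assoc (w' j), hw'p, hc.pc, hdc]
          by_cases hi : i = j
          · rw [if_pos hi, zero_mul, zero_add]
          · rw [if_neg hi, ← mul_assoc, k2.yx, if_neg hi, zero_mul, zero_add]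
        rw [← hrel, Finset.mul_sum, ← Finset.add_sum_erase _ _ (Finset.mem_univ j)] at a2
        have a3 : ∑ l ∈ Finset.univ.erase j,
            ((if i = j then 0 else w' i) + u i • (d * w' j)) * u l • z l
            = if i = j then 0 else u i • p := by
          have e1 : ∀ l ∈ Finset.univ.erase j,
              ((if i = j then 0 else w' i) + u i • (d * w' j)) * u l • z l
              = if i = l then u l • p else 0 := by
            intro l hl
            rw [mul_smul_comm, a1 i l (Finset.ne_of_mem_erase hl)]
            split_ifs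
            · rfl
            · rw [smul_zero]
          rw [Finset.sum_congr rfl e1]
          by_cases hi : i = j
          · rw [if_pos hi]
            apply Finset.sum_eq_zero
            intro l hl
            rw [if_neg]
            rintro rfl
            exact Finset.ne_of_mem_erase hl hi
          · rw [if_neg hi, Finset.sum_eq_single_of_mem i
              (Finset.mem_erase.2 ⟨hi, Finset.mem_univ i⟩), if_pos rfl]
            intro l _ hl
            rw [if_neg hl.symm]
        rw [a3, mul_smul_comm] at a2
        by_cases hi : i = j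
        · rw [if_pos hi, if_pos hi, add_zero] at a2
          rw [if_pos hi, if_pos hi]
          subst hi
          exact smul_right_injective A hi0' a2
        · rw [if_neg hi, if_neg hi] at a2
          rw [if_neg hi, if_neg hi]
          have a4 : u j • ((w' i + u i • (d * w' j)) * z j) = 0 := by
            simpa using a2
          exact (smul_eq_zero.1 a4).resolve_left hi0'
      · exact a1 i j hj
    · intro i
      rw [mul_add, mul_smul_comm, ← mul_assoc, hd.pc]
      congr 1
      split_ifs
      · exact mul_zero _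
      · exact k2.py i
    · intro i
      rw [add_mul, smul_mul_assoc, mul_assoc, k3]
      congr 1
      split_ifs
      · exact zero_mul _
      · exact k3 i
    · have hsum : dsum z (fun i => (if i = i0 then 0 else w' i) + u i • (d * w' i0))
          = dsum z' w' - z' i0 * (p - c * d) * w' i0 := by
        rw [dsum_def, dsum_def]
        have e1 : ∀ j, z j * ((if j = i0 then 0 else w' j) + u j • (d * w' i0))
            = z j * (if j = i0 then 0 else w' j) + (u j • z j) * (d * w' i0) := by
          intro j
          rw [mul_add, mul_smul_comm, smul_mul_assoc]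
        rw [Finset.sum_congr rfl fun j _ => e1 j, Finset.sum_add_distrib, ← Finset.sum_mul, hrel,
          ← Finset.add_sum_erase _ (fun j => z' j * w' j) (Finset.mem_univ i0),
          ← Finset.add_sum_erase _ (fun j => z j * if j = i0 then 0 else w' j)
            (Finset.mem_univ i0), if_pos rfl, mul_zero, zero_add]
        have e2 : ∑ j ∈ Finset.univ.erase i0, z j * (if j = i0 then 0 else w' j)
            = ∑ j ∈ Finset.univ.erase i0, z' j * w' j := by
          apply Finset.sum_congr rfl
          intro j hj
          rw [if_neg (Finset.ne_of_mem_erase hj), hzz j (Finset.ne_of_mem_erase hj)]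
        rw [e2]
        have e3 : z' i0 * (p - c * d) * w' i0 = z' i0 * w' i0 - z' i0 * c * (d * w' i0) := by
          rw [mul_sub, k2.xp]; noncomm_ring
        rw [e3]; abel
      have hz'S : ∀ j, z' j ∈ S := fun j => act_mem S hp hcS hx Q' j
      have f1 := hdef (z' i0) (w' i0) (hz'S i0) (k1 i0) (hw'p i0) (k2.xp i0) (k2.py i0)
      have g1 : dsum x y * z' i0 = z' i0 := dsum_act h Q' i0
      have f2 := k4.add f1 (by
        rw [sub_mul, ← mul_assoc, ← mul_assoc, g1, ← mul_assoc, ← mul_assoc, k2.dsum_mul,
          sub_self]) (by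
        rw [mul_sub, mul_assoc, k3, mul_assoc (z' i0 * (p - c * d)), k2.mul_dsum, sub_self])
      rw [hsum, succ_nsmul]
      have e4 : dsum x y - (dsum z' w' - z' i0 * (p - c * d) * w' i0)
          = dsum x y - dsum z' w' + z' i0 * (p - c * d) * w' i0 := by abel
      rw [e4]
      exact f2

end dual

end Run7.h19
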