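import Pool.Agent.Helper665_GA.Limit

/-!
# Gluing of corners (helper19)
-/

namespace Run7.h19

open Pool.Agent.Helper665_GA

section glue

variable {K : Type*} [Field K] [StarRing K]
  {A : Type*} [NonUnitalRing A] [StarRing A] [Module K A]
  [IsScalarTower K A A] [SMulCommClass K A A] [StarModule K A]
  {B : Type*} [NonUnitalRing B] [StarRing B] [Module K B]
  [IsScalarTower K B B] [SMulCommClass K B B] [StarModule K B]
  {C : Type*} [NonUnitalRing C] [StarRing C] [Module K C]
  [IsScalarTower K C C] [SMulCommClass K C C] [StarModule K C]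

/-- Data for the gluing of a sequence of equivalent projections. -/
structure Glue (J1 : A →⋆ₙₐ[K] C) (J2 : B →⋆ₙₐ[K] C) (α β x : ℕ → C) : Prop where
  inj1 : Function.Injective J1
  inj2 : Function.Injective J2
  orthA : ∀ k l, k ≠ l → α k * α l = 0
  orthB : ∀ k l, k ≠ l → β k * β l = 0
  xx : ∀ k, star (x k) * x k = α k
  xx' : ∀ k, x k * star (x k) = β k
  xa : ∀ k, x k * α k = x k
  loc1 : ∀ a, ∃ N, (∑ k ∈ Finset.range N, α k) * J1 a = J1 a ∧
    J1 a * (∑ k ∈ Finset.range N, α k) = J1 a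
  loc2 : ∀ b, ∃ N, (∑ k ∈ Finset.range N, β k) * J2 b = J2 b ∧
    J2 b * (∑ k ∈ Finset.range N, β k) = J2 b
  cor1 : ∀ N c, (∑ k ∈ Finset.range N, α k) * c = c → c * (∑ k ∈ Finset.range N, α k) = c →
    ∃ a, J1 a = c
  cor2 : ∀ N c, (∑ k ∈ Finset.range N, β k) * c = c → c * (∑ k ∈ Finset.range N, β k) = c →
    ∃ b, J2 b = c

variable {J1 : A →⋆ₙₐ[K] C} {J2 : B →⋆ₙₐ[K] C} {α β x : ℕ → C}

theorem Glue.exists_iso (h : Glue J1 J2 α β x) :
    ∃ (θ : A →⋆ₙₐ[K] B) (θ' : B →⋆ₙₐ[K] A), (∀ a, θ' (θ a) = a) ∧ (∀ b, θ (θ' b) = b) := by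
  classical
  have hbx : ∀ k, β k * x k = x k := by
    intro k
    rw [← h.xx', mul_assoc, h.xx, h.xa]
  have sα : ∀ k, star (α k) = α k := fun k => by rw [← h.xx, star_mul, star_star]
  have sβ : ∀ k, star (β k) = β k := fun k => by rw [← h.xx', star_mul, star_star]
  have hax : ∀ k, α k * star (x k) = star (x k) := by
    intro k
    conv_lhs => rw [← sα, ← star_mul, h.xa]
  have hxb : ∀ k, star (x k) * β k = star (x k) := by
    intro k
    conv_lhs => rw [← sβ, ← star_mul, hbx]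
  have hα : ∀ k, α k * α k = α k := by
    intro k
    conv_lhs => rw [← h.xx, mul_assoc, h.xx]
    rw [h.xa, h.xx]
  have h1 : ∀ k l, k ≠ l → star (x k) * x l = 0 := by
    intro k l hkl
    rw [← hxb, ← hbx l, mul_assoc, ← mul_assoc (β k), h.orthB k l hkl, zero_mul, mul_zero]
  have h2 : ∀ k l, k ≠ l → x k * star (x l) = 0 := by
    intro k l hkl
    rw [← h.xa, ← hax l, mul_assoc, ← mul_assoc (α k), h.orthA k l hkl, zero_mul, mul_zero]
  set U : ℕ → C := fun N => ∑ k ∈ Finset.range N, α k with hU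
  set U' : ℕ → C := fun N => ∑ k ∈ Finset.range N, β k with hU'
  set V : ℕ → C := fun N => ∑ k ∈ Finset.range N, x k with hV
  have sU : ∀ N, star (U N) = U N := by
    intro N
    rw [hU, star_sum]
    exact Finset.sum_congr rfl fun k _ => sα k
  have hVV : ∀ N, star (V N) * V N = U N := by
    intro N
    show star (∑ k ∈ Finset.range N, x k) * (∑ k ∈ Finset.range N, x k) = _
    rw [star_sum, Finset.sum_mul]
    apply Finset.sum_congr rfl
    intro k hk
    rw [Finset.mul_sum, Finset.sum_eq_single_of_mem k hk, h.xx]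
    intro l _ hl
    exact h1 k l hl.symm
  have hVV' : ∀ N, V N * star (V N) = U' N := by
    intro N
    show (∑ k ∈ Finset.range N, x k) * star (∑ k ∈ Finset.range N, x k) = _
    rw [star_sum, Finset.sum_mul]
    apply Finset.sum_congr rfl
    intro k hk
    rw [Finset.mul_sum, Finset.sum_eq_single_of_mem k hk, h.xx']
    intro l _ hl
    exact h2 k l hl.symm
  have hVU : ∀ N M, N ≤ M → V M * U N = V N := by
    intro N M hNM
    show (∑ k ∈ Finset.range M, x k) * (∑ k ∈ Finset.range N, α k) = ∑ k ∈ Finset.range N, x k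
    rw [Finset.mul_sum]
    apply Finset.sum_congr rfl
    intro k hk
    rw [Finset.sum_mul, Finset.sum_eq_single_of_mem k
      (Finset.mem_range.2 (lt_of_lt_of_le (Finset.mem_range.1 hk) hNM)), h.xa]
    intro l _ hl
    rw [← h.xa, mul_assoc, h.orthA l k hl, mul_zero]
  have hUU : ∀ N M, N ≤ M → U M * U N = U N := by
    intro N M hNM
    show (∑ k ∈ Finset.range M, α k) * (∑ k ∈ Finset.range N, α k) = ∑ k ∈ Finset.range N, α k
    rw [Finset.mul_sum]
    apply Finset.sum_congr rfl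
    intro k hk
    rw [Finset.sum_mul, Finset.sum_eq_single_of_mem k
      (Finset.mem_range.2 (lt_of_lt_of_le (Finset.mem_range.1 hk) hNM)), hα]
    intro l _ hl
    exact h.orthA l k hl
  have hUU' : ∀ N M, N ≤ M → U N * U M = U N := by
    intro N M hNM
    rw [← sU N, ← sU M, ← star_mul, hUU N M hNM]
  have hUV : ∀ N M, N ≤ M → U N * star (V M) = star (V N) := by
    intro N M hNM
    rw [← sU N, ← star_mul, hVU N M hNM]
  have hVVV : ∀ N, V N * star (V N) * V N = V N := by
    intro N; rw [mul_assoc, hVV, hVU N N le_rfl]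
  -- the good pairs
  set P : ℕ → A → B → Prop := fun N a b => U N * J1 a = J1 a ∧ J1 a * U N = J1 a ∧
    V N * J1 a * star (V N) = J2 b with hP
  have hmono : ∀ N M a b, N ≤ M → P N a b → P M a b := by
    rintro N M a b hNM ⟨g1, g2, g3⟩
    refine ⟨?_, ?_, ?_⟩
    · rw [← g1, ← mul_assoc, hUU N M hNM]
    · rw [← g2, mul_assoc, hUU' N M hNM]
    · have e1 : V M * J1 a * star (V M) = (V M * U N) * J1 a * (U N * star (V M)) := by
        conv_lhs => rw [← g1, ← g2]
        simp only [mul_assoc]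
      rw [e1, hVU N M hNM, hUV N M hNM, g3]
  let Γ : NonUnitalSubalgebra K (A × B) :=
    { carrier := {p | ∃ N, P N p.1 p.2}
      add_mem' := by
        rintro p q ⟨n, hn⟩ ⟨m, hm⟩
        obtain ⟨g1, g2, g3⟩ := hmono n (max n m) _ _ (le_max_left _ _) hn
        obtain ⟨k1, k2, k3⟩ := hmono m (max n m) _ _ (le_max_right _ _) hm
        refine ⟨max n m, ?_, ?_, ?_⟩
        · rw [Prod.fst_add, map_add, mul_add, g1, k1]
        · rw [Prod.fst_add, map_add, add_mul, g2, k2]
        · rw [Prod.fst_add, map_add, mul_add, add_mul, g3, k3, Prod.snd_add, map_add]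
      zero_mem' := ⟨0, by rw [Prod.fst_zero, map_zero, mul_zero],
        by rw [Prod.fst_zero, map_zero, zero_mul],
        by rw [Prod.fst_zero, Prod.snd_zero, map_zero, map_zero, mul_zero, zero_mul]⟩
      mul_mem' := by
        rintro p q ⟨n, hn⟩ ⟨m, hm⟩
        obtain ⟨g1, g2, g3⟩ := hmono n (max n m) _ _ (le_max_left _ _) hn
        obtain ⟨k1, k2, k3⟩ := hmono m (max n m) _ _ (le_max_right _ _) hm
        refine ⟨max n m, ?_, ?_, ?_⟩
        · rw [Prod.fst_mul, map_mul, ← mul_assoc, g1]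
        · rw [Prod.fst_mul, map_mul, mul_assoc, k2]
        · rw [Prod.fst_mul, map_mul, Prod.snd_mul, map_mul, ← g3, ← k3]
          have e1 : V (max n m) * J1 p.1 * star (V (max n m)) *
              (V (max n m) * J1 q.1 * star (V (max n m)))
              = V (max n m) * (J1 p.1 * (star (V (max n m)) * V (max n m))) * J1 q.1 *
                star (V (max n m)) := by simp only [mul_assoc]
          rw [e1, hVV, g2, ← mul_assoc]
      smul_mem' := by
        rintro r p ⟨n, g1, g2, g3⟩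
        refine ⟨n, ?_, ?_, ?_⟩
        · rw [Prod.smul_fst, map_smul, mul_smul_comm, g1]
        · rw [Prod.smul_fst, map_smul, smul_mul_assoc, g2]
        · rw [Prod.smul_fst, map_smul, mul_smul_comm, smul_mul_assoc, g3, Prod.smul_snd,
            map_smul] }
  have hstar : ∀ p ∈ Γ, star p ∈ Γ := by
    rintro p ⟨n, g1, g2, g3⟩
    refine ⟨n, ?_, ?_, ?_⟩
    · rw [Prod.fst_star, map_star, ← sU n, ← star_mul, g2]
    · rw [Prod.fst_star, map_star, ← sU n, ← star_mul, g1]
    · rw [Prod.fst_star, Prod.snd_star, map_star, map_star, ← g3, star_mul, star_mul, star_star,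
        ← mul_assoc]
  have i1 : ∀ p ∈ Γ, p.1 = 0 → p.2 = 0 := by
    rintro p ⟨n, g1, g2, g3⟩ h0
    apply h.inj2
    rw [← g3, h0, map_zero, map_zero, mul_zero, zero_mul]
  have i2 : ∀ p ∈ Γ, p.2 = 0 → p.1 = 0 := by
    rintro p ⟨n, g1, g2, g3⟩ h0
    apply h.inj1
    rw [h0, map_zero] at g3
    have e1 : star (V n) * (V n * J1 p.1 * star (V n)) * V n
        = (star (V n) * V n) * J1 p.1 * (star (V n) * V n) := by simp only [mul_assoc]
    rw [g3, mul_zero, zero_mul, hVV, g1, g2] at e1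
    rw [map_zero]; exact e1.symm
  have e1 : ∀ a, ∃ b, (a, b) ∈ Γ := by
    intro a
    obtain ⟨N, g1, g2⟩ := h.loc1 a
    obtain ⟨b, hb⟩ := h.cor2 N (V N * J1 a * star (V N)) (by
      show U' N * _ = _
      rw [← hVV', ← mul_assoc, ← mul_assoc, hVVV]) (by
      show _ * U' N = _
      rw [← hVV', mul_assoc, ← mul_assoc (star (V N)), hVV, hUV N N le_rfl])
    exact ⟨b, N, g1, g2, hb.symm⟩
  have e2 : ∀ b, ∃ a, (a, b) ∈ Γ := by
    intro b
    obtain ⟨N, g1, g2⟩ := h.loc2 b
    have k1 : U N * (star (V N) * J2 b * V N) = star (V N) * J2 b * V N := by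
      rw [← mul_assoc, ← mul_assoc, hUV N N le_rfl]
    have k2 : star (V N) * J2 b * V N * U N = star (V N) * J2 b * V N := by
      rw [mul_assoc, hVU N N le_rfl]
    obtain ⟨a, ha⟩ := h.cor1 N (star (V N) * J2 b * V N) k1 k2
    refine ⟨a, N, ?_, ?_, ?_⟩
    · rw [ha]; exact k1
    · rw [ha]; exact k2
    · rw [ha]
      have e3 : V N * (star (V N) * J2 b * V N) * star (V N)
          = (V N * star (V N)) * J2 b * (V N * star (V N)) := by simp only [mul_assoc]
      rw [e3, hVV']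
      show U' N * J2 b * U' N = J2 b
      rw [g1, g2]
  obtain ⟨θ, θ', k1, k2, -⟩ := exists_hom_of_graph Γ hstar e1 e2 i1 i2
  exact ⟨θ, θ', k1, k2⟩

end glue

section ilv

variable {C : Type*} [NonUnitalRing C]

/-- Interleaving two sequences. -/
def ilv {C : Type*} (a a' : ℕ → C) (k : ℕ) : C := if k % 2 = 0 then a (k / 2) else a' (k / 2)

theorem ilv_even {C : Type*} (a a' : ℕ → C) (n : ℕ) : ilv a a' (2 * n) = a n := by
  rw [ilv, if_pos (by omega)]
  congr 1; omega

theorem ilv_odd {C : Type*} (a a' : ℕ → C) (n : ℕ) : ilv a a' (2 * n + 1) = a' n := by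
  rw [ilv, if_neg (by omega)]
  congr 1; omega

theorem ilv_ind {C : Type*} {a a' : ℕ → C} {P : ℕ → Prop} (h0 : ∀ n, P (2 * n))
    (h1 : ∀ n, P (2 * n + 1)) (k : ℕ) : P k := by
  rcases Nat.even_or_odd' k with ⟨n, rfl | rfl⟩
  · exact h0 n
  · exact h1 n

theorem ilv_sum (a a' : ℕ → C) (n : ℕ) :
    ∑ k ∈ Finset.range (2 * n), ilv a a' k = ∑ i ∈ Finset.range n, (a i + a' i) := by
  induction n with
  | zero => simp
  | succ n ih =>
    rw [show 2 * (n + 1) = 2 * n + 1 + 1 from by ring, Finset.sum_range_succ,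
      Finset.sum_range_succ, ih, ilv_even, ilv_odd, Finset.sum_range_succ, add_assoc]

theorem ilv_sum' (a a' : ℕ → C) (n : ℕ) :
    ∑ k ∈ Finset.range (2 * n + 1), ilv a a' k
      = a 0 + ∑ i ∈ Finset.range n, (a' i + a (i + 1)) := by
  induction n with
  | zero =>
    rw [Finset.sum_range_succ]
    simp [ilv]
  | succ n ih =>
    rw [show 2 * (n + 1) + 1 = 2 * n + 1 + 1 + 1 from by ring, Finset.sum_range_succ,
      Finset.sum_range_succ, ih, ilv_odd, show 2 * n + 1 + 1 = 2 * (n + 1) from by ring,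
      ilv_even, Finset.sum_range_succ]
    abel

/-- Orthogonality of the interleaved sequence. -/
theorem ilv_orth {a a' d : ℕ → C} (h1 : ∀ n, a n * a' n = 0) (h2 : ∀ n, a' n * a n = 0)
    (h3 : ∀ n, a n * d n = a n) (h4 : ∀ n, d n * a n = a n) (h5 : ∀ n, a' n * d n = a' n)
    (h6 : ∀ n, d n * a' n = a' n) (h7 : ∀ n m, n ≠ m → d n * d m = 0) (k l : ℕ) (hkl : k ≠ l) :
    ilv a a' k * ilv a a' l = 0 := by
  have key : ∀ {n m : ℕ} {x y : C}, x * d n = x → d m * y = y → n ≠ m → x * y = 0 := by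
    intro n m x y hx hy hnm
    rw [← hx, ← hy, mul_assoc, ← mul_assoc (d n), h7 n m hnm, zero_mul, mul_zero]
  rcases Nat.even_or_odd' k with ⟨n, rfl | rfl⟩
  · rcases Nat.even_or_odd' l with ⟨m, rfl | rfl⟩
    · rw [ilv_even, ilv_even]
      exact key (h3 n) (h4 m) (by omega)
    · rw [ilv_even, ilv_odd]
      by_cases hnm : n = m
      · rw [hnm]; exact h1 m
      · exact key (h3 n) (h6 m) hnm
  · rcases Nat.even_or_odd' l with ⟨m, rfl | rfl⟩
    · rw [ilv_odd, ilv_even]
      by_cases hnm : n = m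
      · rw [hnm]; exact h2 m
      · exact key (h5 n) (h4 m) hnm
    · rw [ilv_odd, ilv_odd]
      exact key (h5 n) (h6 m) (by omega)

/-- Orthogonality of the shifted interleaved sequence. -/
theorem ilv_orth' {a a' d : ℕ → C} (h0 : a 0 = 0) (h1 : ∀ n, a (n + 1) * a' n = 0)
    (h2 : ∀ n, a' n * a (n + 1) = 0)
    (h3 : ∀ n, a (n + 1) * d n = a (n + 1)) (h4 : ∀ n, d n * a (n + 1) = a (n + 1))
    (h5 : ∀ n, a' n * d n = a' n)
    (h6 : ∀ n, d n * a' n = a' n) (h7 : ∀ n m, n ≠ m → d n * d m = 0) (k l : ℕ) (hkl : k ≠ l) :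
    ilv a a' k * ilv a a' l = 0 := by
  have hs : ∀ k, ilv a a' (k + 1) = ilv a' (fun n => a (n + 1)) k := by
    intro k
    rcases Nat.even_or_odd' k with ⟨n, rfl | rfl⟩
    · rw [ilv_odd, ilv_even]
    · rw [show 2 * n + 1 + 1 = 2 * (n + 1) from by ring, ilv_even, ilv_odd]
  have hz : ilv a a' 0 = 0 := by
    have := ilv_even a a' 0
    rw [mul_zero] at this
    rw [this, h0]
  rcases k with _ | k
  · rw [hz, zero_mul]
  · rcases l with _ | l
    · rw [hz, mul_zero]
    · rw [hs, hs]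
      exact ilv_orth (d := d) h2 h1 h5 h6 h3 h4 h7 k l (by omega)

end ilv

end Run7.h19
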