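import Pool.Agent.Run7.h19.Step5
import Pool.Agent.Helper665_GA.Limit

/-!
# The star isomorphism of stable algebras (helper19)
-/

namespace Run7.h19

open Pool.Agent.Helper665_GA LoopGraph

variable {K : Type*} [Field K] [StarRing K] {G G' : Graph} [LoopGraph G] [LoopGraph G']
  {f : MG G ≃+ MG G'}

theorem Stg.injA (S : Stg K f) : Function.Injective S.α := S.sA.injective

theorem Stg.injB (S : Stg K f) : Function.Injective S.β := S.sB.injective

/-- The pairs of a stage. -/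
noncomputable def Stg.gr (S : Stg K f) : NonUnitalSubalgebra K (LPA K G × LPA K G') :=
  NonUnitalAlgHom.range (S.α.prod S.β : LPA K S.H →ₙₐ[K] LPA K G × LPA K G')

theorem Stg.mem_gr {S : Stg K f} {p : LPA K G × LPA K G'} :
    p ∈ S.gr ↔ ∃ x, S.α x = p.1 ∧ S.β x = p.2 := by
  constructor
  · rintro ⟨x, rfl⟩
    exact ⟨x, rfl, rfl⟩
  · rintro ⟨x, h1, h2⟩
    exact ⟨x, Prod.ext h1 h2⟩

theorem Stg.gr_le {S T : Stg K f} (h : ∀ x, ∃ y, T.α y = S.α x ∧ T.β y = S.β x) :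
    S.gr ≤ T.gr := by
  intro p hp
  rw [Stg.mem_gr] at hp ⊢
  obtain ⟨x, h1, h2⟩ := hp
  obtain ⟨y, h3, h4⟩ := h x
  exact ⟨y, h3.trans h1, h4.trans h2⟩

theorem Stg.star_mem {S : Stg K f} {p : LPA K G × LPA K G'} (h : p ∈ S.gr) : star p ∈ S.gr := by
  rw [Stg.mem_gr] at h ⊢
  obtain ⟨x, h1, h2⟩ := h
  exact ⟨star x, by rw [map_star, h1]; rfl, by rw [map_star, h2]; rfl⟩

/-- The empty graph. -/
def emptyGraph : Graph where
  V := Empty
  E := Empty
  src := id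
  rng := id

instance : IsEmpty emptyGraph.V := inferInstanceAs (IsEmpty Empty)

@[implicit_reducible]
noncomputable def emptyLoopGraph : LoopGraph emptyGraph where
  out v := v.elim
  mem_out v := v.elim
  antisymm v := v.elim
  loop_unique e := e.elim

/-- The first stage. -/
noncomputable def Stg.empty (K : Type*) [Field K] [StarRing K] (f : MG G ≃+ MG G') : Stg K f :=
  letI := emptyLoopGraph
  letI : Fintype emptyGraph.V := inferInstanceAs (Fintype Empty)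
  { H := emptyGraph
    lg := emptyLoopGraph
    fV := inferInstanceAs (Fintype Empty)
    fE := inferInstanceAs (Finite Empty)
    α := 0
    β := 0
    κ := fun v => v.elim
    κ' := fun v => v.elim
    a := fun v => v.elim
    b := fun v => v.elim
    ZA := ∅
    ZB := ∅
    sA := ⟨fun v => v.elim, fun v => v.elim, rfl, fun v => v.elim, fun v => v.elim⟩
    sB := ⟨fun v => v.elim, fun v => v.elim, rfl, fun v => v.elim, fun v => v.elim⟩
    ab := fun v => v.elim }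

theorem exists_exhaustion (V : Type) [Countable V] : ∃ X : ℕ → Finset V, ∀ v, ∃ n, v ∈ X n := by
  obtain ⟨g, hg⟩ := exists_injective_nat V
  have hfin : ∀ n, {v | g v = n}.Finite := fun n =>
    Set.Subsingleton.finite fun v hv w hw => hg (hv.trans hw.symm)
  exact ⟨fun n => (hfin n).toFinset, fun v => ⟨g v, by simp⟩⟩

/-- Both steps. -/
theorem Stg.step2 (hG : Stable G) (hG' : Stable G') (hf : Corr f) (hf' : Corr f.symm)
    (S : Stg K f) (X0 : Finset G.V) (Y0 : Finset G'.V) :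
    ∃ T : Stg K f, S.gr ≤ T.gr ∧
      (∀ v ∈ X0, ∃ t, (∃ y, (pp K v, y) ∈ T.gr ∧ SF K y t) ∧ f (mk {v}) = mk t) ∧
      (∀ v ∈ X0, ∀ e, G.src e = v → ∃ y, (ss K e, y) ∈ T.gr) ∧
      (∀ v ∈ Y0, ∃ x, (x, pp K v) ∈ T.gr) ∧
      (∀ v ∈ Y0, ∀ e, G'.src e = v → ∃ x, (x, ss K e) ∈ T.gr) := by
  obtain ⟨T1, h1, h2⟩ := S.step hG hG' hf X0
  obtain ⟨T2, h3, h4⟩ := T1.swap.step hG' hG hf' Y0
  let T : Stg K f := T2.swap
  have h5 : T1.gr ≤ T.gr := by
    apply Stg.gr_le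
    intro x
    obtain ⟨y, hy1, hy2⟩ := h3 x
    exact ⟨y, hy2, hy1⟩
  refine ⟨T, (Stg.gr_le h1).trans h5, ?_, ?_, ?_, ?_⟩
  · intro v hv
    obtain ⟨⟨x, m, hx, hm⟩, -⟩ := h2 v hv
    have k1 : SF K (T1.α x) (m.bind T1.a) := (Fr.map_star T1.α (map_star T1.α) hm).comp T1.sA.sf
    have k2 : SF K (T1.β x) (m.bind T1.b) := (Fr.map_star T1.β (map_star T1.β) hm).comp T1.sB.sf
    refine ⟨m.bind T1.b, ⟨T1.β x, h5 (Stg.mem_gr.2 ⟨x, hx, rfl⟩), k2⟩, ?_⟩
    rw [hx] at k1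
    rw [SF_unique (SF_pp v) k1, mk_bind, mk_bind, map_multiset_sum, Multiset.map_map]
    congr 1
    exact Multiset.map_congr rfl fun j _ => T1.ab j
  · intro v hv e he
    obtain ⟨-, h6⟩ := h2 v hv
    obtain ⟨x, hx⟩ := h6 e he
    exact ⟨T1.β x, h5 (Stg.mem_gr.2 ⟨x, hx, rfl⟩)⟩
  · intro v hv
    obtain ⟨⟨x, m, hx, -⟩, -⟩ := h4 v hv
    exact ⟨T.α x, Stg.mem_gr.2 ⟨x, rfl, hx⟩⟩
  · intro v hv e he
    obtain ⟨-, h6⟩ := h4 v hv
    obtain ⟨x, hx⟩ := h6 e he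
    exact ⟨T.α x, Stg.mem_gr.2 ⟨x, rfl, hx⟩⟩

/-- Stable algebras with isomorphic graph monoids are star isomorphic. -/
theorem exists_stable_iso [Countable G.V] [Countable G'.V] (hG : Stable G) (hG' : Stable G')
    (f : MG G ≃+ MG G') (hf : Corr f) (hf' : Corr f.symm) :
    ∃ (θ : LPA K G →⋆ₙₐ[K] LPA K G') (θ' : LPA K G' →⋆ₙₐ[K] LPA K G),
      (∀ x, θ' (θ x) = x) ∧ (∀ y, θ (θ' y) = y) ∧
      ∀ v, ∃ t, SF K (θ (pp K v)) t ∧ f (mk {v}) = mk t := by
  classical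
  obtain ⟨X, hX⟩ := exists_exhaustion G.V
  obtain ⟨Y, hY⟩ := exists_exhaustion G'.V
  choose F hF1 hF2 hF3 hF4 hF5 using fun (S : Stg K f) (n : ℕ) =>
    S.step2 hG hG' hf hf' (X n) (Y n)
  let s : ℕ → Stg K f := fun n => Nat.rec (Stg.empty K f) (fun n t => F t n) n
  have hs : ∀ n, s (n + 1) = F (s n) n := fun n => rfl
  have hmono : Monotone fun n => (s n).gr := by
    apply monotone_nat_of_le_succ
    intro n
    rw [hs]
    exact hF1 _ _
  let Γ : NonUnitalSubalgebra K (LPA K G × LPA K G') :=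
    { carrier := {x | ∃ n, x ∈ (s n).gr}
      add_mem' := by
        rintro x y ⟨n, hn⟩ ⟨m, hm⟩
        exact ⟨max n m, add_mem (hmono (le_max_left _ _) hn) (hmono (le_max_right _ _) hm)⟩
      zero_mem' := ⟨0, zero_mem _⟩
      mul_mem' := by
        rintro x y ⟨n, hn⟩ ⟨m, hm⟩
        exact ⟨max n m, mul_mem (hmono (le_max_left _ _) hn) (hmono (le_max_right _ _) hm)⟩
      smul_mem' := by
        rintro r x ⟨n, hn⟩
        exact ⟨n, ((s n).gr).smul_mem r hn⟩ }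
  have hstar : ∀ x ∈ Γ, star x ∈ Γ := by
    rintro x ⟨n, hn⟩
    exact ⟨n, Stg.star_mem hn⟩
  have i1 : ∀ x ∈ Γ, x.1 = 0 → x.2 = 0 := by
    rintro x ⟨n, hn⟩ h
    obtain ⟨y, h1, h2⟩ := Stg.mem_gr.1 hn
    have h3 : y = 0 := (s n).injA (by rw [h1, h, map_zero])
    rw [← h2, h3, map_zero]
  have i2 : ∀ x ∈ Γ, x.2 = 0 → x.1 = 0 := by
    rintro x ⟨n, hn⟩ h
    obtain ⟨y, h1, h2⟩ := Stg.mem_gr.1 hn
    have h3 : y = 0 := (s n).injB (by rw [h2, h, map_zero])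
    rw [← h1, h3, map_zero]
  have e1 : ∀ x, ∃ y, (x, y) ∈ Γ := by
    intro x
    have hss : ∀ e, ∃ y, (ss K e, y) ∈ Γ := by
      intro e
      obtain ⟨n, hn⟩ := hX (G.src e)
      obtain ⟨y, hy⟩ := hF3 (s n) n _ hn e rfl
      exact ⟨y, n + 1, hy⟩
    induction x using LPA.induction with
    | hgen x =>
      cases x with
      | vert v =>
        obtain ⟨n, hn⟩ := hX v
        obtain ⟨t, ⟨y, hy, -⟩, -⟩ := hF2 (s n) n v hn
        exact ⟨y, n + 1, hy⟩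
      | edge e => exact hss e
      | ghost e =>
        obtain ⟨y, hy⟩ := hss e
        have h1 := hstar _ hy
        refine ⟨star y, ?_⟩
        have h2 : star (ss K e, y) = (tt K e, star y) := by
          rw [Prod.star_def]; simp only [star_ss]
        rw [h2] at h1
        exact h1
    | hadd a b ha hb =>
      obtain ⟨y, hy⟩ := ha
      obtain ⟨z, hz⟩ := hb
      exact ⟨y + z, add_mem hy hz⟩
    | hzero => exact ⟨0, zero_mem Γ⟩
    | hmul a b ha hb =>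
      obtain ⟨y, hy⟩ := ha
      obtain ⟨z, hz⟩ := hb
      exact ⟨y * z, mul_mem hy hz⟩
    | hsmul r a ha =>
      obtain ⟨y, hy⟩ := ha
      exact ⟨r • y, Γ.smul_mem r hy⟩
  have e2 : ∀ y, ∃ x, (x, y) ∈ Γ := by
    intro y
    have hss : ∀ e, ∃ x, (x, ss K e) ∈ Γ := by
      intro e
      obtain ⟨n, hn⟩ := hY (G'.src e)
      obtain ⟨y, hy⟩ := hF5 (s n) n _ hn e rfl
      exact ⟨y, n + 1, hy⟩
    induction y using LPA.induction with
    | hgen x =>
      cases x with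
      | vert v =>
        obtain ⟨n, hn⟩ := hY v
        obtain ⟨y, hy⟩ := hF4 (s n) n v hn
        exact ⟨y, n + 1, hy⟩
      | edge e => exact hss e
      | ghost e =>
        obtain ⟨y, hy⟩ := hss e
        have h1 := hstar _ hy
        refine ⟨star y, ?_⟩
        have h2 : star (y, ss K e) = (star y, tt K e) := by
          rw [Prod.star_def]; simp only [star_ss]
        rw [h2] at h1
        exact h1
    | hadd a b ha hb =>
      obtain ⟨y, hy⟩ := ha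
      obtain ⟨z, hz⟩ := hb
      exact ⟨y + z, add_mem hy hz⟩
    | hzero => exact ⟨0, zero_mem Γ⟩
    | hmul a b ha hb =>
      obtain ⟨y, hy⟩ := ha
      obtain ⟨z, hz⟩ := hb
      exact ⟨y * z, mul_mem hy hz⟩
    | hsmul r a ha =>
      obtain ⟨y, hy⟩ := ha
      exact ⟨r • y, Γ.smul_mem r hy⟩
  obtain ⟨θ, θ', h1, h2, h3⟩ := exists_hom_of_graph Γ hstar e1 e2 i1 i2
  refine ⟨θ, θ', h1, h2, fun v => ?_⟩
  obtain ⟨n, hn⟩ := hX v
  obtain ⟨t, ⟨y, hy, hy'⟩, ht⟩ := hF2 (s n) n v hn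
  refine ⟨t, ?_, ht⟩
  rw [h3 (pp K v) y ⟨n + 1, hy⟩]
  exact hy'

end Run7.h19
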