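import Pool.Agent.Run7.h19.CorrP
import Pool.Agent.Run7.h19.Glue
import Pool.Agent.Run7.h19.Stab

/-!
# From isomorphisms to star isomorphisms, for corners of algebras of loop graphs (helper19)
-/

namespace Run7.h19

open Pool.Agent.Helper665_GA LoopGraph

section orth

variable {C : Type*} [NonUnitalRing C]

theorem chain_idem {e g k : C} (he : e * e = e) (hg : g * g = g) (hk : k * k = k)
    (h1 : e * g = e) (h1' : g * e = e) (h2 : g * k = g) (h2' : k * g = g) :
    (g - e) * (g - e) = g - e ∧ (k - g) * (k - g) = k - g ∧ (g - e) * (k - g) = 0 ∧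
      (k - g) * (g - e) = 0 := by
  have h3 : e * k = e := by rw [← h1, mul_assoc, h2]
  have h3' : k * e = e := by rw [← h1', ← mul_assoc, h2']
  refine ⟨?_, ?_, ?_, ?_⟩
  · rw [sub_mul, mul_sub, mul_sub, hg, h1, h1', he]; abel
  · rw [sub_mul, mul_sub, mul_sub, hk, h2, h2', hg]; abel
  · rw [sub_mul, mul_sub, mul_sub, h2, hg, h3, h1]; abel
  · rw [sub_mul, mul_sub, mul_sub, h2', h3', hg, h1']; abel

theorem sum_mul_sum_orth {α : ℕ → C} (h1 : ∀ k l, k ≠ l → α k * α l = 0)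
    (h2 : ∀ k, α k * α k = α k) {N M : ℕ} (h : N ≤ M) :
    (∑ k ∈ Finset.range M, α k) * (∑ k ∈ Finset.range N, α k) = ∑ k ∈ Finset.range N, α k ∧
    (∑ k ∈ Finset.range N, α k) * (∑ k ∈ Finset.range M, α k) = ∑ k ∈ Finset.range N, α k := by
  constructor
  · rw [Finset.mul_sum]
    apply Finset.sum_congr rfl
    intro k hk
    rw [Finset.sum_mul, Finset.sum_eq_single_of_mem k
      (Finset.mem_range.2 (lt_of_lt_of_le (Finset.mem_range.1 hk) h)), h2]
    intro l _ hl
    exact h1 l k hl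
  · rw [Finset.sum_mul]
    apply Finset.sum_congr rfl
    intro k hk
    rw [Finset.mul_sum, Finset.sum_eq_single_of_mem k
      (Finset.mem_range.2 (lt_of_lt_of_le (Finset.mem_range.1 hk) h)), h2]
    intro l _ hl
    exact h1 k l hl.symm

end orth

section

variable {K : Type*} [Field K] {G : Graph}

theorem ppS_telescope {S : ℕ → Finset G.V} (S0 : S 0 = ∅) (hS : ∀ n, S n ⊆ S (n + 1))
    [DecidableEq G.V] (n : ℕ) :
    ∑ i ∈ Finset.range n, (∑ v ∈ S (i + 1) \ S i, pp K v) = ∑ v ∈ S n, pp K v := by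
  induction n with
  | zero => simp [S0]
  | succ n ih => rw [Finset.sum_range_succ, ih, add_comm, Finset.sum_sdiff (hS n)]

theorem mono_of_step {S : ℕ → Finset G.V} (hS : ∀ n, S n ⊆ S (n + 1)) {n m : ℕ} (h : n ≤ m) :
    S n ⊆ S m := by
  have : Monotone S := monotone_nat_of_le_succ hS
  exact this h

theorem exists_subset_of_exh {S : ℕ → Finset G.V} (hS : ∀ n, S n ⊆ S (n + 1)) {X : Set G.V}
    (eS : ∀ v ∈ X, ∃ n, v ∈ S n) (W : Finset G.V) (hW : (W : Set G.V) ⊆ X) : ∃ n, W ⊆ S n := by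
  classical
  induction W using Finset.induction_on with
  | empty => exact ⟨0, Finset.empty_subset _⟩
  | @insert v W hv ih =>
    rw [Finset.coe_insert, Set.insert_subset_iff] at hW
    obtain ⟨n, hn⟩ := ih hW.2
    obtain ⟨m, hm⟩ := eS v hW.1
    refine ⟨max n m, ?_⟩
    rw [Finset.insert_subset_iff]
    exact ⟨mono_of_step hS (le_max_right _ _) hm, hn.trans (mono_of_step hS (le_max_left _ _))⟩

theorem ppS_orth {S : ℕ → Finset G.V} (hS : ∀ n, S n ⊆ S (n + 1)) [DecidableEq G.V] {n m : ℕ}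
    (h : n ≠ m) : (∑ v ∈ S (n + 1) \ S n, pp K v) * (∑ v ∈ S (m + 1) \ S m, pp K v) = 0 := by
  apply ppS_disj
  rw [Finset.disjoint_left]
  intro v hv hw
  rw [Finset.mem_sdiff] at hv hw
  rcases Nat.lt_or_gt_of_ne h with h | h
  · exact hw.2 (mono_of_step hS h hv.1)
  · exact hv.2 (mono_of_step hS h hw.1)

variable [StarRing K]

theorem SF_ppS (S : Finset G.V) : SF K (∑ v ∈ S, pp K v) S.val := by
  have hg : Fr QSt (pp K) (∑ v ∈ S, pp K v * pp K v) (S.val.map id) := by
    apply Fr.of_finset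
    · exact fun v _ => (star_pp v).symm
    · exact fun v _ => pp_pp v
    · exact fun v _ w _ hvw => pp_ne hvw
    · exact fun v _ => pp_pp v
    · exact fun v _ => pp_pp v
  rw [Multiset.map_id, Finset.sum_congr rfl fun v _ => pp_pp v] at hg
  exact hg

theorem SF_theta {H H' : Graph} [LoopGraph H] [LoopGraph H'] (θ : LPA K H →⋆ₙₐ[K] LPA K H')
    (F : MG H ≃+ MG H') (hθ : ∀ v, ∃ t, SF K (θ (pp K v)) t ∧ F (mk {v}) = mk t)
    {e : LPA K H} {s : Multiset H.V} (he : SF K e s) {t : Multiset H'.V}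
    (ht : F (mk s) = mk t) : SF K (θ e) t := by
  choose a h1 h2 using hθ
  have k1 : SF K (θ e) (s.bind a) := (Fr.map_star θ (map_star θ) he).comp h1
  refine (SF_congr ?_).1 k1
  rw [← ht, mk_bind]
  have : mk s = (s.map fun v => mk {v}).sum := by
    clear ht k1 he
    induction s using Multiset.induction_on with
    | empty => simp [mk_zero]
    | cons v s ih => rw [mk_cons, ih, Multiset.map_cons, Multiset.sum_cons]
  rw [this, map_multiset_sum, Multiset.map_map]
  congr 1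
  exact Multiset.map_congr rfl fun v _ => (h2 v).symm

end

variable {K : Type*} [Field K] [StarRing K]
  {A : Type*} [NonUnitalRing A] [StarRing A] [Module K A]
  [IsScalarTower K A A] [SMulCommClass K A A] [StarModule K A]
  {B : Type*} [NonUnitalRing B] [StarRing B] [Module K B]
  [IsScalarTower K B B] [SMulCommClass K B B] [StarModule K B]
  {G G' : Graph} [LoopGraph G] [LoopGraph G']
  {X : Set G.V} {j : A →⋆ₙₐ[K] LPA K G}
  {X' : Set G'.V} {j' : B →⋆ₙₐ[K] LPA K G'}

theorem scale_core [DecidableEq G.V] [DecidableEq G'.V] (h : Pres G X j) (h' : Pres G' X' j')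
    (θ : LPA K (stab G) →⋆ₙₐ[K] LPA K (stab G')) (θ' : LPA K (stab G') →⋆ₙₐ[K] LPA K (stab G))
    (hθ1 : ∀ x, θ' (θ x) = x) (hθ2 : ∀ y, θ (θ' y) = y) (f : MG G ≃+ MG G')
    (hθ : ∀ v, ∃ t, SF K (θ (pp K v)) t ∧
      (stMG.symm.trans (f.trans stMG) : MG (stab G) ≃+ MG (stab G')) (mk {v}) = mk t)
    (S : ℕ → Finset G.V) (T : ℕ → Finset G'.V) (c c' : ℕ → MG G)
    (S0 : S 0 = ∅) (T0 : T 0 = ∅) (hS : ∀ n, S n ⊆ S (n + 1)) (hT : ∀ n, T n ⊆ T (n + 1))
    (hSX : ∀ n, (S n : Set G.V) ⊆ X) (hTX : ∀ n, (T n : Set G'.V) ⊆ X')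
    (eS : ∀ v ∈ X, ∃ n, v ∈ S n) (eT : ∀ v ∈ X', ∃ n, v ∈ T n)
    (c0 : c 0 = 0) (hc : ∀ n, mk (S (n + 1) \ S n).val = c n + c' n)
    (hc' : ∀ n, mk (T (n + 1) \ T n).val = f (c' n) + f (c (n + 1))) :
    ∃ (Θ : A →⋆ₙₐ[K] B) (Θ' : B →⋆ₙₐ[K] A), (∀ a, Θ' (Θ a) = a) ∧ (∀ b, Θ (Θ' b) = b) := by
  choose s hs using fun n => mk_surj (c n)
  choose s' hs' using fun n => mk_surj (c' n)
  choose t ht using fun n => mk_surj (f (c n))
  choose t' ht' using fun n => mk_surj (f (c' n))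
  have hA : ∀ n, SF K (∑ v ∈ S (n + 1) \ S n, pp K v) (s n + s' n) := by
    intro n
    refine (SF_congr ?_).1 (SF_ppS _)
    rw [hc, mk_add, hs, hs']
  have hB : ∀ n, SF K (∑ v ∈ T (n + 1) \ T n, pp K v) (t' n + t (n + 1)) := by
    intro n
    refine (SF_congr ?_).1 (SF_ppS _)
    rw [hc', mk_add, ht, ht']
  choose a a' ha1 ha2 ha3 ha4 ha5 using fun n => (hA n).split
  choose b' bb hb1 hb2 hb3 hb4 hb5 using fun n => (hB n).split
  let b : ℕ → LPA K G' := fun n => Nat.rec 0 (fun n _ => bb n) n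
  have b0 : b 0 = 0 := rfl
  have bs : ∀ n, b (n + 1) = bb n := fun n => rfl
  have t0 : t 0 = 0 := mk_eq_zero (by rw [ht, c0, map_zero])
  have hbf : ∀ n, SF K (b n) (t n) := by
    intro n
    cases n with
    | zero => rw [b0, t0]; exact Fr.zero
    | succ n => rw [bs]; exact hb3 n
  -- the sequences
  set a1 : ℕ → LPA K (stab G') := fun n => θ (ist K G (a n)) with ea1
  set a1' : ℕ → LPA K (stab G') := fun n => θ (ist K G (a' n)) with ea1'
  set b1 : ℕ → LPA K (stab G') := fun n => ist K G' (b n) with eb1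
  set b1' : ℕ → LPA K (stab G') := fun n => ist K G' (b' n) with eb1'
  set α : ℕ → LPA K (stab G') := ilv a1 a1' with eα
  set β : ℕ → LPA K (stab G') := ilv b1 b1' with eβ
  have hfr : ∀ k, ∃ m, SF K (β k) m ∧ SF K (α k) m := by
    intro k
    rcases Nat.even_or_odd' k with ⟨n, rfl | rfl⟩
    · refine ⟨(t n).map fun v => sv v [], ?_, ?_⟩
      · rw [eβ, ilv_even]; exact SF_ist (hbf n)
      · rw [eα, ilv_even]
        refine SF_theta θ _ hθ (SF_ist (ha2 n)) ?_
        rw [← stMG_mk, ← stMG_mk, AddEquiv.trans_apply, AddEquiv.symm_apply_apply,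
          AddEquiv.trans_apply, hs, ht]
    · refine ⟨(t' n).map fun v => sv v [], ?_, ?_⟩
      · rw [eβ, ilv_odd]; exact SF_ist (hb2 n)
      · rw [eα, ilv_odd]
        refine SF_theta θ _ hθ (SF_ist (ha3 n)) ?_
        rw [← stMG_mk, ← stMG_mk, AddEquiv.trans_apply, AddEquiv.symm_apply_apply,
          AddEquiv.trans_apply, hs', ht']
  choose x hx using fun k => exists_pi_of_frames (hfr k).choose_spec.1 (hfr k).choose_spec.2
  have idα : ∀ k, α k * α k = α k := fun k => SF.idem (hfr k).choose_spec.2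
  have idβ : ∀ k, β k * β k = β k := fun k => SF.idem (hfr k).choose_spec.1
  have oα : ∀ k l, k ≠ l → α k * α l = 0 := by
    apply ilv_orth (d := fun n => θ (ist K G (∑ v ∈ S (n + 1) \ S n, pp K v)))
    · intro n; rw [ea1, ea1']; simp only; rw [← map_mul, ← map_mul, ha4, map_zero, map_zero]
    · intro n; rw [ea1, ea1']; simp only; rw [← map_mul, ← map_mul, ha5, map_zero, map_zero]
    · intro n
      rw [ea1]; simp only
      rw [← map_mul, ← map_mul, ha1, mul_add, SF.idem (ha2 n), ha4, add_zero]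
    · intro n
      rw [ea1]; simp only
      rw [← map_mul, ← map_mul, ha1, add_mul, SF.idem (ha2 n), ha5, add_zero]
    · intro n
      rw [ea1']; simp only
      rw [← map_mul, ← map_mul, ha1, mul_add, SF.idem (ha3 n), ha5, zero_add]
    · intro n
      rw [ea1']; simp only
      rw [← map_mul, ← map_mul, ha1, add_mul, SF.idem (ha3 n), ha4, zero_add]
    · intro n m hnm
      rw [← map_mul, ← map_mul, ppS_orth hS hnm, map_zero, map_zero]
  have oβ : ∀ k l, k ≠ l → β k * β l = 0 := by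
    apply ilv_orth' (d := fun n => ist K G' (∑ v ∈ T (n + 1) \ T n, pp K v))
    · rw [eb1]; simp only; rw [b0, map_zero]
    · intro n; rw [eb1, eb1']; simp only; rw [← map_mul, bs, hb5, map_zero]
    · intro n; rw [eb1, eb1']; simp only; rw [← map_mul, bs, hb4, map_zero]
    · intro n
      rw [eb1]; simp only
      rw [← map_mul, bs, hb1, mul_add, SF.idem (hb3 n), hb5, zero_add]
    · intro n
      rw [eb1]; simp only
      rw [← map_mul, bs, hb1, add_mul, SF.idem (hb3 n), hb4, zero_add]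
    · intro n
      rw [eb1']; simp only
      rw [← map_mul, hb1, mul_add, SF.idem (hb2 n), hb4, add_zero]
    · intro n
      rw [eb1']; simp only
      rw [← map_mul, hb1, add_mul, SF.idem (hb2 n), hb5, add_zero]
    · intro n m hnm
      rw [← map_mul, ppS_orth hT hnm, map_zero]
  have sα : ∀ n, ∑ k ∈ Finset.range (2 * n), α k = θ (ist K G (∑ v ∈ S n, pp K v)) := by
    intro n
    rw [eα, ilv_sum, ← ppS_telescope S0 hS n, map_sum, map_sum]
    apply Finset.sum_congr rfl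
    intro i _
    rw [ea1, ea1', ha1, map_add, map_add]
  have sβ : ∀ n, ∑ k ∈ Finset.range (2 * n + 1), β k = ist K G' (∑ v ∈ T n, pp K v) := by
    intro n
    rw [eβ, ilv_sum', ← ppS_telescope T0 hT n, map_sum]
    have : b1 0 = 0 := by rw [eb1]; simp only; rw [b0, map_zero]
    rw [this, zero_add]
    apply Finset.sum_congr rfl
    intro i _
    rw [hb1, map_add]
  let J1 : A →⋆ₙₐ[K] LPA K (stab G') := θ.comp ((ist K G).comp j)
  let J2 : B →⋆ₙₐ[K] LPA K (stab G') := (ist K G').comp j'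
  have hJ1 : ∀ a, J1 a = θ (ist K G (j a)) := fun a => rfl
  have hJ2 : ∀ b, J2 b = ist K G' (j' b) := fun b => rfl
  have injθ : Function.Injective θ := fun p q hpq => by rw [← hθ1 p, hpq, hθ1]
  have hG : Glue J1 J2 α β x :=
    { inj1 := fun p q hpq => h.inj (ist_injective (injθ hpq))
      inj2 := fun p q hpq => h'.inj (ist_injective hpq)
      orthA := oα
      orthB := oβ
      xx := fun k => (hx k).2.1
      xx' := fun k => (hx k).1
      xa := fun k => (hx k).2.2.2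
      loc1 := by
        intro p
        obtain ⟨W, hW, w1, w2⟩ := h.loc p
        obtain ⟨n, hn⟩ := exists_subset_of_exh hS eS W hW
        refine ⟨2 * n, ?_, ?_⟩
        · rw [sα, hJ1, ← map_mul, ← map_mul, ← w1, ← mul_assoc, ppS_sub hn]
        · rw [sα, hJ1, ← map_mul, ← map_mul, ← w2, mul_assoc, ppS_sub' hn]
      loc2 := by
        intro p
        obtain ⟨W, hW, w1, w2⟩ := h'.loc p
        obtain ⟨n, hn⟩ := exists_subset_of_exh hT eT W hW
        refine ⟨2 * n + 1, ?_, ?_⟩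
        · rw [sβ, hJ2, ← map_mul, ← w1, ← mul_assoc, ppS_sub hn]
        · rw [sβ, hJ2, ← map_mul, ← w2, mul_assoc, ppS_sub' hn]
      cor1 := by
        intro N z z1 z2
        obtain ⟨m1, m2⟩ := sum_mul_sum_orth oα idα (N := N) (M := 2 * N) (by omega)
        have k1 : θ (ist K G (∑ v ∈ S N, pp K v)) * z = z := by
          rw [← sα, ← z1, ← mul_assoc, m1]
        have k2 : z * θ (ist K G (∑ v ∈ S N, pp K v)) = z := by
          rw [← sα, ← z2, mul_assoc, m2]
        obtain ⟨y, hy⟩ := ist_surj (K := K) (S N) (c := θ' z)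
          (by rw [← ist_sum, ← hθ1 (ist K G (∑ v ∈ S N, pp K v)), ← map_mul, k1])
          (by rw [← ist_sum, ← hθ1 (ist K G (∑ v ∈ S N, pp K v)), ← map_mul, k2])
        obtain ⟨p, hp⟩ := h.cor (S N) y (hSX N)
          (by
            apply ist_injective
            rw [map_mul, hy, ← hθ1 (ist K G (∑ v ∈ S N, pp K v)), ← map_mul, k1])
          (by
            apply ist_injective
            rw [map_mul, hy, ← hθ1 (ist K G (∑ v ∈ S N, pp K v)), ← map_mul, k2])
        exact ⟨p, by rw [hJ1, hp, hy, hθ2]⟩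
      cor2 := by
        intro N z z1 z2
        obtain ⟨m1, m2⟩ := sum_mul_sum_orth oβ idβ (N := N) (M := 2 * N + 1) (by omega)
        have k1 : (ist K G' (∑ v ∈ T N, pp K v)) * z = z := by
          rw [← sβ, ← z1, ← mul_assoc, m1]
        have k2 : z * (ist K G' (∑ v ∈ T N, pp K v)) = z := by
          rw [← sβ, ← z2, mul_assoc, m2]
        obtain ⟨y, hy⟩ := ist_surj (K := K) (T N) (c := z)
          (by rw [← ist_sum, k1]) (by rw [← ist_sum, k2])
        obtain ⟨p, hp⟩ := h'.cor (T N) y (hTX N)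
          (by apply ist_injective; rw [map_mul, hy, k1])
          (by apply ist_injective; rw [map_mul, hy, k2])
        exact ⟨p, by rw [hJ2, hp, hy]⟩ }
  exact hG.exists_iso

theorem Pres.exists_unit (h : Pres G X j) (S : {S : Finset G.V // (S : Set G.V) ⊆ X}) :
    ∃ a, j a = ∑ v ∈ S.1, pp K v := h.cor S.1 _ S.2 (ppS_sub subset_rfl) (ppS_sub' subset_rfl)

theorem Pres.exists_next [DecidableEq G.V] (h : Pres G X j)
    {u : {S : Finset G.V // (S : Set G.V) ⊆ X} → A} (hu : ∀ S, j (u S) = ∑ v ∈ S.1, pp K v)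
    (E : ℕ → Finset G.V) (g : A) (S : {S : Finset G.V // (S : Set G.V) ⊆ X}) (n : ℕ) :
    ∃ S' : {S : Finset G.V // (S : Set G.V) ⊆ X}, S.1 ⊆ S'.1 ∧ (∀ v ∈ X, v ∈ E n → v ∈ S'.1) ∧
      u S' * g = g ∧ g * u S' = g := by
  classical
  obtain ⟨W, hW, w1, w2⟩ := h.loc g
  have hX : ((S.1 ∪ W ∪ (E n).filter (fun v => v ∈ X) : Finset G.V) : Set G.V) ⊆ X := by
    intro v hv
    rw [Finset.mem_coe, Finset.mem_union, Finset.mem_union, Finset.mem_filter] at hv
    rcases hv with (hv | hv) | hv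
    · exact S.2 hv
    · exact hW hv
    · exact hv.2
  have hsub : W ⊆ S.1 ∪ W ∪ (E n).filter (fun v => v ∈ X) := by
    intro v hv
    rw [Finset.mem_union, Finset.mem_union]
    exact Or.inl (Or.inr hv)
  refine ⟨⟨_, hX⟩, ?_, ?_, ?_, ?_⟩
  · intro v hv
    rw [Finset.mem_union, Finset.mem_union]
    exact Or.inl (Or.inl hv)
  · intro v hv hv'
    rw [Finset.mem_union, Finset.mem_filter]
    exact Or.inr ⟨hv', hv⟩
  · apply h.inj
    rw [map_mul, hu, ← w1, ← mul_assoc, ppS_sub hsub]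
  · apply h.inj
    rw [map_mul, hu, ← w2, mul_assoc, ppS_sub' hsub]

theorem exists_star_iso [Countable G.V] [Countable G'.V] (h : Pres G X j) (h' : Pres G' X' j')
    (φ : A →ₙₐ[K] B) (ψ : B →ₙₐ[K] A) (hφ : ∀ a, ψ (φ a) = a) (hψ : ∀ b, φ (ψ b) = b) :
    ∃ (Θ : A →⋆ₙₐ[K] B) (Θ' : B →⋆ₙₐ[K] A), (∀ a, Θ' (Θ a) = a) ∧ (∀ b, Θ (Θ' b) = b) := by
  classical
  haveI : Countable (stab G).V := inferInstanceAs (Countable (G.V × List ℕ))
  haveI : Countable (stab G').V := inferInstanceAs (Countable (G'.V × List ℕ))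
  set f := h.iso h' φ ψ hφ hψ with ef
  have hf : Corr f := h.corr h' φ ψ hφ hψ
  have hf' : Corr f.symm := h'.corr h ψ φ hψ hφ
  obtain ⟨θ, θ', hθ1, hθ2, hθ⟩ := exists_stable_iso (K := K) stable_stab stable_stab
    (stMG.symm.trans (f.trans stMG)) (Corr_stab hf) (Corr_stab hf')
  obtain ⟨EX, hEX⟩ := exists_exhaustion G.V
  obtain ⟨EY, hEY⟩ := exists_exhaustion G'.V
  choose u hu using h.exists_unit
  choose u' hu' using h'.exists_unit
  choose F hF1 hF2 hF3 hF4 using fun T => h.exists_next hu EX (ψ (u' T))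
  choose F' hF1' hF2' hF3' hF4' using fun S => h'.exists_next hu' EY (φ (u S))
  let st : ℕ → {S : Finset G.V // (S : Set G.V) ⊆ X} × {T : Finset G'.V // (T : Set G'.V) ⊆ X'} :=
    fun n => Nat.rec (⟨∅, by simp⟩, ⟨∅, by simp⟩)
      (fun n p => (F p.2 p.1 n, F' (F p.2 p.1 n) p.2 n)) n
  set S : ℕ → {S : Finset G.V // (S : Set G.V) ⊆ X} := fun n => (st n).1 with eS
  set T : ℕ → {T : Finset G'.V // (T : Set G'.V) ⊆ X'} := fun n => (st n).2 with eT
  have S0 : (S 0).1 = ∅ := rfl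
  have T0 : (T 0).1 = ∅ := rfl
  have Ss : ∀ n, S (n + 1) = F (T n) (S n) n := fun n => rfl
  have Ts : ∀ n, T (n + 1) = F' (S (n + 1)) (T n) n := fun n => rfl
  have u0 : u (S 0) = 0 := by
    apply h.inj; rw [hu, S0, map_zero, Finset.sum_empty]
  have u0' : u' (T 0) = 0 := by
    apply h'.inj; rw [hu', T0, map_zero, Finset.sum_empty]
  have uid : ∀ S, u S * u S = u S := by
    intro S; apply h.inj; rw [map_mul, hu]; exact ppS_sub subset_rfl
  have uid' : ∀ S, u' S * u' S = u' S := by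
    intro S; apply h'.inj; rw [map_mul, hu']; exact ppS_sub subset_rfl
  have r1 : ∀ n, u (S (n + 1)) * ψ (u' (T n)) = ψ (u' (T n)) := by
    intro n; rw [Ss]; exact hF3 _ _ _
  have r2 : ∀ n, ψ (u' (T n)) * u (S (n + 1)) = ψ (u' (T n)) := by
    intro n; rw [Ss]; exact hF4 _ _ _
  have r3 : ∀ n, u' (T n) * φ (u (S n)) = φ (u (S n)) := by
    intro n
    cases n with
    | zero => rw [u0, map_zero, mul_zero]
    | succ n => rw [Ts]; exact hF3' _ _ _
  have r4 : ∀ n, φ (u (S n)) * u' (T n) = φ (u (S n)) := by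
    intro n
    cases n with
    | zero => rw [u0, map_zero, zero_mul]
    | succ n => rw [Ts]; exact hF4' _ _ _
  have injφ : Function.Injective φ := fun p q hpq => by rw [← hφ p, hpq, hφ]
  have injψ : Function.Injective ψ := fun p q hpq => by rw [← hψ p, hpq, hψ]
  have c1 : ∀ n, _ := fun n => chain_idem (e := u (S n)) (g := ψ (u' (T n)))
    (k := u (S (n + 1))) (uid _) (by rw [← map_mul, uid']) (uid _)
    (by apply injφ; rw [map_mul, hψ, r4]) (by apply injφ; rw [map_mul, hψ, r3]) (r2 n) (r1 n)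
  have c2 : ∀ n, _ := fun n => chain_idem (e := u' (T n)) (g := φ (u (S (n + 1))))
    (k := u' (T (n + 1))) (uid' _) (by rw [← map_mul, uid]) (uid' _)
    (by apply injψ; rw [map_mul, hφ, r2]) (by apply injψ; rw [map_mul, hφ, r1]) (r4 (n + 1)) (r3 (n + 1))
  have hSs : ∀ n, (S n).1 ⊆ (S (n + 1)).1 := by
    intro n; rw [Ss]; exact hF1 _ _ _
  have hTs : ∀ n, (T n).1 ⊆ (T (n + 1)).1 := by
    intro n; rw [Ts]; exact hF1' _ _ _
  have mulj : ∀ {a b c : A}, a * b = c → j a * j b = j c := by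
    rintro a b c rfl; rw [map_mul]
  have mulj' : ∀ {a b c : B}, a * b = c → j' a * j' b = j' c := by
    rintro a b c rfl; rw [map_mul]
  refine scale_core h h' θ θ' hθ1 hθ2 f hθ (fun n => (S n).1) (fun n => (T n).1)
    (fun n => cl (j (ψ (u' (T n)) - u (S n)))) (fun n => cl (j (u (S (n + 1)) - ψ (u' (T n)))))
    S0 T0 hSs hTs (fun n => (S n).2) (fun n => (T n).2) ?_ ?_ ?_ ?_ ?_
  · intro v hv
    obtain ⟨n, hn⟩ := hEX v
    exact ⟨n + 1, hF2 _ _ _ v hv hn⟩
  · intro v hv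
    obtain ⟨n, hn⟩ := hEY v
    exact ⟨n + 1, hF2' _ _ _ v hv hn⟩
  · show cl (j (ψ (u' (T 0)) - u (S 0))) = 0
    rw [u0, u0', map_zero, sub_zero, map_zero, cl_zero]
  · intro n
    obtain ⟨d1, d2, d3, d4⟩ := c1 n
    have e1 := cl_add (mulj d1) (mulj d2) (by rw [mulj d3, map_zero]) (by rw [mulj d4, map_zero])
    show _ = cl (j (ψ (u' (T n)) - u (S n))) + cl (j (u (S (n + 1)) - ψ (u' (T n))))
    rw [← e1, ← map_add]
    have e2 : ψ (u' (T n)) - u (S n) + (u (S (n + 1)) - ψ (u' (T n)))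
        = u (S (n + 1)) - u (S n) := by abel
    rw [e2, map_sub, hu, hu, ← Finset.sum_sdiff_eq_sub (hSs n)]
    exact ((SF_ppS _).cl).symm
  · intro n
    obtain ⟨d1, d2, d3, d4⟩ := c2 n
    obtain ⟨-, f1, -, -⟩ := c1 n
    obtain ⟨f2, -, -, -⟩ := c1 (n + 1)
    have e1 := cl_add (mulj' d1) (mulj' d2) (by rw [mulj' d3, map_zero])
      (by rw [mulj' d4, map_zero])
    show _ = f (cl (j (u (S (n + 1)) - ψ (u' (T n)))))
      + f (cl (j (ψ (u' (T (n + 1))) - u (S (n + 1)))))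
    rw [ef, h.iso_cl h' φ ψ hφ hψ f1, h.iso_cl h' φ ψ hφ hψ f2, map_sub φ, map_sub φ, hψ, hψ,
      ← e1, ← map_add]
    have e2 : φ (u (S (n + 1))) - u' (T n) + (u' (T (n + 1)) - φ (u (S (n + 1))))
        = u' (T (n + 1)) - u' (T n) := by abel
    rw [e2, map_sub, hu', hu', ← Finset.sum_sdiff_eq_sub (hTs n)]
    exact ((SF_ppS _).cl).symm

end Run7.h19
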