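import Pool.Agent.Run7.h19.Desing5
import Pool.Agent.Run7.h19.Dbl
import Pool.Agent.Run7.h19.Scale
import Pool.Agent.Helper665_GA.Involution

/-!
# Ring isomorphism implies star isomorphism for graphs with disjoint cycles (helper19)
-/

namespace Run7.h19

open Pool.Agent.Helper665_GA

/-- Algebra isomorphisms give star isomorphisms, for countable graphs with disjoint cycles. -/
theorem LPA_star_iso {K : Type*} [Field K] [StarRing K] {E F : Graph} [Countable E.V]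
    [Countable E.E] [Countable F.V] [Countable F.E]
    (hE : ∀ e f : E.E, E.src e = E.src f → Cyc e → Cyc f → e = f)
    (φ : LPA K E →ₙₐ[K] LPA K F) (ψ : LPA K F →ₙₐ[K] LPA K E) (h1 : ∀ a, ψ (φ a) = a)
    (h2 : ∀ b, φ (ψ b) = b) :
    ∃ (Θ : LPA K E →⋆ₙₐ[K] LPA K F) (Θ' : LPA K F →⋆ₙₐ[K] LPA K E),
      (∀ a, Θ' (Θ a) = a) ∧ (∀ b, Θ (Θ' b) = b) := by
  obtain ⟨N, iN, cN, X, j, hj⟩ := exists_pres (K := K) E hE
  have hF : ∀ e f : F.E, F.src e = F.src f → Cyc e → Cyc f → e = f :=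
    disj_of_injective ((j : LPA K E →ₙₐ[K] LPA K N).comp ψ) (by
      intro a b hab
      have h3 : ψ a = ψ b := hj.inj hab
      rw [← h2 a, h3, h2])
  obtain ⟨N', iN', cN', X', j', hj'⟩ := exists_pres (K := K) F hF
  exact exists_star_iso hj hj' φ ψ h1 h2

theorem leavitt_star_iso {K : Type} [Field K] [StarRing K] {E F : Graph} [Countable E.V]
    [Countable E.E] (hE : ∀ e f : E.E, E.src e = E.src f → Cyc e → Cyc f → e = f)
    (h : Nonempty (Leavitt K E ≃+* Leavitt K F)) :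
    ∃ f : Leavitt K E →ₙₐ[K] Leavitt K F, Function.Bijective f ∧
      ∀ x, f (leavittStar K E x) = leavittStar K F (f x) := by
  obtain ⟨φ, ψ, h1, h2⟩ := exists_algebra_iso h
  obtain ⟨c1, c2⟩ := LPA.countable_of_iso φ fun y => ⟨ψ y, h2 y⟩
  obtain ⟨Θ, Θ', h3, h4⟩ := LPA_star_iso hE φ ψ h1 h2
  obtain ⟨f1, g1, a1, a2, a0⟩ := Leavitt.exists_equiv K E
  obtain ⟨f2, g2, b1, b2, b0⟩ := Leavitt.exists_equiv K F
  refine ⟨(f2.comp (Θ : LPA K E →ₙₐ[K] LPA K F)).comp g1, ⟨?_, ?_⟩, ?_⟩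
  · intro x y hxy
    change f2 (Θ (g1 x)) = f2 (Θ (g1 y)) at hxy
    have e1 : Θ (g1 x) = Θ (g1 y) := by rw [← b1 (Θ (g1 x)), hxy, b1]
    have e2 : g1 x = g1 y := by rw [← h3 (g1 x), e1, h3]
    rw [← a2 x, e2, a2]
  · intro y
    refine ⟨f1 (Θ' (g2 y)), ?_⟩
    show f2 (Θ (g1 (f1 (Θ' (g2 y))))) = y
    rw [a1, h4, b2]
  · intro x
    show f2 (Θ (g1 (leavittStar K E x))) = leavittStar K F (f2 (Θ (g1 x)))
    have e1 : leavittStar K E x = f1 (star (g1 x)) := by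
      conv_lhs => rw [← a2 x]
      exact (Classical.choice (nonempty_leavittStar K E)).st_eq a0 (g1 x)
    have e2 : leavittStar K F (f2 (Θ (g1 x))) = f2 (star (Θ (g1 x))) :=
      (Classical.choice (nonempty_leavittStar K F)).st_eq b0 _
    rw [e1, e2, a1, map_star]

end Run7.h19
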