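import Mathlib

/-!
# Frames of idempotents (helper19)
-/

namespace Run7.h19

variable {A : Type*} [NonUnitalRing A] {V : Type*}

/-- The idempotent is the orthogonal sum of idempotents `x * y` with `y * x = p v`, for the
vertices `v` of the multiset, where the pairs `(x, y)` satisfy `Q`. -/
inductive Fr (Q : A → A → Prop) (p : V → A) : A → Multiset V → Prop
  | zero : Fr Q p 0 0
  | cons {x y e : A} {v : V} {s : Multiset V} : Q x y → y * x = p v → x * p v = x →
      p v * y = y → e * x = 0 → y * e = 0 → Fr Q p e s → Fr Q p (x * y + e) (v ::ₘ s)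

variable {Q : A → A → Prop} {p : V → A}

theorem Fr.idem {e : A} {s : Multiset V} (h : Fr Q p e s) : e * e = e := by
  induction h with
  | zero => simp
  | @cons x y e v s hQ h1 h2 h3 h4 h5 h6 ih =>
    calc (x * y + e) * (x * y + e)
        = x * (y * x) * y + x * (y * e) + e * x * y + e * e := by noncomm_ring
      _ = x * y + e := by rw [h1, h2, h4, h5, ih]; simp

theorem Fr.inv {e : A} {s : Multiset V} (h : Fr Q p e s) : ∀ {v : V} {s' : Multiset V},
    s = v ::ₘ s' → ∃ x y e', Q x y ∧ y * x = p v ∧ x * p v = x ∧ p v * y = y ∧ e' * x = 0 ∧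
      y * e' = 0 ∧ Fr Q p e' s' ∧ e = x * y + e' := by
  induction h with
  | zero => intro v s' h; exact absurd h.symm (Multiset.cons_ne_zero)
  | @cons x y e v s hQ h1 h2 h3 h4 h5 h6 ih =>
    intro w s' hs
    rcases Multiset.cons_eq_cons.1 hs with ⟨rfl, rfl⟩ | ⟨hne, cs, hs1, hs2⟩
    · exact ⟨x, y, e, hQ, h1, h2, h3, h4, h5, h6, rfl⟩
    · obtain ⟨x1, y1, e1, g0, g1, g2, g3, g4, g5, g6, g7⟩ := ih hs1
      have hee := h6.idem
      -- orthogonality of the two pieces
      have k1 : y * x1 = 0 := by
        have : y * x1 = y * e * x1 := by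
          rw [g7]
          calc y * x1 = y * (x1 * (y1 * x1) + e1 * x1) := by rw [g1, g2, g4, add_zero]
            _ = _ := by noncomm_ring
        rw [this, h5, zero_mul]
      have k2 : y1 * x = 0 := by
        have : y1 * x = y1 * (e * x) := by
          rw [g7]
          calc y1 * x = (y1 * x1 * y1 + y1 * e1) * x := by rw [g1, g3, g5, add_zero]
            _ = _ := by noncomm_ring
        rw [this, h4, mul_zero]
      have k3 : e1 * x = 0 := by
        have : e1 * x = e * x - x1 * (y1 * x) := by rw [g7]; noncomm_ring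
        rw [this, h4, k2, mul_zero, sub_zero]
      have k4 : y * e1 = 0 := by
        have : y * e1 = y * e - y * x1 * y1 := by rw [g7]; noncomm_ring
        rw [this, h5, k1, zero_mul, sub_zero]
      refine ⟨x1, y1, x * y + e1, g0, g1, g2, g3, ?_, ?_, ?_, ?_⟩
      · rw [add_mul, mul_assoc, k1, g4]; simp
      · rw [mul_add, ← mul_assoc, k2, g5]; simp
      · rw [hs2]
        exact Fr.cons hQ h1 h2 h3 k3 k4 g6
      · rw [g7]; abel

theorem Fr.add {e e' : A} {s s' : Multiset V} (h : Fr Q p e s) (h' : Fr Q p e' s')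
    (h1 : e * e' = 0) (h2 : e' * e = 0) : Fr Q p (e + e') (s + s') := by
  induction h with
  | zero => simpa using h'
  | @cons x y e v s hQ g1 g2 g3 g4 g5 g6 ih =>
    have hx : (x * y + e) * x = x := by
      rw [add_mul, g4, mul_assoc, g1, g2, add_zero]
    have hy : y * (x * y + e) = y := by
      rw [mul_add, g5, ← mul_assoc, g1, g3, add_zero]
    have k1 : e' * x = 0 := by rw [← hx, ← mul_assoc, h2, zero_mul]
    have k2 : y * e' = 0 := by rw [← hy, mul_assoc, h1, mul_zero]
    have k3 : e * e' = 0 := by
      have : e * e' = (x * y + e) * e' - x * (y * e') := by noncomm_ring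
      rw [this, h1, k2, mul_zero, sub_zero]
    have k4 : e' * e = 0 := by
      have : e' * e = e' * (x * y + e) - e' * x * y := by noncomm_ring
      rw [this, h2, k1, zero_mul, sub_zero]
    rw [add_assoc, Multiset.cons_add]
    refine Fr.cons hQ g1 g2 g3 ?_ ?_ (ih k3 k4)
    · rw [add_mul, g4, k1, add_zero]
    · rw [mul_add, g5, k2, add_zero]

theorem Fr.split {s t : Multiset V} : ∀ {e : A}, Fr Q p e (s + t) → ∃ e1 e2, e = e1 + e2 ∧
    Fr Q p e1 s ∧ Fr Q p e2 t ∧ e1 * e2 = 0 ∧ e2 * e1 = 0 := by
  induction s using Multiset.induction_on with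
  | empty =>
    intro e h
    exact ⟨0, e, by simp, Fr.zero, by simpa using h, by simp, by simp⟩
  | cons v s ih =>
    intro e h
    obtain ⟨x, y, e', g0, g1, g2, g3, g4, g5, g6, g7⟩ := h.inv (Multiset.cons_add v s t)
    obtain ⟨e1, e2, k1, k2, k3, k4, k5⟩ := ih g6
    have hee1 : e1 * e1 = e1 := k2.idem
    have hee2 : e2 * e2 = e2 := k3.idem
    have a1 : e1 * e' = e1 := by rw [k1, mul_add, hee1, k4, add_zero]
    have a2 : e' * e1 = e1 := by rw [k1, add_mul, hee1, k5, add_zero]
    have b1 : e2 * e' = e2 := by rw [k1, mul_add, hee2, k5, zero_add]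
    have b2 : e' * e2 = e2 := by rw [k1, add_mul, hee2, k4, zero_add]
    have c1 : e1 * x = 0 := by rw [← a1, mul_assoc, g4, mul_zero]
    have c2 : y * e1 = 0 := by rw [← a2, ← mul_assoc, g5, zero_mul]
    have c3 : e2 * x = 0 := by rw [← b1, mul_assoc, g4, mul_zero]
    have c4 : y * e2 = 0 := by rw [← b2, ← mul_assoc, g5, zero_mul]
    refine ⟨x * y + e1, e2, ?_, Fr.cons g0 g1 g2 g3 c1 c2 k2, k3, ?_, ?_⟩
    · rw [g7, k1]; abel
    · rw [add_mul, mul_assoc, c4, k4]; simp
    · rw [mul_add, ← mul_assoc, c3, k5]; simp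

theorem Fr.single {v : V} {x y : A} (hQ : Q x y) (h1 : y * x = p v) (h2 : x * p v = x)
    (h3 : p v * y = y) : Fr Q p (x * y) {v} := by
  have := Fr.cons (Q := Q) (p := p) (s := 0) hQ h1 h2 h3 (zero_mul x) (mul_zero y) Fr.zero
  simpa using this

theorem Fr.of_zero {e : A} (h : Fr Q p e 0) : e = 0 := by
  generalize hs : (0 : Multiset V) = s at h
  cases h with
  | zero => rfl
  | cons => exact absurd hs.symm (Multiset.cons_ne_zero)

theorem Fr.of_singleton {v : V} {e : A} (h : Fr Q p e {v}) : ∃ x y, Q x y ∧ y * x = p v ∧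
    x * p v = x ∧ p v * y = y ∧ e = x * y := by
  obtain ⟨x, y, e', g0, g1, g2, g3, g4, g5, g6, g7⟩ := h.inv (v := v) (s' := 0) (by simp)
  exact ⟨x, y, g0, g1, g2, g3, by rw [g7, g6.of_zero, add_zero]⟩

theorem Fr.mono {Q' : A → A → Prop} (hQ : ∀ x y, Q x y → Q' x y) {e : A} {s : Multiset V}
    (h : Fr Q p e s) : Fr Q' p e s := by
  induction h with
  | zero => exact Fr.zero
  | cons h0 h1 h2 h3 h4 h5 _ ih => exact Fr.cons (hQ _ _ h0) h1 h2 h3 h4 h5 ih

/-- Transport along an equivalence of idempotents. -/
theorem Fr.transport {Q' : A → A → Prop} {e z w : A} {s : Multiset V} (h : Fr Q p e s)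
    (hzw : w * z = e) (hQ : ∀ x y, Q x y → e * x = x → y * e = y → Q' (z * x) (y * w)) :
    Fr Q' p (z * e * w) s := by
  have hidem := h.idem
  have key : ∀ {e' : A} {s : Multiset V}, Fr Q p e' s → e * e' = e' → e' * e = e' →
      Fr Q' p (z * e' * w) s := by
    intro e' s h'
    induction h' with
    | zero => intro _ _; simpa using Fr.zero
    | @cons x y e' v s h0 h1 h2 h3 h4 h5 h6 ih =>
      intro he1 he2
      have hex : e * x = x := by
        have : e * x = (e * (x * y + e')) * x := by
          calc e * x = e * (x * (y * x) + e' * x) := by rw [h1, h2, h4, add_zero]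
            _ = _ := by noncomm_ring
        rw [this, he1, add_mul, h4, mul_assoc, h1, h2, add_zero]
      have hye : y * e = y := by
        have : y * e = y * ((x * y + e') * e) := by
          calc y * e = (y * x * y + y * e') * e := by rw [h1, h3, h5, add_zero]
            _ = _ := by noncomm_ring
        rw [this, he2, mul_add, h5, ← mul_assoc, h1, h3, add_zero]
      have hee1 : e * e' = e' := by
        have : e * e' = e * (x * y + e') - e * x * y := by noncomm_ring
        rw [this, he1, hex]; abel
      have hee2 : e' * e = e' := by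
        have : e' * e = (x * y + e') * e - x * (y * e) := by noncomm_ring
        rw [this, he2, hye]; abel
      have e1 : z * (x * y + e') * w = z * x * (y * w) + z * e' * w := by noncomm_ring
      rw [e1]
      refine Fr.cons (hQ x y h0 hex hye) ?_ ?_ ?_ ?_ ?_ (ih hee1 hee2)
      · calc y * w * (z * x) = y * (w * z) * x := by noncomm_ring
          _ = p v := by rw [hzw, hye, h1]
      · rw [mul_assoc, h2]
      · rw [← mul_assoc, h3]
      · calc z * e' * w * (z * x) = z * (e' * ((w * z) * x)) := by noncomm_ring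
          _ = 0 := by rw [hzw, hex, h4, mul_zero]
      · calc y * w * (z * e' * w) = y * ((w * z) * e') * w := by noncomm_ring
          _ = 0 := by rw [hzw, hee1, h5, zero_mul]
  exact key h hidem hidem

theorem Fr.map {B : Type*} [NonUnitalRing B] {F : Type*} [FunLike F A B]
    [NonUnitalRingHomClass F A B] (f : F) {Q' : B → B → Prop} (hQ : ∀ x y, Q x y → Q' (f x) (f y))
    {e : A} {s : Multiset V} (h : Fr Q p e s) : Fr Q' (fun v => f (p v)) (f e) s := by
  induction h with
  | zero => rw [map_zero]; exact Fr.zero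
  | cons h0 h1 h2 h3 h4 h5 _ ih =>
    rw [map_add, map_mul]
    refine Fr.cons (hQ _ _ h0) ?_ ?_ ?_ ?_ ?_ ih
    · rw [← map_mul, h1]
    · rw [← map_mul, h2]
    · rw [← map_mul, h3]
    · rw [← map_mul, h4, map_zero]
    · rw [← map_mul, h5, map_zero]

/-- Frames from finite families. -/
theorem Fr.of_finset {ι : Type*} (S : Finset ι) (v : ι → V) (x y : ι → A)
    (hQ : ∀ i ∈ S, Q (x i) (y i)) (h1 : ∀ i ∈ S, y i * x i = p (v i))
    (h0 : ∀ i ∈ S, ∀ j ∈ S, i ≠ j → y i * x j = 0) (h2 : ∀ i ∈ S, x i * p (v i) = x i)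
    (h3 : ∀ i ∈ S, p (v i) * y i = y i) :
    Fr Q p (∑ i ∈ S, x i * y i) (S.val.map v) := by
  classical
  induction S using Finset.induction_on with
  | empty => simpa using Fr.zero
  | insert a S ha ih =>
    rw [Finset.sum_insert ha, Finset.insert_val_of_notMem ha, Multiset.map_cons]
    refine Fr.cons (hQ a (Finset.mem_insert_self a S)) (h1 a (Finset.mem_insert_self a S))
      (h2 a (Finset.mem_insert_self a S)) (h3 a (Finset.mem_insert_self a S)) ?_ ?_
      (ih (fun i hi => hQ i (Finset.mem_insert_of_mem hi))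
        (fun i hi => h1 i (Finset.mem_insert_of_mem hi))
        (fun i hi j hj => h0 i (Finset.mem_insert_of_mem hi) j (Finset.mem_insert_of_mem hj))
        (fun i hi => h2 i (Finset.mem_insert_of_mem hi))
        (fun i hi => h3 i (Finset.mem_insert_of_mem hi)))
    · rw [Finset.sum_mul]
      apply Finset.sum_eq_zero
      intro i hi
      rw [mul_assoc, h0 i (Finset.mem_insert_of_mem hi) a (Finset.mem_insert_self a S)
        (by rintro rfl; exact ha hi), mul_zero]
    · rw [Finset.mul_sum]
      apply Finset.sum_eq_zero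
      intro i hi
      rw [← mul_assoc, h0 a (Finset.mem_insert_self a S) i (Finset.mem_insert_of_mem hi)
        (by rintro rfl; exact ha hi), zero_mul]

/-- The family of a frame of copies of one vertex. -/
theorem Fr.exists_fin {v : V} {n : ℕ} : ∀ {e : A}, Fr Q p e (Multiset.replicate n v) →
    ∃ x y : Fin n → A, (∀ i, Q (x i) (y i)) ∧ (∀ i j, y i * x j = if i = j then p v else 0) ∧
      (∀ i, x i * p v = x i) ∧ (∀ i, p v * y i = y i) ∧ e = ∑ i, x i * y i := by
  induction n with
  | zero =>
    intro e h
    refine ⟨Fin.elim0, Fin.elim0, fun i => i.elim0, fun i => i.elim0, fun i => i.elim0,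
      fun i => i.elim0, ?_⟩
    rw [Multiset.replicate_zero] at h
    rw [h.of_zero]; simp
  | succ n ih =>
    intro e h
    obtain ⟨x, y, e', g0, g1, g2, g3, g4, g5, g6, g7⟩ := h.inv (Multiset.replicate_succ v n)
    obtain ⟨x', y', k0, k1, k2, k3, k4⟩ := ih g6
    have hx' : ∀ i, e' * x' i = x' i := by
      intro i
      rw [k4, Finset.sum_mul, Finset.sum_eq_single_of_mem i (Finset.mem_univ i)]
      · rw [mul_assoc, k1, if_pos rfl, k2]
      · intro j _ hj
        rw [mul_assoc, k1, if_neg hj, mul_zero]
    have hy' : ∀ i, y' i * e' = y' i := by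
      intro i
      rw [k4, Finset.mul_sum, Finset.sum_eq_single_of_mem i (Finset.mem_univ i)]
      · rw [← mul_assoc, k1, if_pos rfl, k3]
      · intro j _ hj
        rw [← mul_assoc, k1, if_neg hj.symm, zero_mul]
    refine ⟨Fin.cons x x', Fin.cons y y', ?_, ?_, ?_, ?_, ?_⟩
    · intro i
      refine Fin.cases ?_ (fun i => ?_) i
      · exact g0
      · exact k0 i
    · intro i j
      refine Fin.cases ?_ (fun i => ?_) i
      · refine Fin.cases ?_ (fun j => ?_) j
        · simpa using g1
        · simp only [Fin.cons_zero, Fin.cons_succ]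
          rw [if_neg (Fin.succ_ne_zero j).symm, ← hx', ← mul_assoc, g5, zero_mul]
      · refine Fin.cases ?_ (fun j => ?_) j
        · simp only [Fin.cons_zero, Fin.cons_succ]
          rw [if_neg (Fin.succ_ne_zero i), ← hy', mul_assoc, g4, mul_zero]
        · simp only [Fin.cons_succ, Fin.succ_inj]
          exact k1 i j
    · intro i
      refine Fin.cases ?_ (fun i => ?_) i
      · exact g2
      · exact k2 i
    · intro i
      refine Fin.cases ?_ (fun i => ?_) i
      · exact g3
      · exact k3 i
    · rw [g7, k4, Fin.sum_univ_succ]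
      simp

theorem Fr.of_fin {v : V} {n : ℕ} (x y : Fin n → A) (hQ : ∀ i, Q (x i) (y i))
    (h1 : ∀ i j, y i * x j = if i = j then p v else 0) (h2 : ∀ i, x i * p v = x i)
    (h3 : ∀ i, p v * y i = y i) : Fr Q p (∑ i, x i * y i) (Multiset.replicate n v) := by
  have h := Fr.of_finset (Q := Q) (p := p) (Finset.univ : Finset (Fin n)) (fun _ => v) x y
    (fun i _ => hQ i) (fun i _ => by rw [h1, if_pos rfl])
    (fun i _ j _ hij => by rw [h1, if_neg hij]) (fun i _ => h2 i) (fun i _ => h3 i)
  have e1 : (Finset.univ : Finset (Fin n)).val.map (fun _ => v) = Multiset.replicate n v := by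
    rw [Multiset.map_const']
    simp
  rwa [e1] at h

open Classical in
/-- The family of a frame indexed by a finite set. -/
theorem Fr.exists_finset {ι : Type*} (S : Finset ι) (v : ι → V) : ∀ {e : A},
    Fr Q p e (S.val.map v) → ∃ x y : ι → A, (∀ i ∈ S, Q (x i) (y i)) ∧
      (∀ i ∈ S, y i * x i = p (v i)) ∧ (∀ i ∈ S, ∀ j ∈ S, i ≠ j → y i * x j = 0) ∧
      (∀ i ∈ S, x i * p (v i) = x i) ∧ (∀ i ∈ S, p (v i) * y i = y i) ∧
      e = ∑ i ∈ S, x i * y i := by
  induction S using Finset.induction_on with
  | empty =>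
    intro e h
    exact ⟨fun _ => 0, fun _ => 0, by simp, by simp, by simp, by simp, by simp, by
      simpa using h.of_zero⟩
  | insert a S ha ih =>
    intro e h
    rw [Finset.insert_val_of_notMem ha, Multiset.map_cons] at h
    obtain ⟨x, y, e', g0, g1, g2, g3, g4, g5, g6, g7⟩ := h.inv rfl
    obtain ⟨x', y', k0, k1, k2, k3, k4, k5⟩ := ih g6
    have hne : ∀ i ∈ S, i ≠ a := by rintro i hi rfl; exact ha hi
    have hx' : ∀ i ∈ S, e' * x' i = x' i := by
      intro i hi
      rw [k5, Finset.sum_mul, Finset.sum_eq_single_of_mem i hi]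
      · rw [mul_assoc, k1 i hi, k3 i hi]
      · intro j hj hji
        rw [mul_assoc, k2 j hj i hi hji, mul_zero]
    have hy' : ∀ i ∈ S, y' i * e' = y' i := by
      intro i hi
      rw [k5, Finset.mul_sum, Finset.sum_eq_single_of_mem i hi]
      · rw [← mul_assoc, k1 i hi, k4 i hi]
      · intro j hj hji
        rw [← mul_assoc, k2 i hi j hj hji.symm, zero_mul]
    refine ⟨Function.update x' a x, Function.update y' a y, ?_, ?_, ?_, ?_, ?_, ?_⟩
    · intro i hi
      rcases Finset.mem_insert.1 hi with rfl | hi
      · simpa using g0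
      · rw [Function.update_of_ne (hne i hi), Function.update_of_ne (hne i hi)]
        exact k0 i hi
    · intro i hi
      rcases Finset.mem_insert.1 hi with rfl | hi
      · simpa using g1
      · rw [Function.update_of_ne (hne i hi), Function.update_of_ne (hne i hi)]
        exact k1 i hi
    · intro i hi j hj hij
      rcases Finset.mem_insert.1 hi with rfl | hi
      · rcases Finset.mem_insert.1 hj with rfl | hj
        · exact absurd rfl hij
        · rw [Function.update_self, Function.update_of_ne (hne j hj), ← hx' j hj, ← mul_assoc,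
            g5, zero_mul]
      · rcases Finset.mem_insert.1 hj with hja | hj
        · rw [hja, Function.update_self, Function.update_of_ne (hne i hi), ← hy' i hi, mul_assoc,
            g4, mul_zero]
        · rw [Function.update_of_ne (hne i hi), Function.update_of_ne (hne j hj)]
          exact k2 i hi j hj hij
    · intro i hi
      rcases Finset.mem_insert.1 hi with rfl | hi
      · simpa using g2
      · rw [Function.update_of_ne (hne i hi)]
        exact k3 i hi
    · intro i hi
      rcases Finset.mem_insert.1 hi with rfl | hi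
      · simpa using g3
      · rw [Function.update_of_ne (hne i hi)]
        exact k4 i hi
    · rw [Finset.sum_insert ha, g7, k5, Function.update_self, Function.update_self]
      congr 1
      apply Finset.sum_congr rfl
      intro i hi
      rw [Function.update_of_ne (hne i hi), Function.update_of_ne (hne i hi)]

end Run7.h19
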