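import Pool.Agent.Run7.h19.Expand

/-!
# Injectivity of homomorphisms (helper19)
-/

namespace Run7.h19

open Pool.Agent.Helper665_GA LoopGraph Polynomial

variable {K : Type*} [Field K] {H : Graph} [LoopGraph H]

/-- The span of short paths ending in `u`. -/
def NkL (K : Type*) [Field K] {G : Graph} (u : G.V) (m : ℕ) : Submodule K (LPA K G) :=
  Submodule.span K {a | ∃ l, l.length ≤ m ∧ a = LPA.sp K G l u}

omit [LoopGraph H] in
theorem NkL_le {u : H.V} {m m' : ℕ} (h : m ≤ m') : NkL K u m ≤ NkL K u m' := by
  apply Submodule.span_mono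
  rintro a ⟨l, hl, rfl⟩
  exact ⟨l, hl.trans h, rfl⟩

omit [LoopGraph H] in
theorem exists_NkL {u : H.V} {a : LPA K H} (ha : a ∈ Nk K u) : ∃ m, a ∈ NkL K u m := by
  induction ha using Submodule.span_induction with
  | mem a ha =>
    obtain ⟨l, rfl⟩ := ha
    exact ⟨l.length, Submodule.subset_span ⟨l, le_rfl, rfl⟩⟩
  | zero => exact ⟨0, Submodule.zero_mem _⟩
  | add a b _ _ ha hb =>
    obtain ⟨m, hm⟩ := ha
    obtain ⟨n, hn⟩ := hb
    exact ⟨max m n, Submodule.add_mem _ (NkL_le (le_max_left _ _) hm)
      (NkL_le (le_max_right _ _) hn)⟩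
  | smul r a _ ha =>
    obtain ⟨m, hm⟩ := ha
    exact ⟨m, Submodule.smul_mem _ _ hm⟩

omit [LoopGraph H] in
theorem NkL_le_Nk {u : H.V} {m : ℕ} : NkL K u m ≤ Nk K u := by
  apply Submodule.span_mono
  rintro a ⟨l, _, rfl⟩
  exact ⟨l, rfl⟩

theorem valid_self {u : H.V} (hu : ¬ IsLoop u) {l : List H.E} (h1 : Valid l u)
    (h2 : start l u = u) : l = [] := by
  cases l with
  | nil => rfl
  | cons e l =>
    exfalso
    have h3 : Reach (H.rng e) u := by rw [h1.1]; exact reach_start h1.2
    have h4 : H.src e = u := h2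
    have h5 : Reach u (H.rng e) := by rw [← h4]; exact Reach.edge e
    exact hu ⟨e, h4, antisymm _ _ h3 h5⟩

theorem p_mul_Nk_nonloop {u : H.V} (hu : ¬ IsLoop u) {a : LPA K H} (ha : a ∈ Nk K u) :
    ∃ r : K, pp K u * a = r • pp K u := by
  induction ha using Submodule.span_induction with
  | mem a ha =>
    obtain ⟨l, rfl⟩ := ha
    by_cases h1 : Valid l u ∧ start l u = u
    · rw [valid_self hu h1.1 h1.2]
      exact ⟨1, by rw [one_smul]; exact pp_pp u⟩
    · exact ⟨0, by rw [p_mul_sp_of_not h1, zero_smul]⟩
  | zero => exact ⟨0, by rw [mul_zero, zero_smul]⟩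
  | add a b _ _ ha hb =>
    obtain ⟨q, hq⟩ := ha
    obtain ⟨r, hr⟩ := hb
    exact ⟨q + r, by rw [mul_add, hq, hr, add_smul]⟩
  | smul r a _ ha =>
    obtain ⟨q, hq⟩ := ha
    exact ⟨r * q, by rw [mul_smul_comm, hq, mul_smul]⟩

omit [LoopGraph H] in
theorem t_mul_NkL {u : H.V} {m : ℕ} {e : H.E} (he : H.src e ≠ u) {a : LPA K H}
    (ha : a ∈ NkL K u (m + 1)) : tt K e * a ∈ NkL K u m := by
  induction ha using Submodule.span_induction with
  | mem a ha =>
    obtain ⟨l, hl, rfl⟩ := ha
    cases l with
    | nil =>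
      have : tt K e * LPA.sp K H [] u = 0 := (LPA.family K H).t_mul_p_of_ne he
      rw [this]; exact Submodule.zero_mem _
    | cons f l =>
      have h4 : tt K e * LPA.sp K H (f :: l) u = tt K e * ss K f * LPA.sp K H l u := by
        show (LPA.family K H).t e * ((LPA.family K H).s f * (LPA.family K H).sP l u) = _
        rw [← mul_assoc]
      rw [h4]
      by_cases h : e = f
      · subst h
        rw [tt_ss_self]
        rcases (LPA.family K H).p_mul_sP (H.rng e) l u with h | h
        · rw [show (pp K (H.rng e)) * LPA.sp K H l u = LPA.sp K H l u from h]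
          exact Submodule.subset_span ⟨l, by simpa using hl, rfl⟩
        · rw [show (pp K (H.rng e)) * LPA.sp K H l u = 0 from h]
          exact Submodule.zero_mem _
      · rw [tt_ss_ne h, zero_mul]; exact Submodule.zero_mem _
  | zero => rw [mul_zero]; exact Submodule.zero_mem _
  | add a b _ _ ha hb => rw [mul_add]; exact Submodule.add_mem _ ha hb
  | smul r a _ ha => rw [mul_smul_comm]; exact Submodule.smul_mem _ _ ha

omit [LoopGraph H] in
theorem p_mul_NkL_sink {u v : H.V} (hv : ∀ e, H.src e ≠ v) (huv : u ≠ v) {m : ℕ} {a : LPA K H}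
    (ha : a ∈ NkL K u m) : pp K v * a = 0 := by
  induction ha using Submodule.span_induction with
  | mem a ha =>
    obtain ⟨l, hl, rfl⟩ := ha
    apply p_mul_sp_of_not
    rintro ⟨-, h2⟩
    cases l with
    | nil => exact huv h2
    | cons e l => exact hv e h2
  | zero => rw [mul_zero]
  | add a b _ _ ha hb => rw [mul_add, ha, hb, add_zero]
  | smul r a _ ha => rw [mul_smul_comm, ha, smul_zero]

theorem ck_out {v : H.V} (h : (out v).Nonempty) : ∑ e ∈ out v, ss K e * tt K e = pp K v :=
  (LPA.family K H).sum_eq v (out v) h (mem_out v)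

omit [LoopGraph H] in
theorem eq_zero_of_p_mul {a : LPA K H} (h : ∀ v, pp K v * a = 0) : a = 0 := by
  obtain ⟨S, hS⟩ := LPA.exists_unit_left a
  rw [← hS S subset_rfl, Finset.sum_mul]
  exact Finset.sum_eq_zero fun v _ => h v

variable {A : Type*} [NonUnitalRing A] [Module K A]

/-- The uniqueness theorem. -/
theorem injective_of (σ : LPA K H →ₙₐ[K] A) (h1 : ∀ v, σ (pp K v) ≠ 0)
    (h2 : ∀ k c, LoopAt k c → ∀ q : K[X], σ (evp K (pp K k) (ss K c) q) = 0 → q = 0) :
    Function.Injective σ := by
  have main : ∀ (u : H.V) (m : ℕ) (b : LPA K H), b ∈ NkL K u m → σ b = 0 → b = 0 := by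
    intro u m
    induction m with
    | zero =>
      intro b hb hσ
      have hself : pp K u * b = 0 := by
        by_cases hu : IsLoop u
        · obtain ⟨c, hc⟩ := exists_loopAt hu
          obtain ⟨q, hq⟩ := p_mul_Nk_self hc (NkL_le_Nk hb)
          rw [hq, h2 u c hc q (by rw [← hq, map_mul, hσ, mul_zero]), map_zero]
        · obtain ⟨r, hr⟩ := p_mul_Nk_nonloop hu (NkL_le_Nk hb)
          have h3 : r • σ (pp K u) = 0 := by rw [← map_smul, ← hr, map_mul, hσ, mul_zero]
          rw [hr, (smul_eq_zero.1 h3).resolve_right (h1 u), zero_smul]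
      have hb' : pp K u * b = b := by
        clear hself hσ
        induction hb using Submodule.span_induction with
        | mem a ha =>
          obtain ⟨l, hl, rfl⟩ := ha
          rw [Nat.le_zero, List.length_eq_zero_iff] at hl
          subst hl
          exact pp_pp u
        | zero => rw [mul_zero]
        | add a b _ _ ha hb => rw [mul_add, ha, hb]
        | smul r a _ ha => rw [mul_smul_comm, ha]
      rw [← hb', hself]
    | succ m ih =>
      intro b hb hσ
      apply eq_zero_of_p_mul
      intro v
      by_cases huv : u = v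
      · subst huv
        by_cases hu : IsLoop u
        · obtain ⟨c, hc⟩ := exists_loopAt hu
          obtain ⟨q, hq⟩ := p_mul_Nk_self hc (NkL_le_Nk hb)
          rw [hq, h2 u c hc q (by rw [← hq, map_mul, hσ, mul_zero]), map_zero]
        · obtain ⟨r, hr⟩ := p_mul_Nk_nonloop hu (NkL_le_Nk hb)
          have h3 : r • σ (pp K u) = 0 := by rw [← map_smul, ← hr, map_mul, hσ, mul_zero]
          rw [hr, (smul_eq_zero.1 h3).resolve_right (h1 u), zero_smul]
      · by_cases hv : (out v).Nonempty
        · rw [← ck_out hv, Finset.sum_mul]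
          apply Finset.sum_eq_zero
          intro e he
          rw [mul_assoc]
          have h3 : H.src e = v := (mem_out v e).1 he
          rw [ih (tt K e * b) (t_mul_NkL (by rw [h3]; exact fun h => huv h.symm) hb)
            (by rw [map_mul, hσ, mul_zero]), mul_zero]
        · refine p_mul_NkL_sink ?_ huv hb
          intro e he
          exact hv ⟨e, (mem_out v e).2 he⟩
  have main' : ∀ (u : H.V) (b : LPA K H), b ∈ Nk K u → σ b = 0 → b = 0 := by
    intro u b hb hσ
    obtain ⟨m, hm⟩ := exists_NkL hb
    exact main u m b hm hσ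
  have hN0 : ∀ a ∈ LPA.N0 K H, ∀ u, a * pp K u ∈ Nk K u := by
    intro a ha u
    induction ha using Submodule.span_induction with
    | mem a ha =>
      obtain ⟨l, v, rfl⟩ := ha
      by_cases h : v = u
      · subst h
        exact Submodule.subset_span ⟨l, (LPA.family K H).sP_mul_p l v⟩
      · have : LPA.sp K H l v * pp K u = 0 := (LPA.family K H).sP_mul_p_of_ne l h
        rw [this]; exact Submodule.zero_mem _
    | zero => rw [zero_mul]; exact Submodule.zero_mem _
    | add a b _ _ ha hb => rw [add_mul]; exact Submodule.add_mem _ ha hb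
    | smul r a _ ha => rw [smul_mul_assoc]; exact Submodule.smul_mem _ _ ha
  have hsink : ∀ u : H.V, (∀ e, H.src e ≠ u) → ∀ (N : ℕ) (a : LPA K H), a ∈ LPA.MM K H N →
      a * pp K u ∈ Nk K u := by
    intro u hu N a ha
    induction ha using Submodule.span_induction with
    | mem a ha =>
      obtain ⟨l, l', v, hl, rfl⟩ := ha
      by_cases h : Valid l' v ∧ start l' v = u
      · cases l' with
        | nil =>
          have h3 : v = u := h.2
          subst h3
          refine Submodule.subset_span ⟨l, ?_⟩
          show LPA.sp K H l v * pp K v * pp K v = LPA.sp K H l v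
          rw [mul_assoc, pp_pp]
          exact (LPA.family K H).sP_mul_p l v
        | cons e l' => exact absurd h.2 (hu e)
      · rw [mul_assoc, tp_mul_p_of_not h, mul_zero]; exact Submodule.zero_mem _
    | zero => rw [zero_mul]; exact Submodule.zero_mem _
    | add a b _ _ ha hb => rw [add_mul]; exact Submodule.add_mem _ ha hb
    | smul r a _ ha => rw [smul_mul_assoc]; exact Submodule.smul_mem _ _ ha
  have key : ∀ (N : ℕ) (a : LPA K H), a ∈ LPA.MM K H N → σ a = 0 → a = 0 := by
    intro N
    induction N with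
    | zero =>
      intro a ha h
      apply LPA.eq_zero_of_mul_p
      intro u
      exact main' u _ (hN0 a (LPA.MM_zero_le ha) u) (by
        rw [map_mul, h, zero_mul])
    | succ N ih =>
      intro a ha h
      have hs : ∀ e, a * ss K e = 0 := fun e =>
        ih _ (LPA.MM_mul_s ha e) (by rw [map_mul, h, zero_mul])
      apply LPA.eq_zero_of_mul_p
      intro u
      by_cases hu : (out u).Nonempty
      · show a * pp K u = 0
        rw [← ck_out hu, Finset.mul_sum]
        exact Finset.sum_eq_zero fun e _ => by rw [← mul_assoc, hs, zero_mul]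
      · refine main' u _ (hsink u ?_ _ a ha) (by rw [map_mul, h, zero_mul])
        intro e he
        exact hu ⟨e, (mem_out u e).2 he⟩
  rw [injective_iff_map_eq_zero]
  intro a ha
  obtain ⟨N, hN⟩ := LPA.exists_MM a
  exact key N a hN ha

end Run7.h19
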