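import Pool.Agent.Run7.h19.Honest2
import Pool.Agent.Run7.h19.Unique

/-!
# The fullness lemma (helper19)
-/

namespace Run7.h19

open Pool.Agent.Helper665_GA LoopGraph Polynomial

variable {K : Type*} [Field K] [StarRing K] {G H : Graph} [LoopGraph G] [LoopGraph H]

/-- Assumptions of the fullness lemma. -/
structure FullData (σ : LPA K H →⋆ₙₐ[K] LPA K G) (W : Set G.V) (κ : H.V → G.V) : Prop where
  mem : ∀ x, σ x ∈ LX K W
  inj : ∀ v w, ¬ Nl v → ¬ Nl w → κ v = κ w → v = w
  sink : ∀ v, (∀ e, H.src e ≠ v) → Atom W (κ v) ∧ ∃ x ∈ LX K W, star x * x = pp K (κ v) ∧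
    x * star x = σ (pp K v) ∧ x * pp K (κ v) = x
  loop : ∀ v c, LoopAt v c → ∃ d, Honest (σ (pp K v)) (σ (ss K c)) (κ v) d
  frame : ∀ v, ¬ Nl v → ∃ s, Fr (QA (LX K W)) (pp K) (σ (pp K v)) s ∧
    ∀ u ∈ s, Reach (κ v) u

/-- The range of a star homomorphism. -/
noncomputable def Rg (σ : LPA K H →⋆ₙₐ[K] LPA K G) : NonUnitalSubalgebra K (LPA K G) :=
  NonUnitalAlgHom.range (σ : LPA K H →ₙₐ[K] LPA K G)

omit [LoopGraph G] [LoopGraph H] in
theorem mem_Rg {σ : LPA K H →⋆ₙₐ[K] LPA K G} {a : LPA K G} : a ∈ Rg σ ↔ ∃ x, σ x = a := Iff.rfl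

omit [LoopGraph G] [LoopGraph H] in
theorem apply_mem_Rg (σ : LPA K H →⋆ₙₐ[K] LPA K G) (x : LPA K H) : σ x ∈ Rg σ := ⟨x, rfl⟩

omit [LoopGraph G] [LoopGraph H] in
theorem star_mem_Rg {σ : LPA K H →⋆ₙₐ[K] LPA K G} {a : LPA K G} (h : a ∈ Rg σ) :
    star a ∈ Rg σ := by
  obtain ⟨x, rfl⟩ := h
  exact ⟨star x, map_star σ x⟩

/-- The property proved in the fullness lemma. -/
def Fl (σ : LPA K H →⋆ₙₐ[K] LPA K G) (W : Set G.V) (w w' : H.V) : Prop :=
  ∀ a ∈ LX K W, σ (pp K w) * a * σ (pp K w') ∈ Rg σ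

variable {σ : LPA K H →⋆ₙₐ[K] LPA K G} {W : Set G.V} {κ : H.V → G.V}

omit [LoopGraph G] [LoopGraph H] in
theorem Fl.symm {w w' : H.V} (h : Fl σ W w w') : Fl σ W w' w := by
  intro a ha
  have h1 := star_mem_Rg (h (star a) (star_mem_LX ha))
  rwa [star_mul, star_mul, star_star, ← map_star, ← map_star, star_pp, star_pp,
    ← mul_assoc] at h1

omit [LoopGraph G] in
theorem Fl_nl (hmem : ∀ x, σ x ∈ LX K W) {w w' : H.V} (hw : Nl w)
    (ih : ∀ e ∈ exits w, Fl σ W (H.rng e) w') : Fl σ W w w' := by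
  intro a ha
  rw [← ck_nl hw, map_sum, Finset.sum_mul, Finset.sum_mul]
  apply sum_mem
  intro e he
  have h1 := ih e he (σ (tt K e) * a) (mul_mem (hmem _) ha)
  have e1 : σ (ss K e * tt K e) * a * σ (pp K w')
      = σ (ss K e) * (σ (pp K (H.rng e)) * (σ (tt K e) * a) * σ (pp K w')) := by
    have h2 : σ (pp K (H.rng e)) * σ (tt K e) = σ (tt K e) := by rw [← map_mul, pp_tt]
    rw [map_mul]
    calc σ (ss K e) * σ (tt K e) * a * σ (pp K w')
        = σ (ss K e) * (σ (pp K (H.rng e)) * σ (tt K e)) * a * σ (pp K w') := by rw [h2]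
      _ = _ := by noncomm_ring
  rw [e1]
  exact mul_mem (apply_mem_Rg σ _) h1

omit [LoopGraph G] in
theorem Fl_kill (hmem : ∀ x, σ x ∈ LX K W) {w w' : H.V} {c : H.E} (hc : LoopAt w c)
    (hk : ∀ a, ∃ N, pw (σ (pp K w)) (σ (tt K c)) N * (a * σ (pp K w')) = 0)
    (ih : ∀ e ∈ exits w, Fl σ W (H.rng e) w') : Fl σ W w w' := by
  intro a ha
  obtain ⟨N, hN⟩ := hk a
  have h1 := telescope hc.inCor hc.inCor' (A := LPA K H) N
  have h2 : σ (pp K w) * a * σ (pp K w')
      = ∑ j ∈ Finset.range N, ∑ e ∈ exits w, σ (pw (pp K w) (ss K c) j * ss K e) *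
        (σ (pp K (H.rng e)) * (σ (tt K e * pw (pp K w) (tt K c) j) * a) * σ (pp K w')) := by
    have h3 : σ (pp K w) = σ (pp K w - pw (pp K w) (ss K c) N * pw (pp K w) (tt K c) N)
        + σ (pw (pp K w) (ss K c) N) * σ (pw (pp K w) (tt K c) N) := by
      rw [map_sub, map_mul]; abel
    have h4 : σ (pw (pp K w) (tt K c) N) * a * σ (pp K w') = 0 := by
      rw [map_pw, mul_assoc]; exact hN
    conv_lhs => rw [h3, add_mul, add_mul, mul_assoc (σ (pw (pp K w) (ss K c) N)),
      mul_assoc (σ (pw (pp K w) (ss K c) N)), h4, mul_zero, add_zero, h1, map_sum,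
      Finset.sum_mul, Finset.sum_mul]
    apply Finset.sum_congr rfl
    intro j _
    rw [loop_defect hc, Finset.mul_sum, Finset.sum_mul, map_sum, Finset.sum_mul, Finset.sum_mul]
    apply Finset.sum_congr rfl
    intro e _
    have h5 : pw (pp K w) (ss K c) j * (ss K e * tt K e) * pw (pp K w) (tt K c) j
        = (pw (pp K w) (ss K c) j * ss K e) * (pp K (H.rng e) *
          (tt K e * pw (pp K w) (tt K c) j)) := by
      rw [← mul_assoc (pp K (H.rng e)), pp_tt]; noncomm_ring
    rw [h5, map_mul, map_mul σ (pp K (H.rng e))]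
    noncomm_ring
  rw [h2]
  apply sum_mem
  intro j _
  apply sum_mem
  intro e he
  exact mul_mem (apply_mem_Rg σ _) (ih e he _ (mul_mem (hmem _) ha))

theorem map_evp' (σ : LPA K H →⋆ₙₐ[K] LPA K G) (p c : LPA K H) (q : K[X]) :
    σ (evp K p c q) = evp K (σ p) (σ c) q := by
  have := map_evp (p := p) (c := c) (σ : LPA K H →ₙₐ[K] LPA K G) q
  exact this

theorem Fl_self (hmem : ∀ x, σ x ∈ LX K W) {w : H.V} {c : H.E} {k : G.V} {d : G.E}
    (hc : LoopAt w c) (hon : Honest (σ (pp K w)) (σ (ss K c)) k d)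
    (ih : ∀ e ∈ exits w, Fl σ W w (H.rng e)) : Fl σ W w w := by
  intro a ha
  have hpp : σ (pp K w) * σ (pp K w) = σ (pp K w) := by rw [← map_mul, pp_pp]
  have ha' : σ (pp K w) * (σ (pp K w) * a * σ (pp K w)) = σ (pp K w) * a * σ (pp K w) := by
    rw [← mul_assoc, ← mul_assoc, hpp]
  obtain ⟨N, M, q, hq⟩ := hon.poly ha'
  have h1 := telescope hc.inCor hc.inCor' (A := LPA K H) (N + M)
  have h3 : σ (pp K w) = σ (pp K w - pw (pp K w) (ss K c) (N + M) * pw (pp K w) (tt K c) (N + M))
        + σ (pw (pp K w) (ss K c) (N + M)) * σ (pw (pp K w) (tt K c) (N + M)) := by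
      rw [map_sub, map_mul]; abel
  have h4 : σ (pp K w) * a * σ (pp K w) = σ (pp K w) * a * σ (pp K w) *
      σ (pp K w - pw (pp K w) (ss K c) (N + M) * pw (pp K w) (tt K c) (N + M))
      + evp K (σ (pp K w)) (σ (ss K c)) q * pw (σ (pp K w)) (σ (ss K c)) M *
        σ (pw (pp K w) (tt K c) (N + M)) := by
    have h5 : σ (pp K w) * a * σ (pp K w) = σ (pp K w) * a * σ (pp K w) * σ (pp K w) := by
      rw [mul_assoc _ (σ (pp K w)), hpp]
    rw [← hq, ← map_pw]
    have h6 : ∀ z y u : LPA K G, z * y + z * u * σ (pw (pp K w) (tt K c) (N + M))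
        = z * (y + u * σ (pw (pp K w) (tt K c) (N + M))) := by
      intro z y u; noncomm_ring
    rw [h6, ← h3, ← h5]
  rw [h4]
  apply add_mem
  · rw [h1, map_sum, Finset.mul_sum]
    apply sum_mem
    intro j _
    rw [loop_defect hc, Finset.mul_sum, Finset.sum_mul, map_sum, Finset.mul_sum]
    apply sum_mem
    intro e he
    have h5 : pw (pp K w) (ss K c) j * (ss K e * tt K e) * pw (pp K w) (tt K c) j
        = (pw (pp K w) (ss K c) j * ss K e) * pp K (H.rng e) *
          (tt K e * pw (pp K w) (tt K c) j) := by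
      rw [mul_assoc _ (ss K e) (pp K _), ss_pp]; noncomm_ring
    have h6 : σ (pp K w) * a * σ (pp K w) *
        σ (pw (pp K w) (ss K c) j * (ss K e * tt K e) * pw (pp K w) (tt K c) j)
        = σ (pp K w) * (a * σ (pp K w) * σ (pw (pp K w) (ss K c) j * ss K e)) *
          σ (pp K (H.rng e)) * σ (tt K e * pw (pp K w) (tt K c) j) := by
      rw [h5, map_mul, map_mul σ _ (pp K (H.rng e))]; noncomm_ring
    rw [h6]
    exact mul_mem (ih e he _ (mul_mem (mul_mem ha (hmem _)) (hmem _))) (apply_mem_Rg σ _)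
  · rw [← map_evp', ← map_pw]
    exact mul_mem (mul_mem (apply_mem_Rg σ _) (apply_mem_Rg σ _)) (apply_mem_Rg σ _)

/-- Case of a loop and a core vertex which does not reach it. -/
theorem Fl_loop (h : FullData σ W κ) {w w' : H.V} {c : H.E} (hc : LoopAt w c)
    (hw' : ¬ Nl w') (hr : ¬ Reach (κ w') (κ w)) (ih : ∀ e ∈ exits w, Fl σ W (H.rng e) w') :
    Fl σ W w w' := by
  obtain ⟨d, hon⟩ := h.loop w c hc
  obtain ⟨s, hs1, hs2⟩ := h.frame w' hw'
  apply Fl_kill h.mem hc _ ih
  intro a
  have h1 := hon.pure_fr hs1 (fun v hv hr' => hr ((hs2 v hv).trans hr')) a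
  have h2 : star (σ (ss K c)) = σ (tt K c) := by rw [← map_star, star_ss]
  rwa [h2] at h1

omit [LoopGraph G] [StarRing K] in
theorem not_reachX_atom {t u : G.V} (ht : Atom W u) (h : ReachX W u t) : u = t := by
  rcases Relation.ReflTransGen.cases_head h with h1 | ⟨b, ⟨h1, e, h2, h3⟩, h4⟩
  · exact h1
  · exact absurd h1 (ht e h2)

theorem core_cases {v : H.V} (h : ¬ Nl v) : (∃ c, LoopAt v c) ∨ (∀ e, H.src e ≠ v) := by
  by_cases h1 : IsLoop v
  · exact Or.inl (exists_loopAt h1)
  · right
    intro e he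
    apply h
    refine ⟨h1, e, mem_exits.2 ⟨he, fun h2 => h1 ⟨e, he, h2⟩⟩⟩

/-- The fullness lemma. -/
theorem FullData.fl [Fintype H.V] (h : FullData σ W κ) (w w' : H.V) : Fl σ W w w' := by
  classical
  obtain ⟨ρ, -, hρ⟩ := exists_rank (G := H) Finset.univ
  have hρ' : ∀ v, ∀ e ∈ exits v, ρ (H.rng e) < ρ v := by
    intro v e he
    obtain ⟨h1, h2⟩ := mem_exits.1 he
    apply hρ v (Finset.mem_univ _) _ (Finset.mem_univ _)
    · rw [← h1]; exact Reach.edge e
    · exact fun h3 => h2 h3.symm
  have key : ∀ n w w', ρ w + ρ w' ≤ n → Fl σ W w w' := by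
    intro n
    induction n using Nat.strong_induction_on with
    | _ n IH =>
    intro w w' hn
    have ihl : ∀ e ∈ exits w, Fl σ W (H.rng e) w' := fun e he =>
      IH (ρ (H.rng e) + ρ w') (by have := hρ' w e he; omega) _ _ le_rfl
    have ihr : ∀ e ∈ exits w', Fl σ W w (H.rng e) := fun e he =>
      IH (ρ w + ρ (H.rng e)) (by have := hρ' w' e he; omega) _ _ le_rfl
    by_cases h1 : Nl w
    · exact Fl_nl h.mem h1 ihl
    by_cases h2 : Nl w'
    · exact (Fl_nl h.mem h2 fun e he => (ihr e he).symm).symm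
    have hinj := h.inj w w' h1 h2
    rcases core_cases h1 with ⟨c, hc⟩ | hs
    · rcases core_cases h2 with ⟨c', hc'⟩ | hs'
      · by_cases h3 : Reach (κ w') (κ w)
        · by_cases h4 : w = w'
          · subst h4
            obtain ⟨d, hon⟩ := h.loop w c hc
            exact Fl_self h.mem hc hon ihr
          · refine (Fl_loop h hc' h1 ?_ fun e he => (ihr e he).symm).symm
            intro h5
            exact h4 (hinj (antisymm _ _ h5 h3))
        · exact Fl_loop h hc h2 h3 ihl
      · by_cases h3 : Reach (κ w') (κ w)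
        · obtain ⟨ht, x, hx, hx1, hx2, hx3⟩ := h.sink w' hs'
          obtain ⟨s, hs1, hs2⟩ := h.frame w h1
          intro a ha
          have h5 : σ (pp K w) * (a * x) * pp K (κ w') = 0 := by
            apply fr_atom_right ht hs1 _ (mul_mem ha hx)
            intro v hv hr
            have h6 := hinj (antisymm _ _ ((hs2 v hv).trans hr.reach) h3)
            subst h6
            exact hs' c hc.src
          have h7 : σ (pp K w) * a * σ (pp K w') = 0 := by
            calc σ (pp K w) * a * σ (pp K w') = σ (pp K w) * a * (x * pp K (κ w') * star x) := by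
                  rw [hx3, hx2]
              _ = σ (pp K w) * (a * x) * pp K (κ w') * star x := by noncomm_ring
              _ = 0 := by rw [h5, zero_mul]
          rw [h7]
          exact zero_mem _
        · exact Fl_loop h hc h2 h3 ihl
    · obtain ⟨ht, x, hx, hx1, hx2, hx3⟩ := h.sink w hs
      have hx4 : pp K (κ w) * star x = star x := by
        conv_lhs => rw [← star_pp, ← star_mul, hx3]
      rcases core_cases h2 with ⟨c', hc'⟩ | hs'
      · by_cases h3 : Reach (κ w) (κ w')
        · obtain ⟨s, hs1, hs2⟩ := h.frame w' h2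
          intro a ha
          have h5 : pp K (κ w) * (star x * a) * σ (pp K w') = 0 := by
            apply fr_atom_left ht hs1 _ (mul_mem (star_mem_LX hx) ha)
            intro v hv hr
            have h6 := hinj (antisymm _ _ h3 ((hs2 v hv).trans hr.reach))
            subst h6
            exact hs c' hc'.src
          have h7 : σ (pp K w) * a * σ (pp K w') = 0 := by
            have : x * star x * a * σ (pp K w')
                = x * (pp K (κ w) * (star x * a) * σ (pp K w')) := by
              conv_lhs => rw [← hx4]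
              noncomm_ring
            rw [← hx2, this, h5, mul_zero]
          rw [h7]
          exact zero_mem _
        · exact (Fl_loop h hc' h1 h3 fun e he => (ihr e he).symm).symm
      · by_cases h4 : w = w'
        · subst h4
          intro a ha
          obtain ⟨r, hr⟩ := atom_self ht (mul_mem (mul_mem (star_mem_LX hx) ha) hx)
          have h7 : σ (pp K w) * a * σ (pp K w) = r • σ (pp K w) := by
            calc σ (pp K w) * a * σ (pp K w) = x * star x * a * (x * star x) := by rw [hx2]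
              _ = (x * pp K (κ w)) * (star x * a * x) * (pp K (κ w) * star x) := by
                  rw [hx3, hx4]; noncomm_ring
              _ = x * (pp K (κ w) * (star x * a * x) * pp K (κ w)) * star x := by noncomm_ring
              _ = _ := by rw [hr, mul_smul_comm, smul_mul_assoc, hx3, hx2]
          rw [h7]
          exact (Rg σ).smul_mem r (apply_mem_Rg σ _)
        · obtain ⟨ht', x', hx', hx1', hx2', hx3'⟩ := h.sink w' hs'
          intro a ha
          have h5 : pp K (κ w) * (star x * a * x') * pp K (κ w') = 0 := by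
            apply atom_left ht _ (mul_mem (mul_mem (star_mem_LX hx) ha) hx')
            intro hr
            exact h4 (hinj (not_reachX_atom ht' hr).symm)
          have h7 : σ (pp K w) * a * σ (pp K w') = 0 := by
            calc σ (pp K w) * a * σ (pp K w') = x * star x * a * (x' * star x') := by
                  rw [hx2, hx2']
              _ = x * (pp K (κ w) * star x) * a * (x' * pp K (κ w')) * star x' := by
                  rw [hx3', hx4]; noncomm_ring
              _ = x * (pp K (κ w) * (star x * a * x') * pp K (κ w')) * star x' := by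
                  noncomm_ring
              _ = _ := by rw [h5, mul_zero, zero_mul]
          rw [h7]
          exact zero_mem _
  exact key _ w w' le_rfl

/-- Surjectivity onto the elements of the level. -/
theorem FullData.mem_range [Fintype H.V] (h : FullData σ W κ) {a : LPA K G} (ha : a ∈ LX K W)
    (h1 : (∑ v, σ (pp K v)) * a = a) (h2 : a * (∑ v, σ (pp K v)) = a) : ∃ x, σ x = a := by
  have h3 : (∑ v, σ (pp K v)) * a * (∑ v, σ (pp K v)) = a := by rw [h1, h2]
  rw [Finset.sum_mul, Finset.sum_mul] at h3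
  rw [← mem_Rg, ← h3]
  apply sum_mem
  intro v _
  rw [Finset.mul_sum]
  apply sum_mem
  intro w _
  exact h.fl v w a ha

end Run7.h19
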