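import Mathlib
import Pool.Agent.Helper665_GA.CycleDefs

/-!
# Row-finite graphs whose only cycles are loops (helper19)
-/

namespace Run7.h19

open Pool.Agent.Helper665_GA (Graph)

/-- Row-finite graphs whose only cycles are loops, with at most one loop at each vertex. -/
class LoopGraph (G : Graph) where
  /-- the edges emitted by a vertex -/
  out : G.V → Finset G.E
  mem_out : ∀ v e, e ∈ out v ↔ G.src e = v
  antisymm : ∀ v w, Relation.ReflTransGen G.Adj v w → Relation.ReflTransGen G.Adj w v → v = w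
  loop_unique : ∀ e f, G.rng e = G.src e → G.rng f = G.src f → G.src e = G.src f → e = f

variable {G : Graph}

/-- There is a path from `v` to `w`. -/
abbrev Reach (v w : G.V) : Prop := Relation.ReflTransGen G.Adj v w

theorem Reach.edge (e : G.E) : Reach (G.src e) (G.rng e) :=
  Relation.ReflTransGen.single ⟨e, rfl, rfl⟩

/-- The vertex emits a loop. -/
def IsLoop (v : G.V) : Prop := ∃ e, G.src e = v ∧ G.rng e = v

variable [LoopGraph G]

open LoopGraph

open Classical in
/-- The edges which are not loops, emitted by `v`. -/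
noncomputable def exits (v : G.V) : Finset G.E := (out v).filter fun e => G.rng e ≠ v

theorem mem_exits {v : G.V} {e : G.E} : e ∈ exits v ↔ G.src e = v ∧ G.rng e ≠ v := by
  classical
  rw [exits, Finset.mem_filter, mem_out]

/-- The ranges of the edges which are not loops, emitted by `v`. -/
noncomputable def xs (v : G.V) : Multiset G.V := (exits v).val.map G.rng

theorem mem_xs {v w : G.V} : w ∈ xs v ↔ ∃ e, G.src e = v ∧ G.rng e = w ∧ w ≠ v := by
  rw [xs, Multiset.mem_map]
  constructor
  · rintro ⟨e, he, rfl⟩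
    exact ⟨e, (mem_exits.1 he).1, rfl, (mem_exits.1 he).2⟩
  · rintro ⟨e, he, rfl, h⟩
    exact ⟨e, mem_exits.2 ⟨he, h⟩, rfl⟩

theorem reach_of_mem_xs {v w : G.V} (h : w ∈ xs v) : Reach v w := by
  obtain ⟨e, rfl, rfl, -⟩ := mem_xs.1 h
  exact Reach.edge e

theorem not_reach_of_mem_xs {v w : G.V} (h : w ∈ xs v) : ¬ Reach w v := by
  intro h'
  obtain ⟨e, h1, h2, h3⟩ := mem_xs.1 h
  exact h3 (antisymm _ _ h' (reach_of_mem_xs h))

/-- If `w` is reachable from `v` and different from `v`, then it is reachable from an exit. -/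
theorem exists_xs {v w : G.V} (h : Reach v w) (hne : v ≠ w) : ∃ u ∈ xs v, Reach u w := by
  induction h using Relation.ReflTransGen.head_induction_on with
  | refl => exact absurd rfl hne
  | head h1 h2 ih =>
    rename_i a c
    obtain ⟨e, he1, he2⟩ := h1
    by_cases hac : c = a
    · subst hac
      exact ih hne
    · exact ⟨c, mem_xs.2 ⟨e, he1, he2, hac⟩, h2⟩

/-- Vertices reachable from a multiset of vertices. -/
def Rch (a : Multiset G.V) (w : G.V) : Prop := ∃ v ∈ a, Reach v w

omit [LoopGraph G] in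
@[simp] theorem Rch_zero (w : G.V) : ¬ Rch 0 w := by rintro ⟨v, hv, -⟩; simp at hv

omit [LoopGraph G] in
@[simp] theorem Rch_add {a b : Multiset G.V} {w : G.V} : Rch (a + b) w ↔ Rch a w ∨ Rch b w := by
  constructor
  · rintro ⟨v, hv, h⟩
    rcases Multiset.mem_add.1 hv with h1 | h1
    · exact Or.inl ⟨v, h1, h⟩
    · exact Or.inr ⟨v, h1, h⟩
  · rintro (⟨v, hv, h⟩ | ⟨v, hv, h⟩)
    · exact ⟨v, Multiset.mem_add.2 (Or.inl hv), h⟩
    · exact ⟨v, Multiset.mem_add.2 (Or.inr hv), h⟩

omit [LoopGraph G] in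
@[simp] theorem Rch_singleton {v w : G.V} : Rch {v} w ↔ Reach v w := by
  constructor
  · rintro ⟨u, hu, h⟩
    rw [Multiset.mem_singleton] at hu
    exact hu ▸ h
  · intro h; exact ⟨v, Multiset.mem_singleton_self v, h⟩

omit [LoopGraph G] in
theorem Rch.trans {a : Multiset G.V} {v w : G.V} (h : Rch a v) (h' : Reach v w) : Rch a w := by
  obtain ⟨u, hu, h1⟩ := h
  exact ⟨u, hu, h1.trans h'⟩

omit [LoopGraph G] in
theorem Rch_bind {α : Type*} {t : Multiset α} {f : α → Multiset G.V} {w : G.V} :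
    Rch (t.bind f) w ↔ ∃ l ∈ t, Rch (f l) w := by
  constructor
  · rintro ⟨v, hv, h⟩
    obtain ⟨l, hl, h1⟩ := Multiset.mem_bind.1 hv
    exact ⟨l, hl, v, h1, h⟩
  · rintro ⟨l, hl, v, hv, h⟩
    exact ⟨v, Multiset.mem_bind.2 ⟨l, hl, hv⟩, h⟩

omit [LoopGraph G] in
theorem Rch.mono {a b : Multiset G.V} {w : G.V} (h : Rch a w) (hab : ∀ v ∈ a, Rch b v) :
    Rch b w := by
  obtain ⟨u, hu, h1⟩ := h
  exact (hab u hu).trans h1

omit [LoopGraph G] in
theorem Rch_of_mem {a : Multiset G.V} {v : G.V} (h : v ∈ a) : Rch a v :=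
  ⟨v, h, Relation.ReflTransGen.refl⟩

theorem Rch_xs {v w : G.V} : Rch (xs v) w ↔ Reach v w ∧ v ≠ w := by
  constructor
  · rintro ⟨u, hu, h⟩
    refine ⟨(reach_of_mem_xs hu).trans h, ?_⟩
    rintro rfl
    exact not_reach_of_mem_xs hu h
  · rintro ⟨h, hne⟩
    exact exists_xs h hne

theorem not_Rch_xs_self (v : G.V) : ¬ Rch (xs v) v := fun h => (Rch_xs.1 h).2 rfl

/-! ### rank functions -/

open Classical in
/-- the number of vertices of `W` which can be reached -/
noncomputable def mu (W : Finset G.V) (v : G.V) : ℕ := (W.filter fun u => Reach v u).card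

omit [LoopGraph G] in
theorem mu_le (W : Finset G.V) {v w : G.V} (h : Reach v w) : mu W w ≤ mu W v := by
  classical
  apply Finset.card_le_card
  intro u hu
  rw [Finset.mem_filter] at hu ⊢
  exact ⟨hu.1, h.trans hu.2⟩

theorem mu_lt {W : Finset G.V} {v w : G.V} (hv : v ∈ W) (h : Reach v w) (hne : v ≠ w) :
    mu W w < mu W v := by
  classical
  apply Finset.card_lt_card
  rw [Finset.ssubset_iff_of_subset]
  · refine ⟨v, Finset.mem_filter.2 ⟨hv, Relation.ReflTransGen.refl⟩, fun hc => ?_⟩
    exact hne (antisymm _ _ h (Finset.mem_filter.1 hc).2)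
  · intro u hu
    rw [Finset.mem_filter] at hu ⊢
    exact ⟨hu.1, h.trans hu.2⟩

/-- Every finite set of vertices has an injective rank function which decreases along paths. -/
theorem exists_rank (Y : Finset G.V) : ∃ rk : G.V → ℕ,
    (∀ v ∈ Y, ∀ w ∈ Y, rk v = rk w → v = w) ∧
    (∀ v ∈ Y, ∀ w ∈ Y, Reach v w → v ≠ w → rk w < rk v) := by
  classical
  let idx : G.V → ℕ := fun v => if h : v ∈ Y then (Y.equivFin ⟨v, h⟩).val else 0
  have hidx : ∀ v ∈ Y, idx v < Y.card := by
    intro v hv
    simp only [idx, dif_pos hv]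
    exact Fin.is_lt _
  have hinj : ∀ v ∈ Y, ∀ w ∈ Y, idx v = idx w → v = w := by
    intro v hv w hw h
    simp only [idx, dif_pos hv, dif_pos hw] at h
    have := Y.equivFin.injective (Fin.ext h)
    exact congrArg Subtype.val this
  refine ⟨fun v => mu Y v * Y.card + idx v, ?_, ?_⟩
  · intro v hv w hw h
    apply hinj v hv w hw
    have h1 : (mu Y v * Y.card + idx v) % Y.card = idx v := by
      rw [add_comm, Nat.add_mul_mod_self_right]
      exact Nat.mod_eq_of_lt (hidx v hv)
    have h2 : (mu Y w * Y.card + idx w) % Y.card = idx w := by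
      rw [add_comm, Nat.add_mul_mod_self_right]
      exact Nat.mod_eq_of_lt (hidx w hw)
    dsimp only at h
    rw [← h1, ← h2, h]
  · intro v hv w hw h hne
    have h1 := mu_lt hv h hne
    have h2 := hidx w hw
    dsimp only
    nlinarith

end Run7.h19
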