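import Pool.Agent.Run7.h19.Honest

/-!
# Properties of honest pairs (helper19)
-/

namespace Run7.h19

open Pool.Agent.Helper665_GA LoopGraph Polynomial

section tele

variable {A : Type*} [NonUnitalRing A] {p c d : A}

/-- Telescoping. -/
theorem telescope (hc : InCor p c) (hd : InCor p d) (n : ℕ) :
    p - pw p c n * pw p d n = ∑ j ∈ Finset.range n, pw p c j * (p - c * d) * pw p d j := by
  induction n with
  | zero => rw [pw_zero, pw_zero, hc.pp]; simp
  | succ n ih =>
    rw [Finset.sum_range_succ, ← ih, pw_succ, pw_succ' hd]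
    have e1 : pw p c n * (p - c * d) * pw p d n
        = (pw p c n * p) * pw p d n - pw p c n * c * (d * pw p d n) := by noncomm_ring
    rw [e1, pw_p hc]; abel

end tele

variable {K : Type*} [Field K] [StarRing K] {G : Graph} [LoopGraph G]
  {P C : LPA K G} {k : G.V} {c : G.E}

omit [LoopGraph G] [StarRing K] in
theorem fr_pure {y : Multiset G.V} {P0 T : LPA K G} {f : ℕ → LPA K G}
    (hmono : ∀ n m, n ≤ m → ∀ b, f n * b = 0 → f m * b = 0)
    (hp : ∀ v ∈ y, ∀ a, ∃ N, f N * a * pp K v = 0) {Q : LPA K G → LPA K G → Prop}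
    (h : Fr Q (pp K) P0 y) (b : LPA K G) (hT : T = P0) : ∃ N, f N * (T * b) = 0 := by
  subst hT
  induction h with
  | zero => exact ⟨0, by simp⟩
  | @cons x z e v s h0 h1 h2 h3 h4 h5 h6 ih =>
    obtain ⟨N, hN⟩ := ih fun w hw => hp w (Multiset.mem_cons_of_mem hw)
    obtain ⟨M, hM⟩ := hp v (Multiset.mem_cons_self v s) x
    rw [mul_assoc, h2] at hM
    refine ⟨max N M, ?_⟩
    have e1 := hmono N (max N M) (le_max_left _ _) _ hN
    have e2 := hmono M (max N M) (le_max_right _ _) _ hM
    have e3 : f (max N M) * ((x * z + e) * b) = f (max N M) * x * (z * b)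
        + f (max N M) * (e * b) := by noncomm_ring
    rw [e3, e1, e2]; simp

theorem Honest.star_P (h : Honest P C k c) : star P = P := by
  rw [← h.isom, star_mul, star_star]

theorem Honest.cor' (h : Honest P C k c) : InCor P (star C) := h.cor.star h.star_P

theorem Honest.mono (h : Honest P C k c) (n m : ℕ) (hnm : n ≤ m) (b : LPA K G)
    (hb : pw P (star C) n * b = 0) : pw P (star C) m * b = 0 :=
  pw_mul_mono h.cor' hnm hb

/-- Purity for all vertices which do not reach the loop. -/
theorem Honest.pure' (h : Honest P C k c) {v : G.V} (hv : ¬ Reach v k) (a : LPA K G) :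
    ∃ N, pw P (star C) N * a * pp K v = 0 := by
  obtain ⟨x0, P0, y, f1, f2, f3, f4, f5, f6, N0, f7⟩ := h.frame
  obtain ⟨N1, h1⟩ := fr_pure h.mono (fun w hw b => h.pure w (f6 w hw) b) f5 (a * pp K v) rfl
  obtain ⟨n, hn⟩ := kill_low_star (K := K) h.loop hv (star x0 * a)
  set b := star x0 * a * pp K v with hb
  have hkb : pp K k * b = b := by
    have : pp K k * star x0 = star x0 := by
      conv_lhs => rw [← star_pp, ← star_mul, f3]
    rw [hb, ← mul_assoc, ← mul_assoc, this]
  have e1 : b = ∑ j ∈ Finset.range n, ∑ e ∈ exits k,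
      pw (pp K k) (ss K c) j * ss K e * (tt K e * pw (pp K k) (tt K c) j * b) := by
    have e2 : (pp K k - pw (pp K k) (ss K c) n * pw (pp K k) (tt K c) n) * b = b := by
      rw [sub_mul, hkb, mul_assoc]
      have : pw (pp K k) (tt K c) n * b = 0 := by rw [hb, ← mul_assoc]; exact hn
      rw [this, mul_zero, sub_zero]
    conv_lhs => rw [← e2, telescope h.loop.inCor h.loop.inCor' n, Finset.sum_mul]
    apply Finset.sum_congr rfl
    intro j _
    rw [loop_defect h.loop, Finset.mul_sum, Finset.sum_mul, Finset.sum_mul]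
    exact Finset.sum_congr rfl fun e _ => by noncomm_ring
  have h2 : ∀ j, ∀ e : G.E, e ∈ exits k → ∃ N, pw P (star C) N *
      (x0 * (pw (pp K k) (ss K c) j * ss K e)) = 0 := by
    intro j e he
    have hr : Rch (xs k) (G.rng e) :=
      Rch_of_mem (mem_xs.2 ⟨e, (mem_exits.1 he).1, rfl, (mem_exits.1 he).2⟩)
    obtain ⟨N, hN⟩ := h.pure _ hr (x0 * (pw (pp K k) (ss K c) j * ss K e))
    refine ⟨N, ?_⟩
    have e3 : pw P (star C) N * (x0 * (pw (pp K k) (ss K c) j * ss K e)) * pp K (G.rng e)
        = pw P (star C) N * (x0 * (pw (pp K k) (ss K c) j * (ss K e * pp K (G.rng e)))) := by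
      noncomm_ring
    rw [e3, ss_pp] at hN
    exact hN
  have h3 : ∃ N, pw P (star C) N * (x0 * b) = 0 := by
    classical
    have h4 : ∀ (s : Finset ℕ) (t : Finset G.E), t ⊆ exits k → ∃ N, pw P (star C) N *
        (x0 * ∑ j ∈ s, ∑ e ∈ t, pw (pp K k) (ss K c) j * ss K e *
          (tt K e * pw (pp K k) (tt K c) j * b)) = 0 := by
      intro s t ht
      induction s using Finset.induction_on with
      | empty => exact ⟨0, by simp⟩
      | insert j s hj ih =>
        obtain ⟨N, hN⟩ := ih
        have h5 : ∀ t : Finset G.E, t ⊆ exits k → ∃ N, pw P (star C) N *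
            (x0 * ∑ e ∈ t, pw (pp K k) (ss K c) j * ss K e *
              (tt K e * pw (pp K k) (tt K c) j * b)) = 0 := by
          intro t
          induction t using Finset.induction_on with
          | empty => intro _; exact ⟨0, by simp⟩
          | insert e t he ih' =>
            intro ht
            obtain ⟨M, hM⟩ := ih' fun f hf => ht (Finset.mem_insert_of_mem hf)
            obtain ⟨M', hM'⟩ := h2 j e (ht (Finset.mem_insert_self e t))
            refine ⟨max M M', ?_⟩
            have a1 := h.mono M (max M M') (le_max_left _ _) _ hM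
            have a2 := h.mono M' (max M M') (le_max_right _ _) _ hM'
            rw [Finset.sum_insert he, mul_add, mul_add, a1, add_zero]
            have e3 : pw P (star C) (max M M') * (x0 * (pw (pp K k) (ss K c) j * ss K e *
                (tt K e * pw (pp K k) (tt K c) j * b)))
                = pw P (star C) (max M M') * (x0 * (pw (pp K k) (ss K c) j * ss K e)) *
                (tt K e * pw (pp K k) (tt K c) j * b) := by noncomm_ring
            rw [e3, a2, zero_mul]
        obtain ⟨M, hM⟩ := h5 t ht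
        refine ⟨max N M, ?_⟩
        have a1 := h.mono N (max N M) (le_max_left _ _) _ hN
        have a2 := h.mono M (max N M) (le_max_right _ _) _ hM
        rw [Finset.sum_insert hj, mul_add, mul_add, a1, a2, add_zero]
    obtain ⟨N, hN⟩ := h4 (Finset.range n) (exits k) subset_rfl
    rw [← e1] at hN
    exact ⟨N, hN⟩
  obtain ⟨N2, h3⟩ := h3
  refine ⟨max N1 N2, ?_⟩
  have a1 := h.mono N1 (max N1 N2) (le_max_left _ _) _ h1
  have a2 := h.mono N2 (max N1 N2) (le_max_right _ _) _ h3
  have e5 : ∀ W : LPA K G, W * P = W →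
      W * a * pp K v = W * (x0 * b) + W * (P0 * (a * pp K v)) := by
    intro W hW
    calc W * a * pp K v = W * P * a * pp K v := by rw [hW]
      _ = W * ((x0 * star x0 + P0) * (a * pp K v)) := by rw [← f1]; noncomm_ring
      _ = _ := by rw [hb]; noncomm_ring
  have e3 := e5 _ (pw_p h.cor' (max N1 N2))
  rw [e3, a1, a2, add_zero]

/-- Purity against a frame. -/
theorem Honest.pure_fr (h : Honest P C k c) {Q : LPA K G → LPA K G → Prop} {g : LPA K G}
    {s : Multiset G.V} (hg : Fr Q (pp K) g s) (hs : ∀ v ∈ s, ¬ Reach v k) (a : LPA K G) :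
    ∃ N, pw P (star C) N * (a * g) = 0 := by
  have h1 : ∀ v ∈ s, ∀ b, ∃ N, pw P (star C) N * a * b * pp K v = 0 := by
    intro v hv b
    obtain ⟨N, hN⟩ := h.pure' (hs v hv) (a * b)
    exact ⟨N, by rw [← hN]; noncomm_ring⟩
  obtain ⟨N, hN⟩ := fr_pure (f := fun N => pw P (star C) N * a) (fun n m hnm b hb => by
    rw [mul_assoc] at hb ⊢
    exact h.mono n m hnm _ hb) h1 hg g rfl
  exact ⟨N, by rw [← hN, hg.idem, mul_assoc]⟩

/-- Deep powers of the isometry live on the deep part of the loop. -/
theorem Honest.deep (h : Honest P C k c) {x0 P0 : LPA K G} {y : Multiset G.V}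
    (f1 : P = x0 * star x0 + P0) (f3 : x0 * pp K k = x0)
    (f5 : SF K P0 y) (f6 : ∀ v ∈ y, Rch (xs k) v) (N : ℕ) :
    ∃ M, ∀ m, M ≤ m → pw P C m = x0 * pw (pp K k) (ss K c) N * pw (pp K k) (tt K c) N *
      star x0 * pw P C m := by
  classical
  have hnr : ∀ v, Rch (xs k) v → ¬ Reach v k := fun v hv hr => not_Rch_xs_self k (hv.trans hr)
  obtain ⟨M1, h1⟩ := h.pure_fr f5 (fun v hv => hnr v (f6 v hv)) P0
  rw [f5.idem] at h1
  set D := pp K k - pw (pp K k) (ss K c) N * pw (pp K k) (tt K c) N with hD
  have hDstar : star D = D := by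
    rw [hD, star_sub, star_pp, star_mul, pw_star (star_pp k) h.loop.inCor',
      pw_star (star_pp k) h.loop.inCor, star_ss, star_tt]
  have h2 : ∃ M2, pw P (star C) M2 * (x0 * D) = 0 := by
    have e1 : D = ∑ j ∈ Finset.range N, ∑ e ∈ exits k,
        (pw (pp K k) (ss K c) j * ss K e) * pp K (G.rng e) *
          (tt K e * pw (pp K k) (tt K c) j) := by
      rw [hD, telescope h.loop.inCor h.loop.inCor' N]
      apply Finset.sum_congr rfl
      intro j _
      rw [loop_defect h.loop, Finset.mul_sum, Finset.sum_mul]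
      apply Finset.sum_congr rfl
      intro e _
      have : (pw (pp K k) (ss K c) j * ss K e) * pp K (G.rng e) *
          (tt K e * pw (pp K k) (tt K c) j) = pw (pp K k) (ss K c) j * (ss K e * pp K (G.rng e)) *
          (tt K e * pw (pp K k) (tt K c) j) := by noncomm_ring
      rw [this, ss_pp]; noncomm_ring
    have h3 : ∀ (s : Finset ℕ), ∃ M, pw P (star C) M * (x0 * ∑ j ∈ s, ∑ e ∈ exits k,
        (pw (pp K k) (ss K c) j * ss K e) * pp K (G.rng e) *
          (tt K e * pw (pp K k) (tt K c) j)) = 0 := by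
      intro s
      induction s using Finset.induction_on with
      | empty => exact ⟨0, by simp⟩
      | insert j s hj ih =>
        obtain ⟨N', hN'⟩ := ih
        have h5 : ∀ t : Finset G.E, t ⊆ exits k → ∃ M, pw P (star C) M *
            (x0 * ∑ e ∈ t, (pw (pp K k) (ss K c) j * ss K e) * pp K (G.rng e) *
              (tt K e * pw (pp K k) (tt K c) j)) = 0 := by
          intro t
          induction t using Finset.induction_on with
          | empty => intro _; exact ⟨0, by simp⟩
          | insert e t he ih' =>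
            intro ht
            obtain ⟨M, hM⟩ := ih' fun f hf => ht (Finset.mem_insert_of_mem hf)
            have he' := mem_exits.1 (ht (Finset.mem_insert_self e t))
            obtain ⟨M', hM'⟩ := h.pure (G.rng e)
              (Rch_of_mem (mem_xs.2 ⟨e, he'.1, rfl, he'.2⟩))
              (x0 * (pw (pp K k) (ss K c) j * ss K e))
            refine ⟨max M M', ?_⟩
            have a1 := h.mono M (max M M') (le_max_left _ _) _ hM
            rw [mul_assoc] at hM'
            have a2 := h.mono M' (max M M') (le_max_right _ _) _ hM'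
            rw [Finset.sum_insert he, mul_add, mul_add, a1, add_zero]
            have e3 : pw P (star C) (max M M') * (x0 * ((pw (pp K k) (ss K c) j * ss K e) *
                pp K (G.rng e) * (tt K e * pw (pp K k) (tt K c) j)))
                = pw P (star C) (max M M') * (x0 * (pw (pp K k) (ss K c) j * ss K e) *
                  pp K (G.rng e)) * (tt K e * pw (pp K k) (tt K c) j) := by noncomm_ring
            rw [e3, a2, zero_mul]
        obtain ⟨M, hM⟩ := h5 (exits k) subset_rfl
        refine ⟨max N' M, ?_⟩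
        have a1 := h.mono N' (max N' M) (le_max_left _ _) _ hN'
        have a2 := h.mono M (max N' M) (le_max_right _ _) _ hM
        rw [Finset.sum_insert hj, mul_add, mul_add, a1, a2, add_zero]
    obtain ⟨M, hM⟩ := h3 (Finset.range N)
    rw [← e1] at hM
    exact ⟨M, hM⟩
  obtain ⟨M2, h2⟩ := h2
  refine ⟨max M1 M2, fun m hm => ?_⟩
  have a1 := h.mono M1 m (le_trans (le_max_left _ _) hm) _ h1
  have a2 := h.mono M2 m (le_trans (le_max_right _ _) hm) _ h2
  have b1 : P0 * pw P C m = 0 := by
    have := congrArg star a1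
    rw [star_zero, star_mul, f5.star_eq, pw_star h.star_P h.cor', star_star] at this
    exact this
  have b2 : D * star x0 * pw P C m = 0 := by
    have := congrArg star a2
    rw [star_zero, star_mul, star_mul, hDstar, pw_star h.star_P h.cor', star_star] at this
    exact this
  have hx : pp K k * star x0 = star x0 := by
    conv_lhs => rw [← star_pp, ← star_mul, f3]
  calc pw P C m = P * pw P C m := (p_pw h.cor m).symm
    _ = x0 * (pp K k * star x0) * pw P C m := by
        generalize pw P C m = W at b1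
        rw [f1, add_mul, b1, add_zero, hx]
    _ = x0 * (D * star x0 * pw P C m) + x0 * pw (pp K k) (ss K c) N * pw (pp K k) (tt K c) N *
      star x0 * pw P C m := by rw [hD]; noncomm_ring
    _ = _ := by rw [b2, mul_zero, zero_add]

omit [LoopGraph G] [StarRing K] in
theorem evp_mul_x0 {x0 : LPA K G} (hcor : InCor P C) (hl : LoopAt k c) {N : ℕ}
    (hx0 : P * x0 = x0)
    (h : C * x0 * pw (pp K k) (ss K c) N = x0 * pw (pp K k) (ss K c) (N + 1)) (q : K[X]) :
    evp K P C q * (x0 * pw (pp K k) (ss K c) N)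
      = x0 * pw (pp K k) (ss K c) N * evp K (pp K k) (ss K c) q := by
  have hpw : ∀ n, pw P C n * (x0 * pw (pp K k) (ss K c) N)
      = x0 * pw (pp K k) (ss K c) N * pw (pp K k) (ss K c) n := by
    intro n
    induction n with
    | zero => rw [pw_zero, pw_zero, ← mul_assoc, hx0, mul_assoc, pw_p hl.inCor]
    | succ n ih =>
      rw [pw_succ' hcor, mul_assoc, ih, ← mul_assoc, ← mul_assoc, h, pw_succ, mul_assoc,
        mul_assoc, mul_assoc, pw_succ' hl.inCor]
  induction q using Polynomial.induction_on' with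
  | add q q' hq hq' => rw [map_add, map_add, add_mul, mul_add, hq, hq']
  | monomial n a => rw [evp_monomial, evp_monomial, smul_mul_assoc, mul_smul_comm, hpw]

/-- High powers of the isometry turn the elements of the corner into polynomials. -/
theorem Honest.poly (h : Honest P C k c) {a : LPA K G} (ha : P * a = a) :
    ∃ (N M : ℕ) (q : K[X]), a * pw P C (N + M) = evp K P C q * pw P C M := by
  obtain ⟨x0, P0, y, f1, f2, f3, f4, f5, f6, N1, f7⟩ := h.frame
  have hnr : ∀ v, Rch (xs k) v → ¬ Reach v k := fun v hv hr => not_Rch_xs_self k (hv.trans hr)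
  have hPx : P * x0 = x0 := by rw [f1, add_mul, f4, mul_assoc, f2, f3, add_zero]
  obtain ⟨N2, q, h2⟩ := exists_poly h.loop (star x0 * a * x0)
  obtain ⟨N3, h3⟩ := fr_kill h.loop f5 (fun v hv => hnr v (f6 v hv)) (a * x0)
  have hx : pp K k * star x0 = star x0 := by
    conv_lhs => rw [← star_pp, ← star_mul, f3]
  set N := N2 + N3 with hN
  set q' := q * X ^ N3 with hq'
  have h4 : a * x0 * pw (pp K k) (ss K c) N = x0 * evp K (pp K k) (ss K c) q' := by
    have e1 : a * x0 = x0 * (star x0 * a * x0) + P0 * (a * x0) := by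
      conv_lhs => rw [← ha, f1]
      noncomm_ring
    rw [e1, add_mul, mul_pw_mono h.loop.inCor (by omega) h3, add_zero]
    have e2 : star x0 * a * x0 = pp K k * (star x0 * a * x0) := by
      rw [← mul_assoc, ← mul_assoc, hx]
    rw [e2, mul_assoc, hN, pw_add h.loop.inCor, ← mul_assoc (pp K k * _), h2,
      evp_mul_pw h.loop.inCor]
  obtain ⟨M, hM⟩ := h.deep f1 f3 f5 f6 N1
  refine ⟨N, M, q', ?_⟩
  rw [pw_add h.cor, ← mul_assoc, ← sub_eq_zero, ← sub_mul, hM M le_rfl]
  have h5 : (a * pw P C N - evp K P C q') * (x0 * pw (pp K k) (ss K c) N1) = 0 := by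
    have e3 := evp_mul_x0 (K := K) h.cor h.loop hPx f7 (X ^ N)
    rw [evp_X_pow, evp_X_pow] at e3
    rw [sub_mul, evp_mul_x0 h.cor h.loop hPx f7, mul_assoc, e3, sub_eq_zero]
    have e4 : a * (x0 * pw (pp K k) (ss K c) N1 * pw (pp K k) (ss K c) N)
        = a * x0 * pw (pp K k) (ss K c) N * pw (pp K k) (ss K c) N1 := by
      rw [mul_assoc x0, ← pw_add h.loop.inCor, add_comm, pw_add h.loop.inCor]; noncomm_ring
    rw [e4, h4, mul_assoc, mul_assoc, pw_mul_evp h.loop.inCor]
  have e5 : (a * pw P C N - evp K P C q') * (x0 * pw (pp K k) (ss K c) N1 *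
      pw (pp K k) (tt K c) N1 * star x0 * pw P C M)
      = (a * pw P C N - evp K P C q') * (x0 * pw (pp K k) (ss K c) N1) *
      (pw (pp K k) (tt K c) N1 * star x0 * pw P C M) := by noncomm_ring
  rw [e5, h5, zero_mul]

/-- The powers of the isometry are linearly independent. -/
theorem Honest.evp_ne (h : Honest P C k c) {q : K[X]} (hq : evp K P C q = 0) : q = 0 := by
  obtain ⟨x0, P0, y, f1, f2, f3, f4, f5, f6, N1, f7⟩ := h.frame
  have hPx : P * x0 = x0 := by rw [f1, add_mul, f4, mul_assoc, f2, f3, add_zero]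
  have h1 := evp_mul_x0 (K := K) h.cor h.loop hPx f7 q
  rw [hq, zero_mul] at h1
  have h2 := congrArg (fun z => star x0 * z) h1
  simp only [mul_zero] at h2
  have e1 : star x0 * (x0 * pw (pp K k) (ss K c) N1 * evp K (pp K k) (ss K c) q)
      = (star x0 * x0) * pw (pp K k) (ss K c) N1 * evp K (pp K k) (ss K c) q := by noncomm_ring
  rw [e1, f2, p_pw h.loop.inCor, pw_mul_evp h.loop.inCor, evp_mul_pw h.loop.inCor] at h2
  have h3 := (map_eq_zero_iff _ (evp_injective h.loop)).1 h2.symm
  exact (mul_eq_zero.1 h3).resolve_right (pow_ne_zero _ X_ne_zero)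

end Run7.h19
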