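import Pool.Agent.Run7.h19.StabG

/-!
# The inclusion of an algebra in its stabilisation (helper19)
-/

namespace Run7.h19

open Pool.Agent.Helper665_GA LoopGraph

variable {K : Type*} [Field K] [StarRing K] {G : Graph} [LoopGraph G]

/-- The family of the inclusion. -/
noncomputable def stabFam (K : Type*) [Field K] [StarRing K] (G : Graph) :
    SFam G (LPA K (stab G)) where
  p v := pp K (sv v [])
  s e := (LPA.family K (stab G)).s (Sum.inl e)
  star_p v := LPA.star_p _
  idem v := pp_pp _
  orth v w h := pp_ne fun h' => h (Prod.ext_iff.1 h').1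
  src_mul e := (LPA.family K (stab G)).src_mul (Sum.inl e)
  mul_rng e := (LPA.family K (stab G)).mul_rng (Sum.inl e)
  isom e := by
    rw [LPA.star_s]; exact (LPA.family K (stab G)).ghost_mul_self (Sum.inl e)
  range_orth e f h := by
    rw [LPA.star_s]
    exact (LPA.family K (stab G)).ghost_mul_of_ne _ _ fun h' => h (Sum.inl_injective h')
  sum_eq v F hF hv := by
    obtain ⟨e0, he0⟩ := hF
    have h1 := (LPA.family K (stab G)).sum_eq (sv v [])
      (F.map ⟨fun e => (Sum.inl e : (stab G).E), Sum.inl_injective⟩)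
      (by rw [Finset.map_nonempty]; exact ⟨e0, he0⟩) (by
        intro e
        rw [Finset.mem_map]
        constructor
        · rintro ⟨e, he, rfl⟩
          exact Prod.ext ((hv e).1 he) rfl
        · intro he
          rcases e with e | ⟨w, n, l⟩
          · exact ⟨e, (hv e).2 (Prod.ext_iff.1 he).1, rfl⟩
          · exact absurd (Prod.ext_iff.1 he).2 (by simp))
    rw [Finset.sum_map] at h1
    refine Eq.trans ?_ h1
    exact Finset.sum_congr rfl fun e _ => by rw [LPA.star_s]; rfl

/-- The inclusion. -/
noncomputable def ist (K : Type*) [Field K] [StarRing K] (G : Graph) :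
    LPA K G →⋆ₙₐ[K] LPA K (stab G) := (stabFam K G).hom K

omit [LoopGraph G] in
theorem ist_p (v : G.V) : ist K G (pp K v) = pp K (sv v []) := (stabFam K G).hom_p v

omit [LoopGraph G] in
theorem ist_s (e : G.E) : ist K G (ss K e) = (LPA.family K (stab G)).s (Sum.inl e) :=
  (stabFam K G).hom_s e

theorem ist_injective : Function.Injective (ist K G) := by
  apply injective_of (ist K G : LPA K G →ₙₐ[K] LPA K (stab G))
  · intro v
    show ist K G (pp K v) ≠ 0
    rw [ist_p]
    exact LPA.p_ne_zero _
  · intro k c hc q hq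
    have h1 : ist K G (evp K (pp K k) (ss K c) q) = 0 := hq
    rw [map_evp', ist_p, ist_s] at h1
    have h2 : LoopAt (G := stab G) (sv k []) (Sum.inl c) :=
      ⟨Prod.ext hc.src rfl, Prod.ext hc.rng rfl⟩
    exact (map_eq_zero_iff _ (evp_injective h2)).1 h1

omit [LoopGraph G] in
theorem ist_cor (v w : G.V) (a : LPA K (stab G)) :
    ∃ b, ist K G b = pp K (sv v []) * a * pp K (sv w []) := by
  have key : ∀ (l : List (stab G).E) (u : (stab G).V) (v : G.V),
      pp K (sv v []) * LPA.sp K (stab G) l u = 0 ∨ ∃ u0 b, u = sv u0 [] ∧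
        ist K G b = pp K (sv v []) * LPA.sp K (stab G) l u := by
    intro l u
    induction l with
    | nil =>
      intro v
      have h1 : LPA.sp K (stab G) [] u = pp K u := rfl
      rw [h1]
      by_cases h : sv v [] = u
      · right
        subst h
        exact ⟨v, pp K v, rfl, by rw [ist_p, pp_pp]⟩
      · left; exact pp_ne h
    | cons e l ih =>
      intro v
      have h1 : LPA.sp K (stab G) (e :: l) u = ss K e * LPA.sp K (stab G) l u := rfl
      rw [h1, ← mul_assoc]
      by_cases h : (stab G).src e = sv v []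
      · rcases e with e | ⟨w, n, l'⟩
        · have h2 : G.src e = v := (Prod.ext_iff.1 h).1
          subst h2
          have h3 : pp K (sv (G.src e) []) * ss K (Sum.inl e : (stab G).E)
              = ss K (Sum.inl e : (stab G).E) := (LPA.family K (stab G)).src_mul (Sum.inl e)
          have h4 : ss K (Sum.inl e : (stab G).E) * pp K (sv (G.rng e) [])
              = ss K (Sum.inl e : (stab G).E) := (LPA.family K (stab G)).mul_rng (Sum.inl e)
          rw [h3]
          rcases ih (G.rng e) with h5 | ⟨u0, b, h5, h6⟩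
          · left
            rw [← h4, mul_assoc, h5, mul_zero]
          · right
            refine ⟨u0, ss K e * b, h5, ?_⟩
            rw [map_mul, h6, ist_s, ← mul_assoc]
            exact congrArg (· * _) h4
        · exact absurd (Prod.ext_iff.1 h).2 (by simp)
      · left
        rw [(LPA.family K (stab G)).p_mul_s_of_ne h, zero_mul]
  have key' : ∀ (l : List (stab G).E) (u : (stab G).V) (v : G.V),
      LPA.tp K (stab G) l u * pp K (sv v []) = 0 ∨ ∃ u0 b, u = sv u0 [] ∧
        ist K G b = LPA.tp K (stab G) l u * pp K (sv v []) := by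
    intro l u v
    have h1 : LPA.tp K (stab G) l u * pp K (sv v [])
        = star (pp K (sv v []) * LPA.sp K (stab G) l u) := by
      rw [star_mul, LPA.star_sp, star_pp]
    rw [h1]
    rcases key l u v with h | ⟨u0, b, h2, h3⟩
    · left; rw [h, star_zero]
    · right; exact ⟨u0, star b, h2, by rw [map_star, h3]⟩
  induction a using LPA.mono_induction with
  | hm l l' u =>
    have h1 : pp K (sv v []) * (LPA.sp K (stab G) l u * LPA.tp K (stab G) l' u) * pp K (sv w [])
        = (pp K (sv v []) * LPA.sp K (stab G) l u) *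
          (LPA.tp K (stab G) l' u * pp K (sv w [])) := by noncomm_ring
    rw [h1]
    rcases key l u v with h | ⟨u0, b, h2, h3⟩
    · exact ⟨0, by rw [h, zero_mul, map_zero]⟩
    · rcases key' l' u w with h | ⟨u1, b', h4, h5⟩
      · exact ⟨0, by rw [h, mul_zero, map_zero]⟩
      · exact ⟨b * b', by rw [map_mul, h3, h5]⟩
  | hz => exact ⟨0, by simp⟩
  | ha a b ha hb =>
    obtain ⟨x, hx⟩ := ha
    obtain ⟨y, hy⟩ := hb
    exact ⟨x + y, by rw [map_add, hx, hy, mul_add, add_mul]⟩
  | hs r a ha =>
    obtain ⟨x, hx⟩ := ha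
    exact ⟨r • x, by rw [map_smul, hx, mul_smul_comm, smul_mul_assoc]⟩

omit [LoopGraph G] in
/-- The corners of the stabilisation. -/
theorem ist_surj (S : Finset G.V) {c : LPA K (stab G)} (h1 : (∑ v ∈ S, pp K (sv v [])) * c = c)
    (h2 : c * (∑ v ∈ S, pp K (sv v [])) = c) : ∃ b, ist K G b = c := by
  choose b hb using fun v w : G.V => ist_cor v w c
  refine ⟨∑ v ∈ S, ∑ w ∈ S, b v w, ?_⟩
  rw [map_sum]
  conv_rhs => rw [← h2, ← h1, Finset.sum_mul, Finset.sum_mul]
  apply Finset.sum_congr rfl
  intro v _
  rw [map_sum, Finset.mul_sum]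
  exact Finset.sum_congr rfl fun w _ => hb v w

omit [LoopGraph G] in
theorem ist_sum (S : Finset G.V) : ist K G (∑ v ∈ S, pp K v) = ∑ v ∈ S, pp K (sv v []) := by
  rw [map_sum]
  exact Finset.sum_congr rfl fun v _ => ist_p v

omit [LoopGraph G] in
/-- Frames in the stabilisation. -/
theorem SF_ist {e : LPA K G} {s : Multiset G.V} (h : SF K e s) :
    SF K (ist K G e) (s.map fun v => sv v []) := by
  have h' : Fr QSt (pp K) e s := h
  clear h
  induction h' with
  | zero => rw [map_zero]; exact Fr.zero
  | @cons x y e v s h0 h1 h2 h3 h4 h5 h6 ih =>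
    rw [QSt] at h0
    subst h0
    rw [Multiset.map_cons, map_add, map_mul]
    refine Fr.cons (Q := QSt) (map_star _ _) ?_ ?_ ?_ ?_ ?_ ih
    · rw [← map_mul, h1, ist_p]
    · rw [← ist_p, ← map_mul, h2]
    · rw [← ist_p, ← map_mul, h3]
    · rw [← map_mul, h4, map_zero]
    · rw [← map_mul, h5, map_zero]

end Run7.h19
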