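import Pool.Agent.Run7.h19.Struct

/-!
# Finite levels of the Leavitt path algebra of a loop graph (helper19)
-/

namespace Run7.h19

open Pool.Agent.Helper665_GA LoopGraph

variable {K : Type*} [Field K] {G : Graph}

/-- The subalgebra generated by the vertices and by the edges emitted by the vertices in `X`. -/
noncomputable def LX (K : Type*) [Field K] {G : Graph} (X : Set G.V) :
    NonUnitalSubalgebra K (LPA K G) :=
  NonUnitalAlgebra.adjoin K ({a | ∃ v, a = pp K v} ∪ {a | ∃ e, G.src e ∈ X ∧ a = ss K e} ∪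
    {a | ∃ e, G.src e ∈ X ∧ a = tt K e})

variable {X : Set G.V}

theorem pp_mem (v : G.V) : pp K v ∈ LX K X :=
  NonUnitalAlgebra.subset_adjoin K (Or.inl (Or.inl ⟨v, rfl⟩))

theorem ss_mem {e : G.E} (h : G.src e ∈ X) : ss K e ∈ LX K X :=
  NonUnitalAlgebra.subset_adjoin K (Or.inl (Or.inr ⟨e, h, rfl⟩))

theorem tt_mem {e : G.E} (h : G.src e ∈ X) : tt K e ∈ LX K X :=
  NonUnitalAlgebra.subset_adjoin K (Or.inr ⟨e, h, rfl⟩)

theorem LX_mono {X' : Set G.V} (h : X ⊆ X') : LX K X ≤ LX K X' := by
  apply NonUnitalAlgebra.adjoin_mono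
  rintro a ((⟨v, rfl⟩ | ⟨e, he, rfl⟩) | ⟨e, he, rfl⟩)
  · exact Or.inl (Or.inl ⟨v, rfl⟩)
  · exact Or.inl (Or.inr ⟨e, h he, rfl⟩)
  · exact Or.inr ⟨e, h he, rfl⟩

/-- Monomials at the level `X`. -/
def MonX (K : Type*) [Field K] {G : Graph} (X : Set G.V) : Submodule K (LPA K G) :=
  Submodule.span K {a | ∃ l l' v, (∀ e ∈ l, G.src e ∈ X) ∧ (∀ e ∈ l', G.src e ∈ X) ∧
    a = LPA.sp K G l v * LPA.tp K G l' v}

theorem MonX_mono {l l' : List G.E} {v : G.V} (h1 : ∀ e ∈ l, G.src e ∈ X)
    (h2 : ∀ e ∈ l', G.src e ∈ X) : LPA.sp K G l v * LPA.tp K G l' v ∈ MonX K X :=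
  Submodule.subset_span ⟨l, l', v, h1, h2, rfl⟩

theorem gen_mul_MonX {g : LPA K G} (hg : g ∈ ({a | ∃ v, a = pp K v} ∪
    {a | ∃ e, G.src e ∈ X ∧ a = ss K e} ∪ {a | ∃ e, G.src e ∈ X ∧ a = tt K e} :
    Set (LPA K G))) {a : LPA K G} (ha : a ∈ MonX K X) : g * a ∈ MonX K X := by
  induction ha using Submodule.span_induction with
  | mem a ha =>
    obtain ⟨l, l', v, h1, h2, rfl⟩ := ha
    rcases hg with (⟨w, rfl⟩ | ⟨e, he, rfl⟩) | ⟨e, he, rfl⟩
    · rw [← mul_assoc]
      rcases (LPA.family K G).p_mul_sP w l v with h | h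
      · rw [show pp K w * LPA.sp K G l v = LPA.sp K G l v from h]
        exact MonX_mono h1 h2
      · rw [show pp K w * LPA.sp K G l v = 0 from h, zero_mul]
        exact Submodule.zero_mem _
    · rw [← mul_assoc]
      refine MonX_mono (l := e :: l) ?_ h2
      intro f hf
      rcases List.mem_cons.1 hf with rfl | hf
      · exact he
      · exact h1 f hf
    · rw [← mul_assoc]
      cases l with
      | nil =>
        by_cases h : G.src e = v
        · subst h
          have h3 : tt K e * LPA.sp K G [] (G.src e) * LPA.tp K G l' (G.src e)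
              = LPA.sp K G [] (G.rng e) * LPA.tp K G (l' ++ [e]) (G.rng e) := by
            show (LPA.family K G).t e * (LPA.family K G).p (G.src e) *
              (LPA.family K G).tP l' (G.src e)
              = (LPA.family K G).p (G.rng e) * (LPA.family K G).tP (l' ++ [e]) (G.rng e)
            rw [(LPA.family K G).mul_src, (LPA.family K G).p_mul_tP,
              (LPA.family K G).tP_append]
          rw [h3]
          refine MonX_mono (by simp) ?_
          intro f hf
          rcases List.mem_append.1 hf with hf | hf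
          · exact h2 f hf
          · rw [List.mem_singleton] at hf
            exact hf ▸ he
        · have h3 : tt K e * LPA.sp K G [] v = 0 := (LPA.family K G).t_mul_p_of_ne h
          rw [h3, zero_mul]; exact Submodule.zero_mem _
      | cons f l =>
        have h4 : tt K e * LPA.sp K G (f :: l) v = tt K e * ss K f * LPA.sp K G l v := by
          show (LPA.family K G).t e * ((LPA.family K G).s f * (LPA.family K G).sP l v) = _
          rw [← mul_assoc]
        rw [h4]
        by_cases h : e = f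
        · subst h
          rw [(LPA.family K G).ghost_mul_self]
          rcases (LPA.family K G).p_mul_sP (G.rng e) l v with h | h
          · rw [show (LPA.family K G).p (G.rng e) * LPA.sp K G l v = LPA.sp K G l v from h]
            exact MonX_mono (fun g hg => h1 g (List.mem_cons_of_mem _ hg)) h2
          · rw [show (LPA.family K G).p (G.rng e) * LPA.sp K G l v = 0 from h, zero_mul]
            exact Submodule.zero_mem _
        · rw [(LPA.family K G).ghost_mul_of_ne e f h, zero_mul, zero_mul]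
          exact Submodule.zero_mem _
  | zero => rw [mul_zero]; exact Submodule.zero_mem _
  | add a b _ _ ha hb => rw [mul_add]; exact Submodule.add_mem _ ha hb
  | smul r a _ ha => rw [mul_smul_comm]; exact Submodule.smul_mem _ _ ha

theorem gen_MonX {g : LPA K G} (hg : g ∈ ({a | ∃ v, a = pp K v} ∪
    {a | ∃ e, G.src e ∈ X ∧ a = ss K e} ∪ {a | ∃ e, G.src e ∈ X ∧ a = tt K e} :
    Set (LPA K G))) : g ∈ MonX K X := by
  have hp : ∀ v, pp K v ∈ MonX K X := by
    intro v
    have h := MonX_mono (K := K) (X := X) (l := []) (l' := []) (v := v) (by simp) (by simp)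
    have h2 : LPA.sp K G [] v * LPA.tp K G [] v = pp K v := (LPA.family K G).p_mul_self v
    rwa [h2] at h
  have hg0 := hg
  rcases hg with (⟨w, rfl⟩ | ⟨e, he, rfl⟩) | ⟨e, he, rfl⟩
  · exact hp w
  · have h := gen_mul_MonX hg0 (hp (G.rng e))
    rwa [show ss K e * pp K (G.rng e) = ss K e from (LPA.family K G).mul_rng e] at h
  · have h := gen_mul_MonX hg0 (hp (G.src e))
    rwa [show tt K e * pp K (G.src e) = tt K e from (LPA.family K G).mul_src e] at h

theorem mem_MonX {a : LPA K G} (ha : a ∈ LX K X) : a ∈ MonX K X := by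
  have key : a ∈ MonX K X ∧ ∀ b ∈ MonX K X, a * b ∈ MonX K X := by
    induction ha using NonUnitalAlgebra.adjoin_induction with
    | mem x hx => exact ⟨gen_MonX hx, fun b hb => gen_mul_MonX hx hb⟩
    | add x y _ _ hx hy =>
      exact ⟨Submodule.add_mem _ hx.1 hy.1, fun b hb => by
        rw [add_mul]; exact Submodule.add_mem _ (hx.2 b hb) (hy.2 b hb)⟩
    | zero => exact ⟨Submodule.zero_mem _, fun b hb => by rw [zero_mul]; exact Submodule.zero_mem _⟩
    | mul x y _ _ hx hy =>
      exact ⟨hx.2 y hy.1, fun b hb => by rw [mul_assoc]; exact hx.2 _ (hy.2 b hb)⟩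
    | smul r x _ hx =>
      exact ⟨Submodule.smul_mem _ _ hx.1, fun b hb => by
        rw [smul_mul_assoc]; exact Submodule.smul_mem _ _ (hx.2 b hb)⟩
  exact key.1

/-- Induction at the level `X`. -/
theorem LX_induction {P : LPA K G → Prop}
    (hm : ∀ l l' v, (∀ e ∈ l, G.src e ∈ X) → (∀ e ∈ l', G.src e ∈ X) →
      P (LPA.sp K G l v * LPA.tp K G l' v))
    (hz : P 0) (ha : ∀ a b, P a → P b → P (a + b)) (hs : ∀ (r : K) a, P a → P (r • a))
    {a : LPA K G} (h : a ∈ LX K X) : P a := by
  have h' := mem_MonX h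
  clear h
  induction h' using Submodule.span_induction with
  | mem a ha =>
    obtain ⟨l, l', v, h1, h2, rfl⟩ := ha
    exact hm l l' v h1 h2
  | zero => exact hz
  | add a b _ _ h1 h2 => exact ha a b h1 h2
  | smul r a _ h1 => exact hs r a h1

/-- Every element lies in a finite level. -/
theorem exists_LX (a : LPA K G) : ∃ X : Finset G.V, a ∈ LX K (X : Set G.V) := by
  classical
  induction a using LPA.induction with
  | hgen x =>
    cases x with
    | vert v => exact ⟨∅, pp_mem v⟩
    | edge e => exact ⟨{G.src e}, ss_mem (by simp)⟩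
    | ghost e => exact ⟨{G.src e}, tt_mem (by simp)⟩
  | hadd a b ha hb =>
    obtain ⟨X, hX⟩ := ha
    obtain ⟨Y, hY⟩ := hb
    exact ⟨X ∪ Y, add_mem (LX_mono (by simp) hX) (LX_mono (by simp) hY)⟩
  | hzero => exact ⟨∅, zero_mem _⟩
  | hmul a b ha hb =>
    obtain ⟨X, hX⟩ := ha
    obtain ⟨Y, hY⟩ := hb
    exact ⟨X ∪ Y, mul_mem (LX_mono (by simp) hX) (LX_mono (by simp) hY)⟩
  | hsmul r a ha =>
    obtain ⟨X, hX⟩ := ha
    exact ⟨X, (LX K (X : Set G.V)).smul_mem r hX⟩

theorem star_mem_LX [StarRing K] {a : LPA K G} (ha : a ∈ LX K X) : star a ∈ LX K X := by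
  induction ha using NonUnitalAlgebra.adjoin_induction with
  | mem x hx =>
    rcases hx with (⟨w, rfl⟩ | ⟨e, he, rfl⟩) | ⟨e, he, rfl⟩
    · rw [pp, LPA.star_p]; exact pp_mem w
    · rw [ss, LPA.star_s]; exact tt_mem he
    · rw [tt, LPA.star_t]; exact ss_mem he
  | add x y _ _ hx hy => rw [star_add]; exact add_mem hx hy
  | zero => rw [star_zero]; exact zero_mem _
  | mul x y _ _ hx hy => rw [star_mul]; exact mul_mem hy hx
  | smul r x _ hx => rw [star_smul]; exact (LX K X).smul_mem _ hx

/-! ### atoms -/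

/-- The vertex emits no edge at the level `X`. -/
def Atom (X : Set G.V) (t : G.V) : Prop := ∀ e, G.src e = t → t ∉ X

theorem atom_nil {t : G.V} (ht : Atom X t) {l : List G.E} {v : G.V}
    (hl : ∀ e ∈ l, G.src e ∈ X) (h : start l v = t) : l = [] ∧ v = t := by
  cases l with
  | nil => exact ⟨rfl, h⟩
  | cons e l =>
    exfalso
    have h1 : G.src e = t := h
    exact ht e h1 (h1 ▸ hl e List.mem_cons_self)

theorem atom_self {t : G.V} (ht : Atom X t) {a : LPA K G} (ha : a ∈ LX K X) :
    ∃ r : K, pp K t * a * pp K t = r • pp K t := by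
  refine LX_induction (P := fun a => ∃ r : K, pp K t * a * pp K t = r • pp K t) ?_ ?_ ?_ ?_ ha
  · intro l l' v h1 h2
    by_cases h3 : Valid l v ∧ start l v = t
    · obtain ⟨rfl, rfl⟩ := atom_nil ht h1 h3.2
      by_cases h4 : Valid l' v ∧ start l' v = v
      · obtain ⟨rfl, -⟩ := atom_nil ht h2 h4.2
        refine ⟨1, ?_⟩
        show pp K v * (pp K v * pp K v) * pp K v = _
        rw [(LPA.family K G).p_mul_self, (LPA.family K G).p_mul_self,
          (LPA.family K G).p_mul_self, one_smul]
      · exact ⟨0, by rw [mul_assoc, mul_assoc, tp_mul_p_of_not h4, mul_zero, mul_zero, zero_smul]⟩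
    · exact ⟨0, by rw [← mul_assoc, p_mul_sp_of_not h3, zero_mul, zero_mul, zero_smul]⟩
  · exact ⟨0, by simp⟩
  · intro a b ha hb
    obtain ⟨r, hr⟩ := ha
    obtain ⟨s, hs⟩ := hb
    exact ⟨r + s, by rw [mul_add, add_mul, hr, hs, add_smul]⟩
  · intro r a ha
    obtain ⟨s, hs⟩ := ha
    exact ⟨r * s, by rw [mul_smul_comm, smul_mul_assoc, hs, mul_smul]⟩

/-- Reachability at the level `X`. -/
def ReachX (X : Set G.V) (v w : G.V) : Prop :=
  Relation.ReflTransGen (fun a b => a ∈ X ∧ G.Adj a b) v w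

theorem ReachX.reach {v w : G.V} (h : ReachX X v w) : Reach v w := by
  induction h with
  | refl => exact Relation.ReflTransGen.refl
  | tail _ h1 ih => exact ih.tail h1.2

theorem reachX_start {l : List G.E} {v : G.V} (h : Valid l v) (hl : ∀ e ∈ l, G.src e ∈ X) :
    ReachX X (start l v) v := by
  induction l with
  | nil => exact Relation.ReflTransGen.refl
  | cons e l ih =>
    have h1 := ih h.2 (fun f hf => hl f (List.mem_cons_of_mem _ hf))
    rw [← h.1] at h1
    exact Relation.ReflTransGen.head ⟨hl e List.mem_cons_self, e, rfl, rfl⟩ h1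

theorem atom_right {t v : G.V} (ht : Atom X t) (hv : ¬ ReachX X v t) {a : LPA K G}
    (ha : a ∈ LX K X) : pp K v * a * pp K t = 0 := by
  refine LX_induction (P := fun a => pp K v * a * pp K t = 0) ?_ ?_ ?_ ?_ ha
  · intro l l' u h1 h2
    by_cases h4 : Valid l' u ∧ start l' u = t
    · obtain ⟨rfl, rfl⟩ := atom_nil ht h2 h4.2
      have h3 : ¬ (Valid l u ∧ start l u = v) := by
        rintro ⟨h5, rfl⟩
        exact hv (reachX_start h5 h1)
      rw [← mul_assoc, p_mul_sp_of_not h3, zero_mul, zero_mul]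
    · rw [mul_assoc, mul_assoc, tp_mul_p_of_not h4, mul_zero, mul_zero]
  · simp
  · intro a b ha hb
    rw [mul_add, add_mul, ha, hb, add_zero]
  · intro r a ha
    rw [mul_smul_comm, smul_mul_assoc, ha, smul_zero]

theorem atom_left {t v : G.V} (ht : Atom X t) (hv : ¬ ReachX X v t) {a : LPA K G}
    (ha : a ∈ LX K X) : pp K t * a * pp K v = 0 := by
  refine LX_induction (P := fun a => pp K t * a * pp K v = 0) ?_ ?_ ?_ ?_ ha
  · intro l l' u h1 h2
    by_cases h4 : Valid l u ∧ start l u = t
    · obtain ⟨rfl, rfl⟩ := atom_nil ht h1 h4.2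
      have h3 : ¬ (Valid l' u ∧ start l' u = v) := by
        rintro ⟨h5, rfl⟩
        exact hv (reachX_start h5 h2)
      rw [mul_assoc, mul_assoc, tp_mul_p_of_not h3, mul_zero, mul_zero]
    · rw [← mul_assoc, p_mul_sp_of_not h4, zero_mul, zero_mul]
  · simp
  · intro a b ha hb
    rw [mul_add, add_mul, ha, hb, add_zero]
  · intro r a ha
    rw [mul_smul_comm, smul_mul_assoc, ha, smul_zero]

end Run7.h19
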