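import Pool.Agent.Helper665_GA.Laurent

/-!
# Idempotent matrices and polynomial matrices (helper19)
-/

namespace Run7.h19

open Pool.Agent.Helper665_GA Polynomial LaurentPolynomial

/-- Idempotent matrices over a principal ideal domain can be diagonalized. -/
theorem exists_diag {R : Type*} [CommRing R] [IsDomain R] [IsPrincipalIdealRing R] {n : Type}
    [Fintype n] [DecidableEq n] (C : Matrix n n R) (hC : C * C = C) :
    ∃ (S S' : Matrix n n R) (J : Finset n), S * S' = 1 ∧ S' * S = 1 ∧
      C * S = S * Matrix.diagonal fun j => if j ∈ J then 1 else 0 := by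
  obtain ⟨r, A, A', h1, h2⟩ := exists_split C hC
  obtain ⟨s, B, B', h3, h4⟩ := exists_split (1 - C) (by
    rw [sub_mul, mul_sub, mul_sub, hC]; simp)
  have hAB : A' * B = 0 := by
    have e1 : C * B = 0 := by
      calc C * B = C * (B * (B' * B)) := by rw [h4, Matrix.mul_one]
        _ = C * (B * B') * B := by simp only [Matrix.mul_assoc]
        _ = 0 := by rw [h3, mul_sub, hC]; simp
    calc A' * B = (A' * A) * A' * B := by rw [h2, Matrix.one_mul]
      _ = A' * ((A * A') * B) := by simp only [Matrix.mul_assoc]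
      _ = 0 := by rw [h1, e1, Matrix.mul_zero]
  have hBA : B' * A = 0 := by
    have e1 : (1 - C) * A = 0 := by
      calc (1 - C) * A = (1 - C) * (A * (A' * A)) := by rw [h2, Matrix.mul_one]
        _ = (1 - C) * (A * A') * A := by simp only [Matrix.mul_assoc]
        _ = 0 := by rw [h1, sub_mul, hC]; simp
    calc B' * A = (B' * B) * B' * A := by rw [h4, Matrix.one_mul]
      _ = B' * ((B * B') * A) := by simp only [Matrix.mul_assoc]
      _ = 0 := by rw [h3, e1, Matrix.mul_zero]
  have hCA : C * A = A := by rw [← h1, Matrix.mul_assoc, h2, Matrix.mul_one]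
  have hCB : C * B = 0 := by
    rw [← h1, Matrix.mul_assoc, hAB, Matrix.mul_zero]
  set M : Matrix n (Fin r ⊕ Fin s) R := Matrix.fromCols A B with hM
  set N : Matrix (Fin r ⊕ Fin s) n R := Matrix.fromRows A' B' with hN
  have hMN : M * N = 1 := by
    rw [hM, hN, Matrix.fromCols_mul_fromRows, h1, h3]; simp
  have hNM : N * M = 1 := by
    rw [hM, hN, Matrix.fromRows_mul_fromCols, h2, h4, hAB, hBA, Matrix.fromBlocks_one]
  have hcard : Fintype.card n = Fintype.card (Fin r ⊕ Fin s) :=
    Matrix.square_of_invertible M N hMN hNM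
  let e : n ≃ Fin r ⊕ Fin s := Fintype.equivOfCardEq hcard
  refine ⟨M.submatrix id e, N.submatrix e id, Finset.univ.filter fun j => (e j).isLeft, ?_, ?_, ?_⟩
  · rw [← Matrix.submatrix_mul _ _ id e id e.bijective, hMN]
    simp
  · rw [← Matrix.submatrix_mul _ _ e id e Function.bijective_id, hNM]
    exact Matrix.submatrix_one_equiv e
  · ext i j
    rw [Matrix.mul_diagonal]
    have h5 : (C * M.submatrix id e) i j = (C * M) i (e j) := rfl
    rw [h5, hM, Matrix.mul_fromCols]
    simp only [Finset.mem_filter, Finset.mem_univ, true_and, Matrix.submatrix_apply, id]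
    cases hj : e j with
    | inl a => simp [hCA]
    | inr b => simp [hCB]

/-- Invertible matrices of Laurent polynomials become polynomial. -/
theorem exists_poly_matrix {K : Type*} [Field K] {n : Type} [Fintype n] [DecidableEq n]
    (S S' : Matrix n n K[T;T⁻¹]) (hS : S * S' = 1) :
    ∃ (N : ℕ) (Q : Matrix n n K[X]) (r : K) (D : ℕ), r ≠ 0 ∧ Q.det = Polynomial.C r * X ^ D ∧
      ∀ i j, Polynomial.toLaurent (Q i j) = S i j * T N := by
  have h1 : ∀ f : K[T;T⁻¹], ∃ N : ℕ, ∃ q : K[X], Polynomial.toLaurent q = f * T N :=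
    fun f => f.exists_T_pow
  choose N0 q0 hq0 using h1
  set N := ∑ i, ∑ j, N0 (S i j) with hN
  have hle : ∀ i j, N0 (S i j) ≤ N := by
    intro i j
    refine le_trans ?_ (Finset.single_le_sum (f := fun i => ∑ j, N0 (S i j))
      (fun _ _ => Nat.zero_le _) (Finset.mem_univ i))
    exact Finset.single_le_sum (f := fun j => N0 (S i j)) (fun _ _ => Nat.zero_le _)
      (Finset.mem_univ j)
  have h2 : ∀ i j, ∃ q : K[X], Polynomial.toLaurent q = S i j * T N := by
    intro i j
    obtain ⟨m, hm⟩ := Nat.exists_eq_add_of_le (hle i j)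
    refine ⟨q0 (S i j) * X ^ m, ?_⟩
    rw [map_mul, hq0, Polynomial.toLaurent_X_pow, mul_assoc, ← T_add, hm]
    push_cast; rfl
  choose q hq using h2
  set Q : Matrix n n K[X] := Matrix.of q with hQ
  have hQi : ∀ i j, Polynomial.toLaurent (Q i j) = S i j * T N := fun i j => hq i j
  have h3 : Polynomial.toLaurent Q.det = S.det * T ((Fintype.card n : ℤ) * N) := by
    rw [RingHom.map_det (Polynomial.toLaurent : K[X] →+* K[T;T⁻¹])]
    have h4 : (Polynomial.toLaurent : K[X] →+* K[T;T⁻¹]).mapMatrix Q = (T (N : ℤ) : K[T;T⁻¹]) • S := by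
      apply Matrix.ext
      intro i j
      rw [RingHom.mapMatrix_apply, Matrix.map_apply, Matrix.smul_apply, smul_eq_mul, mul_comm]
      exact hQi i j
    rw [h4, Matrix.det_smul, T_pow, mul_comm]
  have h5 : S.det * S'.det = 1 := by rw [← Matrix.det_mul, hS, Matrix.det_one]
  obtain ⟨c, m, hc, hm⟩ := laurent_unit h5
  rw [hm, smul_mul_assoc, ← T_add] at h3
  set k := m + (Fintype.card n : ℤ) * N with hk
  have hk0 : 0 ≤ k := by
    by_contra hneg
    push Not at hneg
    have h6 : Polynomial.toLaurent (Q.det * X ^ (-k).toNat) = Polynomial.toLaurent (Polynomial.C c) := by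
      rw [map_mul, h3, Polynomial.toLaurent_X_pow, smul_mul_assoc, ← T_add,
        Int.toNat_of_nonneg (by omega), add_neg_cancel, T_zero, Polynomial.toLaurent_C,
        LaurentPolynomial.smul_eq_C_mul, mul_one]
    have h7 := Polynomial.toLaurent_injective h6
    have h8 := congrArg (fun p => Polynomial.coeff p 0) h7
    simp only [Polynomial.coeff_C_zero] at h8
    rw [Polynomial.mul_coeff_zero, Polynomial.coeff_X_pow, if_neg (by omega), mul_zero] at h8
    exact hc h8.symm
  refine ⟨N, Q, c, k.toNat, hc, ?_, hQi⟩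
  apply Polynomial.toLaurent_injective
  rw [h3, map_mul, Polynomial.toLaurent_C, Polynomial.toLaurent_X_pow, Int.toNat_of_nonneg hk0,
    LaurentPolynomial.smul_eq_C_mul]

end Run7.h19
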