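import Pool.Agent.Run7.h19.Expand
import Pool.Agent.Run7.h19.Split

/-!
# Idempotents near a loop (helper19)
-/

namespace Run7.h19

open Pool.Agent.Helper665_GA LoopGraph LaurentPolynomial

variable {K : Type*} [Field K] {G : Graph}

/-- The pairs of elements of a subalgebra. -/
def QA (S : NonUnitalSubalgebra K (LPA K G)) (x y : LPA K G) : Prop := x ∈ S ∧ y ∈ S

theorem goodQA (X : Set G.V) : GoodQ (QA (LX K X)) X where
  edge _ _ _ he h := ⟨mul_mem h.1 (ss_mem he), mul_mem (tt_mem he) h.2⟩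
  ghost _ _ _ he h := ⟨mul_mem h.1 (tt_mem he), mul_mem (ss_mem he) h.2⟩
  add _ _ _ _ h h' := ⟨add_mem h.1 h'.1, add_mem h.2 h'.2⟩
  zero := ⟨zero_mem _, zero_mem _⟩

theorem Fr.mem {S : NonUnitalSubalgebra K (LPA K G)} {p : G.V → LPA K G} {e : LPA K G}
    {s : Multiset G.V} (h : Fr (QA S) p e s) : e ∈ S := by
  induction h with
  | zero => exact zero_mem _
  | cons h0 _ _ _ _ _ _ ih => exact add_mem (mul_mem h0.1 h0.2) ih

variable {k : G.V} {c : G.E}

theorem sym_eq_zero (h : LoopAt k c) {a : LPA K G} {N : ℕ}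
    (ha : a * pw (pp K k) (ss K c) N = 0) : sym h a = 0 := by
  have h1 := sym_mul_pw h a N
  rw [ha, sym_zero] at h1
  have h3 : sym h a = sym h a * T N * T (-N) := by
    rw [mul_assoc (sym h _), ← T_add, add_neg_cancel, T_zero, mul_one]
  rw [h3, ← h1, zero_mul]

theorem fr_kill (h : LoopAt k c) {Q : LPA K G → LPA K G → Prop} {g' : LPA K G}
    {s' : Multiset G.V} (hf : Fr Q (pp K) g' s') (hs : ∀ v ∈ s', ¬ Reach v k) (a : LPA K G) :
    ∃ N, g' * a * pw (pp K k) (ss K c) N = 0 := by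
  induction hf with
  | zero => exact ⟨0, by simp⟩
  | @cons x y e v s h0 h1 h2 h3 h4 h5 h6 ih =>
    obtain ⟨N, hN⟩ := ih fun w hw => hs w (Multiset.mem_cons_of_mem hw)
    obtain ⟨M, hM⟩ := kill_low (K := K) h (hs v (Multiset.mem_cons_self v s)) (y * a)
    refine ⟨max N M, ?_⟩
    rw [← mul_assoc, h3] at hM
    have e1 := mul_pw_mono h.inCor (le_max_right N M) hM
    have e2 := mul_pw_mono h.inCor (le_max_left N M) hN
    have e3 : (x * y + e) * a * pw (pp K k) (ss K c) (max N M)
        = x * (y * a * pw (pp K k) (ss K c) (max N M)) + e * a * pw (pp K k) (ss K c) (max N M) := by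
      noncomm_ring
    rw [e3, e1, e2]; simp

theorem sym_fr (h : LoopAt k c) {Q : LPA K G → LPA K G → Prop} {g' : LPA K G}
    {s' : Multiset G.V} (hf : Fr Q (pp K) g' s') (hs : ∀ v ∈ s', ¬ Reach v k) (a b : LPA K G) :
    sym h (a * g' * b) = 0 := by
  obtain ⟨N, hN⟩ := fr_kill h hf hs b
  apply sym_eq_zero h (N := N)
  have e1 : a * g' * b * pw (pp K k) (ss K c) N = a * (g' * b * pw (pp K k) (ss K c) N) := by
    noncomm_ring
  rw [e1, hN, mul_zero]

variable [LoopGraph G]

theorem kill_all (h : LoopAt k c) {ι : Type} [Fintype ι] [DecidableEq ι] {x y : ι → LPA K G}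
    (hd : Dual (pp K k) x y) {Q : LPA K G → LPA K G → Prop} {g' : LPA K G} {s' : Multiset G.V}
    (hf : Fr Q (pp K) g' s') (hs : ∀ v ∈ s', ¬ Reach v k) {b : LPA K G}
    (hb : (dsum x y + g') * b = b) (hsym : ∀ i, sym h (y i * b) = 0) :
    ∃ M, b * pw (pp K k) (ss K c) M = 0 := by
  have h1 : ∀ i, ∃ N, y i * b * pw (pp K k) (ss K c) N = 0 := fun i =>
    exists_kill h (by rw [← mul_assoc, hd.py]) (hsym i)
  choose N hN using h1
  obtain ⟨N', hN'⟩ := fr_kill h hf hs b
  refine ⟨∑ i, N i + N', ?_⟩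
  have e1 : b * pw (pp K k) (ss K c) (∑ i, N i + N')
      = (dsum x y + g') * b * pw (pp K k) (ss K c) (∑ i, N i + N') := by rw [hb]
  rw [e1, add_mul, add_mul, mul_pw_mono h.inCor (Nat.le_add_left _ _) hN', add_zero, dsum_def,
    Finset.sum_mul, Finset.sum_mul]
  apply Finset.sum_eq_zero
  intro i _
  have e2 : x i * y i * b * pw (pp K k) (ss K c) (∑ i, N i + N')
      = x i * (y i * b * pw (pp K k) (ss K c) (∑ i, N i + N')) := by noncomm_ring
  rw [e2, mul_pw_mono h.inCor (le_trans (Finset.single_le_sum (f := N)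
    (fun _ _ => Nat.zero_le _) (Finset.mem_univ i)) (Nat.le_add_right _ _)) (hN i), mul_zero]

/-- The factorization lemma at a loop. -/
theorem factor_loop {X : Set G.V} (h : LoopAt k c) (hkX : k ∈ X) {ι : Type} [Fintype ι]
    [DecidableEq ι] {x y : ι → LPA K G} (hd : Dual (pp K k) x y) (hx : ∀ i, x i ∈ LX K X)
    (hy : ∀ i, y i ∈ LX K X) (D : ℕ) (Q : Matrix ι ι (Polynomial K)) (r : K) (hr : r ≠ 0)
    (hdet : Q.det = Polynomial.C r * Polynomial.X ^ D) :
    ∃ w : ι → LPA K G, (∀ i, w i ∈ LX K X) ∧ Dual (pp K k) (act (pp K k) (ss K c) x Q) w ∧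
      (∀ i, w i * dsum x y = w i) ∧
      Fr (QA (LX K X)) (pp K) (dsum x y - dsum (act (pp K k) (ss K c) x Q) w) (D • xs k) := by
  refine factor (LX K X) (pp_mem k) (ss_mem (by rw [h.src]; exact hkX))
    (tt_mem (by rw [h.src]; exact hkX)) h.inCor h.inCor' h.tt_mul_ss ?_ hd hx hy D Q r hr hdet
  intro a b ha hb hba _ _
  rw [loop_defect h]
  exact fr_exits (goodQA X) hkX ⟨ha, hb⟩ hba

omit [LoopGraph G] in
/-- Scaling the matrix by a power of the variable. -/
theorem act_smul {p : LPA K G} {c' : LPA K G} (hc : InCor p c') {ι : Type} [Fintype ι]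
    (x : ι → LPA K G) (Q : Matrix ι ι (Polynomial K)) (M : ℕ) (j : ι) :
    act p c' x ((Polynomial.X ^ M : Polynomial K) • Q) j = act p c' x Q j * pw p c' M := by
  rw [act, act, Finset.sum_mul]
  apply Finset.sum_congr rfl
  intro i _
  rw [Matrix.smul_apply, smul_eq_mul, mul_comm, evp_mul hc, evp_X_pow, mul_assoc]

theorem det_scale {ι : Type} [Fintype ι] [DecidableEq ι] (Q : Matrix ι ι (Polynomial K)) (M : ℕ)
    {r : K} {D : ℕ} (hdet : Q.det = Polynomial.C r * Polynomial.X ^ D) :
    ((Polynomial.X ^ M : Polynomial K) • Q).det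
      = Polynomial.C r * Polynomial.X ^ (D + M * Fintype.card ι) := by
  rw [Matrix.det_smul, hdet, pow_add, pow_mul]
  ring

/-- Splitting off the copies of a loop from an idempotent. -/
theorem T0_loop {X : Set G.V} (h : LoopAt k c) (hkX : k ∈ X) {n : ℕ} {x y : Fin n → LPA K G}
    (hx : ∀ i, x i ∈ LX K X) (hy : ∀ i, y i ∈ LX K X) (hd : Dual (pp K k) x y) {g' : LPA K G}
    {s' : Multiset G.V} (hf : Fr (QA (LX K X)) (pp K) g' s') (hs : ∀ v ∈ s', ¬ Reach v k)
    (ho1 : dsum x y * g' = 0) (ho2 : g' * dsum x y = 0) {e : LPA K G} (he : e ∈ LX K X)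
    (hee : e * e = e) (heg : e * (dsum x y + g') = e) (hge : (dsum x y + g') * e = e)
    (IH : ∀ (D : ℕ) (g2 e2 : LPA K G), Fr (QA (LX K X)) (pp K) g2 (D • xs k + s') →
      e2 ∈ LX K X → e2 * e2 = e2 → e2 * g2 = e2 → g2 * e2 = e2 →
      ∃ s2, Fr (QA (LX K X)) (pp K) e2 s2) :
    ∃ s2, Fr (QA (LX K X)) (pp K) e s2 := by
  classical
  have hg'g' := hf.idem
  -- the symbol matrix
  set ε : Matrix (Fin n) (Fin n) K[T;T⁻¹] := Matrix.of fun i j => sym h (y i * e * x j) with hε
  have hεb : ∀ (b : LPA K G) (i : Fin n), (dsum x y + g') * b = b →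
      sym h (y i * (e * b)) = ∑ l, ε i l * sym h (y l * b) := by
    intro b i hb
    have e1 : y i * (e * b) = ∑ l, (y i * e * x l) * (y l * b) + y i * e * g' * b := by
      have e2 : y i * (e * b) = y i * e * (dsum x y * b) + y i * e * g' * b := by
        conv_lhs => rw [← hb]
        noncomm_ring
      rw [e2, dsum_def, Finset.sum_mul, Finset.mul_sum]
      congr 1
      exact Finset.sum_congr rfl fun l _ => by noncomm_ring
    rw [e1, sym_add, sym_sum, sym_fr h hf hs, add_zero]
    apply Finset.sum_congr rfl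
    intro l _
    rw [sym_mul h _ (by rw [← mul_assoc, hd.py])]
    rfl
  have hgx : ∀ j, (dsum x y + g') * x j = x j := by
    intro j
    have : g' * x j = 0 := by rw [← hd.dsum_mul j, ← mul_assoc, ho2, zero_mul]
    rw [add_mul, hd.dsum_mul, this, add_zero]
  have hεε : ε * ε = ε := by
    ext1 i j
    rw [Matrix.mul_apply]
    have e1 := hεb (e * x j) i (by rw [← mul_assoc, hge])
    have e2 : e * (e * x j) = e * x j := by rw [← mul_assoc, hee]
    rw [e2] at e1
    have e3 : ε i j = sym h (y i * (e * x j)) := by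
      rw [hε, Matrix.of_apply, mul_assoc]
    rw [e3, e1]
    apply Finset.sum_congr rfl
    intro l _
    have e4 : ε l j = sym h (y l * (e * x j)) := by rw [hε, Matrix.of_apply, mul_assoc]
    rw [e4]
  obtain ⟨U, U', J, hUU', hU'U, hεU⟩ := exists_diag ε hεε
  obtain ⟨N, Q, r, D, hr, hdet, hQ⟩ := exists_poly_matrix U U' hUU'
  set z0 := act (pp K k) (ss K c) x Q with hz0
  have hgz0 : ∀ j, (dsum x y + g') * z0 j = z0 j := by
    intro j
    have h1 : dsum x y * z0 j = z0 j := dsum_act hd Q j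
    rw [add_mul, h1]
    conv_lhs => rw [← h1, ← mul_assoc, ho2, zero_mul, add_zero, h1]
  have hyz0 : ∀ i j, sym h (y i * z0 j) = U i j * T N := by
    intro i j
    rw [hz0, mul_act hd h.inCor, sym_evp, hQ]
  have hyez0 : ∀ i j, sym h (y i * (e * z0 j)) = if j ∈ J then U i j * T N else 0 := by
    intro i j
    rw [hεb (z0 j) i (hgz0 j)]
    have e1 : ∑ l, ε i l * sym h (y l * z0 j) = (ε * U) i j * T N := by
      rw [Matrix.mul_apply, Finset.sum_mul]
      exact Finset.sum_congr rfl fun l _ => by rw [hyz0, mul_assoc]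
    rw [e1, hεU, Matrix.mul_diagonal]
    split_ifs
    · rw [mul_one]
    · rw [mul_zero, zero_mul]
  have hkill : ∀ j, ∃ M, (e * z0 j - (if j ∈ J then z0 j else 0)) * pw (pp K k) (ss K c) M = 0 := by
    intro j
    apply kill_all h hd hf hs
    · rw [mul_sub, ← mul_assoc, hge]
      split_ifs
      · rw [hgz0]
      · rw [mul_zero]
    · intro i
      rw [mul_sub, sym_sub, hyez0]
      split_ifs
      · rw [hyz0, sub_self]
      · rw [mul_zero, sym_zero, sub_self]
  choose M0 hM0 using hkill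
  set M := ∑ j, M0 j with hM
  set Q' : Matrix (Fin n) (Fin n) (Polynomial K) := (Polynomial.X ^ M : Polynomial K) • Q with hQ'
  set z := act (pp K k) (ss K c) x Q' with hz
  have hzz0 : ∀ j, z j = z0 j * pw (pp K k) (ss K c) M := fun j => act_smul h.inCor x Q M j
  have hez : ∀ j, e * z j = if j ∈ J then z j else 0 := by
    intro j
    have h1 := mul_pw_mono h.inCor (Finset.single_le_sum (f := M0) (fun _ _ => Nat.zero_le _)
      (Finset.mem_univ j)) (hM0 j)
    rw [← hM, sub_mul, mul_assoc, ← hzz0] at h1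
    rw [sub_eq_zero.1 h1]
    split_ifs
    · rw [hzz0]
    · rw [zero_mul]
  obtain ⟨w, hw1, hw2, hw3, hw4⟩ := factor_loop h hkX hd hx hy _ Q' r hr (det_scale Q M hdet)
  set D' := D + M * Fintype.card (Fin n) with hD'
  have hzX : ∀ j, z j ∈ LX K X := fun j => act_mem _ (pp_mem k)
    (ss_mem (by rw [h.src]; exact hkX)) hx _ j
  -- the part with symbol
  set e1 := ∑ j ∈ J, z j * (w j * e) with he1
  have hf1 : Fr (QA (LX K X)) (pp K) e1 (J.val.map fun _ => k) := by
    apply Fr.of_finset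
    · exact fun i _ => ⟨hzX i, mul_mem (hw1 i) he⟩
    · intro i hi
      rw [mul_assoc, hez, if_pos hi, hw2.yx, if_pos rfl]
    · intro i _ j hj hij
      rw [mul_assoc, hez, if_pos hj, hw2.yx, if_neg hij]
    · exact fun i _ => hw2.xp i
    · intro i _
      rw [← mul_assoc, hw2.py]
  have h11 : e1 * e1 = e1 := hf1.idem
  have h1e : e1 * e = e1 := by
    rw [he1, Finset.sum_mul]
    exact Finset.sum_congr rfl fun j _ => by rw [mul_assoc, mul_assoc, hee]
  have he1' : e * e1 = e1 := by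
    rw [he1, Finset.mul_sum]
    exact Finset.sum_congr rfl fun j hj => by rw [← mul_assoc, hez, if_pos hj]
  have h1z : ∀ j, e1 * z j = if j ∈ J then z j else 0 := by
    intro j
    rw [he1, Finset.sum_mul]
    have e2 : ∀ i ∈ J, z i * (w i * e) * z j = if j ∈ J then (if i = j then z i else 0) else 0 := by
      intro i _
      rw [mul_assoc, mul_assoc, hez]
      split_ifs with h1 h2
      · rw [hw2.yx, if_pos h2, hw2.xp]
      · rw [hw2.yx, if_neg h2, mul_zero]
      · rw [mul_zero, mul_zero]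
    rw [Finset.sum_congr rfl e2]
    by_cases hj : j ∈ J
    · rw [if_pos hj, Finset.sum_eq_single_of_mem j hj]
      · rw [if_pos hj, if_pos rfl]
      · intro i _ hi
        rw [if_pos hj, if_neg hi]
    · rw [if_neg hj]
      exact Finset.sum_eq_zero fun i _ => by rw [if_neg hj]
  set e' := e - e1 with he'
  have he'e' : e' * e' = e' := by
    rw [he', sub_mul, mul_sub, mul_sub, hee, he1', h1e, h11]; abel
  have he'z : ∀ j, e' * z j = 0 := by
    intro j
    rw [he', sub_mul, hez, h1z, sub_self]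
  set G1 := dsum z w with hG1
  have he'G : e' * G1 = 0 := by
    rw [hG1, dsum_def, Finset.mul_sum]
    exact Finset.sum_eq_zero fun j _ => by rw [← mul_assoc, he'z, zero_mul]
  have hGx : G1 * dsum x y = G1 := by
    rw [hG1, dsum_def z w, Finset.sum_mul]
    exact Finset.sum_congr rfl fun j _ => by rw [mul_assoc, hw3]
  have hxG : dsum x y * G1 = G1 := by
    rw [hG1, dsum_def z w, Finset.mul_sum]
    exact Finset.sum_congr rfl fun j _ => by rw [← mul_assoc, dsum_act hd]
  have hGg' : G1 * g' = 0 := by rw [← hGx, mul_assoc, ho1, mul_zero]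
  have hg'G : g' * G1 = 0 := by rw [← hxG, ← mul_assoc, ho2, zero_mul]
  set g2 := dsum x y - G1 + g' with hg2
  have hfg2 : Fr (QA (LX K X)) (pp K) g2 (D' • xs k + s') := by
    apply hw4.add hf
    · rw [sub_mul, ho1, hGg', sub_self]
    · rw [mul_sub, ho2, hg'G, sub_self]
  have hg2m : g2 ∈ LX K X := hfg2.mem
  have he1m : e1 ∈ LX K X := hf1.mem
  have he'm : e' ∈ LX K X := sub_mem he he1m
  have he'g : e' * (dsum x y + g') = e' := by
    rw [he', sub_mul, heg, ← h1e, mul_assoc, heg]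
  have he'g2 : e' * g2 = e' := by
    have : g2 = dsum x y + g' - G1 := by rw [hg2]; abel
    rw [this, mul_sub, he'g, he'G, sub_zero]
  have hg2g2 : g2 * g2 = g2 := hfg2.idem
  set e'' := g2 * e' with he''
  have h3 : e'' * e'' = e'' := by
    calc g2 * e' * (g2 * e') = g2 * ((e' * g2) * e') := by noncomm_ring
      _ = g2 * e' := by rw [he'g2, he'e']
  obtain ⟨s2, hs2⟩ := IH D' g2 e'' hfg2 (mul_mem hg2m he'm) h3
    (by rw [he'', mul_assoc, he'g2]) (by rw [he'', ← mul_assoc, hg2g2])
  have h4 : Fr (QA (LX K X)) (pp K) (e' * e'' * e'') s2 := by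
    apply hs2.transport (Q' := QA (LX K X))
    · show e'' * e' = e''
      rw [he'', mul_assoc, he'e']
    · intro a b hab _ _
      exact ⟨mul_mem he'm hab.1, mul_mem hab.2 (mul_mem hg2m he'm)⟩
  have h5 : e' * e'' * e'' = e' := by
    rw [mul_assoc, h3, he'', ← mul_assoc, he'g2, he'e']
  rw [h5] at h4
  refine ⟨(J.val.map fun _ => k) + s2, ?_⟩
  have h6 : e = e1 + e' := by rw [he']; abel
  rw [h6]
  apply hf1.add h4
  · rw [he', mul_sub, h1e, h11, sub_self]
  · rw [he', sub_mul, he1', h11, sub_self]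

/-- Comparing two frames at a loop. -/
theorem T1_loop {X : Set G.V} (h : LoopAt k c) (hkX : k ∈ X) {n n' : ℕ}
    {x y : Fin n → LPA K G} {x' y' : Fin n' → LPA K G}
    (hx : ∀ i, x i ∈ LX K X) (hy : ∀ i, y i ∈ LX K X) (hd : Dual (pp K k) x y)
    (hx' : ∀ i, x' i ∈ LX K X) (hy' : ∀ i, y' i ∈ LX K X) (hd' : Dual (pp K k) x' y')
    {g g' : LPA K G} {s s' : Multiset G.V}
    (hf : Fr (QA (LX K X)) (pp K) g s) (hs : ∀ v ∈ s, ¬ Reach v k)
    (hf' : Fr (QA (LX K X)) (pp K) g' s') (hs' : ∀ v ∈ s', ¬ Reach v k)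
    (ho1 : dsum x y * g = 0) (ho2 : g * dsum x y = 0)
    (ho1' : dsum x' y' * g' = 0) (ho2' : g' * dsum x' y' = 0)
    (heq : dsum x y + g = dsum x' y' + g') :
    n = n' ∧ ∃ (D D' : ℕ) (e : LPA K G), Fr (QA (LX K X)) (pp K) e (D • xs k + s) ∧
      Fr (QA (LX K X)) (pp K) e (D' • xs k + s') := by
  classical
  set e0 := dsum x y + g with he0
  have hex : ∀ j, e0 * x j = x j := by
    intro j
    have : g * x j = 0 := by rw [← hd.dsum_mul j, ← mul_assoc, ho2, zero_mul]
    rw [he0, add_mul, hd.dsum_mul, this, add_zero]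
  have hye : ∀ j, y j * e0 = y j := by
    intro j
    have : y j * g = 0 := by rw [← hd.mul_dsum j, mul_assoc, ho1, mul_zero]
    rw [he0, mul_add, hd.mul_dsum, this, add_zero]
  have hex' : ∀ j, e0 * x' j = x' j := by
    intro j
    have : g' * x' j = 0 := by rw [← hd'.dsum_mul j, ← mul_assoc, ho2', zero_mul]
    rw [heq, add_mul, hd'.dsum_mul, this, add_zero]
  have hye' : ∀ j, y' j * e0 = y' j := by
    intro j
    have : y' j * g' = 0 := by rw [← hd'.mul_dsum j, mul_assoc, ho1', mul_zero]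
    rw [heq, mul_add, hd'.mul_dsum, this, add_zero]
  set U : Matrix (Fin n') (Fin n) K[T;T⁻¹] := Matrix.of fun i j => sym h (y' i * x j) with hU
  set V : Matrix (Fin n) (Fin n') K[T;T⁻¹] := Matrix.of fun i j => sym h (y i * x' j) with hV
  have hVU : V * U = 1 := by
    ext1 i j
    rw [Matrix.mul_apply]
    have e1 : ∀ l, V i l * U l j = sym h ((y i * x' l) * (y' l * x j)) := by
      intro l
      rw [sym_mul h _ (by rw [← mul_assoc, hd'.py])]
      rfl
    rw [Finset.sum_congr rfl fun l _ => e1 l, ← sym_sum]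
    have e2 : ∑ l, (y i * x' l) * (y' l * x j) = y i * x j - y i * g' * x j := by
      have e3 : y i * x j = y i * (dsum x' y' + g') * x j := by rw [← heq, hye]
      have e4 : ∑ l, (y i * x' l) * (y' l * x j) = y i * dsum x' y' * x j := by
        rw [dsum_def, Finset.mul_sum, Finset.sum_mul]
        exact Finset.sum_congr rfl fun l _ => by noncomm_ring
      rw [e4, e3]; noncomm_ring
    rw [e2, sym_sub, sym_fr h hf' hs', sub_zero, hd.yx, Matrix.one_apply]
    split_ifs
    · exact sym_p h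
    · exact sym_zero h
  have hUV : U * V = 1 := by
    ext1 i j
    rw [Matrix.mul_apply]
    have e1 : ∀ l, U i l * V l j = sym h ((y' i * x l) * (y l * x' j)) := by
      intro l
      rw [sym_mul h _ (by rw [← mul_assoc, hd.py])]
      rfl
    rw [Finset.sum_congr rfl fun l _ => e1 l, ← sym_sum]
    have e2 : ∑ l, (y' i * x l) * (y l * x' j) = y' i * x' j - y' i * g * x' j := by
      have e3 : y' i * x' j = y' i * (dsum x y + g) * x' j := by rw [← he0, hye']
      have e4 : ∑ l, (y' i * x l) * (y l * x' j) = y' i * dsum x y * x' j := by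
        rw [dsum_def, Finset.mul_sum, Finset.sum_mul]
        exact Finset.sum_congr rfl fun l _ => by noncomm_ring
      rw [e4, e3]; noncomm_ring
    rw [e2, sym_sub, sym_fr h hf hs, sub_zero, hd'.yx, Matrix.one_apply]
    split_ifs
    · exact sym_p h
    · exact sym_zero h
  have hnn : n = n' := by
    have := Matrix.square_of_invertible V U hVU hUV
    simpa using this
  subst hnn
  refine ⟨rfl, ?_⟩
  obtain ⟨N, Q, r, D, hr, hdet, hQ⟩ := exists_poly_matrix U V hUV
  set z0 := act (pp K k) (ss K c) x' Q with hz0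
  have hkill : ∀ j, ∃ M, (x j * pw (pp K k) (ss K c) N - z0 j) * pw (pp K k) (ss K c) M = 0 := by
    intro j
    apply kill_all h hd' hf' hs'
    · rw [← heq, mul_sub, ← mul_assoc, hex]
      congr 1
      have h1 : dsum x' y' * z0 j = z0 j := dsum_act hd' Q j
      have h2 : e0 * dsum x' y' = dsum x' y' := by
        rw [heq, add_mul, hd'.dsum_idem, ho2', add_zero]
      rw [← h1, ← mul_assoc, h2]
    · intro i
      rw [mul_sub, sym_sub, ← mul_assoc, sym_mul_pw, hz0, mul_act hd' h.inCor, sym_evp, hQ]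
      exact sub_self _
  choose M0 hM0 using hkill
  set M := ∑ j, M0 j with hM
  set Q1 : Matrix (Fin n) (Fin n) (Polynomial K) := (Polynomial.X ^ M : Polynomial K) • Q with hQ1
  set Q2 : Matrix (Fin n) (Fin n) (Polynomial K) :=
    (Polynomial.X ^ (N + M) : Polynomial K) • (1 : Matrix (Fin n) (Fin n) (Polynomial K)) with hQ2
  have hact1 : ∀ j, act (pp K k) (ss K c) x (1 : Matrix (Fin n) (Fin n) (Polynomial K)) j
      = x j := by
    intro j
    rw [act, Finset.sum_eq_single_of_mem j (Finset.mem_univ j)]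
    · rw [Matrix.one_apply_eq, evp_one, hd.xp]
    · intro i _ hi
      rw [Matrix.one_apply_ne hi, map_zero, mul_zero]
  have hzz : ∀ j, act (pp K k) (ss K c) x' Q1 j = act (pp K k) (ss K c) x Q2 j := by
    intro j
    have h1 := mul_pw_mono h.inCor (Finset.single_le_sum (f := M0) (fun _ _ => Nat.zero_le _)
      (Finset.mem_univ j)) (hM0 j)
    rw [← hM, sub_mul, sub_eq_zero] at h1
    rw [hQ1, hQ2, act_smul h.inCor, act_smul h.inCor, ← hz0, ← h1, hact1, pw_add h.inCor,
      mul_assoc]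
  obtain ⟨w1, a1, a2, a3, a4⟩ := factor_loop h hkX hd' hx' hy' _ Q1 r hr (det_scale Q M hdet)
  obtain ⟨w2, b1, b2, b3, b4⟩ := factor_loop h hkX hd hx hy _ Q2 1 one_ne_zero
    (det_scale 1 (N + M) (D := 0) (by simp))
  set D1 := D + M * Fintype.card (Fin n)
  set D2 := 0 + (N + M) * Fintype.card (Fin n)
  have hz : act (pp K k) (ss K c) x' Q1 = act (pp K k) (ss K c) x Q2 := funext hzz
  set z := act (pp K k) (ss K c) x Q2 with hzdef
  rw [hz] at a2 a4
  have hez : ∀ j, e0 * z j = z j := by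
    intro j
    have h1 : dsum x y * z j = z j := dsum_act hd Q2 j
    have h2 : e0 * dsum x y = dsum x y := by
      rw [he0, add_mul, hd.dsum_idem, ho2, add_zero]
    rw [← h1, ← mul_assoc, h2]
  have hdx : dsum x y * e0 = dsum x y := by rw [he0, mul_add, hd.dsum_idem, ho1, add_zero]
  have hdx' : dsum x' y' * e0 = dsum x' y' := by rw [heq, mul_add, hd'.dsum_idem, ho1', add_zero]
  have hw1e : ∀ j, w1 j * e0 = w1 j := by
    intro j
    rw [← a3 j, mul_assoc, hdx']
  have hw2e : ∀ j, w2 j * e0 = w2 j := by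
    intro j
    rw [← b3 j, mul_assoc, hdx]
  have hG1e : dsum z w1 * e0 = dsum z w1 := by
    rw [dsum_def, Finset.sum_mul]
    exact Finset.sum_congr rfl fun j _ => by rw [mul_assoc, hw1e]
  have hG2e : dsum z w2 * e0 = dsum z w2 := by
    rw [dsum_def, Finset.sum_mul]
    exact Finset.sum_congr rfl fun j _ => by rw [mul_assoc, hw2e]
  have heG1 : e0 * dsum z w1 = dsum z w1 := by
    rw [dsum_def, Finset.mul_sum]
    exact Finset.sum_congr rfl fun j _ => by rw [← mul_assoc, hez]
  have heG2 : e0 * dsum z w2 = dsum z w2 := by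
    rw [dsum_def, Finset.mul_sum]
    exact Finset.sum_congr rfl fun j _ => by rw [← mul_assoc, hez]
  have hG12 : dsum z w1 * dsum z w2 = dsum z w2 := by
    rw [dsum_def z w2, Finset.mul_sum]
    exact Finset.sum_congr rfl fun j _ => by rw [← mul_assoc, a2.dsum_mul]
  have hG21 : dsum z w2 * dsum z w1 = dsum z w1 := by
    rw [dsum_def z w1, Finset.mul_sum]
    exact Finset.sum_congr rfl fun j _ => by rw [← mul_assoc, b2.dsum_mul]
  have hee : e0 * e0 = e0 := by
    rw [he0, add_mul, mul_add, mul_add, hd.dsum_idem, ho1, ho2, hf.idem]; simp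
  have hA : (e0 - dsum z w2) * (e0 - dsum z w1) = e0 - dsum z w2 := by
    rw [sub_mul, mul_sub, mul_sub, hee, heG1, hG2e, hG21]; abel
  have hB : (e0 - dsum z w1) * (e0 - dsum z w2) = e0 - dsum z w1 := by
    rw [sub_mul, mul_sub, mul_sub, hee, heG2, hG1e, hG12]; abel
  -- orthogonality with the lower parts
  have hG1g : dsum z w1 * g' = 0 := by
    rw [dsum_def, Finset.sum_mul]
    exact Finset.sum_eq_zero fun j _ => by rw [mul_assoc, ← a3 j, mul_assoc, ho1', mul_zero,
      mul_zero]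
  have hgG1 : g' * dsum z w1 = 0 := by
    rw [dsum_def, Finset.mul_sum]
    refine Finset.sum_eq_zero fun j _ => ?_
    have h1 : dsum x' y' * z j = z j := by rw [← hz]; exact dsum_act hd' Q1 j
    rw [← mul_assoc, ← h1, ← mul_assoc, ho2', zero_mul, zero_mul]
  have hG2g : dsum z w2 * g = 0 := by
    rw [dsum_def, Finset.sum_mul]
    exact Finset.sum_eq_zero fun j _ => by rw [mul_assoc, ← b3 j, mul_assoc, ho1, mul_zero,
      mul_zero]
  have hgG2 : g * dsum z w2 = 0 := by
    rw [dsum_def, Finset.mul_sum]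
    refine Finset.sum_eq_zero fun j _ => ?_
    have h1 : dsum x y * z j = z j := dsum_act hd Q2 j
    rw [← mul_assoc, ← h1, ← mul_assoc, ho2, zero_mul, zero_mul]
  have f1 : Fr (QA (LX K X)) (pp K) (e0 - dsum z w1) (D1 • xs k + s') := by
    have h1 := a4.add hf' (by rw [sub_mul, ho1', hG1g, sub_self])
      (by rw [mul_sub, ho2', hgG1, sub_self])
    have h2 : dsum x' y' - dsum z w1 + g' = e0 - dsum z w1 := by rw [heq]; abel
    rwa [h2] at h1
  have f2 : Fr (QA (LX K X)) (pp K) (e0 - dsum z w2) (D2 • xs k + s) := by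
    have h1 := b4.add hf (by rw [sub_mul, ho1, hG2g, sub_self])
      (by rw [mul_sub, ho2, hgG2, sub_self])
    have h2 : dsum x y - dsum z w2 + g = e0 - dsum z w2 := by rw [he0]; abel
    rwa [h2] at h1
  refine ⟨D2, D1, e0 - dsum z w2, f2, ?_⟩
  have hm1 := f1.mem
  have hm2 := f2.mem
  have h3 : Fr (QA (LX K X)) (pp K)
      ((e0 - dsum z w2) * (e0 - dsum z w1) * (e0 - dsum z w1)) (D1 • xs k + s') := by
    apply f1.transport (Q' := QA (LX K X)) hB
    intro a b hab _ _
    exact ⟨mul_mem hm2 hab.1, mul_mem hab.2 hm1⟩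
  rwa [hA, hA] at h3

end Run7.h19
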