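import Pool.Agent.Run7.h19.Graphs

/-!
# The graph monoid of a loop graph (helper19)
-/

namespace Run7.h19

open Pool.Agent.Helper665_GA (Graph)
open LoopGraph

variable {G : Graph} [LoopGraph G]

/-- The vertex is resolved by `W`. -/
def IsRes (W : Finset G.V) (v : G.V) : Prop := v ∈ W ∧ ¬ IsLoop v ∧ (exits v).Nonempty

/-- A regular vertex without loop. -/
def Nl (v : G.V) : Prop := ¬ IsLoop v ∧ (exits v).Nonempty

open Classical in
/-- The expansion of a vertex along the resolved vertices. -/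
noncomputable def Ex (W : Finset G.V) (v : G.V) : Multiset G.V :=
  if h : IsRes W v then ∑ e : (exits v), Ex W (G.rng e.1) else {v}
  termination_by mu W v
  decreasing_by
    exact mu_lt h.1 (reach_of_mem_xs (mem_xs.2 ⟨e.1, (mem_exits.1 e.2).1, rfl,
      (mem_exits.1 e.2).2⟩)) (mem_exits.1 e.2).2.symm

/-- The expansion of a multiset of vertices. -/
noncomputable def ExM (W : Finset G.V) (a : Multiset G.V) : Multiset G.V := a.bind (Ex W)

theorem Ex_res {W : Finset G.V} {v : G.V} (h : IsRes W v) : Ex W v = ExM W (xs v) := by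
  classical
  rw [Ex, dif_pos h, ExM, xs, Multiset.bind_map]
  rw [Finset.sum_coe_sort (exits v) (fun e => Ex W (G.rng e))]
  rfl

theorem Ex_not {W : Finset G.V} {v : G.V} (h : ¬ IsRes W v) : Ex W v = {v} := by
  rw [Ex, dif_neg h]

theorem ExM_add (W : Finset G.V) (a b : Multiset G.V) : ExM W (a + b) = ExM W a + ExM W b :=
  Multiset.add_bind _ _ _

@[simp] theorem ExM_zero (W : Finset G.V) : ExM W 0 = 0 := Multiset.zero_bind _

@[simp] theorem ExM_singleton (W : Finset G.V) (v : G.V) : ExM W {v} = Ex W v :=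
  Multiset.singleton_bind _ _

theorem ExM_nsmul (W : Finset G.V) (n : ℕ) (a : Multiset G.V) : ExM W (n • a) = n • ExM W a := by
  induction n with
  | zero => simp
  | succ n ih => rw [succ_nsmul, ExM_add, ih, succ_nsmul]

/-- Induction along expansions. -/
theorem Ex_induction (W : Finset G.V) {P : G.V → Prop}
    (h1 : ∀ v, IsRes W v → (∀ w ∈ xs v, P w) → P v) (h2 : ∀ v, ¬ IsRes W v → P v) (v : G.V) :
    P v := by
  have key : ∀ n v, mu W v ≤ n → P v := by
    intro n
    induction n with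
    | zero =>
      intro v hv
      apply h2
      intro h
      obtain ⟨e, he⟩ := h.2.2
      have := mu_lt h.1 (reach_of_mem_xs (mem_xs.2 ⟨e, (mem_exits.1 he).1, rfl,
        (mem_exits.1 he).2⟩)) (mem_exits.1 he).2.symm
      omega
    | succ n ih =>
      intro v hv
      by_cases h : IsRes W v
      · apply h1 v h
        intro w hw
        apply ih
        have := mu_lt h.1 (reach_of_mem_xs hw)
          (by rintro rfl; exact not_reach_of_mem_xs hw Relation.ReflTransGen.refl)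
        omega
      · exact h2 v h
  exact key _ v le_rfl

theorem IsRes.mono {W W' : Finset G.V} (h : W ⊆ W') {v : G.V} (hv : IsRes W v) : IsRes W' v :=
  ⟨h hv.1, hv.2⟩

theorem ExM_Ex {W W' : Finset G.V} (h : W ⊆ W') (v : G.V) : ExM W' (Ex W v) = Ex W' v := by
  induction v using Ex_induction (W := W) with
  | h1 v hv ih =>
    rw [Ex_res hv, Ex_res (hv.mono h), ExM, ExM, Multiset.bind_assoc, ExM]
    exact Multiset.bind_congr ih
  | h2 v hv => rw [Ex_not hv, ExM_singleton]

theorem ExM_ExM {W W' : Finset G.V} (h : W ⊆ W') (a : Multiset G.V) :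
    ExM W' (ExM W a) = ExM W' a := by
  rw [ExM, ExM, Multiset.bind_assoc, ExM]
  exact Multiset.bind_congr fun v _ => ExM_Ex h v

theorem Rch_of_mem_Ex {W : Finset G.V} {v w : G.V} (h : w ∈ Ex W v) : Reach v w := by
  induction v using Ex_induction (W := W) with
  | h1 v hv ih =>
    rw [Ex_res hv, ExM, Multiset.mem_bind] at h
    obtain ⟨u, hu, h⟩ := h
    exact (reach_of_mem_xs hu).trans (ih u hu h)
  | h2 v hv =>
    rw [Ex_not hv, Multiset.mem_singleton] at h
    exact h ▸ Relation.ReflTransGen.refl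

theorem Rch_of_mem_ExM {W : Finset G.V} {a : Multiset G.V} {w : G.V} (h : w ∈ ExM W a) :
    Rch a w := by
  rw [ExM, Multiset.mem_bind] at h
  obtain ⟨u, hu, h⟩ := h
  exact ⟨u, hu, Rch_of_mem_Ex h⟩

theorem Rch_of_ExM {W : Finset G.V} {a : Multiset G.V} {w : G.V} (h : Rch (ExM W a) w) :
    Rch a w := h.mono fun _ hv => Rch_of_mem_ExM hv

theorem Rch_Ex {W : Finset G.V} {v l : G.V} (hl : IsLoop l) (h : Reach v l) :
    Rch (Ex W v) l := by
  induction v using Ex_induction (W := W) with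
  | h1 v hv ih =>
    have hne : v ≠ l := by rintro rfl; exact hv.2.1 hl
    obtain ⟨u, hu, h1⟩ := exists_xs h hne
    rw [Ex_res hv, ExM, Rch_bind]
    exact ⟨u, hu, ih u hu h1⟩
  | h2 v hv =>
    rw [Ex_not hv]
    simpa using h

theorem Rch_ExM {W : Finset G.V} {a : Multiset G.V} {l : G.V} (hl : IsLoop l) (h : Rch a l) :
    Rch (ExM W a) l := by
  obtain ⟨v, hv, h⟩ := h
  rw [ExM, Rch_bind]
  exact ⟨v, hv, Rch_Ex hl h⟩

/-! ### the relation without loops -/

/-- Equality after an expansion. -/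
def Ro (a b : Multiset G.V) : Prop := ∃ W : Finset G.V, ExM W a = ExM W b

theorem Ro.refl (a : Multiset G.V) : Ro a a := ⟨∅, rfl⟩

theorem Ro.symm {a b : Multiset G.V} (h : Ro a b) : Ro b a := by
  obtain ⟨W, h⟩ := h
  exact ⟨W, h.symm⟩

theorem ExM_eq_mono {W W' : Finset G.V} (h : W ⊆ W') {a b : Multiset G.V}
    (hab : ExM W a = ExM W b) : ExM W' a = ExM W' b := by
  rw [← ExM_ExM h a, hab, ExM_ExM h b]

theorem Ro.trans {a b c : Multiset G.V} (h : Ro a b) (h' : Ro b c) : Ro a c := by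
  classical
  obtain ⟨W, h⟩ := h
  obtain ⟨W', h'⟩ := h'
  exact ⟨W ∪ W', (ExM_eq_mono Finset.subset_union_left h).trans
    (ExM_eq_mono Finset.subset_union_right h')⟩

theorem Ro.add {a b c d : Multiset G.V} (h : Ro a b) (h' : Ro c d) : Ro (a + c) (b + d) := by
  classical
  obtain ⟨W, h⟩ := h
  obtain ⟨W', h'⟩ := h'
  refine ⟨W ∪ W', ?_⟩
  rw [ExM_add, ExM_add, ExM_eq_mono Finset.subset_union_left h,
    ExM_eq_mono Finset.subset_union_right h']

theorem Ro.cancel {a b c : Multiset G.V} (h : Ro (a + c) (b + c)) : Ro a b := by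
  obtain ⟨W, h⟩ := h
  rw [ExM_add, ExM_add] at h
  exact ⟨W, add_right_cancel h⟩

theorem Ro_Ex (W : Finset G.V) (a : Multiset G.V) : Ro (ExM W a) a :=
  ⟨W, ExM_ExM subset_rfl a⟩

theorem Ro_xs {v : G.V} (h : Nl v) : Ro {v} (xs v) := by
  refine ⟨{v}, ?_⟩
  rw [ExM_singleton, Ex_res ⟨Finset.mem_singleton_self v, h⟩]

theorem Ro.rch {a b : Multiset G.V} (h : Ro a b) {l : G.V} (hl : IsLoop l) :
    Rch a l ↔ Rch b l := by
  obtain ⟨W, h⟩ := h
  constructor
  · intro h1
    have h2 := Rch_ExM (W := W) hl h1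
    rw [h] at h2
    exact Rch_of_ExM h2
  · intro h1
    have h2 := Rch_ExM (W := W) hl h1
    rw [← h] at h2
    exact Rch_of_ExM h2

theorem Ex_ne_zero (W : Finset G.V) (v : G.V) : Ex W v ≠ 0 := by
  induction v using Ex_induction (W := W) with
  | h1 v hv ih =>
    obtain ⟨e, he⟩ := hv.2.2
    have hm : G.rng e ∈ xs v := mem_xs.2 ⟨e, (mem_exits.1 he).1, rfl, (mem_exits.1 he).2⟩
    rw [Ex_res hv, ExM]
    intro h0
    have h1 := ih _ hm
    obtain ⟨u, hu⟩ := Multiset.exists_mem_of_ne_zero h1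
    have : u ∈ (xs v).bind (Ex W) := Multiset.mem_bind.2 ⟨_, hm, hu⟩
    rw [h0] at this
    simp at this
  | h2 v hv => rw [Ex_not hv]; simp

theorem ExM_eq_zero {W : Finset G.V} {a : Multiset G.V} (h : ExM W a = 0) : a = 0 := by
  by_contra hc
  obtain ⟨u, hu⟩ := Multiset.exists_mem_of_ne_zero hc
  obtain ⟨w, hw⟩ := Multiset.exists_mem_of_ne_zero (Ex_ne_zero W u)
  have : w ∈ ExM W a := Multiset.mem_bind.2 ⟨_, hu, hw⟩
  rw [h] at this
  simp at this

theorem Ro.eq_zero {a : Multiset G.V} (h : Ro a 0) : a = 0 := by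
  obtain ⟨W, h⟩ := h
  rw [ExM_zero] at h
  exact ExM_eq_zero h

/-! ### the explicit relation -/

/-- The explicit description of the relation of the graph monoid. -/
def Exp (a b : Multiset G.V) : Prop := ∃ t t' : Multiset G.V,
  (∀ l ∈ t, IsLoop l ∧ Rch a l) ∧ (∀ l ∈ t', IsLoop l ∧ Rch b l) ∧
    Ro (a + t.bind xs) (b + t'.bind xs)

theorem Rch_add_bind {a t : Multiset G.V} (ht : ∀ l ∈ t, IsLoop l ∧ Rch a l) {w : G.V} :
    Rch (a + t.bind xs) w ↔ Rch a w := by
  rw [Rch_add]
  constructor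
  · rintro (h | h)
    · exact h
    · rw [Rch_bind] at h
      obtain ⟨l, hl, h⟩ := h
      exact (ht l hl).2.trans (Rch_xs.1 h).1
  · exact Or.inl

theorem Exp.rch {a b : Multiset G.V} (h : Exp a b) {l : G.V} (hl : IsLoop l) :
    Rch a l ↔ Rch b l := by
  obtain ⟨t, t', h1, h2, h3⟩ := h
  rw [← Rch_add_bind h1, ← Rch_add_bind h2]
  exact h3.rch hl

theorem Exp.symm {a b : Multiset G.V} (h : Exp a b) : Exp b a := by
  obtain ⟨t, t', h1, h2, h3⟩ := h
  exact ⟨t', t, h2, h1, h3.symm⟩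

theorem Exp.of_Ro {a b : Multiset G.V} (h : Ro a b) : Exp a b :=
  ⟨0, 0, by simp, by simp, by simpa using h⟩

theorem Exp.trans {a b c : Multiset G.V} (h : Exp a b) (h' : Exp b c) : Exp a c := by
  have e1 := fun l hl => h.rch (l := l) hl
  have e2 := fun l hl => h'.rch (l := l) hl
  obtain ⟨t, t', h1, h2, h3⟩ := h
  obtain ⟨s, s', g1, g2, g3⟩ := h'
  refine ⟨t + s, s' + t', ?_, ?_, ?_⟩
  · intro l hl
    rcases Multiset.mem_add.1 hl with hl | hl
    · exact h1 l hl
    · exact ⟨(g1 l hl).1, (e1 l (g1 l hl).1).2 (g1 l hl).2⟩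
  · intro l hl
    rcases Multiset.mem_add.1 hl with hl | hl
    · exact g2 l hl
    · exact ⟨(h2 l hl).1, (e2 l (h2 l hl).1).1 (h2 l hl).2⟩
  · rw [Multiset.add_bind, Multiset.add_bind]
    have k1 := h3.add (Ro.refl (s.bind xs))
    have k2 := g3.add (Ro.refl (t'.bind xs))
    have k3 : b + t'.bind xs + s.bind xs = b + s.bind xs + t'.bind xs := by
      rw [add_assoc, add_comm (t'.bind xs), ← add_assoc]
    rw [k3] at k1
    have k4 := k1.trans k2
    rwa [add_assoc, add_assoc] at k4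

theorem Exp.add {a b c d : Multiset G.V} (h : Exp a b) (h' : Exp c d) :
    Exp (a + c) (b + d) := by
  obtain ⟨t, t', h1, h2, h3⟩ := h
  obtain ⟨s, s', g1, g2, g3⟩ := h'
  refine ⟨t + s, t' + s', ?_, ?_, ?_⟩
  · intro l hl
    rcases Multiset.mem_add.1 hl with hl | hl
    · exact ⟨(h1 l hl).1, Rch_add.2 (Or.inl (h1 l hl).2)⟩
    · exact ⟨(g1 l hl).1, Rch_add.2 (Or.inr (g1 l hl).2)⟩
  · intro l hl
    rcases Multiset.mem_add.1 hl with hl | hl
    · exact ⟨(h2 l hl).1, Rch_add.2 (Or.inl (h2 l hl).2)⟩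
    · exact ⟨(g2 l hl).1, Rch_add.2 (Or.inr (g2 l hl).2)⟩
  · rw [Multiset.add_bind, Multiset.add_bind]
    have k1 := h3.add g3
    have e1 : ∀ p q r s : Multiset G.V, p + q + (r + s) = p + r + (q + s) := by
      intro p q r s; abel
    rw [e1, e1 b] 
    exact k1

/-- The explicit relation as a congruence. -/
def ExpC (G : Graph) [LoopGraph G] : AddCon (Multiset G.V) where
  r := Exp
  iseqv := ⟨fun a => Exp.of_Ro (Ro.refl a), Exp.symm, Exp.trans⟩
  add' := Exp.add

/-- The generating relation of the graph monoid. -/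
inductive Mgen (G : Graph) [LoopGraph G] : Multiset G.V → Multiset G.V → Prop
  | nl (v : G.V) (h : Nl v) : Mgen G {v} (xs v)
  | lp (v : G.V) (h : IsLoop v) : Mgen G {v} ({v} + xs v)

/-- The congruence of the graph monoid. -/
def Mc (G : Graph) [LoopGraph G] : AddCon (Multiset G.V) := addConGen (Mgen G)

theorem Mc_nl {v : G.V} (h : Nl v) : Mc G {v} (xs v) := AddConGen.Rel.of _ _ (Mgen.nl v h)

theorem Mc_lp {v : G.V} (h : IsLoop v) : Mc G {v} ({v} + xs v) :=
  AddConGen.Rel.of _ _ (Mgen.lp v h)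

theorem Exp_of_Mc {a b : Multiset G.V} (h : Mc G a b) : Exp a b := by
  have h1 : Mc G ≤ ExpC G := by
    apply AddCon.addConGen_le.2
    intro a b hab
    cases hab with
    | nl v h => exact Exp.of_Ro (Ro_xs h)
    | lp v h =>
      refine ⟨{v}, 0, ?_, by simp, ?_⟩
      · intro l hl
        rw [Multiset.mem_singleton] at hl
        subst hl
        exact ⟨h, Rch_of_mem (Multiset.mem_singleton_self _)⟩
      · simpa using Ro.refl _
  exact h1 h

theorem Mc_Ex (W : Finset G.V) (v : G.V) : Mc G {v} (Ex W v) := by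
  induction v using Ex_induction (W := W) with
  | h1 v hv ih =>
    rw [Ex_res hv]
    refine (Mc G).trans (Mc_nl hv.2) ?_
    generalize xs v = s at ih
    induction s using Multiset.induction_on with
    | empty => exact (Mc G).refl _
    | cons u s ihs =>
      have h2 : u ::ₘ s = {u} + s := (Multiset.singleton_add u s).symm
      rw [h2, ExM_add, ExM_singleton]
      refine (Mc G).add (ih u (Multiset.mem_cons_self u s)) (ihs fun w hw => ?_)
      exact ih w (Multiset.mem_cons_of_mem hw)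
  | h2 v hv => rw [Ex_not hv]; exact (Mc G).refl _

theorem Mc_ExM (W : Finset G.V) (a : Multiset G.V) : Mc G a (ExM W a) := by
  induction a using Multiset.induction_on with
  | empty => exact (Mc G).refl _
  | cons u s ihs =>
    have h2 : u ::ₘ s = {u} + s := (Multiset.singleton_add u s).symm
    rw [h2, ExM_add, ExM_singleton]
    exact (Mc G).add (Mc_Ex W u) ihs

theorem Mc_of_Ro {a b : Multiset G.V} (h : Ro a b) : Mc G a b := by
  obtain ⟨W, h⟩ := h
  refine (Mc G).trans (Mc_ExM W a) ?_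
  rw [h]
  exact (Mc G).symm (Mc_ExM W b)

theorem Mc_cancel_ro {a b : Multiset G.V} (h : Ro a b) : Mc G a b := Mc_of_Ro h

theorem exists_Mc_of_reach {v w : G.V} (h : Reach v w) : ∃ c, Mc G {v} ({w} + c) := by
  induction h with
  | refl => exact ⟨0, by simpa using (Mc G).refl _⟩
  | tail h1 h2 ih =>
    rename_i u w
    obtain ⟨c, hc⟩ := ih
    obtain ⟨e, rfl, rfl⟩ := h2
    by_cases hne : G.rng e = G.src e
    · rw [hne]; exact ⟨c, hc⟩
    · have hm : G.rng e ∈ xs (G.src e) := mem_xs.2 ⟨e, rfl, rfl, hne⟩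
      obtain ⟨d, hd⟩ := Multiset.exists_cons_of_mem hm
      have hd' : xs (G.src e) = {G.rng e} + d := by rw [hd, Multiset.singleton_add]
      by_cases hl : IsLoop (G.src e)
      · refine ⟨{G.src e} + d + c, (Mc G).trans hc ?_⟩
        have h3 := (Mc G).add (Mc_lp hl) ((Mc G).refl c)
        have h4 : {G.src e} + xs (G.src e) + c = {G.rng e} + ({G.src e} + d + c) := by
          rw [hd']; abel
        rwa [h4] at h3
      · refine ⟨d + c, (Mc G).trans hc ?_⟩
        have hnl : Nl (G.src e) := ⟨hl, ⟨e, mem_exits.2 ⟨rfl, hne⟩⟩⟩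
        have h3 := (Mc G).add (Mc_nl hnl) ((Mc G).refl c)
        rwa [hd', add_assoc] at h3

theorem exists_Mc_of_Rch {a : Multiset G.V} {w : G.V} (h : Rch a w) :
    ∃ c, Mc G a ({w} + c) := by
  obtain ⟨v, hv, h⟩ := h
  obtain ⟨b, rfl⟩ := Multiset.exists_cons_of_mem hv
  obtain ⟨c, hc⟩ := exists_Mc_of_reach h
  refine ⟨c + b, ?_⟩
  have h3 := (Mc G).add hc ((Mc G).refl b)
  rwa [Multiset.singleton_add, add_assoc] at h3

/-- Absorption. -/
theorem Mc_absorb {a : Multiset G.V} {l : G.V} (hl : IsLoop l) (h : Rch a l) :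
    Mc G (a + xs l) a := by
  obtain ⟨c, hc⟩ := exists_Mc_of_Rch h
  have h1 := (Mc G).add hc ((Mc G).refl (xs l))
  have h2 : {l} + c + xs l = ({l} + xs l) + c := by abel
  rw [h2] at h1
  refine (Mc G).trans h1 ((Mc G).trans ?_ ((Mc G).symm hc))
  exact (Mc G).add ((Mc G).symm (Mc_lp hl)) ((Mc G).refl c)

theorem Mc_absorb_bind {a t : Multiset G.V} (ht : ∀ l ∈ t, IsLoop l ∧ Rch a l) :
    Mc G (a + t.bind xs) a := by
  induction t using Multiset.induction_on with
  | empty => simpa using (Mc G).refl _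
  | cons l t ih =>
    rw [Multiset.cons_bind, add_comm (xs l), ← add_assoc]
    have h1 := ih fun l' hl' => ht l' (Multiset.mem_cons_of_mem hl')
    have h2 := ht l (Multiset.mem_cons_self l t)
    exact (Mc G).trans ((Mc G).add h1 ((Mc G).refl _)) (Mc_absorb h2.1 h2.2)

theorem Mc_of_Exp {a b : Multiset G.V} (h : Exp a b) : Mc G a b := by
  obtain ⟨t, t', h1, h2, h3⟩ := h
  exact (Mc G).trans ((Mc G).symm (Mc_absorb_bind h1))
    ((Mc G).trans (Mc_of_Ro h3) (Mc_absorb_bind h2))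

theorem Mc_iff_Exp {a b : Multiset G.V} : Mc G a b ↔ Exp a b := ⟨Exp_of_Mc, Mc_of_Exp⟩

end Run7.h19
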