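import Pool.Agent.Run7.h19.Mon

/-!
# Isomorphisms of graph monoids and loops (helper19)
-/

namespace Run7.h19

open Pool.Agent.Helper665_GA (Graph)
open LoopGraph

/-- The graph monoid. -/
abbrev MG (G : Graph) [LoopGraph G] : Type := (Mc G).Quotient

section general

variable {M N : Type*} [AddCommMonoid M] [AddCommMonoid N]

/-- The order ideal generated by `x`. -/
def Idl (x m : M) : Prop := ∃ (n : ℕ) (c : M), m + c = n • x

/-- The elements `u + s` with `s` in the order ideal generated by `x`. -/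
def Cls (u x m : M) : Prop := ∃ s, Idl x s ∧ m = u + s

theorem Idl.zero (x : M) : Idl x 0 := ⟨0, 0, by simp⟩

theorem Idl.self (x : M) : Idl x x := ⟨1, 0, by simp⟩

theorem Idl.add {x a b : M} (ha : Idl x a) (hb : Idl x b) : Idl x (a + b) := by
  obtain ⟨n, c, h⟩ := ha
  obtain ⟨m, d, h'⟩ := hb
  exact ⟨n + m, c + d, by rw [add_nsmul, ← h, ← h']; abel⟩

theorem Idl.left {x a b : M} (h : Idl x (a + b)) : Idl x a := by
  obtain ⟨n, c, h⟩ := h
  exact ⟨n, b + c, by rw [← h]; abel⟩

theorem Idl.right {x a b : M} (h : Idl x (a + b)) : Idl x b := by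
  rw [add_comm] at h; exact h.left

theorem Idl.nsmul {x a : M} (n : ℕ) (h : Idl x a) : Idl x (n • a) := by
  induction n with
  | zero => simpa using Idl.zero x
  | succ n ih => rw [succ_nsmul]; exact ih.add h

theorem Idl.trans {x y z : M} (h : Idl x y) (h' : Idl y z) : Idl x z := by
  obtain ⟨n, c, h'⟩ := h'
  have := h.nsmul n
  rw [← h'] at this
  exact this.left

theorem Idl.map (f : M ≃+ N) {x m : M} (h : Idl x m) : Idl (f x) (f m) := by
  obtain ⟨n, c, h⟩ := h
  exact ⟨n, f c, by rw [← map_add, h, map_nsmul]⟩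

theorem Idl.map_iff (f : M ≃+ N) {x m : M} : Idl (f x) (f m) ↔ Idl x m :=
  ⟨fun h => by simpa using h.map f.symm, fun h => h.map f⟩

theorem Cls.map (f : M ≃+ N) {u x m : M} (h : Cls u x m) : Cls (f u) (f x) (f m) := by
  obtain ⟨s, hs, rfl⟩ := h
  exact ⟨f s, hs.map f, map_add _ _ _⟩

theorem Cls.map_iff (f : M ≃+ N) {u x m : M} : Cls (f u) (f x) (f m) ↔ Cls u x m :=
  ⟨fun h => by simpa using h.map f.symm, fun h => h.map f⟩

/-- The decomposition property. -/
def HD (u x : M) : Prop := ∀ m m', Cls u x (m + m') →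
  (Cls u x m ∧ Idl x m') ∨ (Idl x m ∧ Cls u x m')

theorem HD.map (f : M ≃+ N) {u x : M} (h : HD u x) : HD (f u) (f x) := by
  intro m m' hm
  have h1 : Cls u x (f.symm m + f.symm m') := by
    rw [← Cls.map_iff f, map_add]; simpa using hm
  rcases h _ _ h1 with h2 | h2
  · left; exact ⟨by simpa using h2.1.map f, by simpa using h2.2.map f⟩
  · right; exact ⟨by simpa using h2.1.map f, by simpa using h2.2.map f⟩

/-- The disjointness property. -/
def HN (u x : M) : Prop := ∀ m, Cls u x m → ¬ Idl x m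

theorem HN.map (f : M ≃+ N) {u x : M} (h : HN u x) : HN (f u) (f x) := by
  intro m hm hm'
  apply h (f.symm m)
  · rw [← Cls.map_iff f]; simpa using hm
  · rw [← Idl.map_iff f]; simpa using hm'

end general

variable {G : Graph} [LoopGraph G]

/-- The class of a multiset of vertices. -/
def mk (a : Multiset G.V) : MG G := (a : (Mc G).Quotient)

theorem mk_add (a b : Multiset G.V) : mk (a + b) = mk a + mk b := rfl

theorem mk_zero : mk (0 : Multiset G.V) = 0 := rfl

theorem mk_nsmul (n : ℕ) (a : Multiset G.V) : mk (n • a) = n • mk a := by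
  induction n with
  | zero => simp [mk_zero]
  | succ n ih => rw [succ_nsmul, mk_add, ih, succ_nsmul]

theorem mk_eq {a b : Multiset G.V} : mk a = mk b ↔ Exp a b := by
  rw [← Mc_iff_Exp]; exact (Mc G).eq

theorem mk_eq' {a b : Multiset G.V} : mk a = mk b ↔ Mc G a b := (Mc G).eq

theorem mk_surj (m : MG G) : ∃ a, mk a = m := by
  induction m using AddCon.induction_on with
  | _ a => exact ⟨a, rfl⟩

theorem mk_ExM (W : Finset G.V) (a : Multiset G.V) : mk (ExM W a) = mk a :=
  (mk_eq'.2 (Mc_ExM W a)).symm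

theorem mk_cons (v : G.V) (a : Multiset G.V) : mk (v ::ₘ a) = mk {v} + mk a := by
  rw [← Multiset.singleton_add]; rfl

theorem mk_eq_zero {a : Multiset G.V} (h : mk a = 0) : a = 0 := by
  rw [← mk_zero, mk_eq] at h
  obtain ⟨t, t', h1, h2, h3⟩ := h
  have : t' = 0 := by
    rw [Multiset.eq_zero_iff_forall_notMem]
    intro l hl
    exact Rch_zero l (h2 l hl).2
  subst this
  rw [Multiset.zero_bind, add_zero] at h3
  have := h3.eq_zero
  rw [add_eq_zero] at this
  exact this.1

theorem exists_max {A : Multiset G.V} (hA : A ≠ 0) :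
    ∃ l ∈ A, ∀ l' ∈ A, Reach l' l → l' = l := by
  classical
  obtain ⟨a, ha⟩ := Multiset.exists_mem_of_ne_zero hA
  obtain ⟨l, hl, h⟩ := Finset.exists_max_image A.toFinset (mu A.toFinset)
    ⟨a, Multiset.mem_toFinset.2 ha⟩
  refine ⟨l, Multiset.mem_toFinset.1 hl, fun l' hl' hr => ?_⟩
  by_contra hne
  have h1 := mu_lt (Multiset.mem_toFinset.2 hl') hr hne
  have h2 := h l' (Multiset.mem_toFinset.2 hl')
  omega

omit [LoopGraph G] in
theorem Rch_nsmul {n : ℕ} {a : Multiset G.V} {w : G.V} (h : Rch (n • a) w) : Rch a w := by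
  induction n with
  | zero => simp at h
  | succ n ih =>
    rw [succ_nsmul, Rch_add] at h
    rcases h with h | h
    · exact ih h
    · exact h

/-- The elements of the order ideal of the exits. -/
theorem Idl_xs {k : G.V} {y : Multiset G.V} (h : Idl (mk (xs k)) (mk y)) :
    ∃ W : Finset G.V, ∀ v ∈ ExM W y, Rch (xs k) v := by
  obtain ⟨n, c, h⟩ := h
  obtain ⟨c, rfl⟩ := mk_surj c
  rw [← mk_add, ← mk_nsmul, mk_eq] at h
  obtain ⟨t, t', h1, h2, W, hW⟩ := h
  refine ⟨W, fun v hv => ?_⟩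
  have h3 : v ∈ ExM W (n • xs k + t'.bind xs) := by
    rw [← hW, ExM_add, ExM_add]
    exact Multiset.mem_add.2 (Or.inl (Multiset.mem_add.2 (Or.inl hv)))
  have h4 := Rch_of_mem_ExM h3
  rw [Rch_add_bind h2] at h4
  exact Rch_nsmul h4

theorem Idl_of_Rch {k : G.V} {v : G.V} (h : Rch (xs k) v) : Idl (mk (xs k)) (mk {v}) := by
  obtain ⟨c, hc⟩ := exists_Mc_of_Rch h
  exact ⟨1, mk c, by rw [← mk_add, one_nsmul]; exact (mk_eq'.2 hc).symm⟩

theorem Idl_of_forall {x : MG G} {a : Multiset G.V} (h : ∀ v ∈ a, Idl x (mk {v})) :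
    Idl x (mk a) := by
  induction a using Multiset.induction_on with
  | empty => exact Idl.zero _
  | cons v a ih =>
    rw [mk_cons]
    exact (h v (Multiset.mem_cons_self v a)).add
      (ih fun w hw => h w (Multiset.mem_cons_of_mem hw))

theorem mem_ExM_mono {W W' : Finset G.V} (hW : W ⊆ W') {y : Multiset G.V} {k : G.V}
    (h : ∀ v ∈ ExM W y, Rch (xs k) v) : ∀ v ∈ ExM W' y, Rch (xs k) v := by
  intro v hv
  rw [← ExM_ExM hW] at hv
  exact (Rch_of_mem_ExM hv).mono h

/-- Representatives of elements of the order ideal. -/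
theorem exists_rep {k : G.V} {s : MG G} (h : Idl (mk (xs k)) s) :
    ∃ y, mk y = s ∧ ∀ v ∈ y, Rch (xs k) v := by
  obtain ⟨y, rfl⟩ := mk_surj s
  obtain ⟨W, hW⟩ := Idl_xs h
  exact ⟨ExM W y, mk_ExM W y, hW⟩

theorem not_isRes_loop {W : Finset G.V} {k : G.V} (hk : IsLoop k) : ¬ IsRes W k :=
  fun h => h.2.1 hk

theorem loop_HN {k : G.V} (hk : IsLoop k) : HN (mk {k}) (mk (xs k)) := by
  rintro m ⟨s, hs, rfl⟩ h
  obtain ⟨W, hW⟩ := Idl_xs h.left
  rw [ExM_singleton, Ex_not (not_isRes_loop hk)] at hW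
  exact not_Rch_xs_self k (hW k (Multiset.mem_singleton_self k))

theorem loop_HD {k : G.V} (hk : IsLoop k) : HD (mk {k}) (mk (xs k)) := by
  classical
  have main : ∀ (a b y : Multiset G.V) (W : Finset G.V), (∀ v ∈ y, Rch (xs k) v) →
      k ∈ ExM W a → (∃ t t' : Multiset G.V, (∀ l ∈ t', IsLoop l ∧ Rch ({k} + y) l) ∧
        ExM W (a + b + t.bind xs) = ExM W ({k} + y + t'.bind xs)) →
      Cls (mk {k}) (mk (xs k)) (mk a) ∧ Idl (mk (xs k)) (mk b) := by
    rintro a b y W hy hka ⟨t, t', ht', hW⟩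
    obtain ⟨a', ha'⟩ := Multiset.exists_cons_of_mem hka
    rw [← Multiset.singleton_add] at ha'
    have h1 : ExM W {k} = {k} := by rw [ExM_singleton, Ex_not (not_isRes_loop hk)]
    rw [ExM_add, ExM_add, ha', ExM_add, ExM_add, h1] at hW
    have h2 : a' + (ExM W b + ExM W (t.bind xs)) = ExM W y + ExM W (t'.bind xs) := by
      have h3 : {k} + (a' + (ExM W b + ExM W (t.bind xs)))
          = {k} + (ExM W y + ExM W (t'.bind xs)) := by
        rw [← add_assoc, ← add_assoc, ← add_assoc, hW]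
      exact add_left_cancel h3
    have h4 : ∀ v ∈ ExM W y + ExM W (t'.bind xs), Rch (xs k) v := by
      intro v hv
      rcases Multiset.mem_add.1 hv with hv | hv
      · exact (Rch_of_mem_ExM hv).mono hy
      · have h5 := Rch_of_mem_ExM hv
        rw [Rch_bind] at h5
        obtain ⟨l, hl, h5⟩ := h5
        by_cases hlk : l = k
        · subst hlk; exact h5
        · have h6 := (ht' l hl).2
          rw [Rch_add, Rch_singleton] at h6
          have h7 : Rch (xs k) l := by
            rcases h6 with h6 | h6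
            · exact Rch_xs.2 ⟨h6, fun h => hlk h.symm⟩
            · exact h6.mono hy
          exact h7.trans (Rch_xs.1 h5).1
    rw [← h2] at h4
    constructor
    · refine ⟨mk a', ?_, ?_⟩
      · exact Idl_of_forall fun v hv => Idl_of_Rch (h4 v (Multiset.mem_add.2 (Or.inl hv)))
      · rw [← mk_add, ← ha', mk_ExM]
    · rw [← mk_ExM W b]
      exact Idl_of_forall fun v hv => Idl_of_Rch (h4 v (Multiset.mem_add.2 (Or.inr
        (Multiset.mem_add.2 (Or.inl hv)))))
  rintro m m' ⟨s, hs, hm⟩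
  obtain ⟨a, rfl⟩ := mk_surj m
  obtain ⟨b, rfl⟩ := mk_surj m'
  obtain ⟨y, rfl, hy⟩ := exists_rep hs
  rw [← mk_add, ← mk_add, mk_eq] at hm
  have hrch := fun l hl => hm.rch (l := l) hl
  obtain ⟨t, t', h1, h2, W, hW⟩ := hm
  have hk1 : k ∈ ExM W (a + b + t.bind xs) := by
    rw [hW, ExM_add, ExM_add, ExM_singleton, Ex_not (not_isRes_loop hk)]
    exact Multiset.mem_add.2 (Or.inl (Multiset.mem_add.2 (Or.inl (Multiset.mem_singleton_self k))))
  rw [ExM_add, ExM_add] at hk1
  rcases Multiset.mem_add.1 hk1 with hk2 | hk2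
  · rcases Multiset.mem_add.1 hk2 with hk3 | hk3
    · left; exact main a b y W hy hk3 ⟨t, t', h2, hW⟩
    · right
      have := main b a y W hy hk3 ⟨t, t', h2, by rw [add_comm b a]; exact hW⟩
      exact ⟨this.2, this.1⟩
  · exfalso
    have h3 := Rch_of_mem_ExM hk2
    rw [Rch_bind] at h3
    obtain ⟨l, hl, h3⟩ := h3
    obtain ⟨h4, h5⟩ := h1 l hl
    rw [hrch l h4, Rch_add, Rch_singleton] at h5
    have h6 := Rch_xs.1 h3
    rcases h5 with h5 | h5
    · exact h6.2 (antisymm _ _ h6.1 h5)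
    · have h7 : Rch (xs k) l := h5.mono hy
      exact not_Rch_xs_self k (h7.trans h6.1)

/-- Finding a loop. -/
theorem exists_loop {u x : MG G} (hD : HD u x) (hN : HN u x) (hux : u + x = u) (hx : x ≠ 0) :
    ∃ l : G.V, IsLoop l ∧ xs l ≠ 0 ∧ Cls u x (mk {l}) := by
  classical
  have key : ∀ a, Cls u x (mk a) → ∃ h ∈ a, Cls u x (mk {h}) := by
    intro a
    induction a using Multiset.induction_on with
    | empty => intro h; exact absurd (Idl.zero x) (hN _ h)
    | cons v a ih =>
      intro h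
      rw [mk_cons] at h
      rcases hD _ _ h with h1 | h1
      · exact ⟨v, Multiset.mem_cons_self v a, h1.1⟩
      · obtain ⟨w, hw, h2⟩ := ih h1.2
        exact ⟨w, Multiset.mem_cons_of_mem hw, h2⟩
  obtain ⟨a, ha⟩ := mk_surj u
  obtain ⟨h0, -, hh0⟩ := key a (by rw [ha]; exact ⟨0, Idl.zero x, by simp⟩)
  obtain ⟨x', hx'⟩ := mk_surj x
  have h1 : mk ({h0} + x') = mk {h0} := by
    obtain ⟨s, hs, h2⟩ := hh0
    rw [mk_add, hx', h2, add_assoc, add_comm s, ← add_assoc, hux]
  rw [mk_eq] at h1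
  obtain ⟨t, t', ht, ht', hr⟩ := h1
  have hr' : Ro (x' + t.bind xs) (t'.bind xs) := by
    apply Ro.cancel (c := {h0})
    have e1 : x' + t.bind xs + {h0} = {h0} + x' + t.bind xs := by abel
    rw [e1, add_comm (t'.bind xs)]
    exact hr
  set A := t'.filter fun l => xs l ≠ 0 with hA
  have hAne : A ≠ 0 := by
    intro hc
    have h2 : ∀ l ∈ t', xs l = 0 := by
      intro l hl
      by_contra h3
      have : l ∈ A := Multiset.mem_filter.2 ⟨hl, h3⟩
      rw [hc] at this
      simp at this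
    have h3 : t'.bind xs = 0 := by
      rw [Multiset.eq_zero_iff_forall_notMem]
      intro w hw
      obtain ⟨l, hl, h4⟩ := Multiset.mem_bind.1 hw
      rw [h2 l hl] at h4
      simp at h4
    rw [h3] at hr'
    have h4 := (add_eq_zero.1 hr'.eq_zero).1
    rw [h4] at hx'
    exact hx hx'.symm
  obtain ⟨l, hl, hmax⟩ := exists_max hAne
  rw [hA, Multiset.mem_filter] at hl
  have hlI : ¬ Idl x (mk {l}) := by
    rintro ⟨n, c, h2⟩
    obtain ⟨c, rfl⟩ := mk_surj c
    rw [← hx', ← mk_add, ← mk_nsmul, mk_eq] at h2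
    have h3 : Rch ({l} + c) l := Rch_add.2 (Or.inl (Rch_of_mem (Multiset.mem_singleton_self l)))
    rw [h2.rch (ht' l hl.1).1] at h3
    have h4 : Rch (x' + t.bind xs) l := Rch_add.2 (Or.inl (Rch_nsmul h3))
    rw [hr'.rch (ht' l hl.1).1, Rch_bind] at h4
    obtain ⟨l', hl', h5⟩ := h4
    have h6 := Rch_xs.1 h5
    apply h6.2
    apply hmax l' _ h6.1
    rw [hA, Multiset.mem_filter]
    refine ⟨hl', fun h7 => ?_⟩
    rw [h7] at h5
    exact Rch_zero l h5
  refine ⟨l, (ht' l hl.1).1, hl.2, ?_⟩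
  have hreach : Reach h0 l := by simpa using (ht' l hl.1).2
  clear hr hr' ht ht'
  induction hreach using Relation.ReflTransGen.head_induction_on with
  | refl => exact hh0
  | head h1 h2 ih =>
    rename_i h h'
    apply ih
    by_cases hne : h' = h
    · rw [hne]; exact hh0
    obtain ⟨e, he1, he2⟩ := h1
    have hm : h' ∈ xs h := mem_xs.2 ⟨e, he1, he2, hne⟩
    have hl' : ¬ Idl x (mk {h'}) := by
      intro hc
      obtain ⟨c, hc'⟩ := exists_Mc_of_reach h2
      rw [← mk_eq', mk_add] at hc'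
      rw [hc'] at hc
      exact hlI hc.left
    obtain ⟨b, hb⟩ := Multiset.exists_cons_of_mem hm
    by_cases hlp : IsLoop h
    · exfalso
      have h3 : mk {h} = mk {h} + (mk {h'} + mk b) := by
        rw [← mk_cons, ← hb, ← mk_add]
        exact mk_eq'.2 (Mc_lp hlp)
      rw [h3] at hh0
      rcases hD _ _ hh0 with h4 | h4
      · exact hl' h4.2.left
      · rw [← h3] at hh0
        exact hN _ hh0 h4.1
    · have h3 : mk {h} = mk {h'} + mk b := by
        rw [← mk_cons, ← hb]
        refine mk_eq'.2 (Mc_nl ⟨hlp, ⟨e, mem_exits.2 ⟨he1, by rw [he2]; exact hne⟩⟩⟩)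
      rw [h3] at hh0
      rcases hD _ _ hh0 with h4 | h4
      · exact h4.1
      · exact absurd h4.1 hl'

theorem eq_zero_of_Ro {k : G.V} {b t : Multiset G.V} (ht : ∀ l ∈ t, IsLoop l ∧ Rch (xs k) l)
    (h : Ro (xs k + b) (t.bind xs)) : xs k = 0 := by
  have h0 : t = 0 := by
    by_contra hne
    obtain ⟨l, hl, hmax⟩ := exists_max hne
    have h1 : Rch (xs k + b) l := Rch_add.2 (Or.inl (ht l hl).2)
    rw [h.rch (ht l hl).1, Rch_bind] at h1
    obtain ⟨l', hl', h2⟩ := h1
    have h3 := Rch_xs.1 h2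
    exact h3.2 (hmax l' hl' h3.1)
  rw [h0, Multiset.zero_bind] at h
  exact (add_eq_zero.1 h.eq_zero).1

theorem not_absorb' {k : G.V} (hk : xs k ≠ 0) (n j : ℕ) :
    n • mk (xs k) + (j + 1) • mk (xs k) ≠ n • mk (xs k) := by
  intro h
  rw [← mk_nsmul, ← mk_nsmul, ← mk_add, mk_eq] at h
  obtain ⟨t, t', h1, h2, h3⟩ := h
  apply hk
  have h4 : Ro (xs k + (j • xs k + t.bind xs)) (t'.bind xs) := by
    apply Ro.cancel (c := n • xs k)
    have e1 : xs k + (j • xs k + t.bind xs) + n • xs k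
        = n • xs k + (j + 1) • xs k + t.bind xs := by
      rw [succ_nsmul]; abel
    rw [e1, add_comm (t'.bind xs)]
    exact h3
  exact eq_zero_of_Ro (fun l hl => ⟨(h2 l hl).1, Rch_nsmul (h2 l hl).2⟩) h4

theorem not_absorb {k : G.V} (hk : xs k ≠ 0) (n : ℕ) :
    n • mk (xs k) + mk (xs k) ≠ n • mk (xs k) := by
  have h := not_absorb' hk n 0
  rwa [zero_add, one_nsmul] at h

theorem bind_replicate (n : ℕ) (k : G.V) : (Multiset.replicate n k).bind xs = n • xs k := by
  induction n with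
  | zero => simp
  | succ n ih => rw [Multiset.replicate_succ, Multiset.cons_bind, ih, succ_nsmul, add_comm]

omit [LoopGraph G] in
theorem Rch_nsmul' {n : ℕ} (hn : n ≠ 0) {a : Multiset G.V} {w : G.V} (h : Rch a w) :
    Rch (n • a) w := by
  obtain ⟨n, rfl⟩ := Nat.exists_eq_succ_of_ne_zero hn
  rw [Nat.succ_eq_add_one, succ_nsmul, Rch_add]
  exact Or.inr h

/-- The trichotomy for absorbed elements. -/
theorem absorbed {k : G.V} (hk0 : xs k ≠ 0) {s m : MG G}
    (hs : Idl (mk (xs k)) s) (h : mk {k} + s + m = mk {k} + s) :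
    (∃ n : ℕ, m = n • mk (xs k)) ∨ mk (xs k) + m = mk (xs k) := by
  classical
  obtain ⟨y, rfl, hy⟩ := exists_rep hs
  obtain ⟨x, rfl⟩ := mk_surj m
  rw [← mk_add, ← mk_add, mk_eq] at h
  have hrch := fun l hl => h.rch (l := l) hl
  obtain ⟨t, t', ht, ht', hr⟩ := h
  have hr' : Ro (x + t.bind xs) (t'.bind xs) := by
    rw [add_assoc, add_comm ({k} + y), add_comm ({k} + y)] at hr
    exact hr.cancel
  have hlow : ∀ l, IsLoop l → Rch ({k} + y) l → l ≠ k → Rch (xs k) l := by
    intro l hl h1 h2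
    rw [Rch_add, Rch_singleton] at h1
    rcases h1 with h1 | h1
    · exact Rch_xs.2 ⟨h1, h2.symm⟩
    · exact h1.mono hy
  have hsplit : ∀ t : Multiset G.V, t.bind xs
      = (t.count k) • xs k + (t.filter (fun l => l ≠ k)).bind xs := by
    intro t
    have h1 : t = Multiset.replicate (t.count k) k + t.filter (fun l => l ≠ k) := by
      rw [← Multiset.filter_eq', Multiset.filter_add_not]
    conv_lhs => rw [h1]
    rw [Multiset.add_bind, bind_replicate]
  have ht0 : ∀ l ∈ t.filter (fun l => l ≠ k), IsLoop l ∧ Rch (xs k) l := by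
    intro l hl
    rw [Multiset.mem_filter] at hl
    obtain ⟨h1, h2⟩ := ht l hl.1
    exact ⟨h1, hlow l h1 ((hrch l h1).1 h2) hl.2⟩
  have ht0' : ∀ l ∈ t'.filter (fun l => l ≠ k), IsLoop l ∧ Rch (xs k) l := by
    intro l hl
    rw [Multiset.mem_filter] at hl
    obtain ⟨h1, h2⟩ := ht' l hl.1
    exact ⟨h1, hlow l h1 h2 hl.2⟩
  rw [hsplit t, hsplit t'] at hr'
  generalize t.filter (fun l => l ≠ k) = s at *
  generalize t'.filter (fun l => l ≠ k) = s' at *
  rcases Nat.lt_or_ge (t.count k) (t'.count k) with hlt | hge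
  · left
    obtain ⟨n, hn⟩ := Nat.exists_eq_add_of_lt hlt
    rw [hn] at hr'
    have h1 : Ro (x + s.bind xs) ((n + 1) • xs k + s'.bind xs) := by
      apply Ro.cancel (c := t.count k • xs k)
      have e1 : x + s.bind xs + t.count k • xs k = x + (t.count k • xs k + s.bind xs) := by abel
      have e2 : (n + 1) • xs k + s'.bind xs + t.count k • xs k
          = (t.count k + n + 1) • xs k + s'.bind xs := by
        rw [add_assoc (t.count k), add_nsmul (xs k) (t.count k)]; abel
      rw [e1, e2]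
      exact hr'
    refine ⟨n + 1, ?_⟩
    have h2 : ∀ l ∈ s, Rch x l := by
      by_contra hc
      push Not at hc
      have hne : s.filter (fun l => ¬ Rch x l) ≠ 0 := by
        obtain ⟨l, hl, h3⟩ := hc
        intro h4
        have : l ∈ s.filter (fun l => ¬ Rch x l) := Multiset.mem_filter.2 ⟨hl, h3⟩
        rw [h4] at this
        simp at this
      obtain ⟨l, hl, hmax⟩ := exists_max hne
      rw [Multiset.mem_filter] at hl
      have h3 : Rch ((n + 1) • xs k + s'.bind xs) l :=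
        Rch_add.2 (Or.inl (Rch_nsmul' (Nat.succ_ne_zero n) (ht0 l hl.1).2))
      rw [← h1.rch (ht0 l hl.1).1, Rch_add] at h3
      rcases h3 with h3 | h3
      · exact hl.2 h3
      · rw [Rch_bind] at h3
        obtain ⟨l', hl', h4⟩ := h3
        have h5 := Rch_xs.1 h4
        by_cases h6 : Rch x l'
        · exact hl.2 (h6.trans h5.1)
        · exact h5.2 (hmax l' (Multiset.mem_filter.2 ⟨hl', h6⟩) h5.1)
    have h3 : mk (x + s.bind xs) = mk x :=
      mk_eq'.2 (Mc_absorb_bind fun l hl => ⟨(ht0 l hl).1, h2 l hl⟩)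
    have h4 : mk ((n + 1) • xs k + s'.bind xs) = mk ((n + 1) • xs k) :=
      mk_eq'.2 (Mc_absorb_bind fun l hl => ⟨(ht0' l hl).1,
        Rch_nsmul' (Nat.succ_ne_zero n) (ht0' l hl).2⟩)
    rw [← h3, ← mk_nsmul, ← h4]
    exact mk_eq'.2 (Mc_of_Ro h1)
  · right
    obtain ⟨n, hn⟩ := Nat.exists_eq_add_of_le hge
    rw [hn] at hr'
    have h1 : Ro (x + (n • xs k + s.bind xs)) (s'.bind xs) := by
      apply Ro.cancel (c := t'.count k • xs k)
      have e1 : x + (n • xs k + s.bind xs) + t'.count k • xs k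
          = x + ((t'.count k + n) • xs k + s.bind xs) := by
        rw [add_nsmul]; abel
      rw [e1, add_comm (s'.bind xs)]
      exact hr'
    rcases Nat.eq_zero_or_pos n with hn0 | hn0
    · subst hn0
      rw [zero_nsmul, zero_add] at h1
      have h3 : mk (xs k + s'.bind xs) = mk (xs k) := mk_eq'.2 (Mc_absorb_bind ht0')
      have h4 : mk (xs k + x + s.bind xs) = mk (xs k + x) :=
        mk_eq'.2 (Mc_absorb_bind fun l hl => ⟨(ht0 l hl).1, Rch_add.2 (Or.inl (ht0 l hl).2)⟩)
      rw [← mk_add, ← h4, ← h3, mk_eq']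
      rw [add_assoc]
      exact Mc_of_Ro ((Ro.refl _).add h1)
    · exfalso
      apply hk0
      obtain ⟨n, rfl⟩ := Nat.exists_eq_succ_of_ne_zero (Nat.pos_iff_ne_zero.1 hn0)
      refine eq_zero_of_Ro (b := x + (n • xs k + s.bind xs)) ht0' ?_
      have e1 : xs k + (x + (n • xs k + s.bind xs))
          = x + (n.succ • xs k + s.bind xs) := by
        rw [Nat.succ_eq_add_one, succ_nsmul]; abel
      rw [e1]
      exact h1

/-- The correspondence between loops with exits under an isomorphism of graph monoids. -/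
theorem loop_corr {H : Graph} [LoopGraph H] (f : MG G ≃+ MG H) {i : G.V} (hi : IsLoop i)
    (hx : xs i ≠ 0) : ∃ k : H.V, IsLoop k ∧ xs k ≠ 0 ∧ f (mk (xs i)) = mk (xs k) ∧
      ∃ y : Multiset H.V, f (mk {i}) = mk {k} + mk y ∧ ∀ v ∈ y, Rch (xs k) v := by
  have hax : mk {i} + mk (xs i) = mk {i} := (mk_eq'.2 (Mc_lp hi)).symm
  have hx0 : mk (xs i) ≠ 0 := fun h => hx (mk_eq_zero h)
  have hxf : f (mk (xs i)) ≠ 0 := fun h => hx0 ((map_eq_zero_iff f f.injective).1 h)
  have hD := (loop_HD hi).map f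
  have hN := (loop_HN hi).map f
  have haf : f (mk {i}) + f (mk (xs i)) = f (mk {i}) := by rw [← map_add, hax]
  obtain ⟨k, hk, hk0, s, hs, hks⟩ := exists_loop hD hN haf hxf
  have hkk : mk {k} + mk (xs k) = mk {k} := (mk_eq'.2 (Mc_lp hk)).symm
  -- decomposition of the class of `k`
  have h1 : Cls (mk {k}) (mk (xs k)) (f (mk {i}) + s) := by
    rw [← hks]; exact ⟨0, Idl.zero _, by simp⟩
  have h2 : Cls (mk {k}) (mk (xs k)) (f (mk {i})) := by
    rcases loop_HD hk _ _ h1 with h2 | h2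
    · exact h2.1
    · exfalso
      obtain ⟨s', -, h3⟩ := h2.2
      apply hN (f (mk {i})) ⟨0, Idl.zero _, by simp⟩
      rw [h3, hks, add_assoc] at hs
      exact hs.left
  obtain ⟨y', hy', h3⟩ := h2
  obtain ⟨y, rfl, hy⟩ := exists_rep hy'
  refine ⟨k, hk, hk0, ?_, y, h3, hy⟩
  -- the symmetric statement
  have hks' : f.symm (mk {k}) = mk {i} + f.symm s := by
    rw [hks, map_add, f.symm_apply_apply]
  have hs' : Idl (mk (xs i)) (f.symm s) := by
    have := hs.map f.symm
    rwa [f.symm_apply_apply] at this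
  have hfx : f (f.symm (mk (xs k))) = mk (xs k) := f.apply_symm_apply _
  have c1 := absorbed hk0 hy' (m := f (mk (xs i))) (by rw [← h3, haf])
  have c2 := absorbed hx hs' (m := f.symm (mk (xs k))) (by
    rw [← hks', ← map_add, hkk])
  rcases c1 with ⟨n, hn⟩ | c1 <;> rcases c2 with ⟨n', hn'⟩ | c2
  · have h4 : mk (xs k) = (n' * n) • mk (xs k) := by
      conv_lhs => rw [← hfx, hn', map_nsmul, hn, ← mul_nsmul']
    have h5 : n' * n = 1 := by
      rcases Nat.lt_trichotomy (n' * n) 1 with h6 | h6 | h6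
      · have : n' * n = 0 := by omega
        rw [this, zero_nsmul] at h4
        exact absurd (mk_eq_zero h4) hk0
      · exact h6
      · exfalso
        obtain ⟨j, hj⟩ := Nat.exists_eq_add_of_lt h6
        apply not_absorb' hk0 1 j
        rw [← add_nsmul, one_nsmul]
        conv_rhs => rw [h4, hj]
        congr 1
    have h6 : n = 1 := Nat.eq_one_of_mul_eq_one_left h5
    rw [hn, h6, one_nsmul]
  · exfalso
    have h4 := congrArg f c2
    rw [map_add, hfx, hn] at h4
    exact not_absorb hk0 n h4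
  · exfalso
    have h4 : f (mk (xs i)) + mk (xs k) = mk (xs k) := by rw [add_comm]; exact c1
    have h5 := congrArg f.symm h4
    rw [map_add, f.symm_apply_apply, hn', add_comm] at h5
    exact not_absorb hx n' h5
  · exfalso
    have h4 := congrArg f c2
    rw [map_add, hfx] at h4
    have h5 : f (mk (xs i)) = mk (xs k) := by rw [← c1, add_comm, h4]
    rw [h5] at h4
    apply not_absorb hk0 1
    rw [one_nsmul]
    exact h4

end Run7.h19
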