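import Pool.Agent.Run7.h19.Class

/-!
# Star frames (helper19)
-/

namespace Run7.h19

open Pool.Agent.Helper665_GA LoopGraph

section general

variable {A : Type*} [NonUnitalRing A] [StarRing A] {V ι : Type*} {p : V → A}

/-- The pairs of a star frame. -/
def QSt (x y : A) : Prop := y = star x

/-- The pairs of a star frame with elements in a set. -/
def QSm (S : Set A) (x y : A) : Prop := y = star x ∧ x ∈ S

theorem Fr.star_eq {S : Set A} {e : A} {s : Multiset V} (h : Fr (QSm S) p e s) : star e = e := by
  induction h with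
  | zero => exact star_zero A
  | cons h0 _ _ _ _ _ _ ih => rw [star_add, ih, star_mul, h0.1, star_star]

theorem Fr.star_eq' {e : A} {s : Multiset V} (h : Fr QSt p e s) : star e = e := by
  induction h with
  | zero => exact star_zero A
  | cons h0 _ _ _ _ _ _ ih => rw [star_add, ih, star_mul, h0, star_star]

theorem Fr.toQSt {S : Set A} {e : A} {s : Multiset V} (h : Fr (QSm S) p e s) :
    Fr QSt p e s := h.mono fun _ _ h => h.1

/-- Projections with the same star frame are equivalent. -/
theorem exists_pi_of_frames {s : Multiset V} : ∀ {e f : A}, Fr QSt p e s → Fr QSt p f s →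
    ∃ x, x * star x = e ∧ star x * x = f ∧ e * x = x ∧ x * f = x := by
  induction s using Multiset.induction_on with
  | empty =>
    intro e f he hf
    exact ⟨0, by simp [he.of_zero], by simp [hf.of_zero], by simp, by simp⟩
  | cons v s ih =>
    intro e f he hf
    obtain ⟨x, y, e', g0, g1, g2, g3, g4, g5, g6, g7⟩ := he.inv rfl
    obtain ⟨z, w, f', k0, k1, k2, k3, k4, k5, k6, k7⟩ := hf.inv rfl
    obtain ⟨u, h1, h2, h3, h4⟩ := ih g6 k6
    rw [QSt] at g0 k0
    subst g0 k0
    have se' : star e' = e' := g6.star_eq'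
    have sf' : star f' = f' := k6.star_eq'
    have hu1 : star x * u = 0 := by rw [← h3, ← mul_assoc, g5, zero_mul]
    have hu2 : u * z = 0 := by rw [← h4, mul_assoc, k4, mul_zero]
    have hu3 : star u * x = 0 := by rw [← star_star x, ← star_mul, hu1, star_zero]
    have hu4 : star z * star u = 0 := by rw [← star_mul, hu2, star_zero]
    have hx : (x * star z) * star (x * star z) = x * star x := by
      rw [star_mul, star_star, mul_assoc, ← mul_assoc (star z), k1, ← mul_assoc, g2]
    have hz : star (x * star z) * (x * star z) = z * star z := by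
      rw [star_mul, star_star, mul_assoc, ← mul_assoc (star x), g1, ← mul_assoc, k2]
    refine ⟨x * star z + u, ?_, ?_, ?_, ?_⟩
    · rw [star_add, mul_add, add_mul, add_mul, hx, h1, g7]
      have e1 : u * star (x * star z) = 0 := by
        rw [star_mul, star_star, ← mul_assoc, hu2, zero_mul]
      have e2 : x * star z * star u = 0 := by rw [mul_assoc, hu4, mul_zero]
      rw [e1, e2]; simp
    · rw [star_add, mul_add, add_mul, add_mul, hz, h2, k7]
      have e1 : star (x * star z) * u = 0 := by
        rw [star_mul, star_star, mul_assoc, hu1, mul_zero]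
      have e2 : star u * (x * star z) = 0 := by rw [← mul_assoc, hu3, zero_mul]
      rw [e1, e2]; simp
    · rw [g7, mul_add, add_mul, add_mul, h3]
      have e1 : x * star x * u = 0 := by rw [mul_assoc, hu1, mul_zero]
      have e2 : e' * (x * star z) = 0 := by rw [← mul_assoc, g4, zero_mul]
      have e3 : x * star x * (x * star z) = x * star z := by
        rw [mul_assoc, ← mul_assoc (star x), g1, ← mul_assoc, g2]
      rw [e1, e2, e3]; simp
    · rw [k7, mul_add, add_mul, add_mul, h4]
      have e1 : x * star z * f' = 0 := by rw [mul_assoc, k5, mul_zero]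
      have e2 : u * (z * star z) = 0 := by rw [← mul_assoc, hu2, zero_mul]
      have e3 : x * star z * (z * star z) = x * star z := by
        rw [mul_assoc, ← mul_assoc (star z), k1, k3]
      rw [e1, e2, e3]; simp

/-- The star frame of a projection which is equivalent to a projection with a star frame. -/
theorem Fr.transport_star {e x : A} {s : Multiset V} (h : Fr QSt p e s)
    (hx : star x * x = e) : Fr QSt p (x * e * star x) s := by
  apply h.transport (Q' := QSt) hx
  intro a b hab _ _
  rw [QSt] at hab ⊢
  rw [star_mul, hab]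

theorem Fr.transport_star' {e x : A} {s : Multiset V} (h : Fr QSt p e s)
    (hx : star x * x = e) (hxe : x * e = x) : Fr QSt p (x * star x) s := by
  have := h.transport_star hx
  rwa [hxe] at this

/-- Composition of star frames. -/
theorem Fr.comp {P : ι → A} {a : ι → Multiset V} (hP : ∀ i, Fr QSt p (P i) (a i)) {e : A}
    {t : Multiset ι} (h : Fr QSt P e t) : Fr QSt p e (t.bind a) := by
  induction h with
  | zero => rw [Multiset.zero_bind]; exact Fr.zero
  | @cons x y e i s h0 h1 h2 h3 h4 h5 h6 ih =>
    rw [Multiset.cons_bind]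
    rw [QSt] at h0
    subst h0
    apply ((hP i).transport_star' h1 h2).add ih
    · rw [mul_assoc, h5, mul_zero]
    · rw [← mul_assoc, h4, zero_mul]

/-- Existence of star frames with respect to a family of projections. -/
theorem Fr.exists_of_bind {P : ι → A} {a : ι → Multiset V} (hP : ∀ i, Fr QSt p (P i) (a i))
    {t : Multiset ι} : ∀ {e : A}, Fr QSt p e (t.bind a) → Fr QSt P e t := by
  induction t using Multiset.induction_on with
  | empty => intro e h; rw [Multiset.zero_bind] at h; rw [h.of_zero]; exact Fr.zero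
  | cons i t ih =>
    intro e h
    rw [Multiset.cons_bind] at h
    obtain ⟨e1, e2, g1, g2, g3, g4, g5⟩ := h.split
    obtain ⟨x, h1, h2, h3, h4⟩ := exists_pi_of_frames g2 (hP i)
    have hx1 : e1 = x * star x := h1.symm
    have he2x : e2 * x = 0 := by rw [← h3, ← mul_assoc, g5, zero_mul]
    have hxe2 : star x * e2 = 0 := by
      have : star x = star x * e1 := by
        have h5 : star e1 = e1 := g2.star_eq'
        conv_lhs => rw [← h3, star_mul, h5]
      rw [this, mul_assoc, g4, mul_zero]
    rw [g1, hx1]
    refine Fr.cons (Q := QSt) rfl h2 h4 ?_ he2x hxe2 (ih g3)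
    have h5 : star (P i) = P i := (hP i).star_eq'
    conv_lhs => rw [← h5, ← star_mul, h4]

theorem Fr.map_star {B : Type*} [NonUnitalRing B] [StarRing B] {F : Type*} [FunLike F A B]
    [NonUnitalRingHomClass F A B] (f : F) (hf : ∀ a, f (star a) = star (f a)) {e : A}
    {s : Multiset V} (h : Fr QSt p e s) : Fr QSt (fun v => f (p v)) (f e) s := by
  apply h.map f
  intro x y hxy
  rw [QSt] at hxy ⊢
  rw [hxy, hf]

omit [StarRing A] in
/-- A family for a star frame. -/
theorem Fr.exists_labels {Q : A → A → Prop} {e : A} {s : Multiset V} (h : Fr Q p e s) :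
    ∃ (n : ℕ) (r : Fin n → V), s = (Finset.univ : Finset (Fin n)).val.map r := by
  obtain ⟨l, rfl⟩ := Quot.exists_rep s
  refine ⟨l.length, l.get, ?_⟩
  have h1 : (Finset.univ : Finset (Fin l.length)).val.map l.get = ((List.ofFn l.get : List V) : Multiset V) := by
    rw [Fin.univ_val_map]
  rw [h1, List.ofFn_get]
  rfl

end general

variable {K : Type*} [Field K] [StarRing K] {G : Graph}

/-- Star frames with respect to the vertices. -/
def SF (K : Type*) [Field K] [StarRing K] {G : Graph} (e : LPA K G) (s : Multiset G.V) : Prop :=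
  Fr QSt (pp K) e s

theorem SF.af {e : LPA K G} {s : Multiset G.V} (h : SF K e s) : AF K e s :=
  Fr.mono (fun _ _ _ => trivial) h

theorem SF.idem {e : LPA K G} {s : Multiset G.V} (h : SF K e s) : e * e = e := Fr.idem h

theorem SF.star_eq {e : LPA K G} {s : Multiset G.V} (h : SF K e s) : star e = e :=
  Fr.star_eq' h

theorem star_pp (v : G.V) : star (pp K v) = pp K v := LPA.star_p v

theorem star_ss (e : G.E) : star (ss K e) = tt K e := LPA.star_s e

theorem star_tt (e : G.E) : star (tt K e) = ss K e := LPA.star_t e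

theorem SF_pp (v : G.V) : SF K (pp K v) {v} := by
  have := Fr.single (Q := QSt) (p := pp K) (v := v) (x := pp K v) (y := pp K v)
    (star_pp v).symm (pp_pp v) (pp_pp v) (pp_pp v)
  rwa [pp_pp] at this

theorem goodSt : GoodQ (K := K) (G := G) QSt Set.univ where
  edge x y e _ h := by rw [QSt] at h ⊢; rw [star_mul, star_ss, h]
  ghost x y e _ h := by rw [QSt] at h ⊢; rw [star_mul, star_tt, h]
  add x y x' y' h h' := by rw [QSt] at h h' ⊢; rw [star_add, h, h']
  zero := (star_zero _).symm

theorem goodSm (X : Set G.V) : GoodQ (K := K) (G := G) (QSm (LX K X : Set (LPA K G))) X where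
  edge x y e he h := ⟨by rw [star_mul, star_ss, h.1], mul_mem h.2 (ss_mem he)⟩
  ghost x y e he h := ⟨by rw [star_mul, star_tt, h.1], mul_mem h.2 (tt_mem he)⟩
  add x y x' y' h h' := ⟨by rw [star_add, h.1, h'.1], add_mem h.2 h'.2⟩
  zero := ⟨(star_zero _).symm, zero_mem _⟩

theorem SF_level {e : LPA K G} {s : Multiset G.V} (h : SF K e s) : ∃ X : Finset G.V,
    ∀ X' : Set G.V, (X : Set G.V) ⊆ X' → Fr (QSm (LX K X' : Set (LPA K G))) (pp K) e s := by
  classical
  have h' : Fr QSt (pp K) e s := h
  clear h
  induction h' with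
  | zero => exact ⟨∅, fun _ _ => Fr.zero⟩
  | @cons x y e v s h0 h1 h2 h3 h4 h5 h6 ih =>
    obtain ⟨X1, hX1⟩ := ih
    obtain ⟨X2, hX2⟩ := exists_LX x
    refine ⟨X1 ∪ X2, fun X' hX' => ?_⟩
    have i1 : (X1 : Set G.V) ⊆ X' := fun v hv => hX' (by simp at hv ⊢; exact Or.inl hv)
    have i2 : (X2 : Set G.V) ⊆ X' := fun v hv => hX' (by simp at hv ⊢; exact Or.inr hv)
    exact Fr.cons ⟨h0, LX_mono i2 hX2⟩ h1 h2 h3 h4 h5 (hX1 X' i1)

variable [LoopGraph G]

theorem SF_congr {e : LPA K G} {a b : Multiset G.V} (h : mk a = mk b) : SF K e a ↔ SF K e b :=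
  Fr_congr goodSt (mk_eq'.1 h) e

theorem SF.cl {e : LPA K G} {s : Multiset G.V} (h : SF K e s) : cl e = mk s := cl_eq h.af

theorem mk_bind {ι : Type*} (t : Multiset ι) (a : ι → Multiset G.V) :
    mk (t.bind a) = (t.map fun i => mk (a i)).sum := by
  induction t using Multiset.induction_on with
  | empty => simp [mk_zero]
  | cons i t ih => rw [Multiset.cons_bind, mk_add, ih, Multiset.map_cons, Multiset.sum_cons]

/-- Existence of star frames with given classes. -/
theorem exists_frame_of_class {ι : Type*} {P : ι → LPA K G} {a : ι → Multiset G.V}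
    (hP : ∀ i, SF K (P i) (a i)) {e : LPA K G} {s : Multiset G.V} (he : SF K e s)
    {t : Multiset ι} (h : mk s = (t.map fun i => mk (a i)).sum) : Fr QSt P e t := by
  rw [← mk_bind] at h
  exact Fr.exists_of_bind hP ((SF_congr h).1 he)

end Run7.h19
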