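import Pool.Agent.Run7.h19.Cycl
import Pool.Agent.Run7.h19.Unique
import Pool.Agent.Run7.h19.SFrames

/-!
# The algebra of a row-finite graph with disjoint cycles (helper19)
-/

namespace Run7.h19

open Pool.Agent.Helper665_GA LoopGraph DisjGraph Polynomial

section elements

variable (K : Type*) [Field K] {D : Graph}

open Classical in
/-- The isometry of the edge of the cycle. -/
noncomputable def cs (v : D.V) : LPA K D := if h : IsCyc v then ss K h.choose else 0

/-- The path of given length along the cycle. -/
noncomputable def pth : ℕ → D.V → LPA K D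
  | 0, v => pp K v
  | i + 1, v => cs K v * pth i (nxt v)

variable {K}

theorem cs_of {v : D.V} (h : IsCyc v) : cs K v = ss K h.choose := dif_pos h

theorem cs_not {v : D.V} (h : ¬ IsCyc v) : cs K v = 0 := dif_neg h

theorem pp_cs (v : D.V) : pp K v * cs K v = cs K v := by
  by_cases h : IsCyc v
  · have h1 : pp K (D.src h.choose) * ss K h.choose = ss K h.choose := pp_ss _
    rw [h.choose_spec.1] at h1
    rw [cs_of h]
    exact h1
  · rw [cs_not h, mul_zero]

theorem cs_pp (v : D.V) : cs K v * pp K (nxt v) = cs K v := by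
  by_cases h : IsCyc v
  · rw [cs_of h, nxt_of h, ss_pp]
  · rw [cs_not h, zero_mul]

@[simp] theorem pth_zero (v : D.V) : pth K 0 v = pp K v := rfl

theorem pth_succ (i : ℕ) (v : D.V) : pth K (i + 1) v = cs K v * pth K i (nxt v) := rfl

theorem pp_pth (i : ℕ) (v : D.V) : pp K v * pth K i v = pth K i v := by
  cases i with
  | zero => exact pp_pp v
  | succ i => rw [pth_succ, ← mul_assoc, pp_cs]

theorem pth_pp (i : ℕ) (v : D.V) : pth K i v * pp K (nxt^[i] v) = pth K i v := by
  induction i generalizing v with
  | zero => exact pp_pp v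
  | succ i ih => rw [Function.iterate_succ_apply, pth_succ, mul_assoc, ih]

theorem pth_succ' (i : ℕ) (v : D.V) : pth K (i + 1) v = pth K i v * cs K (nxt^[i] v) := by
  induction i generalizing v with
  | zero => rw [pth_succ, pth_zero, pth_zero, cs_pp]; exact (pp_cs v).symm
  | succ i ih => rw [pth_succ, ih, ← mul_assoc, ← pth_succ, Function.iterate_succ_apply]

variable [StarRing K]

theorem star_cs_cs {v : D.V} (h : IsCyc v) : star (cs K v) * cs K v = pp K (nxt v) := by
  rw [cs_of h, star_ss, tt_ss_self, nxt_of h]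

theorem star_pth_pth {v : D.V} (h : IsCyc v) (i : ℕ) :
    star (pth K i v) * pth K i v = pp K (nxt^[i] v) := by
  induction i generalizing v with
  | zero => rw [pth_zero, star_pp, pp_pp]; rfl
  | succ i ih =>
    rw [pth_succ, star_mul, mul_assoc, ← mul_assoc (star (cs K v)), star_cs_cs h, pp_pth,
      ih (isCyc_nxt h), Function.iterate_succ_apply]

theorem pp_pth_star (i : ℕ) (v : D.V) : star (pth K i v) * pp K v = star (pth K i v) := by
  conv_lhs => rw [← star_pp, ← star_mul, pp_pth]

theorem star_ss_cs {v : D.V} {g : D.E} (hg : ¬ Cyc g) : star (ss K g) * cs K v = 0 := by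
  by_cases h : IsCyc v
  · rw [cs_of h, star_ss, tt_ss_ne]
    rintro rfl
    exact hg h.choose_spec.2
  · rw [cs_not h, mul_zero]

theorem star_pth_mul_pth {i j : ℕ} (hij : i < j) {v : D.V} {g : D.E}
    (hg : D.src g = nxt^[i] v) (hc : ¬ Cyc g) : star (pth K i v * ss K g) * pth K j v = 0 := by
  induction i generalizing v j with
  | zero =>
    obtain ⟨j, rfl⟩ := Nat.exists_eq_succ_of_ne_zero (Nat.pos_iff_ne_zero.1 hij)
    have h1 : pth K 0 v * ss K g = ss K g := by
      have h2 : D.src g = v := hg
      rw [pth_zero, ← h2, pp_ss]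
    rw [h1, Nat.succ_eq_add_one, pth_succ, ← mul_assoc, star_ss_cs hc, zero_mul]
  | succ i ih =>
    obtain ⟨j, rfl⟩ := Nat.exists_eq_succ_of_ne_zero (show j ≠ 0 by omega)
    by_cases h : IsCyc v
    · rw [pth_succ, Nat.succ_eq_add_one, pth_succ, star_mul, star_mul]
      have e1 : star (ss K g) * (star (pth K i (nxt v)) * star (cs K v)) *
          (cs K v * pth K j (nxt v)) = star (ss K g) * (star (pth K i (nxt v)) *
            ((star (cs K v) * cs K v) * pth K j (nxt v))) := by simp only [mul_assoc]
      rw [e1, star_cs_cs h, pp_pth, ← mul_assoc, ← star_mul]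
      exact ih (by omega) hg
    · rw [pth_succ, cs_not h, zero_mul, zero_mul, star_zero, zero_mul]

end elements

variable {K : Type*} [Field K] [StarRing K] {D : Graph} [DisjGraph D]

theorem ck_cyc {v : D.V} (h : IsCyc v) :
    (∑ g ∈ nex v, ss K g * star (ss K g)) + cs K v * star (cs K v) = pp K v := by
  classical
  have h1 : outD v = insert h.choose (nex v) := by
    ext e
    rw [mem_outD, Finset.mem_insert, mem_nex]
    constructor
    · intro he
      by_cases hc : Cyc e
      · exact Or.inl (eq_choose h he hc)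
      · exact Or.inr ⟨he, hc⟩
    · rintro (rfl | he)
      · exact h.choose_spec.1
      · exact he.1
  have h2 : h.choose ∉ nex v := by
    rw [mem_nex]
    exact fun h3 => h3.2 h.choose_spec.2
  have h3 := (LPA.family K D).sum_eq v (outD v)
    ⟨h.choose, (mem_outD _ _).2 h.choose_spec.1⟩ (mem_outD v)
  have h4 : ∑ e ∈ outD v, ss K e * star (ss K e) = pp K v :=
    (Finset.sum_congr rfl fun e _ => congrArg _ (star_ss e)).trans h3
  rw [h1, Finset.sum_insert h2, ← cs_of h] at h4
  rw [← h4, add_comm]

theorem ck_not {v : D.V} (h : ¬ IsCyc v) (hne : (nex v).Nonempty) :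
    ∑ g ∈ nex v, ss K g * star (ss K g) = pp K v := by
  have h1 : outD v = nex v := by
    ext e
    rw [mem_outD, mem_nex]
    exact ⟨fun he => ⟨he, fun hc => h ⟨e, he, hc⟩⟩, fun he => he.1⟩
  have h3 := (LPA.family K D).sum_eq v (outD v) (by rw [h1]; exact hne) (mem_outD v)
  rw [← h1]
  exact (Finset.sum_congr rfl fun e _ => congrArg _ (star_ss e)).trans h3

/-- Following the cycle for `m` steps. -/
theorem ck_tele {v : D.V} (h : IsCyc v) (m : ℕ) :
    (∑ i ∈ Finset.range m, ∑ g ∈ nex (nxt^[i] v), (pth K i v * ss K g) *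
      star (pth K i v * ss K g)) + pth K m v * star (pth K m v) = pp K v := by
  induction m with
  | zero => rw [Finset.range_zero, Finset.sum_empty, zero_add, pth_zero, star_pp, pp_pp]
  | succ m ih =>
    rw [Finset.sum_range_succ]
    have h1 : (∑ g ∈ nex (nxt^[m] v), (pth K m v * ss K g) * star (pth K m v * ss K g))
        + pth K (m + 1) v * star (pth K (m + 1) v) = pth K m v * star (pth K m v) := by
      have h2 := ck_cyc (K := K) (isCyc_iter h m)
      have h3 : pth K m v * star (pth K m v)
          = pth K m v * pp K (nxt^[m] v) * star (pth K m v) := by rw [pth_pp]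
      rw [h3, ← h2, mul_add, add_mul, Finset.mul_sum, Finset.sum_mul, pth_succ', star_mul]
      congr 1
      · apply Finset.sum_congr rfl
        intro g _
        rw [star_mul]
        simp only [mul_assoc]
      · simp only [mul_assoc]
    rw [add_assoc, h1, ih]

theorem sum_outN {M : Type*} [AddCommMonoid M] (v : D.V) (F : (norm D).E → M) (f : ℕ → D.E → M)
    (hF : ∀ (i : Fin (ln v + 1)) (g : {g : D.E // g ∈ nex (nxt^[(i : ℕ)] v)}),
      F (Sum.inl ⟨v, i, g⟩ : NE D) = f i g.1) :
    ∑ e ∈ outN v, F e = (∑ i ∈ Finset.range (ln v + 1), ∑ g ∈ nex (nxt^[i] v), f i g) +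
      (open Classical in if h : IsCyc v then F (Sum.inr ⟨v, h⟩ : NE D) else 0) := by
  classical
  rw [outN, Finset.sum_disjUnion, Finset.sum_map, Fintype.sum_sigma, Finset.sum_range]
  congr 1
  · apply Finset.sum_congr rfl
    intro i _
    exact (Finset.sum_congr rfl fun g _ => hF i g).trans
      (Finset.sum_coe_sort (nex (nxt^[(i : ℕ)] v)) (fun g => f i g))
  · split_ifs with h
    · exact Finset.sum_singleton _ _
    · rfl

/-- The images of the edges. -/
noncomputable def nS (K : Type*) [Field K] (D : Graph) [DisjGraph D] (e : NE D) : LPA K D :=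
  match e with
    | Sum.inl x => pth K x.2.1 x.1 * ss K x.2.2.1
    | Sum.inr v => pth K (ln v.1 + 1) v.1

omit [StarRing K] in
theorem nS_src (e : NE D) : pp K (G := D) ((norm D).src e) * nS K D e = nS K D e := by
  rcases e with ⟨v, i, g, hg⟩ | ⟨v, hv⟩
  · show pp K v * (pth K i v * ss K g) = _
    rw [← mul_assoc, pp_pth]; rfl
  · exact pp_pth _ _

theorem nS_sum (v : D.V) (hS : (outN v).Nonempty) :
    ∑ e ∈ outN v, nS K D e * star (nS K D e) = pp K v := by
  classical
  rw [sum_outN v _ (fun i g => (pth K i v * ss K g) * star (pth K i v * ss K g))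
    (fun i g => rfl)]
  by_cases hv : IsCyc v
  · rw [dif_pos hv]
    exact ck_tele hv _
  · rw [dif_neg hv, add_zero, ln_not hv, zero_add, Finset.sum_range_one]
    have h2 : (nex v).Nonempty := by
      obtain ⟨e, he⟩ := hS
      rw [mem_outN] at he
      rcases e with ⟨w, i, g, hg⟩ | ⟨w, hw⟩
      · have h3 : w = v := he
        subst h3
        have h2 : (i : ℕ) = 0 := by
          have h5 := i.2
          have h6 := ln_not hv
          omega
        rw [h2] at hg
        exact ⟨g, hg⟩
      · have h3 : w = v := he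
        subst h3
        exact absurd hw hv
    have h3 := ck_not (K := K) hv h2
    rw [← h3]
    apply Finset.sum_congr rfl
    intro g hg
    have h5 : D.src g = v := (mem_nex.1 hg).1
    have h4 : pth K 0 v * ss K g = ss K g := by
      rw [pth_zero, ← h5]; exact pp_ss g
    rw [h4]

/-- The family of the normalised graph. -/
noncomputable def nfam (K : Type*) [Field K] [StarRing K] (D : Graph) [DisjGraph D] :
    SFam (norm D) (LPA K D) where
  p v := pp K (v : D.V)
  s := nS K D
  star_p v := star_pp _
  idem v := pp_pp _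
  orth v w h := pp_ne h
  src_mul := nS_src
  mul_rng e := by
    rcases e with ⟨v, i, g, hg⟩ | ⟨v, hv⟩
    · show pth K i v * ss K g * pp K (D.rng g) = pth K i v * ss K g
      rw [mul_assoc, ss_pp]
    · show pth K (ln v + 1) v * pp K (base v) = pth K (ln v + 1) v
      rw [← ln_spec v, pth_pp]
  isom e := by
    rcases e with ⟨v, i, g, hg⟩ | ⟨v, hv⟩
    · show star (pth K i v * ss K g) * (pth K i v * ss K g) = pp K (D.rng g)
      rw [mem_nex] at hg
      have h1 : star (pth K i v) * pth K i v = pp K (nxt^[(i : ℕ)] v) := by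
        by_cases hv : IsCyc v
        · exact star_pth_pth hv _
        · have h2 : (i : ℕ) = 0 := by
            have h5 := i.2
            have h6 := ln_not hv
            omega
          rw [h2, pth_zero, star_pp, pp_pp]; rfl
      rw [star_mul, mul_assoc, ← mul_assoc (star (pth K i v)), h1, ← hg.1, pp_ss, star_ss,
        tt_ss_self]
    · show star (pth K (ln v + 1) v) * pth K (ln v + 1) v = pp K (base v)
      rw [star_pth_pth hv, ln_spec]
  range_orth e f hef := by
    have hsrc : ∀ {v w : D.V}, v ≠ w → ∀ {x y : LPA K D}, pp K v * x = x → pp K w * y = y →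
        star x * y = 0 := by
      intro v w hvw x y hx hy
      rw [← hx, ← hy, star_mul, star_pp, mul_assoc, ← mul_assoc (pp K v), pp_ne hvw, zero_mul,
        mul_zero]
    by_cases hs : ((norm D).src e : D.V) = (norm D).src f
    swap
    · exact hsrc hs (nS_src e) (nS_src f)
    rcases e with ⟨v, i, g, hg⟩ | ⟨v, hv⟩ <;> rcases f with ⟨w, j, g', hg'⟩ | ⟨w, hw⟩
    · have h1 : v = w := hs
      subst h1
      show star (pth K i v * ss K g) * (pth K j v * ss K g') = 0
      have hg2 := mem_nex.1 hg
      have hg2' := mem_nex.1 hg'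
      rcases Nat.lt_trichotomy (i : ℕ) j with h | h | h
      · rw [← mul_assoc, star_pth_mul_pth h hg2.1 hg2.2, zero_mul]
      · have h' : i = j := Fin.ext h
        subst h'
        have hne : g ≠ g' := by
          rintro rfl
          exact hef rfl
        have h1 : star (pth K i v) * pth K i v = pp K (nxt^[(i : ℕ)] v) := by
          by_cases hv : IsCyc v
          · exact star_pth_pth hv _
          · have h2 : (i : ℕ) = 0 := by
              have h5 := i.2
              have h6 := ln_not hv
              omega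
            rw [h2, pth_zero, star_pp, pp_pp]; rfl
        rw [star_mul, mul_assoc, ← mul_assoc (star (pth K i v)), h1, ← hg2'.1, pp_ss, star_ss,
          tt_ss_ne hne]
      · have h3 : star (star (pth K i v * ss K g) * (pth K j v * ss K g')) = 0 := by
          rw [star_mul, star_star, ← mul_assoc, star_pth_mul_pth h hg2'.1 hg2'.2, zero_mul]
        rw [← star_star (star (pth K i v * ss K g) * (pth K j v * ss K g')), h3, star_zero]
    · have h1 : v = w := hs
      subst h1
      have hg2 := mem_nex.1 hg
      exact star_pth_mul_pth i.2 hg2.1 hg2.2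
    · have h1 : v = w := hs
      subst h1
      have hg2' := mem_nex.1 hg'
      show star (pth K (ln v + 1) v) * (pth K j v * ss K g') = 0
      have h3 : star (star (pth K (ln v + 1) v) * (pth K j v * ss K g')) = 0 := by
        rw [star_mul, star_star]
        exact star_pth_mul_pth j.2 hg2'.1 hg2'.2
      rw [← star_star (star (pth K (ln v + 1) v) * (pth K j v * ss K g')), h3, star_zero]
    · have h1 : v = w := hs
      subst h1
      exact absurd rfl hef
  sum_eq v S hS hm := by
    have h1 : S = outN (D := D) v := by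
      ext e; rw [hm, mem_outN]
    subst h1
    exact nS_sum (D := D) v hS

/-- The homomorphism from the algebra of the normalised graph. -/
noncomputable def nhom (K : Type*) [Field K] [StarRing K] (D : Graph) [DisjGraph D] :
    LPA K (norm D) →⋆ₙₐ[K] LPA K D := (nfam K D).hom K

theorem nhom_p (v : D.V) : nhom K D (pp K (v : (norm D).V)) = pp K v := (nfam K D).hom_p v

theorem nhom_s (e : NE D) : nhom K D (ss K (e : (norm D).E)) = nS K D e := (nfam K D).hom_s e

/-! ### surjectivity -/

/-- The range of the homomorphism. -/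
noncomputable def nR (K : Type*) [Field K] [StarRing K] (D : Graph) [DisjGraph D] :
    NonUnitalSubalgebra K (LPA K D) :=
  NonUnitalAlgHom.range (nhom K D : LPA K (norm D) →ₙₐ[K] LPA K D)

theorem mem_nR {a : LPA K D} : a ∈ nR K D ↔ ∃ b, nhom K D b = a := NonUnitalAlgHom.mem_range _

theorem star_nR {a : LPA K D} (h : a ∈ nR K D) : star a ∈ nR K D := by
  rw [mem_nR] at h ⊢
  obtain ⟨b, rfl⟩ := h
  exact ⟨star b, map_star _ _⟩

theorem pp_nR (v : D.V) : pp K v ∈ nR K D := mem_nR.2 ⟨_, nhom_p v⟩

theorem nS_nR (e : NE D) : nS K D e ∈ nR K D := mem_nR.2 ⟨_, nhom_s e⟩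

theorem pth_ss_nR {v : D.V} {i : ℕ} (hi : i < ln v + 1) {g : D.E} (hg : g ∈ nex (nxt^[i] v)) :
    pth K i v * ss K g ∈ nR K D := nS_nR (Sum.inl ⟨v, ⟨i, hi⟩, ⟨g, hg⟩⟩)

theorem pth_ln_nR {v : D.V} (h : IsCyc v) : pth K (ln v + 1) v ∈ nR K D :=
  nS_nR (Sum.inr ⟨v, h⟩)

theorem cs_nR {v : D.V} (h : IsCyc v) : cs K v ∈ nR K D := by
  by_cases h1 : nxt v = base v
  · have h2 := pth_ln_nR (K := K) h
    rw [ln_zero h1, zero_add, pth_succ, pth_zero, cs_pp] at h2
    exact h2
  · have h2 := ck_tele (K := K) (isCyc_nxt h) (ln (nxt v) + 1)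
    have h3 := ln_succ h1
    rw [← cs_pp, ← h2, mul_add, Finset.mul_sum]
    apply add_mem
    · apply sum_mem
      intro i hi
      rw [Finset.mul_sum]
      apply sum_mem
      intro g hg
      rw [← mul_assoc, ← mul_assoc, ← pth_succ]
      have hi' := Finset.mem_range.1 hi
      exact mul_mem (pth_ss_nR (by omega) hg) (star_nR (pth_ss_nR hi' hg))
    · rw [← mul_assoc, ← pth_succ, ← h3]
      exact mul_mem (pth_ln_nR h) (star_nR (by rw [h3]; exact pth_ln_nR (isCyc_nxt h)))

theorem ss_nR (e : D.E) : ss K e ∈ nR K D := by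
  by_cases h : Cyc e
  · have h1 : IsCyc (D.src e) := ⟨e, rfl, h⟩
    have h2 := cs_nR (K := K) h1
    rw [cs_of h1, ← eq_choose h1 rfl h] at h2
    exact h2
  · have h1 := pth_ss_nR (K := K) (v := D.src e) (i := 0) (by omega) (g := e)
      (mem_nex.2 ⟨rfl, h⟩)
    rw [pth_zero, pp_ss] at h1
    exact h1

theorem nhom_surjective : Function.Surjective (nhom K D) := by
  intro a
  rw [← mem_nR]
  induction a using LPA.induction with
  | hgen x =>
    cases x with
    | vert v => exact pp_nR v
    | edge e => exact ss_nR e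
    | ghost e =>
      have h1 := star_nR (ss_nR (K := K) e)
      rw [star_ss] at h1
      exact h1
  | hadd a b ha hb => exact add_mem ha hb
  | hzero => exact zero_mem _
  | hmul a b ha hb => exact mul_mem ha hb
  | hsmul r a ha => exact (nR K D).smul_mem r ha

/-! ### injectivity -/

/-- The boundary path around the cycle. -/
noncomputable def cinf {v : D.V} (h : IsCyc v) : BPath D where
  vtx n := nxt^[n] v
  edg n := some (isCyc_iter h n).choose
  ok_some n e he := by
    cases he
    refine ⟨(isCyc_iter h n).choose_spec.1, ?_⟩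
    rw [Function.iterate_succ_apply', nxt_of (isCyc_iter h n)]
  ok_none n hn := by simp at hn

omit [StarRing K] [DisjGraph D] in
theorem rho_cs {v : D.V} (h : IsCyc v) (r : LaurentPolynomial K) :
    (rho K D (cs K v)).ap (Finsupp.single (cinf (isCyc_nxt h)) r)
      = Finsupp.single (cinf h) (r * LaurentPolynomial.T 1) := by
  have h0 : D.rng h.choose = (cinf (isCyc_nxt h)).vtx 0 := (nxt_of h).symm
  rw [cs_of h, LPA.rho_s, opS_single, dif_pos h0]
  have h1 : BPath.cons h.choose (cinf (isCyc_nxt h)) h0 = cinf h := by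
    apply BPath.ext'
    · exact h.choose_spec.1
    · intro n
      cases n with
      | zero => rfl
      | succ n => rfl
  rw [h1]

omit [StarRing K] [DisjGraph D] in
theorem rho_pth {v : D.V} (h : IsCyc v) (i : ℕ) (r : LaurentPolynomial K) :
    (rho K D (pth K i v)).ap (Finsupp.single (cinf (isCyc_iter h i)) r)
      = Finsupp.single (cinf h) (r * LaurentPolynomial.T i) := by
  induction i generalizing v with
  | zero =>
    have h0 : (cinf (isCyc_iter h 0)).vtx 0 = v := rfl
    rw [pth_zero, LPA.rho_p, opP_single, if_pos h0]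
    simp only [Nat.cast_zero, LaurentPolynomial.T_zero, mul_one]
    rfl
  | succ i ih =>
    have h1 := ih (isCyc_nxt h)
    rw [pth_succ, map_mul, EE.mul_ap]
    have h2 : (rho K D (pth K i (nxt v))).ap (Finsupp.single (cinf (isCyc_iter h (i + 1))) r)
        = Finsupp.single (cinf (isCyc_nxt h)) (r * LaurentPolynomial.T i) := h1
    rw [h2, rho_cs, mul_assoc, ← LaurentPolynomial.T_add]
    push_cast
    rfl

omit [DisjGraph D] in
theorem cinf_congr {v w : D.V} (h : IsCyc v) (h' : IsCyc w) (hvw : v = w) : cinf h = cinf h' := by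
  subst hvw; rfl

omit [StarRing K] [DisjGraph D] in
theorem rho_cycle {v : D.V} (h : IsCyc v) {m : ℕ} (hm : nxt^[m] v = v)
    (r : LaurentPolynomial K) :
    (rho K D (pth K m v)).ap (Finsupp.single (cinf h) r)
      = Finsupp.single (cinf h) (r * LaurentPolynomial.T m) := by
  have h1 := rho_pth h m r
  rwa [cinf_congr (isCyc_iter h m) h hm] at h1

omit [StarRing K] [DisjGraph D] in
theorem inCor_cycle {v : D.V} {m : ℕ} (hm : nxt^[m] v = v) : InCor (pp K v) (pth K m v) := by
  refine ⟨pp_pp v, pp_pth m v, ?_⟩
  have h1 := pth_pp (K := K) m v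
  rwa [hm] at h1

omit [StarRing K] [DisjGraph D] in
theorem rho_pw_cycle {v : D.V} (h : IsCyc v) {m : ℕ} (hm : nxt^[m] v = v) (n : ℕ) :
    (rho K D (pw (pp K v) (pth K m v) n)).ap (Finsupp.single (cinf h) 1)
      = Finsupp.single (cinf h) (LaurentPolynomial.T ((n * m : ℕ) : ℤ)) := by
  induction n with
  | zero =>
    have h0 : (cinf h).vtx 0 = v := rfl
    rw [pw_zero, LPA.rho_p, opP_single, if_pos h0]
    simp
  | succ n ih =>
    rw [pw_succ' (inCor_cycle hm), map_mul, EE.mul_ap, ih, rho_cycle h hm,
      ← LaurentPolynomial.T_add]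
    congr 2
    push_cast
    ring

omit [StarRing K] [DisjGraph D] in
theorem rho_evp_cycle {v : D.V} (h : IsCyc v) {m : ℕ} (hm : nxt^[m] v = v) (q : K[X]) :
    (rho K D (evp K (pp K v) (pth K m v) q)).ap (Finsupp.single (cinf h) 1)
      = Finsupp.single (cinf h) (Polynomial.toLaurent (expand K m q)) := by
  induction q using Polynomial.induction_on' with
  | add q q' hq hq' =>
    rw [map_add, map_add, EE.add_ap, hq, hq', map_add, map_add, Finsupp.single_add]
  | monomial n a =>
    rw [evp_monomial, map_smul, EE.smul_ap, rho_pw_cycle h hm, Finsupp.smul_single,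
      expand_monomial, Polynomial.toLaurent_C_mul_T, LaurentPolynomial.smul_eq_C_mul]

omit [StarRing K] [DisjGraph D] in
theorem evp_cycle_zero {v : D.V} (h : IsCyc v) {m : ℕ} (hm0 : 0 < m) (hm : nxt^[m] v = v)
    {q : K[X]} (hq : evp K (pp K v) (pth K m v) q = 0) : q = 0 := by
  have h1 := rho_evp_cycle h hm q
  rw [hq, map_zero, EE.zero_ap] at h1
  have h2 := Finsupp.single_eq_zero.1 h1.symm
  have h3 := (map_eq_zero_iff _ Polynomial.toLaurent_injective).1 h2
  exact (map_eq_zero_iff _ (expand_injective hm0)).1 h3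

theorem nhom_injective : Function.Injective (nhom K D) := by
  apply injective_of (nhom K D : LPA K (norm D) →ₙₐ[K] LPA K D)
  · intro v
    show nhom K D (pp K v) ≠ 0
    rw [nhom_p]
    exact LPA.p_ne_zero _
  · intro k c hc q hq
    have h1 : (nhom K D : LPA K (norm D) →ₙₐ[K] LPA K D) (evp K (pp K k) (ss K c) q)
        = evp K (nhom K D (pp K k)) (nhom K D (ss K c)) q :=
      map_evp (nhom K D : LPA K (norm D) →ₙₐ[K] LPA K D) q
    rw [h1, nhom_p, nhom_s] at hq
    rcases c with ⟨v, i, g, hg⟩ | ⟨v, hv⟩
    · exfalso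
      have h2 : v = k := hc.src
      have h3 : D.rng g = k := hc.rng
      subst h2
      rw [mem_nex] at hg
      apply hg.2
      rw [Cyc, hg.1, h3]
      exact reach_iter v i
    · have h2 : v = k := hc.src
      have h3 : base v = k := hc.rng
      subst h2
      exact evp_cycle_zero hv (Nat.succ_pos (ln v)) (by rw [ln_spec, h3]) hq

end Run7.h19
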