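import Pool.Agent.Run7.h19.SFrames

/-!
# The order of the graph monoid, star frames at a finite level (helper19)
-/

namespace Run7.h19

open Pool.Agent.Helper665_GA LoopGraph

section order

variable {M N : Type*} [AddCommMonoid M] [AddCommMonoid N]

/-- The algebraic order. -/
def Le (m n : M) : Prop := ∃ z, n = m + z

theorem Le.refl (m : M) : Le m m := ⟨0, by simp⟩

theorem Le.trans {m n k : M} (h : Le m n) (h' : Le n k) : Le m k := by
  obtain ⟨z, rfl⟩ := h
  obtain ⟨w, rfl⟩ := h'
  exact ⟨z + w, by rw [add_assoc]⟩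

theorem Le.add {m n m' n' : M} (h : Le m n) (h' : Le m' n') : Le (m + m') (n + n') := by
  obtain ⟨z, rfl⟩ := h
  obtain ⟨w, rfl⟩ := h'
  exact ⟨z + w, by abel⟩

theorem Le.left (m n : M) : Le m (m + n) := ⟨n, rfl⟩

theorem Le.right (m n : M) : Le n (m + n) := ⟨m, by rw [add_comm]⟩

theorem Le.map (f : M ≃+ N) {m n : M} (h : Le m n) : Le (f m) (f n) := by
  obtain ⟨z, rfl⟩ := h
  exact ⟨f z, map_add _ _ _⟩

theorem Le.map_iff (f : M ≃+ N) {m n : M} : Le (f m) (f n) ↔ Le m n :=
  ⟨fun h => by simpa using h.map f.symm, fun h => h.map f⟩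

theorem Le_sum {ι : Type*} {t : Multiset ι} {g : ι → M} {i : ι} (hi : i ∈ t) :
    Le (g i) (t.map g).sum := by
  obtain ⟨s, rfl⟩ := Multiset.exists_cons_of_mem hi
  rw [Multiset.map_cons, Multiset.sum_cons]
  exact Le.left _ _

end order

variable {G : Graph} [LoopGraph G]

theorem Le_of_Rch {a : Multiset G.V} {w : G.V} (h : Rch a w) : Le (mk {w}) (mk a) := by
  obtain ⟨c, hc⟩ := exists_Mc_of_Rch h
  exact ⟨mk c, mk_eq'.2 hc⟩

theorem rch_of_Le {z : G.V} (hz : IsLoop z) {a : Multiset G.V} (h : Le (mk {z}) (mk a)) :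
    Rch a z := by
  obtain ⟨c, hc⟩ := h
  obtain ⟨c, rfl⟩ := mk_surj c
  rw [← mk_add, mk_eq] at hc
  rw [hc.rch hz]
  exact Rch_add.2 (Or.inl (Rch_singleton.2 Relation.ReflTransGen.refl))

theorem reach_of_Le {z v : G.V} (hz : IsLoop z) (h : Le (mk {z}) (mk {v})) : Reach v z :=
  Rch_singleton.1 (rch_of_Le hz h)

theorem not_Le_xs {k : G.V} (hk : IsLoop k) : ¬ Le (mk {k}) (mk (xs k)) :=
  fun h => not_Rch_xs_self k (rch_of_Le hk h)

theorem mk_lp {k : G.V} (hk : IsLoop k) : mk {k} = mk {k} + mk (xs k) := by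
  rw [← mk_add]; exact mk_eq'.2 (Mc_lp hk)

theorem xs_Le {k : G.V} (hk : IsLoop k) : Le (mk (xs k)) (mk {k}) := by
  conv => arg 2; rw [mk_lp hk]
  exact Le.right _ _

/-- A loop absorbs everything below. -/
theorem exists_absorb {k : G.V} (hk : IsLoop k) {y : Multiset G.V}
    (hy : ∀ v ∈ y, Rch (xs k) v) : ∃ z : Multiset G.V, mk {k} = mk (k ::ₘ y) + mk z ∧
      ∀ v ∈ z, Rch (xs k) v := by
  induction y using Multiset.induction_on with
  | empty => exact ⟨0, by simp [mk_zero], by simp⟩
  | cons v y ih =>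
    obtain ⟨z, hz1, hz2⟩ := ih fun w hw => hy w (Multiset.mem_cons_of_mem hw)
    have hv := hy v (Multiset.mem_cons_self v y)
    obtain ⟨c, hc⟩ := exists_Mc_of_Rch hv
    have hc' : mk (xs k) = mk {v} + mk c := by rw [← mk_add]; exact mk_eq'.2 hc
    have hI : Idl (mk (xs k)) (mk c) := ⟨1, mk {v}, by rw [one_nsmul, hc', add_comm]⟩
    obtain ⟨c', hc1, hc2⟩ := exists_rep hI
    refine ⟨z + c', ?_, ?_⟩
    · have h1 : mk {k} = mk (k ::ₘ y) + mk z + mk (xs k) := by
        rw [← hz1]; exact mk_lp hk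
      rw [h1, hc', mk_cons, mk_cons k (v ::ₘ y), mk_cons v y, mk_add, hc1]
      abel
    · intro w hw
      rcases Multiset.mem_add.1 hw with hw | hw
      · exact hz2 w hw
      · exact hc2 w hw

theorem absorb_Le {k : G.V} (hk : IsLoop k) {y : Multiset G.V}
    (hy : ∀ v ∈ y, Rch (xs k) v) : Le (mk (k ::ₘ y)) (mk {k}) := by
  obtain ⟨z, hz, -⟩ := exists_absorb hk hy
  exact ⟨mk z, hz⟩

/-! ### star frames at a level -/

section level

variable {A : Type*} [NonUnitalRing A] [StarRing A] {V ι : Type*} {p : V → A}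

/-- Sets closed under the operations. -/
structure ClS (S : Set A) : Prop where
  add : ∀ {a b}, a ∈ S → b ∈ S → a + b ∈ S
  mul : ∀ {a b}, a ∈ S → b ∈ S → a * b ∈ S
  star : ∀ {a}, a ∈ S → star a ∈ S
  zero : (0 : A) ∈ S

variable {S : Set A}

theorem Fr.star_mem (hS : ClS S) {e : A} {s : Multiset V} (h : Fr (QSm S) p e s) : e ∈ S := by
  induction h with
  | zero => exact hS.zero
  | cons h0 _ _ _ _ _ _ ih =>
    obtain ⟨rfl, h0⟩ := h0
    exact hS.add (hS.mul h0 (hS.star h0)) ih

/-- Projections with the same star frame are equivalent. -/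
theorem exists_pi_of_frames' (hS : ClS S) {s : Multiset V} : ∀ {e f : A}, Fr (QSm S) p e s →
    Fr (QSm S) p f s → ∃ x ∈ S, x * star x = e ∧ star x * x = f ∧ e * x = x ∧ x * f = x := by
  induction s using Multiset.induction_on with
  | empty =>
    intro e f he hf
    exact ⟨0, hS.zero, by simp [he.of_zero], by simp [hf.of_zero], by simp, by simp⟩
  | cons v s ih =>
    intro e f he hf
    obtain ⟨x, y, e', ⟨g0, g0'⟩, g1, g2, g3, g4, g5, g6, g7⟩ := he.inv rfl
    obtain ⟨z, w, f', ⟨k0, k0'⟩, k1, k2, k3, k4, k5, k6, k7⟩ := hf.inv rfl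
    obtain ⟨u, h0, h1, h2, h3, h4⟩ := ih g6 k6
    subst g0 k0
    have se' : star e' = e' := g6.star_eq
    have sf' : star f' = f' := k6.star_eq
    have hu1 : star x * u = 0 := by rw [← h3, ← mul_assoc, g5, zero_mul]
    have hu2 : u * z = 0 := by rw [← h4, mul_assoc, k4, mul_zero]
    have hu3 : star u * x = 0 := by rw [← star_star x, ← star_mul, hu1, star_zero]
    have hu4 : star z * star u = 0 := by rw [← star_mul, hu2, star_zero]
    have hx : (x * star z) * star (x * star z) = x * star x := by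
      rw [star_mul, star_star, mul_assoc, ← mul_assoc (star z), k1, ← mul_assoc, g2]
    have hz : star (x * star z) * (x * star z) = z * star z := by
      rw [star_mul, star_star, mul_assoc, ← mul_assoc (star x), g1, ← mul_assoc, k2]
    refine ⟨x * star z + u, hS.add (hS.mul g0' (hS.star k0')) h0, ?_, ?_, ?_, ?_⟩
    · rw [star_add, mul_add, add_mul, add_mul, hx, h1, g7]
      have e1 : u * star (x * star z) = 0 := by
        rw [star_mul, star_star, ← mul_assoc, hu2, zero_mul]
      have e2 : x * star z * star u = 0 := by rw [mul_assoc, hu4, mul_zero]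
      rw [e1, e2]; simp
    · rw [star_add, mul_add, add_mul, add_mul, hz, h2, k7]
      have e1 : star (x * star z) * u = 0 := by
        rw [star_mul, star_star, mul_assoc, hu1, mul_zero]
      have e2 : star u * (x * star z) = 0 := by rw [← mul_assoc, hu3, zero_mul]
      rw [e1, e2]; simp
    · rw [g7, mul_add, add_mul, add_mul, h3]
      have e1 : x * star x * u = 0 := by rw [mul_assoc, hu1, mul_zero]
      have e2 : e' * (x * star z) = 0 := by rw [← mul_assoc, g4, zero_mul]
      have e3 : x * star x * (x * star z) = x * star z := by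
        rw [mul_assoc, ← mul_assoc (star x), g1, ← mul_assoc, g2]
      rw [e1, e2, e3]; simp
    · rw [k7, mul_add, add_mul, add_mul, h4]
      have e1 : x * star z * f' = 0 := by rw [mul_assoc, k5, mul_zero]
      have e2 : u * (z * star z) = 0 := by rw [← mul_assoc, hu2, zero_mul]
      have e3 : x * star z * (z * star z) = x * star z := by
        rw [mul_assoc, ← mul_assoc (star z), k1, k3]
      rw [e1, e2, e3]; simp

theorem Fr.transport_level (hS : ClS S) {e x : A} {s : Multiset V} (h : Fr (QSm S) p e s)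
    (hxS : x ∈ S) (hx : star x * x = e) (hxe : x * e = x) : Fr (QSm S) p (x * star x) s := by
  have := h.transport (Q' := QSm S) (z := x) (w := star x) hx (by
    intro a b hab _ _
    obtain ⟨h1, h2⟩ := hab
    subst h1
    exact ⟨by rw [star_mul], hS.mul hxS h2⟩)
  rwa [hxe] at this

/-- Composition of star frames at a level. -/
theorem Fr.comp_level (hS : ClS S) {P : ι → A} {a : V → Multiset ι} {e : A}
    {t : Multiset V} (h : Fr (QSm S) p e t) :
    (∀ v ∈ t, Fr (QSm S) P (p v) (a v)) → Fr (QSm S) P e (t.bind a) := by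
  induction h with
  | zero => intro _; rw [Multiset.zero_bind]; exact Fr.zero
  | @cons x y e i s h0 h1 h2 h3 h4 h5 h6 ih =>
    intro hP
    have ih' := ih fun v hv => hP v (Multiset.mem_cons_of_mem hv)
    rw [Multiset.cons_bind]
    obtain ⟨h0, h0'⟩ := h0
    subst h0
    apply ((hP i (Multiset.mem_cons_self i s)).transport_level hS h0' h1 h2).add ih'
    · rw [mul_assoc, h5, mul_zero]
    · rw [← mul_assoc, h4, zero_mul]

/-- Frame with one element of an equivalent projection. -/
theorem Fr.single_level {P : ι → A} {i : ι} {e x : A} (hxS : x ∈ S)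
    (h1 : x * star x = e) (h2 : star x * x = P i) (h3 : x * P i = x) :
    Fr (QSm S) P e {i} := by
  rw [← h1]
  refine Fr.single ⟨rfl, hxS⟩ h2 h3 ?_
  have h4 : star (P i) = P i := by rw [← h2, star_mul, star_star]
  conv_lhs => rw [← h4, ← star_mul, h3]

omit [StarRing A] in
theorem Fr.eq_zero_of {Q : A → A → Prop} {P : ι → A} (hP : ∀ i, P i ≠ 0) {e : A}
    {s : Multiset ι} (h : Fr Q P e s) (he : e = 0) : s = 0 := by
  cases h with
  | zero => rfl
  | @cons x y e i s h0 h1 h2 h3 h4 h5 h6 =>
    exfalso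
    apply hP i
    have h7 : y * (x * y + e) = y := by rw [mul_add, h5, ← mul_assoc, h1, h3, add_zero]
    rw [he, mul_zero] at h7
    rw [← h1, ← h7, zero_mul]

end level

section LX

variable {K : Type*} [Field K] [StarRing K]

omit [LoopGraph G] in
theorem clS_LX (X : Set G.V) : ClS (LX K X : Set (LPA K G)) where
  add ha hb := add_mem ha hb
  mul ha hb := mul_mem ha hb
  star ha := star_mem_LX ha
  zero := zero_mem _

/-- The relation of the graph monoid at a finite level. -/
theorem Fr_congr_level {a b : Multiset G.V} (h : Mc G a b) : ∃ X : Finset G.V,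
    ∀ X' : Set G.V, (X : Set G.V) ⊆ X' → ∀ e, Fr (QSm (LX K X' : Set (LPA K G))) (pp K) e a ↔
      Fr (QSm (LX K X' : Set (LPA K G))) (pp K) e b := by
  classical
  have h' : AddConGen.Rel (Mgen G) a b := h
  clear h
  induction h' with
  | of a b hab =>
    cases hab with
    | nl v hv =>
      refine ⟨{v}, fun X' hX' e => ?_⟩
      have hvX : v ∈ X' := hX' (by simp)
      constructor
      · intro hf
        have := expand_nl (goodSm X') hv hvX (s := 0) (by simpa using hf)
        simpa using this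
      · intro hf
        have := contract_nl (goodSm X') hv hvX (s := 0) (by simpa using hf)
        simpa using this
    | lp v hv =>
      obtain ⟨c, hc⟩ := exists_loopAt hv
      refine ⟨{v}, fun X' hX' e => ?_⟩
      have hvX : v ∈ X' := hX' (by simp)
      constructor
      · intro hf
        have := expand_loop (goodSm X') hc hvX (s := 0) (by simpa using hf)
        simpa using this
      · intro hf
        have := contract_loop (goodSm X') hc hvX (s := 0) (by simpa using hf)
        simpa using this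
  | refl a => exact ⟨∅, fun _ _ _ => Iff.rfl⟩
  | symm _ ih =>
    obtain ⟨X, hX⟩ := ih
    exact ⟨X, fun X' hX' e => (hX X' hX' e).symm⟩
  | trans h1 h2 ih1 ih2 =>
    obtain ⟨X1, hX1⟩ := ih1
    obtain ⟨X2, hX2⟩ := ih2
    refine ⟨X1 ∪ X2, fun X' hX' e => ?_⟩
    rw [Finset.coe_union, Set.union_subset_iff] at hX'
    exact (hX1 X' hX'.1 e).trans (hX2 X' hX'.2 e)
  | add h1 h2 ih1 ih2 =>
    obtain ⟨X1, hX1⟩ := ih1
    obtain ⟨X2, hX2⟩ := ih2
    refine ⟨X1 ∪ X2, fun X' hX' e => ?_⟩
    rw [Finset.coe_union, Set.union_subset_iff] at hX'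
    constructor
    · intro hf
      obtain ⟨e1, e2, g1, g2, g3, g4, g5⟩ := hf.split
      rw [g1]
      exact ((hX1 X' hX'.1 e1).1 g2).add ((hX2 X' hX'.2 e2).1 g3) g4 g5
    · intro hf
      obtain ⟨e1, e2, g1, g2, g3, g4, g5⟩ := hf.split
      rw [g1]
      exact ((hX1 X' hX'.1 e1).2 g2).add ((hX2 X' hX'.2 e2).2 g3) g4 g5

end LX

end Run7.h19
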