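import Mathlib

/-!
# Powers and polynomials in corners of rings without unit (helper19)
-/

namespace Run7.h19

open Polynomial

section pw

variable {A : Type*} [NonUnitalRing A]

/-- The powers of an element of a corner. -/
def pw (p c : A) : ℕ → A
  | 0 => p
  | n + 1 => pw p c n * c

/-- The element `c` lies in the corner of the idempotent `p`. -/
structure InCor (p c : A) : Prop where
  pp : p * p = p
  pc : p * c = c
  cp : c * p = c

variable {p c d : A}

@[simp] theorem pw_zero : pw p c 0 = p := rfl

theorem pw_succ (n : ℕ) : pw p c (n + 1) = pw p c n * c := rfl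

theorem pw_one (h : InCor p c) : pw p c 1 = c := h.pc

theorem p_pw (h : InCor p c) (n : ℕ) : p * pw p c n = pw p c n := by
  induction n with
  | zero => exact h.pp
  | succ n ih => rw [pw_succ, ← mul_assoc, ih]

theorem pw_p (h : InCor p c) (n : ℕ) : pw p c n * p = pw p c n := by
  cases n with
  | zero => exact h.pp
  | succ n => rw [pw_succ, mul_assoc, h.cp]

theorem pw_add (h : InCor p c) (m n : ℕ) : pw p c (m + n) = pw p c m * pw p c n := by
  induction n with
  | zero => rw [add_zero, pw_zero, pw_p h]
  | succ n ih => rw [← add_assoc, pw_succ, ih, pw_succ, mul_assoc]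

theorem pw_succ' (h : InCor p c) (n : ℕ) : pw p c (n + 1) = c * pw p c n := by
  rw [add_comm, pw_add h, pw_one h]

theorem pw_mul_pw (hc : InCor p c) (hdc : d * c = p) (n : ℕ) :
    pw p d n * pw p c n = p := by
  induction n with
  | zero => exact hc.pp
  | succ n ih =>
    rw [pw_succ, pw_succ' hc, mul_assoc, ← mul_assoc d, hdc, p_pw hc, ih]

theorem pw_mul_pw_add (hc : InCor p c) (hdc : d * c = p) (n m : ℕ) :
    pw p d n * pw p c (n + m) = pw p c m := by
  rw [pw_add hc, ← mul_assoc, pw_mul_pw hc hdc, p_pw hc]

theorem mul_pw_mono (h : InCor p c) {a : A} {n m : ℕ} (hnm : n ≤ m) (ha : a * pw p c n = 0) :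
    a * pw p c m = 0 := by
  obtain ⟨j, rfl⟩ := Nat.exists_eq_add_of_le hnm
  rw [pw_add h, ← mul_assoc, ha, zero_mul]

theorem pw_mul_mono (h : InCor p c) {a : A} {n m : ℕ} (hnm : n ≤ m) (ha : pw p c n * a = 0) :
    pw p c m * a = 0 := by
  obtain ⟨j, rfl⟩ := Nat.exists_eq_add_of_le hnm
  rw [add_comm, pw_add h, mul_assoc, ha, mul_zero]

theorem pw_star [StarRing A] (hp : star p = p) (h : InCor p c) (n : ℕ) :
    star (pw p c n) = pw p (star c) n := by
  have hs : InCor p (star c) := by
    refine ⟨h.pp, ?_, ?_⟩
    · conv_lhs => rw [← hp, ← star_mul, h.cp]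
    · conv_lhs => rw [← hp, ← star_mul, h.pc]
  induction n with
  | zero => exact hp
  | succ n ih => rw [pw_succ, star_mul, ih, pw_succ' hs]

theorem InCor.star [StarRing A] (hp : star p = p) (h : InCor p c) : InCor p (star c) := by
  refine ⟨h.pp, ?_, ?_⟩
  · conv_lhs => rw [← hp, ← star_mul, h.cp]
  · conv_lhs => rw [← hp, ← star_mul, h.pc]

theorem map_pw {B : Type*} [NonUnitalRing B] {F : Type*} [FunLike F A B]
    [NonUnitalRingHomClass F A B] (f : F) (n : ℕ) : f (pw p c n) = pw (f p) (f c) n := by
  induction n with
  | zero => rfl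
  | succ n ih => rw [pw_succ, map_mul, ih, pw_succ]

end pw

section ev

variable {K : Type*} [Field K] {A : Type*} [NonUnitalRing A] [Module K A] [IsScalarTower K A A]
  [SMulCommClass K A A] {p c : A}

/-- The evaluation of polynomials at an element of a corner. -/
noncomputable def evp (K : Type*) [Field K] {A : Type*} [NonUnitalRing A] [Module K A]
    (p c : A) : K[X] →ₗ[K] A :=
  Polynomial.lsum fun n => LinearMap.toSpanSingleton K A (pw p c n)

omit [IsScalarTower K A A] [SMulCommClass K A A] in
theorem evp_monomial (n : ℕ) (a : K) : evp K p c (monomial n a) = a • pw p c n := by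
  rw [evp, Polynomial.lsum_apply, Polynomial.sum_monomial_index]
  · rfl
  · simp

omit [IsScalarTower K A A] [SMulCommClass K A A] in
theorem evp_C (a : K) : evp K p c (C a) = a • p := by
  rw [← monomial_zero_left, evp_monomial, pw_zero]

omit [IsScalarTower K A A] [SMulCommClass K A A] in
theorem evp_one : evp K p c 1 = p := by
  rw [← C_1, evp_C, one_smul]

omit [IsScalarTower K A A] [SMulCommClass K A A] in
theorem evp_X_pow (n : ℕ) : evp K p c (X ^ n) = pw p c n := by
  rw [← monomial_one_right_eq_X_pow, evp_monomial, one_smul]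

omit [IsScalarTower K A A] [SMulCommClass K A A] in
theorem evp_X (h : InCor p c) : evp K p c X = c := by
  rw [← pow_one X, evp_X_pow, pw_one h]

theorem evp_mul (h : InCor p c) (q r : K[X]) :
    evp K p c (q * r) = evp K p c q * evp K p c r := by
  induction q using Polynomial.induction_on' with
  | add q q' hq hq' => rw [add_mul, map_add, hq, hq', map_add, add_mul]
  | monomial n a =>
    induction r using Polynomial.induction_on' with
    | add r r' hr hr' => rw [mul_add, map_add, hr, hr', map_add, mul_add]
    | monomial m b =>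
      rw [monomial_mul_monomial, evp_monomial, evp_monomial, evp_monomial, pw_add h,
        smul_mul_smul_comm]

theorem p_evp (h : InCor p c) (q : K[X]) : p * evp K p c q = evp K p c q := by
  have := evp_mul (K := K) h 1 q
  rw [one_mul, evp_one] at this
  exact this.symm

theorem evp_p (h : InCor p c) (q : K[X]) : evp K p c q * p = evp K p c q := by
  have := evp_mul (K := K) h q 1
  rw [mul_one, evp_one] at this
  exact this.symm

theorem evp_mul_pw (h : InCor p c) (q : K[X]) (n : ℕ) :
    evp K p c q * pw p c n = evp K p c (q * X ^ n) := by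
  rw [evp_mul h, evp_X_pow]

theorem pw_mul_evp (h : InCor p c) (q : K[X]) (n : ℕ) :
    pw p c n * evp K p c q = evp K p c q * pw p c n := by
  rw [evp_mul_pw h, mul_comm, evp_mul h, evp_X_pow]

omit [IsScalarTower K A A] [SMulCommClass K A A] in
theorem map_evp {B : Type*} [NonUnitalRing B] [Module K B] (f : A →ₙₐ[K] B) (q : K[X]) :
    f (evp K p c q) = evp K (f p) (f c) q := by
  induction q using Polynomial.induction_on' with
  | add q q' hq hq' => rw [map_add, map_add, hq, hq', map_add]
  | monomial n a => rw [evp_monomial, map_smul, map_pw, evp_monomial]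

omit [IsScalarTower K A A] [SMulCommClass K A A] in
theorem evp_mem (S : NonUnitalSubalgebra K A) (hp : p ∈ S) (hc : c ∈ S) (q : K[X]) :
    evp K p c q ∈ S := by
  have hpw : ∀ n, pw p c n ∈ S := by
    intro n
    induction n with
    | zero => exact hp
    | succ n ih => exact mul_mem ih hc
  induction q using Polynomial.induction_on' with
  | add q q' hq hq' => rw [map_add]; exact add_mem hq hq'
  | monomial n a => rw [evp_monomial]; exact S.smul_mem _ (hpw n)

omit [IsScalarTower K A A] [SMulCommClass K A A] in
theorem pw_mem (S : NonUnitalSubalgebra K A) (hp : p ∈ S) (hc : c ∈ S) (n : ℕ) :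
    pw p c n ∈ S := by
  induction n with
  | zero => exact hp
  | succ n ih => exact mul_mem ih hc

end ev

end Run7.h19
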