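import Pool.Agent.Run7.h19.Stab

/-!
# The stabilisation of a graph (helper19)
-/

namespace Run7.h19

open Pool.Agent.Helper665_GA LoopGraph

/-- The stabilisation: infinitely many new sources are attached to every vertex, iterated. -/
abbrev stab (G : Graph) : Graph where
  V := G.V × List ℕ
  E := G.E ⊕ (G.V × ℕ × List ℕ)
  src := Sum.elim (fun e => (G.src e, [])) fun x => (x.1, x.2.1 :: x.2.2)
  rng := Sum.elim (fun e => (G.rng e, [])) fun x => (x.1, x.2.2)

variable {G : Graph}

/-- The vertices of the stabilisation. -/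
abbrev sv (v : G.V) (l : List ℕ) : (stab G).V := (v, l)

theorem stab_adj {x y : (stab G).V} (h : (stab G).Adj x y) :
    (x.1 = y.1 ∧ ∃ n, x.2 = n :: y.2) ∨ (x.2 = [] ∧ y.2 = [] ∧ G.Adj x.1 y.1) := by
  obtain ⟨e, rfl, rfl⟩ := h
  rcases e with e | ⟨v, n, l⟩
  · exact Or.inr ⟨rfl, rfl, e, rfl, rfl⟩
  · exact Or.inl ⟨rfl, n, rfl⟩

theorem stab_reach {x y : (stab G).V} (h : Reach x y) :
    (y.2.length < x.2.length) ∨ x = y ∨ (x.2 = [] ∧ y.2 = [] ∧ Reach x.1 y.1) := by
  induction h with
  | refl => exact Or.inr (Or.inl rfl)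
  | tail h1 h2 ih =>
    rename_i b c
    rcases stab_adj h2 with ⟨h3, n, h4⟩ | ⟨h3, h4, h5⟩
    · left
      rcases ih with h6 | rfl | ⟨h6, h7, h8⟩
      · rw [h4, List.length_cons] at h6; omega
      · rw [h4, List.length_cons]; omega
      · rw [h7] at h4; exact absurd h4 (by simp)
    · rcases ih with h6 | rfl | ⟨h6, h7, h8⟩
      · left; rw [h4]; rw [h3] at h6; exact h6
      · exact Or.inr (Or.inr ⟨h3, h4, Relation.ReflTransGen.single h5⟩)
      · exact Or.inr (Or.inr ⟨h6, h4, h8.tail h5⟩)

theorem reach_stab {v w : G.V} (h : Reach v w) :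
    Reach (sv v []) (sv w []) := by
  induction h with
  | refl => exact Relation.ReflTransGen.refl
  | tail h1 h2 ih =>
    obtain ⟨e, rfl, rfl⟩ := h2
    exact ih.tail ⟨Sum.inl e, rfl, rfl⟩

variable [LoopGraph G]

noncomputable instance : LoopGraph (stab G) where
  out x := match x with
    | (v, []) => (out v).map ⟨Sum.inl, Sum.inl_injective⟩
    | (v, n :: l) => {Sum.inr (v, n, l)}
  mem_out x e := by
    obtain ⟨v, l⟩ := x
    cases l with
    | nil =>
      simp only [Finset.mem_map, Function.Embedding.coeFn_mk]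
      constructor
      · rintro ⟨e, he, rfl⟩
        show (G.src e, []) = (v, [])
        rw [(mem_out v e).1 he]
      · intro h
        rcases e with e | ⟨w, n, l⟩
        · exact ⟨e, (mem_out v e).2 (Prod.ext_iff.1 h).1, rfl⟩
        · exact absurd (Prod.ext_iff.1 h).2 (by simp)
    | cons n l =>
      simp only [Finset.mem_singleton]
      constructor
      · rintro rfl; rfl
      · intro h
        rcases e with e | ⟨w, m, l'⟩
        · exact absurd (Prod.ext_iff.1 h).2 (by simp)
        · have h1 := (Prod.ext_iff.1 h).1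
          have h2 := (Prod.ext_iff.1 h).2
          simp only [Sum.elim_inr, List.cons.injEq] at h1 h2
          rw [h1, h2.1, h2.2]
  antisymm x y h1 h2 := by
    rcases stab_reach h1 with h3 | h3 | ⟨h3, h4, h5⟩
    · rcases stab_reach h2 with h6 | h6 | ⟨h6, h7, h8⟩
      · omega
      · exact h6.symm
      · rw [h6, h7] at h3; exact absurd h3 (by simp)
    · exact h3
    · rcases stab_reach h2 with h6 | h6 | ⟨h6, h7, h8⟩
      · rw [h3, h4] at h6; exact absurd h6 (by simp)
      · exact h6.symm
      · exact Prod.ext (antisymm _ _ h5 h8) (h3.trans h4.symm)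
  loop_unique e f he hf hef := by
    rcases e with e | ⟨v, n, l⟩
    · rcases f with f | ⟨w, m, l'⟩
      · congr 1
        exact loop_unique e f (Prod.ext_iff.1 he).1 (Prod.ext_iff.1 hf).1 (Prod.ext_iff.1 hef).1
      · exact absurd (Prod.ext_iff.1 hef).2 (by simp)
    · have h1 := (Prod.ext_iff.1 he).2
      simp only [Sum.elim_inr] at h1
      have h2 := congrArg List.length h1
      rw [List.length_cons] at h2
      omega

omit [LoopGraph G] in
theorem stab_isLoop {x : (stab G).V} : IsLoop x ↔ x.2 = [] ∧ IsLoop x.1 := by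
  constructor
  · rintro ⟨e, h1, h2⟩
    rcases e with e | ⟨v, n, l⟩
    · rw [← h1]
      refine ⟨rfl, e, rfl, ?_⟩
      exact (Prod.ext_iff.1 (h2.trans h1.symm)).1
    · have h3 := (Prod.ext_iff.1 (h2.trans h1.symm)).2
      simp only [Sum.elim_inr] at h3
      have h4 := congrArg List.length h3
      rw [List.length_cons] at h4
      omega
  · rintro ⟨h1, e, h2, h3⟩
    refine ⟨Sum.inl e, ?_, ?_⟩
    · exact Prod.ext h2 h1.symm
    · exact Prod.ext h3 h1.symm

theorem stab_xs_nil (v : G.V) :
    xs (sv v []) = (xs v).map fun w => sv w [] := by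
  have h1 : exits (sv v []) = (exits v).map ⟨Sum.inl, Sum.inl_injective⟩ := by
    ext e
    rw [mem_exits, Finset.mem_map]
    constructor
    · rintro ⟨h1, h2⟩
      rcases e with e | ⟨w, n, l⟩
      · refine ⟨e, mem_exits.2 ⟨(Prod.ext_iff.1 h1).1, fun h3 => h2 ?_⟩, rfl⟩
        exact Prod.ext h3 rfl
      · exact absurd (Prod.ext_iff.1 h1).2 (by simp)
    · rintro ⟨e, he, rfl⟩
      obtain ⟨h3, h4⟩ := mem_exits.1 he
      exact ⟨Prod.ext h3 rfl, fun h5 => h4 (Prod.ext_iff.1 h5).1⟩
  rw [xs, h1, Finset.map_val, Multiset.map_map, xs, Multiset.map_map]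
  rfl

theorem stab_xs_cons (v : G.V) (n : ℕ) (l : List ℕ) :
    xs (sv v (n :: l)) = {sv v l} := by
  have h1 : exits (sv v (n :: l)) = {Sum.inr (v, n, l)} := by
    ext e
    rw [mem_exits, Finset.mem_singleton]
    constructor
    · rintro ⟨h1, -⟩
      exact Finset.mem_singleton.1 ((mem_out (G := stab G) (sv v (n :: l)) e).2 h1)
    · rintro rfl
      refine ⟨rfl, fun h2 => ?_⟩
      have h3 := congrArg List.length (Prod.ext_iff.1 h2).2
      simp only [Sum.elim_inr, List.length_cons] at h3
      omega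
  rw [xs, h1]
  rfl

theorem stab_nl_cons (v : G.V) (n : ℕ) (l : List ℕ) : Nl (sv v (n :: l)) := by
  refine ⟨fun h => ?_, ?_⟩
  · exact absurd (stab_isLoop.1 h).1 (by simp)
  · by_contra hc
    rw [Finset.not_nonempty_iff_eq_empty] at hc
    have h1 := stab_xs_cons v n l
    rw [xs, hc] at h1
    simp at h1

omit [LoopGraph G] in
theorem stable_stab : Stable (stab G) := by
  classical
  rintro ⟨v, l⟩ Z
  obtain ⟨n, hn⟩ := Infinite.exists_notMem_finset
    (Z.biUnion fun x => match x.2 with | [] => ∅ | m :: _ => {m})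
  refine ⟨Sum.inr (v, n, l), ?_, rfl, ?_⟩
  · intro h
    apply hn
    rw [Finset.mem_biUnion]
    exact ⟨_, h, by simp⟩
  · intro e' he'
    rcases e' with e | ⟨w, m, l'⟩
    · exact absurd (Prod.ext_iff.1 he').2 (by simp)
    · have h1 := (Prod.ext_iff.1 he').1
      have h2 := (Prod.ext_iff.1 he').2
      simp only [Sum.elim_inr, List.cons.injEq] at h1 h2
      rw [h1, h2.1, h2.2]

/-! ### the graph monoid -/

theorem mk_map_congr {a : Multiset G.V} {b : Multiset (stab G).V}
    (h : b = a.map fun w => sv w []) :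
    mk b = mk (a.map fun w => sv w []) := by rw [h]

/-- The homomorphism of graph monoids given by the inclusion. -/
noncomputable def stF : MG G →+ MG (stab G) :=
  AddCon.lift (Mc G)
    { toFun := fun s => mk (s.map fun w => sv w [])
      map_zero' := by simp [mk_zero]
      map_add' := fun s t => by rw [Multiset.map_add, mk_add] } (by
    apply AddCon.addConGen_le.2
    intro a b hab
    rw [AddCon.ker_rel]
    cases hab with
    | nl v h =>
      show mk (({v} : Multiset G.V).map _) = mk ((xs v).map _)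
      rw [Multiset.map_singleton, ← stab_xs_nil]
      apply mk_eq'.2
      apply Mc_nl
      refine ⟨fun h1 => h.1 (stab_isLoop.1 h1).2, ?_⟩
      obtain ⟨e, he⟩ := h.2
      obtain ⟨h3, h4⟩ := mem_exits.1 he
      exact ⟨Sum.inl e, mem_exits.2 ⟨Prod.ext h3 rfl, fun h5 => h4 (Prod.ext_iff.1 h5).1⟩⟩
    | lp v h =>
      show mk (({v} : Multiset G.V).map _) = mk (({v} + xs v : Multiset G.V).map _)
      rw [Multiset.map_add, Multiset.map_singleton, ← stab_xs_nil]
      exact mk_eq'.2 (Mc_lp (stab_isLoop.2 ⟨rfl, h⟩)))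

theorem stF_mk (s : Multiset G.V) : stF (mk s) = mk (s.map fun w => sv w []) :=
  rfl

/-- The inverse homomorphism. -/
noncomputable def stB : MG (stab G) →+ MG G :=
  AddCon.lift (Mc (stab G))
    { toFun := fun s => mk (s.map Prod.fst)
      map_zero' := by simp [mk_zero]
      map_add' := fun s t => by rw [Multiset.map_add, mk_add] } (by
    apply AddCon.addConGen_le.2
    intro a b hab
    rw [AddCon.ker_rel]
    cases hab with
    | nl v h =>
      obtain ⟨v, l⟩ := v
      show mk ({v} : Multiset G.V) = mk ((xs (sv v l)).map Prod.fst)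
      cases l with
      | nil =>
        rw [stab_xs_nil, Multiset.map_map]
        have h1 : (xs v).map (Prod.fst ∘ fun w => sv w []) = xs v := by
          conv_rhs => rw [← Multiset.map_id (xs v)]
          rfl
        rw [h1]
        apply mk_eq'.2
        apply Mc_nl
        refine ⟨fun h1 => h.1 (stab_isLoop.2 ⟨rfl, h1⟩), ?_⟩
        obtain ⟨e, he⟩ := h.2
        obtain ⟨h3, h4⟩ := mem_exits.1 he
        rcases e with e | ⟨w, n, l⟩
        · exact ⟨e, mem_exits.2 ⟨(Prod.ext_iff.1 h3).1, fun h5 => h4 (Prod.ext h5 rfl)⟩⟩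
        · exact absurd (Prod.ext_iff.1 h3).2 (by simp)
      | cons n l =>
        rw [stab_xs_cons]
        rfl
    | lp v h =>
      obtain ⟨v, l⟩ := v
      have hl := stab_isLoop.1 h
      have hl1 : l = [] := hl.1
      subst hl1
      show mk ({v} : Multiset G.V) = mk (({sv v []} + xs (sv v [])).map Prod.fst)
      rw [stab_xs_nil, Multiset.map_add, Multiset.map_map, Multiset.map_singleton]
      have h1 : (xs v).map (Prod.fst ∘ fun w => sv w []) = xs v := by
        conv_rhs => rw [← Multiset.map_id (xs v)]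
        rfl
      rw [h1]
      exact mk_eq'.2 (Mc_lp hl.2))

theorem stB_mk (s : Multiset (stab G).V) : stB (mk s) = mk (s.map Prod.fst) := rfl

theorem mk_stab_cons (v : G.V) (l : List ℕ) :
    mk {sv v l} = mk {sv v []} := by
  induction l with
  | nil => rfl
  | cons n l ih =>
    rw [← ih, ← stab_xs_cons v n l]
    exact mk_eq'.2 (Mc_nl (stab_nl_cons v n l))

/-- The isomorphism of the graph monoids. -/
noncomputable def stMG : MG G ≃+ MG (stab G) :=
  { stF with
    invFun := stB
    left_inv := by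
      intro m
      obtain ⟨s, rfl⟩ := mk_surj m
      show stB (stF (mk s)) = mk s
      rw [stF_mk, stB_mk, Multiset.map_map]
      congr 1
      conv_rhs => rw [← Multiset.map_id s]
      rfl
    right_inv := by
      intro m
      obtain ⟨s, rfl⟩ := mk_surj m
      show stF (stB (mk s)) = mk s
      rw [stB_mk, stF_mk, Multiset.map_map]
      induction s using Multiset.induction_on with
      | empty => rfl
      | cons x s ih =>
        rw [Multiset.map_cons, mk_cons, ih, mk_cons x s]
        congr 1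
        obtain ⟨v, l⟩ := x
        exact (mk_stab_cons v l).symm }

theorem stMG_mk (s : Multiset G.V) :
    stMG (mk s) = mk (s.map fun w => sv w []) := rfl

theorem Corr_stab {G' : Graph} [LoopGraph G'] {f : MG G ≃+ MG G'} (hf : Corr f) :
    Corr (stMG.symm.trans (f.trans stMG)) := by
  rintro ⟨i, l⟩ hi
  obtain ⟨h1, h2⟩ := stab_isLoop.1 hi
  have hl : l = [] := h1
  subst hl
  obtain ⟨k, hk1, hk2, y, hk3, hk4⟩ := hf i h2
  refine ⟨(k, []), stab_isLoop.2 ⟨rfl, hk1⟩, ?_, y.map fun w => sv w [], ?_, ?_⟩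
  · rw [stab_xs_nil, stab_xs_nil, ← stMG_mk, ← stMG_mk]
    show stMG (f (stMG.symm (stMG (mk (xs i))))) = _
    rw [AddEquiv.symm_apply_apply]
    exact congrArg stMG hk2
  · have e1 : mk {sv i []} = stMG (mk {i}) := rfl
    have e2 : mk {sv k []} = stMG (mk {k}) := rfl
    rw [e1, e2, ← stMG_mk, ← map_add]
    show stMG (f (stMG.symm (stMG (mk {i})))) = _
    rw [AddEquiv.symm_apply_apply]
    exact congrArg stMG hk3
  · intro v hv
    obtain ⟨w, hw, rfl⟩ := Multiset.mem_map.1 hv
    obtain ⟨u, hu, huw⟩ := hk4 w hw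
    rw [stab_xs_nil]
    exact ⟨(u, []), Multiset.mem_map.2 ⟨u, hu, rfl⟩, reach_stab huw⟩

end Run7.h19
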