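import Pool.Agent.Run7.h19.Ext
import Pool.Agent.Run7.h19.Full

/-!
# Levels and cores (helper19)
-/

namespace Run7.h19

open Pool.Agent.Helper665_GA LoopGraph

variable {K : Type*} [Field K] [StarRing K] {G H : Graph} [LoopGraph G]

theorem Honest.sf {P C : LPA K G} {k : G.V} {c : G.E} (h : Honest P C k c) :
    ∃ y : Multiset G.V, SF K P (k ::ₘ y) ∧ ∀ v ∈ y, Rch (xs k) v := by
  obtain ⟨x0, P', y, f1, f2, f3, f4, f5, f6, -⟩ := h.frame
  refine ⟨y, ?_, f6⟩
  have h3 : pp K k * star x0 = star x0 := by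
    conv_lhs => rw [← star_pp, ← star_mul, f3]
  have h5 : star x0 * P' = 0 := by
    have : star P' = P' := f5.star_eq
    rw [← star_star (star x0 * P'), star_mul, star_star, this, f4, star_zero]
  rw [f1]
  exact Fr.cons (Q := QSt) rfl f2 f3 h3 f4 h5 f5

section side

variable [LoopGraph H] [Fintype H.V]

/-- A homomorphism of a finite graph with honest loops. -/
structure Side (σ : LPA K H →⋆ₙₐ[K] LPA K G) (κ : H.V → G.V) (a : H.V → Multiset G.V)
    (Z : Finset G.V) : Prop where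
  ofS ::
  sf : ∀ v, SF K (σ (pp K v)) (a v)
  ne : ∀ v, a v ≠ 0
  unit : ∑ v, σ (pp K v) = ∑ z ∈ Z, pp K z
  hon : ∀ v c, LoopAt v c → ∃ d, Honest (σ (pp K v)) (σ (ss K c)) (κ v) d
  inj : ∀ v w, IsLoop v → IsLoop w → κ v = κ w → v = w

end side

/-- The level contains all data. -/
structure LevOK (σ : LPA K H →⋆ₙₐ[K] LPA K G) (κ : H.V → G.V) (a y z : H.V → Multiset G.V)
    (X : Set G.V) : Prop where
  mem : ∀ x, σ x ∈ LX K X
  fr : ∀ w, Fr (QSm (LX K X : Set (LPA K G))) (pp K) (σ (pp K w)) (a w)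
  sub : ∀ w, ∀ u ∈ a w, u ∈ X
  lp : ∀ w, IsLoop w → IsLoop (κ w) ∧ κ w ∈ X ∧
    Fr (QSm (LX K X : Set (LPA K G))) (pp K) (σ (pp K w)) (κ w ::ₘ y w) ∧
    (∀ v ∈ y w, Rch (xs (κ w)) v) ∧ (∀ v ∈ z w, v ∈ X ∧ Rch (xs (κ w)) v) ∧
    ∀ e, Fr (QSm (LX K X : Set (LPA K G))) (pp K) e {κ w} ↔
      Fr (QSm (LX K X : Set (LPA K G))) (pp K) e ((κ w ::ₘ y w) + z w)

theorem exists_levOK [LoopGraph H] [Fintype H.V] [Finite H.E] {σ : LPA K H →⋆ₙₐ[K] LPA K G}
    {κ : H.V → G.V} {a : H.V → Multiset G.V} {Z : Finset G.V} (h : Side σ κ a Z) :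
    ∃ (y z : H.V → Multiset G.V) (X : Finset G.V), ∀ X' : Set G.V, (X : Set G.V) ⊆ X' →
      LevOK σ κ a y z X' := by
  classical
  have : Fintype H.E := Fintype.ofFinite _
  choose X1 hX1 using fun v : H.V => exists_LX (σ (pp K v))
  choose X2 hX2 using fun e : H.E => exists_LX (σ (ss K e))
  choose X3 hX3 using fun e : H.E => exists_LX (σ (tt K e))
  choose X4 hX4 using fun v : H.V => SF_level (h.sf v)
  have hlp : ∀ w : H.V, ∃ (y z : Multiset G.V) (X : Finset G.V), IsLoop w → IsLoop (κ w) ∧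
      (∀ v ∈ y, Rch (xs (κ w)) v) ∧ (∀ v ∈ z, Rch (xs (κ w)) v) ∧
      ∀ X' : Set G.V, (X : Set G.V) ⊆ X' →
        Fr (QSm (LX K X' : Set (LPA K G))) (pp K) (σ (pp K w)) (κ w ::ₘ y) ∧
        ∀ e, Fr (QSm (LX K X' : Set (LPA K G))) (pp K) e {κ w} ↔
          Fr (QSm (LX K X' : Set (LPA K G))) (pp K) e ((κ w ::ₘ y) + z) := by
    intro w
    by_cases hw : IsLoop w
    · obtain ⟨c, hc⟩ := exists_loopAt hw
      obtain ⟨d, hd⟩ := h.hon w c hc
      obtain ⟨y, hy1, hy2⟩ := hd.sf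
      have hk : IsLoop (κ w) := hd.loop.isLoop
      obtain ⟨z, hz1, hz2⟩ := exists_absorb hk hy2
      have hz1' : mk {κ w} = mk ((κ w ::ₘ y) + z) := hz1
      obtain ⟨U1, hU1⟩ := SF_level hy1
      obtain ⟨U2, hU2⟩ := Fr_congr_level (K := K) (mk_eq'.1 hz1')
      refine ⟨y, z, U1 ∪ U2, fun _ => ⟨hk, hy2, hz2, fun X' hX' => ?_⟩⟩
      rw [Finset.coe_union, Set.union_subset_iff] at hX'
      exact ⟨hU1 X' hX'.1, hU2 X' hX'.2⟩
    · exact ⟨0, 0, ∅, fun h => absurd h hw⟩
  choose y z X5 hX5 using hlp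
  refine ⟨y, z, (Finset.univ.biUnion X1) ∪ (Finset.univ.biUnion X2) ∪ (Finset.univ.biUnion X3) ∪
    (Finset.univ.biUnion X4) ∪ (Finset.univ.biUnion X5) ∪
    (Finset.univ.biUnion fun w => (a w).toFinset) ∪ (Finset.univ.biUnion fun w => (z w).toFinset) ∪
    (Finset.univ.image κ), fun X' hX' => ?_⟩
  simp only [Finset.coe_union, Set.union_subset_iff, Finset.coe_biUnion, Finset.coe_univ,
    Set.mem_univ, Set.iUnion_true, Set.iUnion_subset_iff, Finset.coe_image, Set.image_univ,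
    Set.range_subset_iff] at hX'
  obtain ⟨⟨⟨⟨⟨⟨⟨i1, i2⟩, i3⟩, i4⟩, i5⟩, i6⟩, i7⟩, i8⟩ := hX'
  refine ⟨?_, ?_, ?_, ?_⟩
  · exact map_mem_of_gen σ _ (fun v => LX_mono (i1 v) (hX1 v)) (fun e => LX_mono (i2 e) (hX2 e))
      (fun e => LX_mono (i3 e) (hX3 e))
  · exact fun w => hX4 w X' (i4 w)
  · intro w u hu
    exact i6 w (by simpa using hu)
  · intro w hw
    obtain ⟨g1, g2, g3, g4⟩ := hX5 w hw
    obtain ⟨g5, g6⟩ := g4 X' (i5 w)
    exact ⟨g1, i8 w, g5, g2, fun v hv => ⟨i7 w (by simpa using hv), g3 v hv⟩, g6⟩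

omit [LoopGraph G] in
theorem Fr_pp_level (W : Set G.V) (v : G.V) :
    Fr (QSm (LX K W : Set (LPA K G))) (pp K) (pp K v) {v} := by
  have := Fr.single (Q := QSm (LX K W : Set (LPA K G))) (p := pp K) (v := v) (x := pp K v)
    (y := pp K v) ⟨(star_pp v).symm, pp_mem v⟩ (pp_pp v) (pp_pp v) (pp_pp v)
  rwa [pp_pp] at this

/-- Frames of the vertices with respect to the cores. -/
theorem exists_core_frame {σ : LPA K H →⋆ₙₐ[K] LPA K G} {κ : H.V → G.V}
    {a y z : H.V → Multiset G.V} {X Y : Finset G.V} {rk : G.V → ℕ} (L : Lev X Y rk)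
    (hX : LevOK σ κ a y z (X : Set G.V)) {W : Set G.V} (hXW : (X : Set G.V) ⊆ W)
    (hW : LevOK σ κ a y z W) {ι : Type*} {P : ι → LPA K G} {Cr : ι → Prop}
    (h1 : ∀ i ∈ Y, (Atom (X : Set G.V) i ∨ IsLoop i) → (¬ ∃ w, IsLoop w ∧ κ w = i) →
      ∃ m, (∀ j ∈ m, Cr j) ∧ Fr (QSm (LX K W : Set (LPA K G))) P (pp K i) m)
    (h2 : ∀ w, IsLoop w → ∃ j, Cr j ∧ P j = σ (pp K w)) : ∀ n, ∀ v ∈ Y, rk v ≤ n →
      ∃ m, (∀ j ∈ m, Cr j) ∧ Fr (QSm (LX K W : Set (LPA K G))) P (pp K v) m := by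
  intro n
  induction n using Nat.strong_induction_on with
  | _ n IH =>
  intro v hv hn
  have hcomp : ∀ (e : LPA K G) (s : Multiset G.V), Fr (QSm (LX K W : Set (LPA K G))) (pp K) e s →
      (∀ w ∈ s, w ∈ Y ∧ rk w < n) →
      ∃ m, (∀ j ∈ m, Cr j) ∧ Fr (QSm (LX K W : Set (LPA K G))) P e m := by
    intro e s hf hs
    have : ∀ w, w ∈ s → ∃ m, (∀ j ∈ m, Cr j) ∧
        Fr (QSm (LX K W : Set (LPA K G))) P (pp K w) m := fun w hw =>
      IH (rk w) (hs w hw).2 w (hs w hw).1 le_rfl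
    choose! m hm using this
    refine ⟨s.bind m, ?_, hf.comp_level (clS_LX W) fun w hw => (hm w hw).2⟩
    intro j hj
    obtain ⟨w, hw, hj⟩ := Multiset.mem_bind.1 hj
    exact (hm w hw).1 j hj
  rcases Lev.cases (X := X) v with h3 | ⟨h3, h4⟩ | ⟨h3, h4⟩
  · apply h1 v hv (Or.inl h3)
    rintro ⟨w, hw, rfl⟩
    obtain ⟨⟨e, he, -⟩, g2, -⟩ := hX.lp w hw
    exact h3 e he g2
  · have h5 := expand_nl (goodSm W) h4 (hXW h3) (s := 0) (Fr_pp_level (K := K) W v)
    rw [add_zero] at h5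
    apply hcomp _ _ h5
    intro w hw
    obtain ⟨h6, h7⟩ := L.xs_lt h3 hw
    exact ⟨h6, by omega⟩
  · by_cases h5 : ∃ w, IsLoop w ∧ κ w = v
    · obtain ⟨w, hw, rfl⟩ := h5
      obtain ⟨g1, g2, g3, g4, g5, g6⟩ := hW.lp w hw
      obtain ⟨-, -, -, -, g5', -⟩ := hX.lp w hw
      obtain ⟨e1, e2, k1, k2, k3, k4, k5⟩ := ((g6 _).1 (Fr_pp_level (K := K) W (κ w))).split
      obtain ⟨j, hCj, hj⟩ := h2 w hw
      obtain ⟨x, x1, x2, x3, x4, x5⟩ := exists_pi_of_frames' (clS_LX W) k2 g3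
      rw [← hj] at x3 x5
      have k6 := Fr.single_level (P := P) x1 x2 x3 x5
      obtain ⟨m, hm, hm'⟩ := hcomp e2 _ k3 (by
        intro u hu
        obtain ⟨h6, h7⟩ := g5' u hu
        have h8 := Rch_xs.1 h7
        have h9 := L.lt _ hv u (L.sub h6) h8.1 h8.2
        exact ⟨L.sub h6, by omega⟩)
      rw [k1]
      refine ⟨{j} + m, ?_, k6.add hm' k4 k5⟩
      intro i hi
      rcases Multiset.mem_add.1 hi with hi | hi
      · rw [Multiset.mem_singleton.1 hi]; exact hCj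
      · exact hm i hi
    · exact h1 v hv (Or.inr h4) h5

/-! ### far copies -/

/-- Every vertex has infinitely many copies which emit exactly one edge. -/
def Stable (G : Graph) : Prop := ∀ (v : G.V) (Z : Finset G.V), ∃ e, G.src e ∉ Z ∧ G.rng e = v ∧
  ∀ e', G.src e' = G.src e → e' = e

omit [LoopGraph G] in
theorem exists_far (hG : Stable G) (T Z : Finset G.V) : ∃ ε : G.V → G.E, ∀ i ∈ T,
    (G.src (ε i) ∉ Z ∧ G.rng (ε i) = i ∧ (∀ e', G.src e' = G.src (ε i) → e' = ε i)) ∧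
    ∀ j ∈ T, G.src (ε i) = G.src (ε j) → i = j := by
  classical
  induction T using Finset.induction_on with
  | empty =>
    by_cases h : Nonempty G.V
    · obtain ⟨v⟩ := h
      obtain ⟨e, -⟩ := hG v ∅
      exact ⟨fun _ => e, by simp⟩
    · exact ⟨fun v => (h ⟨v⟩).elim, by simp⟩
  | insert a T ha ih =>
    obtain ⟨ε, hε⟩ := ih
    obtain ⟨e, he1, he2, he3⟩ := hG a (Z ∪ T.image fun i => G.src (ε i))
    rw [Finset.notMem_union] at he1
    have hne : ∀ i ∈ T, i ≠ a := by rintro i hi rfl; exact ha hi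
    refine ⟨Function.update ε a e, ?_⟩
    intro i hi0
    rcases Finset.mem_insert.1 hi0 with rfl | hi
    · refine ⟨by simpa using ⟨he1.1, he2, he3⟩, ?_⟩
      intro j hj0
      rcases Finset.mem_insert.1 hj0 with rfl | hj
      · exact fun _ => rfl
      · rw [Function.update_self, Function.update_of_ne (hne j hj)]
        intro h
        exact absurd (Finset.mem_image.2 ⟨j, hj, h.symm⟩) he1.2
    · rw [Function.update_of_ne (hne i hi)]
      refine ⟨(hε i hi).1, ?_⟩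
      intro j hj0
      rcases Finset.mem_insert.1 hj0 with rfl | hj
      · rw [Function.update_self]
        intro h
        exact absurd (Finset.mem_image.2 ⟨i, hi, h⟩) he1.2
      · rw [Function.update_of_ne (hne j hj)]
        exact (hε i hi).2 j hj

omit [LoopGraph G] in
/-- The projection of the source of an edge which is the only edge emitted by its source. -/
theorem pp_src_of_unique {e : G.E} (h : ∀ e', G.src e' = G.src e → e' = e) :
    pp K (G.src e) = ss K e * star (ss K e) := by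
  have h1 := (LPA.family K G).sum_eq (G.src e) {e} ⟨e, by simp⟩ (by
    intro e'
    rw [Finset.mem_singleton]
    exact ⟨fun h' => by rw [h'], h e'⟩)
  rw [Finset.sum_singleton] at h1
  rw [star_ss]; exact h1.symm

omit [LoopGraph G] in
theorem exists_far_sum (hG : Stable G) (b : Multiset G.V) : ∀ Z : Finset G.V,
    ∃ Z' : Finset G.V, Disjoint Z' Z ∧ SF K (∑ z ∈ Z', pp K z) b := by
  classical
  induction b using Multiset.induction_on with
  | empty =>
    intro Z
    refine ⟨∅, by simp, ?_⟩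
    rw [Finset.sum_empty]
    exact Fr.zero
  | cons v b ih =>
    intro Z
    obtain ⟨e, h1, h2, h3⟩ := hG v Z
    obtain ⟨Z', h4, h5⟩ := ih (insert (G.src e) Z)
    have h6 : G.src e ∉ Z' := by
      intro h6
      exact Finset.disjoint_left.1 h4 h6 (Finset.mem_insert_self _ _)
    refine ⟨insert (G.src e) Z', ?_, ?_⟩
    · rw [Finset.disjoint_insert_left]
      exact ⟨h1, h4.mono_right (Finset.subset_insert _ _)⟩
    · rw [Finset.sum_insert h6, pp_src_of_unique h3]
      have h7 : ∀ z ∈ Z', pp K z * ss K e = 0 := by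
        intro z hz
        have hne : z ≠ G.src e := by rintro rfl; exact h6 hz
        rw [← pp_ss, ← mul_assoc, pp_ne hne, zero_mul]
      have h8 : (∑ z ∈ Z', pp K z) * ss K e = 0 := by
        rw [Finset.sum_mul]; exact Finset.sum_eq_zero h7
      have h9 : star (∑ z ∈ Z', pp K z) = ∑ z ∈ Z', (pp K z : LPA K G) := by
        rw [star_sum]; exact Finset.sum_congr rfl fun z _ => star_pp z
      subst h2
      refine Fr.cons (Q := QSt) rfl ?_ (ss_pp e) ?_ h8 ?_ h5
      · rw [star_ss, tt_ss_self]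
      · rw [star_ss, pp_tt]
      · rw [← star_star (star (ss K e) * _), star_mul, star_star, h9, h8, star_zero]

omit [LoopGraph G] in
theorem exists_far_family (hG : Stable G) {N : Type*} [Fintype N] (b : N → Multiset G.V)
    (Z : Finset G.V) : ∃ Z' : N → Finset G.V, (∀ x, Disjoint (Z' x) Z) ∧
      (∀ x y, x ≠ y → Disjoint (Z' x) (Z' y)) ∧ ∀ x, SF K (∑ z ∈ Z' x, pp K z) (b x) := by
  classical
  have key : ∀ T : Finset N, ∃ Z' : N → Finset G.V, (∀ x ∈ T, Disjoint (Z' x) Z) ∧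
      (∀ x ∈ T, ∀ y ∈ T, x ≠ y → Disjoint (Z' x) (Z' y)) ∧
      ∀ x ∈ T, SF K (∑ z ∈ Z' x, pp K z) (b x) := by
    intro T
    induction T using Finset.induction_on with
    | empty => exact ⟨fun _ => ∅, by simp, by simp, by simp⟩
    | insert a T ha ih =>
      obtain ⟨Z', h1, h2, h3⟩ := ih
      obtain ⟨Y, h4, h5⟩ := exists_far_sum (K := K) hG (b a) (Z ∪ T.biUnion Z')
      rw [Finset.disjoint_union_right, Finset.disjoint_biUnion_right] at h4
      have hne : ∀ i ∈ T, i ≠ a := by rintro i hi rfl; exact ha hi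
      refine ⟨Function.update Z' a Y, ?_, ?_, ?_⟩
      · intro x hx
        rcases Finset.mem_insert.1 hx with rfl | hx
        · simpa using h4.1
        · rw [Function.update_of_ne (hne x hx)]; exact h1 x hx
      · intro x hx0 y hy0 hxy
        rcases Finset.mem_insert.1 hx0 with rfl | hx
        · rcases Finset.mem_insert.1 hy0 with rfl | hy
          · exact absurd rfl hxy
          · rw [Function.update_self, Function.update_of_ne (hne y hy)]
            exact h4.2 y hy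
        · rcases Finset.mem_insert.1 hy0 with rfl | hy
          · rw [Function.update_self, Function.update_of_ne (hne x hx)]
            exact (h4.2 x hx).symm
          · rw [Function.update_of_ne (hne x hx), Function.update_of_ne (hne y hy)]
            exact h2 x hx y hy hxy
      · intro x hx
        rcases Finset.mem_insert.1 hx with rfl | hx
        · simpa using h5
        · rw [Function.update_of_ne (hne x hx)]; exact h3 x hx
  obtain ⟨Z', h1, h2, h3⟩ := key Finset.univ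
  exact ⟨Z', fun x => h1 x (Finset.mem_univ x), fun x y h => h2 x (Finset.mem_univ x) y
    (Finset.mem_univ y) h, fun x => h3 x (Finset.mem_univ x)⟩

end Run7.h19
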