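import Pool.Agent.Run7.h19.Step1

/-!
# One side of a step of the construction (helper19)
-/

namespace Run7.h19

open Pool.Agent.Helper665_GA LoopGraph

variable {K : Type*} [Field K] [StarRing K] {G H : Graph} [LoopGraph G]

/-- The new vertices and edges of a step, on the side where the level is prescribed. -/
structure ASide [LoopGraph H] [Fintype H.V] (σ : LPA K H →⋆ₙₐ[K] LPA K G) (κ : H.V → G.V)
    (Z X0 : Finset G.V) where
  ofA ::
  B : XB H
  fin : Fintype B.N
  P : B.N → LPA K G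
  C : B.N → LPA K G
  kN : B.N → G.V
  m : H.V ⊕ B.N → Multiset (H.V ⊕ B.N)
  W : Set G.V
  U : Finset G.V
  X0W : (X0 : Set G.V) ⊆ W
  sf : ∀ x, SF K (P x) {kN x}
  star_P : ∀ x, star (P x) = P x
  idem : ∀ x, P x * P x = P x
  orth : ∀ x y, x ≠ y → P x * P y = 0
  orth' : ∀ v x, σ (pp K v) * P x = 0
  hon : ∀ x, B.L x → ∃ d, Honest (P x) (C x) (kN x) d
  fr : ∀ v, Fr (QSm (LX K W : Set (LPA K G))) (PV (B := B) σ P) (Df (B := B) σ P C v) (m v)
  cr : ∀ v, ∀ j ∈ m v, Sum.elim (fun w => IsLoop w) (fun x => ¬ B.T x) j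
  mem : ∀ x, σ x ∈ LX K W
  memP : ∀ x, P x ∈ LX K W
  memC : ∀ x, B.L x → C x ∈ LX K W
  unit : ∑ x, P x = ∑ z ∈ U, pp K z
  disj : Disjoint U Z
  X0U : ∀ v ∈ X0, v ∈ Z ∨ v ∈ U
  X0F : ∀ v ∈ X0, ∃ m, Fr (QSm (LX K W : Set (LPA K G))) (PV (B := B) σ P) (pp K v) m
  X0E : ∀ e, G.src e ∈ X0 → G.rng e ∈ Z ∨ G.rng e ∈ U
  TL : ∀ x, B.T x → ¬ B.L x
  k1 : ∀ x y, ¬ B.T x → ¬ B.T y → kN x = kN y → x = y
  k2 : ∀ w x, IsLoop w → ¬ B.T x → κ w ≠ kN x
  k3 : ∀ x, ¬ B.T x → ¬ B.L x → Atom W (kN x)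
  k4 : ∀ x, ¬ B.T x → ∃ ξ ∈ LX K W, star ξ * ξ = pp K (kN x) ∧ ξ * star ξ = P x ∧
    ξ * pp K (kN x) = ξ
  lfr : ∀ w, IsLoop w → ∃ y : Multiset G.V,
    Fr (QSm (LX K W : Set (LPA K G))) (pp K) (σ (pp K w)) (κ w ::ₘ y) ∧
    ∀ v ∈ y, Rch (xs (κ w)) v

attribute [instance] ASide.fin

theorem exists_ASide [LoopGraph H] [Fintype H.V] [Finite H.E] {σ : LPA K H →⋆ₙₐ[K] LPA K G}
    {κ : H.V → G.V} {a : H.V → Multiset G.V} {Z : Finset G.V} (h : Side σ κ a Z)
    (hG : Stable G) (X0 : Finset G.V) : Nonempty (ASide σ κ Z X0) := by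
  classical
  obtain ⟨y, z, X1, hX1⟩ := exists_levOK h
  obtain ⟨Y, rk, -, L⟩ := exists_lev (G := G) (X1 ∪ X0) ∅
  set X := X1 ∪ X0 with hXdef
  have hX : LevOK σ κ a y z (X : Set G.V) := hX1 _ (by
    rw [hXdef, Finset.coe_union]; exact Set.subset_union_left)
  obtain ⟨ε, hε⟩ := exists_far hG Y (Y ∪ Z)
  have hε1 : ∀ i ∈ Y, G.src (ε i) ∉ Y := fun i hi h1 =>
    (hε i hi).1.1 (Finset.mem_union_left _ h1)
  have hε2 : ∀ i ∈ Y, G.src (ε i) ∉ Z := fun i hi h1 =>
    (hε i hi).1.1 (Finset.mem_union_right _ h1)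
  have hε3 : ∀ i ∈ Y, G.rng (ε i) = i := fun i hi => (hε i hi).1.2.1
  have hε4 : ∀ i ∈ Y, pp K (G.src (ε i)) = ss K (ε i) * star (ss K (ε i)) := fun i hi =>
    pp_src_of_unique (hε i hi).1.2.2
  have hε5 : ∀ i ∈ Y, star (ss K (ε i)) * ss K (ε i) = pp K i := fun i hi => by
    rw [star_ss, tt_ss_self, hε3 i hi]
  have hε6 : ∀ i ∈ Y, ss K (ε i) * pp K i = ss K (ε i) := fun i hi => by
    have := ss_pp (K := K) (ε i)
    rwa [hε3 i hi] at this
  set W : Set G.V := (X : Set G.V) ∪ {u | ∃ i ∈ Y, u = G.src (ε i)} with hWdef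
  have hXW : (X : Set G.V) ⊆ W := Set.subset_union_left
  have hW : LevOK σ κ a y z W := hX1 _ (by
    refine subset_trans ?_ hXW
    rw [hXdef, Finset.coe_union]; exact Set.subset_union_left)
  have hεW : ∀ i ∈ Y, ss K (ε i) ∈ LX K W := fun i hi => ss_mem (Or.inr ⟨i, hi, rfl⟩)
  have hloops : ∀ i : G.V, ∃ c, IsLoop i → LoopAt i c := by
    intro i
    by_cases hi : IsLoop i
    · obtain ⟨c, hc⟩ := exists_loopAt hi
      exact ⟨c, fun _ => hc⟩
    · exact ⟨ε i, fun h => absurd h hi⟩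
  choose lc hlc using hloops
  set core : G.V → Prop := fun i => (Atom (X : Set G.V) i ∨ IsLoop i) ∧
    ¬ ∃ w, IsLoop w ∧ κ w = i with hcore
  let N1 := {i : G.V // i ∈ Y.filter core}
  let N2 := {v : G.V // v ∈ Y \ Z}
  have hN1 : ∀ i : N1, i.1 ∈ Y ∧ core i.1 := fun i => Finset.mem_filter.1 i.2
  have hN2 : ∀ v : N2, v.1 ∈ Y ∧ v.1 ∉ Z := fun v => Finset.mem_sdiff.1 v.2
  let B : XB H :=
    { N := N1 ⊕ N2
      L := Sum.elim (fun i => IsLoop i.1 ∧ i.1 ∈ X) (fun _ => False)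
      T := Sum.elim (fun _ => False) (fun _ => True) }
  let g : N1 ⊕ N2 → G.V := Sum.elim (fun i => G.src (ε i.1)) fun v => v.1
  have hg : Function.Injective g := by
    rintro (i | v) (j | w) hij
    · congr 1
      exact Subtype.ext ((hε i.1 (hN1 i).1).2 j.1 (hN1 j).1 hij)
    · exfalso
      have h1 : G.src (ε i.1) = w.1 := hij
      exact hε1 i.1 (hN1 i).1 (h1 ▸ (hN2 w).1)
    · exfalso
      have h1 : v.1 = G.src (ε j.1) := hij
      exact hε1 j.1 (hN1 j).1 (h1 ▸ (hN2 v).1)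
    · congr 1
      exact Subtype.ext hij
  have hgZ : ∀ x, g x ∉ Z := by
    rintro (i | v)
    · exact hε2 i.1 (hN1 i).1
    · exact (hN2 v).2
  let P : N1 ⊕ N2 → LPA K G := fun x => pp K (g x)
  let C : N1 ⊕ N2 → LPA K G := Sum.elim
    (fun i => ss K (ε i.1) * ss K (lc i.1) * star (ss K (ε i.1))) fun _ => 0
  let kN : N1 ⊕ N2 → G.V := Sum.elim (fun i => i.1) fun v => v.1
  have horth' : ∀ v x, σ (pp K v) * P x = 0 := by
    intro v x
    have h1 : σ (pp K v) = σ (pp K v) * ∑ z ∈ Z, pp K z := by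
      rw [← h.unit, Finset.mul_sum, Finset.sum_eq_single_of_mem v (Finset.mem_univ v)]
      · rw [← map_mul, pp_pp]
      · intro w _ hw
        rw [← map_mul, pp_ne hw.symm, map_zero]
    rw [h1, mul_assoc, Finset.sum_mul, Finset.sum_eq_zero, mul_zero]
    intro z' hz'
    apply pp_ne
    rintro rfl
    exact hgZ x hz'
  let Cr : H.V ⊕ B.N → Prop := Sum.elim (fun w => IsLoop w) (fun x => ¬ B.T x)
  have hcorefr : ∀ v ∈ Y, ∃ m, (∀ j ∈ m, Cr j) ∧
      Fr (QSm (LX K W : Set (LPA K G))) (PV (B := B) σ P) (pp K v) m := by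
    intro v hv
    refine exists_core_frame L hX hXW hW (P := PV (B := B) σ P) ?_ ?_ (rk v) v hv le_rfl
    · intro i hi h1 h2
      let j : N1 := ⟨i, Finset.mem_filter.2 ⟨hi, h1, h2⟩⟩
      refine ⟨{Sum.inr (Sum.inl j)}, ?_, ?_⟩
      · intro j' hj'
        rw [Multiset.mem_singleton.1 hj']
        exact fun h => h
      apply Fr.single_level (x := star (ss K (ε i))) (star_mem_LX (hεW i hi))
      · rw [star_star]; exact hε5 i hi
      · rw [star_star]; exact (hε4 i hi).symm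
      · show star (ss K (ε i)) * pp K (G.src (ε i)) = _
        rw [star_ss, tt_pp]
    · intro w hw
      exact ⟨Sum.inl w, hw, rfl⟩
  have hcomp : ∀ (e : LPA K G) (s : Multiset G.V), Fr (QSm (LX K W : Set (LPA K G))) (pp K) e s →
      (∀ w ∈ s, w ∈ Y) → ∃ m, (∀ j ∈ m, Cr j) ∧
      Fr (QSm (LX K W : Set (LPA K G))) (PV (B := B) σ P) e m := by
    intro e s hf hs
    have : ∀ w, w ∈ s → ∃ m, (∀ j ∈ m, Cr j) ∧
        Fr (QSm (LX K W : Set (LPA K G))) (PV (B := B) σ P) (pp K w) m :=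
      fun w hw => hcorefr w (hs w hw)
    choose! m hm using this
    refine ⟨s.bind m, ?_, hf.comp_level (clS_LX W) fun w hw => (hm w hw).2⟩
    intro j hj
    obtain ⟨w, hw, hj⟩ := Multiset.mem_bind.1 hj
    exact (hm w hw).1 j hj
  have hCP : ∀ i ∈ Y, ∀ c, LoopAt i c → Honest (pp K (G.src (ε i)))
      (ss K (ε i) * ss K c * star (ss K (ε i))) i c := by
    intro i hi c hc
    rw [hε4 i hi]
    exact honest_copy hc (hε5 i hi) (hε6 i hi)
  have hfr : ∀ v, ∃ m, (∀ j ∈ m, Cr j) ∧ Fr (QSm (LX K W : Set (LPA K G))) (PV (B := B) σ P)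
      (Df (B := B) σ P C v) m := by
    rintro (w | i | v)
    · simp only [Df, Sum.elim_inl]
      split_ifs with h1
      · exact hcomp _ _ (hW.fr w) fun u hu => L.sub (hX.sub w u hu)
      · exact ⟨0, by simp, Fr.zero⟩
    · simp only [Df, Sum.elim_inr]
      split_ifs with h1 h2
      · have hi : IsLoop i.1 ∧ i.1 ∈ X := h1
        have hlc' := hlc i.1 hi.1
        have hiY := (hN1 i).1
        have h3 := fr_exits (K := K) (goodSm W) (v := i.1) (hXW hi.2) (x := ss K (ε i.1))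
          (y := star (ss K (ε i.1))) ⟨rfl, hεW i.1 hiY⟩ (hε5 i.1 hiY)
        rw [← loop_defect hlc'] at h3
        have h4 : P (Sum.inl i) - C (Sum.inl i) * star (C (Sum.inl i))
            = ss K (ε i.1) * (pp K i.1 - ss K (lc i.1) * tt K (lc i.1)) * star (ss K (ε i.1)) := by
          show pp K (G.src (ε i.1)) - ss K (ε i.1) * ss K (lc i.1) * star (ss K (ε i.1)) *
            star (ss K (ε i.1) * ss K (lc i.1) * star (ss K (ε i.1))) = _
          rw [star_mul, star_mul, star_star, hε4 i.1 hiY, star_ss (lc i.1)]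
          have e1 : ss K (ε i.1) * ss K (lc i.1) * star (ss K (ε i.1)) *
              (ss K (ε i.1) * (tt K (lc i.1) * star (ss K (ε i.1))))
              = ss K (ε i.1) * (ss K (lc i.1) * (star (ss K (ε i.1)) * ss K (ε i.1)) *
                tt K (lc i.1)) * star (ss K (ε i.1)) := by noncomm_ring
          rw [e1, hε5 i.1 hiY, hlc'.inCor.cp]
          have e2 : ss K (ε i.1) * (pp K i.1 - ss K (lc i.1) * tt K (lc i.1)) *
              star (ss K (ε i.1)) = (ss K (ε i.1) * pp K i.1) * star (ss K (ε i.1)) -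
              ss K (ε i.1) * (ss K (lc i.1) * tt K (lc i.1)) * star (ss K (ε i.1)) := by
            noncomm_ring
          rw [e2, hε6 i.1 hiY]
        rw [h4]
        exact hcomp _ _ h3 fun u hu => L.closed _ hi.2 u hu
      · exact absurd h2 (by exact fun h => h)
      · exact ⟨0, by simp, Fr.zero⟩
    · simp only [Df, Sum.elim_inr]
      rw [if_neg (show ¬ B.L (Sum.inr v) from fun h => h),
        if_pos (show B.T (Sum.inr v) from trivial)]
      exact hcorefr v.1 (hN2 v).1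
  choose m hm using hfr
  have hYZU : ∀ v ∈ Y, v ∈ Z ∨ v ∈ Finset.univ.map ⟨g, hg⟩ := by
    intro v hv
    by_cases h1 : v ∈ Z
    · exact Or.inl h1
    · exact Or.inr (Finset.mem_map.2 ⟨Sum.inr ⟨v, Finset.mem_sdiff.2 ⟨hv, h1⟩⟩,
        Finset.mem_univ _, rfl⟩)
  refine ⟨{ B := B
            fin := inferInstanceAs (Fintype (N1 ⊕ N2))
            P := P
            C := C
            kN := kN
            m := m
            W := W
            U := Finset.univ.map ⟨g, hg⟩
            X0W := subset_trans (by rw [hXdef, Finset.coe_union]; exact Set.subset_union_right) hXW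
            sf := ?_
            star_P := fun x => star_pp _
            idem := fun x => pp_pp _
            orth := fun x y hxy => pp_ne fun h => hxy (hg h)
            orth' := horth'
            hon := ?_
            fr := fun v => (hm v).2
            cr := fun v => (hm v).1
            mem := hW.mem
            memP := fun x => pp_mem _
            memC := ?_
            unit := ?_
            disj := ?_
            X0U := ?_
            X0F := ?_
            X0E := ?_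
            TL := ?_
            k1 := ?_
            k2 := ?_
            k3 := ?_
            k4 := ?_
            lfr := ?_ }⟩
  · rintro (i | v)
    · show SF K (pp K (G.src (ε i.1))) {i.1}
      rw [hε4 i.1 (hN1 i).1]
      refine Fr.single (Q := QSt) rfl (hε5 i.1 (hN1 i).1) (hε6 i.1 (hN1 i).1) ?_
      have := pp_tt (K := K) (ε i.1)
      rwa [hε3 i.1 (hN1 i).1, ← star_ss] at this
    · exact SF_pp v.1
  · rintro (i | v) hL
    · exact ⟨lc i.1, hCP i.1 (hN1 i).1 (lc i.1) (hlc i.1 hL.1)⟩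
    · exact hL.elim
  · rintro (i | v) hL
    · show ss K (ε i.1) * ss K (lc i.1) * star (ss K (ε i.1)) ∈ LX K W
      have hiY := (hN1 i).1
      have hi : IsLoop i.1 ∧ i.1 ∈ X := hL
      have h1 : ss K (lc i.1) ∈ LX K W := ss_mem (by
          rw [(hlc i.1 hi.1).src]; exact hXW hi.2)
      exact mul_mem (mul_mem (hεW _ hiY) h1) (star_mem_LX (hεW _ hiY))
    · exact hL.elim
  · rw [Finset.sum_map]; rfl
  · rw [Finset.disjoint_left]
    intro u hu
    obtain ⟨x, -, rfl⟩ := Finset.mem_map.1 hu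
    exact hgZ x
  · intro v hv
    exact hYZU v (L.sub (Finset.mem_union_right _ hv))
  · intro v hv
    obtain ⟨m, -, hm⟩ := hcorefr v (L.sub (Finset.mem_union_right _ hv))
    exact ⟨m, hm⟩
  · intro e he
    apply hYZU
    by_cases h1 : G.rng e = G.src e
    · rw [h1]; exact L.sub (Finset.mem_union_right _ he)
    · exact L.closed _ (Finset.mem_union_right _ he) _ (mem_xs.2 ⟨e, rfl, rfl, h1⟩)
  · rintro (i | v) hT
    · exact hT.elim
    · exact fun h => h
  · rintro (i | v) (j | w) h1 h2 h3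
    · congr 1; exact Subtype.ext h3
    · exact absurd trivial h2
    · exact absurd trivial h1
    · exact absurd trivial h1
  · rintro w (i | v) hw h1 h2
    · exact (hN1 i).2.2 ⟨w, hw, h2⟩
    · exact absurd trivial h1
  · rintro (i | v) h1 h2 e he hiW
    · have h3 := (hN1 i).2.1
      have h5 : i.1 ∉ X := by
        intro h5
        rcases h3 with h3 | h3
        · exact h3 e he h5
        · exact h2 ⟨h3, h5⟩
      rcases hiW with h6 | ⟨j, hj, h6⟩
      · exact h5 h6
      · exact hε1 j hj (h6 ▸ (hN1 i).1)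
    · exact absurd trivial h1
  · rintro (i | v) h1
    · exact ⟨ss K (ε i.1), hεW _ (hN1 i).1, hε5 _ (hN1 i).1, (hε4 _ (hN1 i).1).symm,
        hε6 _ (hN1 i).1⟩
    · exact absurd trivial h1
  · intro w hw
    obtain ⟨g1, g2, g3, g4, g5, g6⟩ := hW.lp w hw
    exact ⟨y w, g3, g4⟩

end Run7.h19
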