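import Pool.Agent.Run7.h19.Step2

/-!
# Classes and ranks in a step (helper19)
-/

namespace Run7.h19

open Pool.Agent.Helper665_GA LoopGraph

variable {K : Type*} [Field K] [StarRing K] {G H : Graph} [LoopGraph G] [LoopGraph H]

theorem SF_unique {e : LPA K G} {s t : Multiset G.V} (h : SF K e s) (h' : SF K e t) :
    mk s = mk t := h.cl.symm.trans h'.cl

section side

variable [Fintype H.V] {σ : LPA K H →⋆ₙₐ[K] LPA K G} {κ : H.V → G.V}
  {a : H.V → Multiset G.V} {Z X0 : Finset G.V}

theorem Side.cls_nl (h : Side σ κ a Z) {w : H.V} (hw : Nl w) :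
    mk (a w) = mk ((xs w).bind a) := by
  have h1 : Fr QSt (pp K) (pp K w) (xs w) := by
    have := expand_nl (goodSt (K := K) (G := H)) hw (Set.mem_univ w) (s := 0) (SF_pp w)
    simpa using this
  have h2 := h1.map_star σ (map_star σ)
  exact SF_unique (h.sf w) (h2.comp h.sf)

theorem Side.cls_lp (h : Side σ κ a Z) {w : H.V} (hw : IsLoop w) :
    IsLoop (κ w) ∧ mk (xs (κ w)) = mk ((xs w).bind a) := by
  obtain ⟨c, hc⟩ := exists_loopAt hw
  obtain ⟨d, hd⟩ := h.hon w c hc
  have h1 : Fr QSt (pp K) (pp K w - ss K c * tt K c) (xs w) := SF_defect hc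
  have h2 := h1.map_star σ (map_star σ)
  have e1 : σ (pp K w - ss K c * tt K c) = σ (pp K w) - σ (ss K c) * star (σ (ss K c)) := by
    rw [map_sub, map_mul, ← map_star, star_ss]
  rw [e1] at h2
  exact ⟨hd.loop.isLoop, SF_unique hd.defect (h2.comp h.sf)⟩

theorem Side.le_exit (h : Side σ κ a Z) {e : H.E} (he : H.rng e ≠ H.src e) :
    (¬ IsLoop (H.src e) ∧ Le (mk (a (H.rng e))) (mk (a (H.src e)))) ∨
      (IsLoop (H.src e) ∧ Le (mk (a (H.rng e))) (mk (xs (κ (H.src e))))) := by
  have hx : H.rng e ∈ xs (H.src e) := mem_xs.2 ⟨e, rfl, rfl, he⟩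
  have h1 : Le (mk (a (H.rng e))) (mk ((xs (H.src e)).bind a)) := by
    rw [mk_bind]
    exact Le_sum (g := fun i => mk (a i)) hx
  by_cases hl : IsLoop (H.src e)
  · right
    rw [(h.cls_lp hl).2]
    exact ⟨hl, h1⟩
  · left
    have hn : Nl (H.src e) := ⟨hl, e, mem_exits.2 ⟨rfl, he⟩⟩
    rw [h.cls_nl hn]
    exact ⟨hl, h1⟩

omit [LoopGraph H] [Fintype H.V] in
theorem Honest.le {P C : LPA K G} {k : G.V} {c : G.E} (h : Honest P C k c) {s : Multiset G.V}
    (hs : SF K P s) : Le (mk {k}) (mk s) ∧ Le (mk s) (mk {k}) := by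
  obtain ⟨y, hy1, hy2⟩ := h.sf
  rw [SF_unique hs hy1]
  refine ⟨?_, absorb_Le h.loop.isLoop hy2⟩
  rw [mk_cons]
  exact Le.left _ _

theorem Side.le (h : Side σ κ a Z) {w : H.V} (hw : IsLoop w) :
    Le (mk {κ w}) (mk (a w)) ∧ Le (mk (a w)) (mk {κ w}) := by
  obtain ⟨c, hc⟩ := exists_loopAt hw
  obtain ⟨d, hd⟩ := h.hon w c hc
  exact hd.le (h.sf w)

namespace ASide

variable (N : ASide σ κ Z X0)

/-- The classes of the vertices of the extension. -/
def aV (a : H.V → Multiset G.V) : H.V ⊕ N.B.N → Multiset G.V := Sum.elim a fun x => {N.kN x}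

open Classical in
/-- The classes of the defects. -/
noncomputable def aD (a : H.V → Multiset G.V) : H.V ⊕ N.B.N → Multiset G.V :=
  Sum.elim (fun w => if ∀ e, H.src e ≠ w then a w else 0)
    fun x => if N.B.L x then xs (N.kN x) else if N.B.T x then {N.kN x} else 0

theorem sfV (h : Side σ κ a Z) (v : H.V ⊕ N.B.N) : SF K (PV (B := N.B) σ N.P v) (N.aV a v) := by
  rcases v with w | x
  · exact h.sf w
  · exact N.sf x

theorem sfD (h : Side σ κ a Z) (v : H.V ⊕ N.B.N) :
    SF K (Df (B := N.B) σ N.P N.C v) (N.aD a v) := by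
  rcases v with w | x
  · simp only [Df, aD, Sum.elim_inl]
    split_ifs
    · exact h.sf w
    · exact Fr.zero
  · simp only [Df, aD, Sum.elim_inr]
    split_ifs with h1 h2
    · obtain ⟨d, hd⟩ := N.hon x h1
      exact hd.defect
    · exact N.sf x
    · exact Fr.zero

theorem cls (h : Side σ κ a Z) (v : H.V ⊕ N.B.N) :
    mk (N.aD a v) = mk ((N.m v).bind (N.aV a)) :=
  SF_unique (N.sfD h v) ((N.fr v).toQSt.comp (N.sfV h))

theorem le_mem (h : Side σ κ a Z) {v j : H.V ⊕ N.B.N} (hj : j ∈ N.m v) :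
    Le (mk (N.aV a j)) (mk (N.aD a v)) := by
  rw [N.cls h, mk_bind]
  exact Le_sum (g := fun i => mk (N.aV a i)) hj

end ASide

open Classical in
/-- The rank of a class. -/
noncomputable def topR (Zc : Finset G.V) (rk : G.V → ℕ) (m : MG G) : ℕ :=
  Zc.sup fun z => if Le (mk {z}) m then rk z + 1 else 0

omit [LoopGraph H] [Fintype H.V] in
theorem topR_mono {Zc : Finset G.V} {rk : G.V → ℕ} {m m' : MG G} (h : Le m m') :
    topR Zc rk m ≤ topR Zc rk m' := by
  classical
  apply Finset.sup_le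
  intro z hz
  split_ifs with h1
  · refine le_trans ?_ (Finset.le_sup hz)
    rw [if_pos (h1.trans h)]
  · exact Nat.zero_le _

omit [LoopGraph H] [Fintype H.V] in
theorem topR_lt {Zc : Finset G.V} {rk : G.V → ℕ} (hZ : ∀ z ∈ Zc, IsLoop z)
    (hrk : ∀ v ∈ Zc, ∀ w ∈ Zc, Reach v w → v ≠ w → rk w < rk v) {k : G.V} (hk : k ∈ Zc)
    {m m' : MG G} (h1 : Le (mk {k}) m') (h2 : Le m (mk (xs k))) :
    topR Zc rk m < topR Zc rk m' := by
  classical
  have h3 : rk k + 1 ≤ topR Zc rk m' := by
    refine le_trans ?_ (Finset.le_sup hk)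
    rw [if_pos h1]
  refine lt_of_le_of_lt (b := rk k) ?_ h3
  apply Finset.sup_le
  intro z hz
  split_ifs with h4
  · have h5 := rch_of_Le (hZ z hz) (h4.trans h2)
    obtain ⟨h6, h7⟩ := Rch_xs.1 h5
    exact hrk k hk z hz h6 h7
  · exact Nat.zero_le _

theorem ASide.exists_ranked (h : Side σ κ a Z) (N : ASide σ κ Z X0)
    (n : H.V ⊕ N.B.N → ℕ) (r : ∀ v, Fin (n v) → H.V ⊕ N.B.N)
    (hr : ∀ v j, r v j ∈ N.m v) : ∃ R, (XD.mk N.B n r).Ranked R := by
  classical
  obtain ⟨ρ, -, hρ⟩ := exists_rank (G := H) Finset.univ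
  set Zc : Finset G.V := ((Finset.univ.filter fun w : H.V => IsLoop w).image κ) ∪
    ((Finset.univ.filter fun x : N.B.N => N.B.L x).image N.kN) with hZc
  have hZl : ∀ z ∈ Zc, IsLoop z := by
    intro z hz
    rcases Finset.mem_union.1 hz with hz | hz
    · obtain ⟨w, hw, rfl⟩ := Finset.mem_image.1 hz
      exact (h.cls_lp (Finset.mem_filter.1 hw).2).1
    · obtain ⟨x, hx, rfl⟩ := Finset.mem_image.1 hz
      obtain ⟨d, hd⟩ := N.hon x (Finset.mem_filter.1 hx).2
      exact hd.loop.isLoop
  obtain ⟨rk, -, hrk⟩ := exists_rank Zc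
  set fl : H.V ⊕ N.B.N → ℕ := Sum.elim (fun w => if IsLoop w then 1 else 2 + ρ w)
    (fun x => if N.B.T x then 2 else if N.B.L x then 1 else 0) with hfl
  set M := 3 + Finset.univ.sup ρ with hM
  have hflM : ∀ v, fl v < M := by
    rintro (w | x)
    · have := Finset.le_sup (f := ρ) (Finset.mem_univ w)
      simp only [hfl, Sum.elim_inl]
      split_ifs <;> omega
    · simp only [hfl, Sum.elim_inr]
      split_ifs <;> omega
  have hflc : ∀ v j, j ∈ N.m v → fl j < 2 := by
    intro v j hj
    have h1 := N.cr v j hj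
    rcases j with w | x
    · have h2 : IsLoop w := h1
      simp only [hfl, Sum.elim_inl]
      rw [if_pos h2]; omega
    · have h2 : ¬ N.B.T x := h1
      simp only [hfl, Sum.elim_inr]
      rw [if_neg h2]
      split_ifs <;> omega
  have hcmp : ∀ (t t' f f' : ℕ), t ≤ t' → f < f' → M * t + f < M * t' + f' := by
    intro t t' f f' h1 h2
    have := Nat.mul_le_mul_left M h1
    omega
  have hcmp' : ∀ (t t' f f' : ℕ), t < t' → f < M → M * t + f < M * t' + f' := by
    intro t t' f f' h1 h2
    have h3 : t + 1 ≤ t' := h1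
    have := Nat.mul_le_mul_left M h3
    rw [mul_add, mul_one] at this
    omega
  refine ⟨fun v => M * topR Zc rk (mk (N.aV a v)) + fl v, ?_, ?_⟩
  · intro e he
    rcases h.le_exit he with ⟨h1, h2⟩ | ⟨h1, h2⟩
    · apply hcmp
      · exact topR_mono h2
      · simp only [hfl, Sum.elim_inl]
        rw [if_neg h1]
        have h3 := hρ _ (Finset.mem_univ _) _ (Finset.mem_univ _) (Reach.edge e) he.symm
        split_ifs <;> omega
    · apply hcmp' _ _ _ _ _ (hflM _)
      apply topR_lt hZl hrk (k := κ (H.src e)) _ (h.le h1).1 h2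
      rw [hZc]
      exact Finset.mem_union_left _ (Finset.mem_image.2 ⟨_, Finset.mem_filter.2
        ⟨Finset.mem_univ _, h1⟩, rfl⟩)
  · intro v j
    have h1 := N.le_mem h (hr v j)
    have h2 := hflc v _ (hr v j)
    have hne : N.aD a v ≠ 0 := by
      intro h0
      have h3 := N.cls h v
      rw [h0, mk_zero] at h3
      have h4 := mk_eq_zero h3.symm
      obtain ⟨s, hs⟩ := Multiset.exists_cons_of_mem (hr v j)
      rw [hs, Multiset.cons_bind] at h4
      have h5 : N.aV a (r v j) = 0 := by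
        apply Multiset.le_zero.1
        rw [← h4]
        exact Multiset.le_add_right _ _
      rcases hrv : r v j with w | x
      · rw [hrv] at h5
        exact h.ne w h5
      · rw [hrv] at h5
        exact Multiset.singleton_ne_zero _ h5
    rcases v with w | x
    · by_cases hs : ∀ e, H.src e ≠ w
      · have h3 : N.aD a (Sum.inl w) = N.aV a (Sum.inl w) := by
          simp only [ASide.aD, ASide.aV, Sum.elim_inl]
          rw [if_pos hs]
        rw [h3] at h1
        apply hcmp _ _ _ _ (topR_mono h1)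
        refine lt_of_lt_of_le h2 ?_
        simp only [hfl, Sum.elim_inl]
        rw [if_neg]
        · omega
        · rintro ⟨e, he, -⟩
          exact hs e he
      · exfalso
        apply hne
        simp only [ASide.aD, Sum.elim_inl]
        rw [if_neg hs]
    · by_cases hL : N.B.L x
      · have h3 : N.aD a (Sum.inr x) = xs (N.kN x) := by
          simp only [ASide.aD, Sum.elim_inr]
          rw [if_pos hL]
        rw [h3] at h1
        apply hcmp' _ _ _ _ _ (hflM _)
        apply topR_lt hZl hrk (k := N.kN x) _ (Le.refl _) h1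
        rw [hZc]
        exact Finset.mem_union_right _ (Finset.mem_image.2 ⟨_, Finset.mem_filter.2
          ⟨Finset.mem_univ _, hL⟩, rfl⟩)
      · by_cases hT : N.B.T x
        · have h3 : N.aD a (Sum.inr x) = N.aV a (Sum.inr x) := by
            simp only [ASide.aD, ASide.aV, Sum.elim_inr]
            rw [if_neg hL, if_pos hT]
          rw [h3] at h1
          apply hcmp _ _ _ _ (topR_mono h1)
          refine lt_of_lt_of_le h2 ?_
          simp only [hfl, Sum.elim_inr]
          rw [if_pos hT]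
        · exfalso
          apply hne
          simp only [ASide.aD, Sum.elim_inr]
          rw [if_neg hL, if_neg hT]

end side

end Run7.h19
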