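import Pool.Agent.Run7.h19.Step3

/-!
# The extended homomorphisms (helper19)
-/

namespace Run7.h19

open Pool.Agent.Helper665_GA LoopGraph

variable {K : Type*} [Field K] [StarRing K] {G H : Graph} [LoopGraph G]

/-- Extension data from frames. -/
theorem exists_XSide {σ : LPA K H →⋆ₙₐ[K] LPA K G} (D : XD H) (P C : D.N → LPA K G)
    (S0 : Set (LPA K G)) (star_P : ∀ x, star (P x) = P x) (idem : ∀ x, P x * P x = P x)
    (orth : ∀ x y, x ≠ y → P x * P y = 0) (orth' : ∀ v x, σ (pp K v) * P x = 0)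
    (hC : ∀ x, D.L x → ∃ k d, Honest (P x) (C x) k d)
    (hfr : ∀ v, Fr (QSm S0) (PV (B := D.toXB) σ P) (Df (B := D.toXB) σ P C v)
      ((Finset.univ : Finset (Fin (D.n v))).val.map (D.r v))) :
    ∃ S : XSide D σ, S.P = P ∧ S.C = C ∧ ∀ v j, S.X v j ∈ S0 := by
  classical
  have h1 : ∀ v, ∃ X : Fin (D.n v) → LPA K G, (∀ i, X i ∈ S0) ∧
      (∀ i, star (X i) * X i = PV (B := D.toXB) σ P (D.r v i)) ∧
      (∀ i j, i ≠ j → star (X i) * X j = 0) ∧
      (∀ i, X i * PV (B := D.toXB) σ P (D.r v i) = X i) ∧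
      ∑ i, X i * star (X i) = Df (B := D.toXB) σ P C v := by
    intro v
    obtain ⟨x, y, g1, g2, g3, g4, g5, g6⟩ := (hfr v).exists_finset
    have hy : ∀ i, y i = star (x i) := fun i => (g1 i (Finset.mem_univ i)).1
    refine ⟨x, fun i => (g1 i (Finset.mem_univ i)).2, fun i => ?_, fun i j hij => ?_,
      fun i => g4 i (Finset.mem_univ i), ?_⟩
    · rw [← hy]; exact g2 i (Finset.mem_univ i)
    · rw [← hy]; exact g3 i (Finset.mem_univ i) j (Finset.mem_univ j) hij
    · rw [g6]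
      exact Finset.sum_congr rfl fun i _ => by rw [hy]
  choose X x1 x2 x3 x4 x5 using h1
  refine ⟨{ P := P
            C := C
            X := X
            star_P := star_P
            idem := idem
            orth := orth
            orth' := orth'
            isom := ?_
            PC := ?_
            CP := ?_
            XX := x2
            XX' := x3
            XP := x4
            sum := x5 }, rfl, rfl, x1⟩
  · intro x hx
    obtain ⟨k, d, h⟩ := hC x hx
    exact h.isom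
  · intro x hx
    obtain ⟨k, d, h⟩ := hC x hx
    exact h.cor.pc
  · intro x hx
    obtain ⟨k, d, h⟩ := hC x hx
    exact h.cor.cp

variable [LoopGraph H] [Fintype H.V] [Finite H.E]

section

variable {D : XD H} [Fintype D.N] {R : H.V ⊕ D.N → ℕ}

omit [Fintype H.V] [Finite H.E] [Fintype D.N] in
theorem isLoop_cases (hR : D.Ranked R) {v : D.graph.V} {c : D.graph.E} (h : LoopAt v c) :
    (∃ (w : H.V) (c' : H.E), v = Sum.inl w ∧ c = Sum.inl c' ∧ LoopAt w c') ∨
      ∃ (x : D.N) (hx : D.L x), v = Sum.inr x ∧ c = Sum.inr (Sum.inl ⟨x, hx⟩) := by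
  obtain ⟨h1, h2⟩ := h
  rcases c with c' | (l | ⟨w, j⟩)
  · left
    refine ⟨H.src c', c', h1.symm, rfl, rfl, ?_⟩
    rw [← h1] at h2
    exact Sum.inl_injective h2
  · right
    exact ⟨l.1, l.2, h1.symm, rfl⟩
  · exfalso
    have h3 := hR.new w j
    have h4 : D.r w j = w := h2.trans h1.symm
    rw [h4] at h3
    exact lt_irrefl _ h3

/-- The side of the extended homomorphism. -/
theorem side_ext {σ : LPA K H →⋆ₙₐ[K] LPA K G} {κ : H.V → G.V} {a : H.V → Multiset G.V}
    {Z : Finset G.V} (h : Side σ κ a Z) (hR : D.Ranked R) (S : XSide D σ)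
    (hP : ∀ v, S.q v ≠ 0) {kN : D.N → G.V} {aN : D.N → Multiset G.V} {U : Finset G.V}
    (sf : ∀ x, SF K (S.P x) (aN x)) (unit : ∑ x, S.P x = ∑ z ∈ U, pp K z)
    (disj : Disjoint U Z) (hon : ∀ x, D.L x → ∃ d, Honest (S.P x) (S.C x) (kN x) d)
    (hinj : ∀ v w : D.graph.V, IsLoop v → IsLoop w →
      Sum.elim κ kN v = Sum.elim κ kN w → v = w) :
    ∃ Z' : Finset G.V, (∀ z, z ∈ Z' ↔ z ∈ Z ∨ z ∈ U) ∧
      letI := XD.loopGraph hR
      Side (S.hom hP) (Sum.elim κ kN : D.graph.V → G.V) (Sum.elim a aN) Z' := by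
  classical
  letI := XD.loopGraph hR
  refine ⟨Z ∪ U, fun z => Finset.mem_union, ?_⟩
  refine ⟨?_, ?_, ?_, ?_, hinj⟩
  · intro v
    have h1 := S.hom_p hP v
    rw [h1]
    rcases v with v | x
    · exact h.sf v
    · exact sf x
  · intro v h0
    apply hP v
    rcases v with v | x
    · exact absurd h0 (h.ne v)
    · have h1 := sf x
      have h2 : aN x = 0 := h0
      rw [h2] at h1
      exact h1.of_zero
  · rw [Finset.sum_union disj.symm]
    have h1 : ∀ v, S.hom hP (pp K (G := D.graph) v) = S.q v := S.hom_p hP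
    rw [Finset.sum_congr rfl fun v _ => h1 v]
    show ∑ v : H.V ⊕ D.N, S.q v = _
    rw [Fintype.sum_sum_type, ← h.unit, ← unit]
    rfl
  · intro v c hc
    rcases isLoop_cases hR hc with ⟨w, c', rfl, rfl, hc'⟩ | ⟨x, hx, rfl, rfl⟩
    · obtain ⟨d, hd⟩ := h.hon w c' hc'
      refine ⟨d, ?_⟩
      have h1 := S.hom_p hP (Sum.inl w)
      have h2 := S.hom_s hP (Sum.inl c')
      rw [h1, h2]
      exact hd
    · obtain ⟨d, hd⟩ := hon x hx
      refine ⟨d, ?_⟩
      have h1 := S.hom_p hP (Sum.inr x)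
      have h2 := S.hom_s hP (Sum.inr (Sum.inl ⟨x, hx⟩))
      rw [h1, h2]
      exact hd

end

section full

variable {σ : LPA K H →⋆ₙₐ[K] LPA K G} {κ : H.V → G.V} {a : H.V → Multiset G.V}
  {Z X0 : Finset G.V}

/-- The new homomorphism is full. -/
theorem fullData_ext (h : Side σ κ a Z) (N : ASide σ κ Z X0) {n : H.V ⊕ N.B.N → ℕ}
    {r : ∀ v, Fin (n v) → H.V ⊕ N.B.N}
    (hr : ∀ v, N.m v = (Finset.univ : Finset (Fin (n v))).val.map (r v))
    {R : H.V ⊕ N.B.N → ℕ} (hR : (XD.mk N.B n r).Ranked R) (S : XSide (XD.mk N.B n r) σ)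
    (hSP : S.P = N.P) (hSC : S.C = N.C) (hSX : ∀ v j, S.X v j ∈ (LX K N.W : Set (LPA K G)))
    (hP : ∀ v, S.q v ≠ 0) :
      letI := XD.loopGraph hR
      FullData (S.hom hP) N.W (Sum.elim κ N.kN : (XD.mk N.B n r).graph.V → G.V) := by
  classical
  letI := XD.loopGraph hR
  have hn : ∀ v, N.m v ≠ 0 → ∃ j : Fin (n v), True := by
    intro v hv
    rw [hr] at hv
    by_contra hc
    push Not at hc
    apply hv
    have : IsEmpty (Fin (n v)) := ⟨fun j => hc j⟩
    simp
  have hm1 : ∀ w : H.V, (∀ e, H.src e ≠ w) → N.m (Sum.inl w) ≠ 0 := by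
    intro w hw h0
    have h1 := N.fr (Sum.inl w)
    rw [h0] at h1
    have h2 := h1.of_zero
    simp only [Df, Sum.elim_inl] at h2
    rw [if_pos hw] at h2
    exact hP (Sum.inl w) h2
  have hm2 : ∀ x, N.B.T x → N.m (Sum.inr x) ≠ 0 := by
    intro x hx h0
    have h1 := N.fr (Sum.inr x)
    rw [h0] at h1
    have h2 := h1.of_zero
    simp only [Df, Sum.elim_inr] at h2
    rw [if_neg (N.TL x hx), if_pos hx, ← hSP] at h2
    exact hP (Sum.inr x) h2
  have hNl : ∀ v : (XD.mk N.B n r).graph.V, ¬ IsLoop v → (∃ e, (XD.mk N.B n r).graph.src e = v) →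
      Nl v := by
    rintro v h1 ⟨e, he⟩
    exact ⟨h1, e, mem_exits.2 ⟨he, fun h2 => h1 ⟨e, he, h2⟩⟩⟩
  have hcore : ∀ v : (XD.mk N.B n r).graph.V, ¬ Nl v → (∃ w, v = Sum.inl w ∧ IsLoop w) ∨
      ∃ x, v = Sum.inr x ∧ ¬ N.B.T x := by
    intro v hv
    rcases v with w | x
    · left
      refine ⟨w, rfl, ?_⟩
      by_contra hw
      apply hv
      apply hNl
      · rintro ⟨c, hc1, hc2⟩
        rcases isLoop_cases hR (LoopAt.mk hc1 hc2) with ⟨w', c', h1, rfl, hc'⟩ | ⟨x, hx, h1, rfl⟩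
        · have h2 : w = w' := Sum.inl_injective h1
          subst h2
          exact hw hc'.isLoop
        · exact absurd h1 Sum.inl_ne_inr
      · by_cases hs : ∀ e, H.src e ≠ w
        · obtain ⟨j, -⟩ := hn _ (hm1 w hs)
          exact ⟨Sum.inr (Sum.inr ⟨Sum.inl w, j⟩), rfl⟩
        · push Not at hs
          obtain ⟨e, he⟩ := hs
          refine ⟨Sum.inl e, ?_⟩
          show Sum.inl (H.src e) = Sum.inl w
          rw [he]
    · right
      refine ⟨x, rfl, fun hx => hv ?_⟩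
      apply hNl
      · rintro ⟨c, hc1, hc2⟩
        rcases isLoop_cases hR (LoopAt.mk hc1 hc2) with ⟨w', c', h1, rfl, hc'⟩ | ⟨y, hy, h1, rfl⟩
        · exact absurd h1.symm Sum.inl_ne_inr
        · have h2 : x = y := Sum.inr_injective h1
          subst h2
          exact N.TL x hx hy
      · obtain ⟨j, -⟩ := hn _ (hm2 x hx)
        exact ⟨Sum.inr (Sum.inr ⟨Sum.inr x, j⟩), rfl⟩
  refine ⟨?_, ?_, ?_, ?_, ?_⟩
  · apply map_mem_of_gen
    · intro v
      have h1 := S.hom_p hP v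
      rw [h1]
      rcases v with w | x
      · exact N.mem _
      · rw [S.q_inr, hSP]; exact N.memP x
    · intro e
      have h1 := S.hom_s hP e
      rw [h1]
      rcases e with e | (l | ⟨w, j⟩)
      · exact N.mem _
      · show S.C l.1 ∈ _
        rw [hSC]; exact N.memC l.1 l.2
      · exact hSX w j
    · intro e
      have h1 := S.hom_t hP e
      rw [h1]
      apply star_mem_LX
      rcases e with e | (l | ⟨w, j⟩)
      · exact N.mem _
      · show S.C l.1 ∈ _
        rw [hSC]; exact N.memC l.1 l.2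
      · exact hSX w j
  · intro v w hv hw hvw
    rcases hcore v hv with ⟨v, rfl, hv'⟩ | ⟨x, rfl, hx⟩
    · rcases hcore w hw with ⟨w, rfl, hw'⟩ | ⟨y, rfl, hy⟩
      · have h1 : κ v = κ w := hvw
        rw [h.inj v w hv' hw' h1]
      · exact absurd hvw (N.k2 v y hv' hy)
    · rcases hcore w hw with ⟨w, rfl, hw'⟩ | ⟨y, rfl, hy⟩
      · exact absurd hvw.symm (N.k2 w x hw' hx)
      · have h1 : N.kN x = N.kN y := hvw
        rw [N.k1 x y hx hy h1]
  · intro v hv
    have hv1 : ¬ Nl v := by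
      rintro ⟨-, e, he⟩
      exact hv e (mem_exits.1 he).1
    rcases hcore v hv1 with ⟨w, rfl, hw⟩ | ⟨x, rfl, hx⟩
    · exfalso
      obtain ⟨c, hc1, hc2⟩ := hw
      apply hv (Sum.inl c)
      show Sum.inl (H.src c) = Sum.inl w
      rw [hc1]
    · have hL : ¬ N.B.L x := by
        intro hL
        exact hv (Sum.inr (Sum.inl ⟨x, hL⟩)) rfl
      refine ⟨N.k3 x hx hL, ?_⟩
      obtain ⟨ξ, h1, h2, h3, h4⟩ := N.k4 x hx
      refine ⟨ξ, h1, h2, ?_, h4⟩
      have h5 := S.hom_p hP (Sum.inr x)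
      rw [h5, S.q_inr, hSP, h3]
  · intro v c hc
    rcases isLoop_cases hR hc with ⟨w, c', rfl, rfl, hc'⟩ | ⟨x, hx, rfl, rfl⟩
    · obtain ⟨d, hd⟩ := h.hon w c' hc'
      refine ⟨d, ?_⟩
      have h1 := S.hom_p hP (Sum.inl w)
      have h2 := S.hom_s hP (Sum.inl c')
      rw [h1, h2]
      exact hd
    · obtain ⟨d, hd⟩ := N.hon x hx
      refine ⟨d, ?_⟩
      have h1 := S.hom_p hP (Sum.inr x)
      have h2 := S.hom_s hP (Sum.inr (Sum.inl ⟨x, hx⟩))
      rw [h1, h2, S.q_inr, hSP]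
      show Honest (N.P x) (S.C x) _ d
      rw [hSC]
      exact hd
  · intro v hv
    have h5 := S.hom_p hP v
    rw [h5]
    rcases hcore v hv with ⟨w, rfl, hw⟩ | ⟨x, rfl, hx⟩
    · obtain ⟨y, h1, h2⟩ := N.lfr w hw
      refine ⟨κ w ::ₘ y, ?_, ?_⟩
      · exact h1.mono fun a b hab => ⟨hab.2, by
          rw [hab.1]; exact star_mem_LX hab.2⟩
      · intro u hu
        rcases Multiset.mem_cons.1 hu with rfl | hu
        · exact Relation.ReflTransGen.refl
        · exact (Rch_xs.1 (h2 u hu)).1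
    · obtain ⟨ξ, h1, h2, h3, h4⟩ := N.k4 x hx
      refine ⟨{N.kN x}, ?_, ?_⟩
      · rw [S.q_inr, hSP, ← h3]
        refine Fr.single ⟨h1, star_mem_LX h1⟩ h2 h4 ?_
        conv_lhs => rw [← star_pp, ← star_mul, h4]
      · intro u hu
        rw [Multiset.mem_singleton.1 hu]
        exact Relation.ReflTransGen.refl

end full

end Run7.h19
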