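import Pool.Agent.Run7.h19.Step4

/-!
# The stages of the back and forth construction (helper19)
-/

namespace Run7.h19

open Pool.Agent.Helper665_GA LoopGraph

variable {G G' : Graph} [LoopGraph G] [LoopGraph G']

/-- The isomorphism of graph monoids respects the loops. -/
def Corr (f : MG G ≃+ MG G') : Prop := ∀ i, IsLoop i → ∃ k, IsLoop k ∧
  f (mk (xs i)) = mk (xs k) ∧ ∃ y : Multiset G'.V, f (mk {i}) = mk {k} + mk y ∧
    ∀ v ∈ y, Rch (xs k) v

/-- A finite stage of the construction. -/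
structure Stg (K : Type*) [Field K] [StarRing K] {G G' : Graph} [LoopGraph G] [LoopGraph G']
    (f : MG G ≃+ MG G') where
  ofG ::
  H : Graph
  lg : LoopGraph H
  fV : Fintype H.V
  fE : Finite H.E
  α : LPA K H →⋆ₙₐ[K] LPA K G
  β : LPA K H →⋆ₙₐ[K] LPA K G'
  κ : H.V → G.V
  κ' : H.V → G'.V
  a : H.V → Multiset G.V
  b : H.V → Multiset G'.V
  ZA : Finset G.V
  ZB : Finset G'.V
  sA : Side α κ a ZA
  sB : Side β κ' b ZB
  ab : ∀ v, f (mk (a v)) = mk (b v)

attribute [instance] Stg.lg Stg.fV Stg.fE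

variable {K : Type*} [Field K] [StarRing K]

omit [LoopGraph G] [StarRing K] in
theorem ppS_mul {Z : Finset G.V} {v : G.V} (h : v ∈ Z) : (∑ z ∈ Z, pp K z) * pp K v = pp K v := by
  rw [Finset.sum_mul, Finset.sum_eq_single_of_mem v h]
  · exact pp_pp v
  · intro w _ hw
    exact pp_ne hw

omit [LoopGraph G] [StarRing K] in
theorem mul_ppS {Z : Finset G.V} {v : G.V} (h : v ∈ Z) : pp K v * (∑ z ∈ Z, pp K z) = pp K v := by
  rw [Finset.mul_sum, Finset.sum_eq_single_of_mem v h]
  · exact pp_pp v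
  · intro w _ hw
    exact pp_ne hw.symm

omit [LoopGraph G] [StarRing K] in
theorem ppS_disj {Z Z' : Finset G.V} (h : Disjoint Z Z') :
    (∑ z ∈ Z, pp K z) * (∑ z ∈ Z', pp K z) = 0 := by
  rw [Finset.sum_mul]
  apply Finset.sum_eq_zero
  intro v hv
  rw [Finset.mul_sum]
  apply Finset.sum_eq_zero
  intro w hw
  apply pp_ne
  rintro rfl
  exact Finset.disjoint_left.1 h hv hw

theorem SF_ne_zero {e : LPA K G} {s : Multiset G.V} (h : SF K e s) (hs : s ≠ 0) : e ≠ 0 := by
  rintro rfl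
  apply hs
  apply mk_eq_zero
  rw [← h.cl, cl_zero]

section inj

variable {H : Graph} [LoopGraph H] [Fintype H.V] {σ : LPA K H →⋆ₙₐ[K] LPA K G} {κ : H.V → G.V}
  {a : H.V → Multiset G.V} {Z : Finset G.V}

theorem Side.injective (h : Side σ κ a Z) : Function.Injective σ := by
  apply injective_of (σ : LPA K H →ₙₐ[K] LPA K G)
  · intro v
    exact SF_ne_zero (h.sf v) (h.ne v)
  · intro k c hc q hq
    obtain ⟨d, hd⟩ := h.hon k c hc
    apply hd.evp_ne
    rw [← map_evp']
    exact hq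

theorem FullData.lift_frame {W : Set G.V} {κ' : H.V → G.V} (hf : FullData σ W κ')
    (h : Side σ κ a Z) {e : LPA K G} {m : Multiset H.V}
    (he : Fr (QSm (LX K W : Set (LPA K G))) (fun v => σ (pp K v)) e m) :
    (∑ v, σ (pp K v)) * e = e → ∃ x, σ x = e ∧ SF K x m := by
  induction he with
  | zero => exact fun _ => ⟨0, map_zero σ, Fr.zero⟩
  | @cons x y e v s h0 h1 h2 h3 h4 h5 h6 ih =>
    intro hu
    obtain ⟨h0, h0'⟩ := h0
    subst h0
    set one := ∑ v, σ (pp K v) with hone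
    have hex : (x * star x + e) * x = x := by
      rw [add_mul, h4, mul_assoc, h1, h2, add_zero]
    have hox : one * x = x := by
      conv_lhs => rw [← hex, ← mul_assoc, hu]
      exact hex
    have hoe : one * e = e := by
      have h7 : (x * star x + e) * e = e := by
        rw [add_mul, mul_assoc, h5, mul_zero, zero_add, h6.idem]
      conv_lhs => rw [← h7, ← mul_assoc, hu]
      exact h7
    have hvo : σ (pp K v) * one = σ (pp K v) := by
      rw [hone, Finset.mul_sum, Finset.sum_eq_single_of_mem v (Finset.mem_univ v)]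
      · rw [← map_mul, pp_pp]
      · intro w _ hw
        rw [← map_mul, pp_ne hw.symm, map_zero]
    have hxo : x * one = x := by rw [← h2, mul_assoc, hvo]
    obtain ⟨ξ, hξ⟩ := hf.mem_range h0' hox hxo
    obtain ⟨e', he', hSF⟩ := ih hoe
    have inj := h.injective
    subst hξ
    subst he'
    refine ⟨ξ * star ξ + e', ?_, ?_⟩
    · rw [map_add, map_mul, map_star]
    · refine Fr.cons (Q := QSt) rfl ?_ ?_ ?_ ?_ ?_ hSF
      · apply inj; rw [map_mul, map_star]; exact h1
      · apply inj; rw [map_mul]; exact h2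
      · apply inj; rw [map_mul, map_star]; exact h3
      · apply inj; rw [map_mul, map_zero]; exact h4
      · apply inj; rw [map_mul, map_star, map_zero]; exact h5

end inj

namespace Stg

variable {f : MG G ≃+ MG G'}

/-- Exchanging the two algebras. -/
def swap (S : Stg K f) : Stg K f.symm where
  H := S.H
  lg := S.lg
  fV := S.fV
  fE := S.fE
  α := S.β
  β := S.α
  κ := S.κ'
  κ' := S.κ
  a := S.b
  b := S.a
  ZA := S.ZB
  ZB := S.ZA
  sA := S.sB
  sB := S.sA
  ab v := by rw [← S.ab, AddEquiv.symm_apply_apply]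

/-- One step of the construction. -/
theorem step (hG : Stable G) (hG' : Stable G') (hf : Corr f) (S : Stg K f) (X0 : Finset G.V) :
    ∃ T : Stg K f, (∀ x, ∃ y, T.α y = S.α x ∧ T.β y = S.β x) ∧
      ∀ v ∈ X0, (∃ x m, T.α x = pp K v ∧ SF K x m) ∧
        ∀ e, G.src e = v → ∃ x, T.α x = ss K e := by
  classical
  obtain ⟨N⟩ := exists_ASide S.sA hG X0
  have hb : ∀ x : N.B.N, ∃ (b : Multiset G'.V) (k : G'.V), f (mk {N.kN x}) = mk b ∧ b ≠ 0 ∧
      (N.B.L x → IsLoop k ∧ (∃ y, b = k ::ₘ y ∧ ∀ v ∈ y, Rch (xs k) v) ∧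
        f (mk (xs (N.kN x))) = mk (xs k)) := by
    intro x
    by_cases hx : N.B.L x
    · obtain ⟨d, hd⟩ := N.hon x hx
      obtain ⟨k, hk1, hk2, y, hk3, hk4⟩ := hf _ hd.loop.isLoop
      refine ⟨k ::ₘ y, k, ?_, Multiset.cons_ne_zero, fun _ => ⟨hk1, ⟨y, rfl, hk4⟩, hk2⟩⟩
      rw [mk_cons]; exact hk3
    · obtain ⟨b, hb⟩ := mk_surj (f (mk {N.kN x}))
      have hb0 : b ≠ 0 := by
        rintro rfl
        rw [mk_zero] at hb
        have h1 := (map_eq_zero_iff f f.injective).1 hb.symm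
        exact Multiset.singleton_ne_zero _ (mk_eq_zero h1)
      obtain ⟨k, -⟩ := Multiset.exists_mem_of_ne_zero hb0
      exact ⟨b, k, hb.symm, hb0, fun h => absurd h hx⟩
  choose bN kN' hb1 hb2 hb3 using hb
  obtain ⟨Z', z1, z2, z3⟩ := exists_far_family (K := K) hG' bN S.ZB
  set Q : N.B.N → LPA K G' := fun x => ∑ z ∈ Z' x, pp K z with hQ
  have hC' : ∀ x, ∃ C, N.B.L x → ∃ d, Honest (Q x) C (kN' x) d := by
    intro x
    by_cases hx : N.B.L x
    · obtain ⟨h1, ⟨y, h2, h3⟩, -⟩ := hb3 x hx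
      obtain ⟨d, hd⟩ := exists_loopAt h1
      have h4 := z3 x
      rw [h2] at h4
      obtain ⟨C, hC⟩ := exists_honest hd h4 h3
      exact ⟨C, fun _ => ⟨d, hC⟩⟩
    · exact ⟨0, fun h => absurd h hx⟩
  choose C' hC' using hC'
  -- classes
  set aV : S.H.V ⊕ N.B.N → Multiset G.V := N.aV S.a with haV
  set bV : S.H.V ⊕ N.B.N → Multiset G'.V := Sum.elim S.b bN with hbV
  have hab : ∀ v, f (mk (aV v)) = mk (bV v) := by
    rintro (w | x)
    · exact S.ab w
    · exact hb1 x
  have sfB : ∀ v, SF K (PV (B := N.B) S.β Q v) (bV v) := by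
    rintro (w | x)
    · exact S.sB.sf w
    · exact z3 x
  have hfB : ∀ v, Fr QSt (PV (B := N.B) S.β Q) (Df (B := N.B) S.β Q C' v) (N.m v) := by
    intro v
    have h1 : ∃ s, SF K (Df (B := N.B) S.β Q C' v) s ∧ f (mk (N.aD S.a v)) = mk s := by
      rcases v with w | x
      · simp only [Df, ASide.aD, Sum.elim_inl]
        split_ifs
        · exact ⟨S.b w, S.sB.sf w, S.ab w⟩
        · exact ⟨0, Fr.zero, by rw [mk_zero, mk_zero, map_zero]⟩
      · simp only [Df, ASide.aD, Sum.elim_inr]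
        split_ifs with h1 h2
        · obtain ⟨d, hd⟩ := hC' x h1
          exact ⟨_, hd.defect, (hb3 x h1).2.2⟩
        · exact ⟨bN x, z3 x, hb1 x⟩
        · exact ⟨0, Fr.zero, by rw [mk_zero, mk_zero, map_zero]⟩
    obtain ⟨s, hs1, hs2⟩ := h1
    apply exists_frame_of_class sfB hs1
    rw [← hs2, N.cls S.sA, mk_bind, map_multiset_sum, Multiset.map_map]
    congr 1
    apply Multiset.map_congr rfl
    intro j _
    exact hab j
  -- labels
  have hlab : ∀ v, ∃ (n : ℕ) (r : Fin n → S.H.V ⊕ N.B.N),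
      N.m v = (Finset.univ : Finset (Fin n)).val.map r := fun v => (N.fr v).exists_labels
  choose n r hr using hlab
  have hrm : ∀ v j, r v j ∈ N.m v := by
    intro v j
    rw [hr]
    exact Multiset.mem_map.2 ⟨j, Finset.mem_univ_val j, rfl⟩
  obtain ⟨R, hR⟩ := N.exists_ranked S.sA n r hrm
  set D : XD S.H := XD.mk N.B n r with hD
  -- side A
  obtain ⟨SA, a1, a2, a3⟩ := exists_XSide (σ := S.α) D N.P N.C (LX K N.W : Set (LPA K G))
    N.star_P N.idem N.orth N.orth' (fun x hx => by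
      obtain ⟨d, hd⟩ := N.hon x hx
      exact ⟨_, d, hd⟩) (fun v => by
      have := N.fr v
      rw [hr] at this
      exact this)
  have horthB : ∀ v x, S.β (pp K v) * Q x = 0 := by
    intro v x
    have h1 : S.β (pp K v) = S.β (pp K v) * ∑ z ∈ S.ZB, pp K z := by
      rw [← S.sB.unit, Finset.mul_sum, Finset.sum_eq_single_of_mem v (Finset.mem_univ v)]
      · rw [← map_mul, pp_pp]
      · intro w _ hw
        rw [← map_mul, pp_ne hw.symm, map_zero]
    rw [h1, mul_assoc, hQ]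
    show _ * ((∑ z ∈ S.ZB, pp K z) * ∑ z ∈ Z' x, pp K z) = 0
    rw [ppS_disj (z1 x).symm, mul_zero]
  obtain ⟨SB, b1, b2, -⟩ := exists_XSide (σ := S.β) D Q C' Set.univ
    (fun x => (z3 x).star_eq) (fun x => (z3 x).idem)
    (fun x y hxy => ppS_disj (z2 x y hxy)) horthB (fun x hx => by
      obtain ⟨d, hd⟩ := hC' x hx
      exact ⟨_, d, hd⟩) (fun v => by
      have := hfB v
      rw [hr] at this
      exact this.mono fun x y hxy => ⟨hxy, Set.mem_univ _⟩)
  have hPA : ∀ v, SA.q v ≠ 0 := by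
    intro v
    have h1 : SA.q v = PV (B := N.B) S.α N.P v := by rw [XSide.q, a1]
    rw [h1]
    apply SF_ne_zero (N.sfV S.sA v)
    rcases v with w | x
    · exact S.sA.ne w
    · exact Multiset.singleton_ne_zero _
  have hPB : ∀ v, SB.q v ≠ 0 := by
    intro v
    have h1 : SB.q v = PV (B := N.B) S.β Q v := by rw [XSide.q, b1]
    rw [h1]
    apply SF_ne_zero (sfB v)
    rcases v with w | x
    · exact S.sB.ne w
    · exact hb2 x
  -- injectivity
  have hinjA : ∀ v w : D.graph.V, IsLoop v → IsLoop w →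
      Sum.elim S.κ N.kN v = Sum.elim S.κ N.kN w → v = w := by
    intro v w ⟨c, hc1, hc2⟩ ⟨c', hc1', hc2'⟩ hvw
    rcases isLoop_cases hR (LoopAt.mk hc1 hc2) with ⟨v, d, rfl, rfl, hd⟩ | ⟨x, hx, rfl, rfl⟩
    · rcases isLoop_cases hR (LoopAt.mk hc1' hc2') with ⟨w, d', rfl, rfl, hd'⟩ | ⟨y, hy, rfl, rfl⟩
      · have h1 : S.κ v = S.κ w := hvw
        rw [S.sA.inj v w hd.isLoop hd'.isLoop h1]
      · exact absurd hvw (N.k2 v y hd.isLoop fun h => N.TL y h hy)
    · rcases isLoop_cases hR (LoopAt.mk hc1' hc2') with ⟨w, d', rfl, rfl, hd'⟩ | ⟨y, hy, rfl, rfl⟩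
      · exact absurd hvw.symm (N.k2 w x hd'.isLoop fun h => N.TL x h hx)
      · have h1 : N.kN x = N.kN y := hvw
        rw [N.k1 x y (fun h => N.TL x h hx) (fun h => N.TL y h hy) h1]
  have hleA : ∀ v : D.graph.V, IsLoop v → IsLoop (Sum.elim S.κ N.kN v) ∧
      Le (mk {Sum.elim S.κ N.kN v}) (mk (aV v)) ∧ Le (mk (aV v)) (mk {Sum.elim S.κ N.kN v}) := by
    intro v ⟨c, hc1, hc2⟩
    rcases isLoop_cases hR (LoopAt.mk hc1 hc2) with ⟨v, d, rfl, rfl, hd⟩ | ⟨x, hx, rfl, rfl⟩
    · exact ⟨(S.sA.cls_lp hd.isLoop).1, S.sA.le hd.isLoop⟩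
    · obtain ⟨d, hd⟩ := N.hon x hx
      exact ⟨hd.loop.isLoop, Le.refl _, Le.refl _⟩
  have hleB : ∀ v : D.graph.V, IsLoop v →
      Le (mk {Sum.elim S.κ' kN' v}) (mk (bV v)) ∧ Le (mk (bV v)) (mk {Sum.elim S.κ' kN' v}) := by
    intro v ⟨c, hc1, hc2⟩
    rcases isLoop_cases hR (LoopAt.mk hc1 hc2) with ⟨v, d, rfl, rfl, hd⟩ | ⟨x, hx, rfl, rfl⟩
    · exact S.sB.le hd.isLoop
    · obtain ⟨d, hd⟩ := hC' x hx
      exact hd.le (z3 x)
  have hinjB : ∀ v w : D.graph.V, IsLoop v → IsLoop w →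
      Sum.elim S.κ' kN' v = Sum.elim S.κ' kN' w → v = w := by
    intro v w hv hw hvw
    have key : ∀ v w : D.graph.V, IsLoop v → IsLoop w →
        Sum.elim S.κ' kN' v = Sum.elim S.κ' kN' w →
        Reach (Sum.elim S.κ N.kN w) (Sum.elim S.κ N.kN v) := by
      intro v w hv hw hvw
      have h1 : Le (mk (bV v)) (mk (bV w)) := by
        refine (hleB v hv).2.trans ?_
        rw [hvw]
        exact (hleB w hw).1
      rw [← hab, ← hab, Le.map_iff] at h1
      exact reach_of_Le (hleA v hv).1 (((hleA v hv).2.1.trans h1).trans (hleA w hw).2.2)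
    exact hinjA v w hv hw (antisymm _ _ (key w v hw hv hvw.symm) (key v w hv hw hvw))
  letI := XD.loopGraph hR
  obtain ⟨ZA', hZA, hsA⟩ := side_ext S.sA hR SA hPA (kN := N.kN) (aN := fun x => {N.kN x})
    (U := N.U) (fun x => by rw [a1]; exact N.sf x) (by rw [a1]; exact N.unit) N.disj
    (fun x hx => by rw [a1, a2]; exact N.hon x hx) hinjA
  obtain ⟨ZB', hZB, hsB⟩ := side_ext S.sB hR SB hPB (kN := kN') (aN := bN)
    (U := Finset.univ.biUnion Z') (fun x => by rw [b1]; exact z3 x) (by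
      rw [b1, Finset.sum_biUnion]
      intro x _ y _ hxy
      exact z2 x y hxy) (by
      rw [Finset.disjoint_biUnion_left]
      exact fun x _ => z1 x)
    (fun x hx => by rw [b1, b2]; exact hC' x hx) hinjB
  refine ⟨{ H := D.graph
            lg := XD.loopGraph hR
            fV := inferInstanceAs (Fintype (S.H.V ⊕ N.B.N))
            fE := inferInstance
            α := SA.hom hPA
            β := SB.hom hPB
            κ := Sum.elim S.κ N.kN
            κ' := Sum.elim S.κ' kN'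
            a := aV
            b := bV
            ZA := ZA'
            ZB := ZB'
            sA := hsA
            sB := hsB
            ab := hab }, ?_, ?_⟩
  · intro x
    refine ⟨(D.inclFam (SA.n_zero hPA)).hom K x, ?_, ?_⟩
    · exact SA.hom_incl hPA _ x
    · exact SB.hom_incl hPB _ x
  · have hfull := fullData_ext S.sA N hr hR SA a1 a2 a3 hPA
    have hu := hsA.unit
    intro v hv
    constructor
    · obtain ⟨m, hm⟩ := N.X0F v hv
      have hm' : Fr (QSm (LX K N.W : Set (LPA K G)))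
          (fun v => SA.hom hPA (pp K (G := D.graph) v)) (pp K v) m := by
        have h1 : (fun v => SA.hom hPA (pp K (G := D.graph) v)) = PV (B := N.B) S.α N.P := by
          funext v
          rw [SA.hom_p hPA, XSide.q, a1]
        rw [h1]
        exact hm
      obtain ⟨x, hx1, hx2⟩ := hfull.lift_frame hsA hm' (by
        rw [hu]; exact ppS_mul ((hZA v).2 (N.X0U v hv)))
      exact ⟨x, m, hx1, hx2⟩
    · intro e he
      refine hfull.mem_range (ss_mem (N.X0W (by rw [he]; exact hv))) ?_ ?_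
      · rw [hu, ← pp_ss, ← mul_assoc, ppS_mul]
        rw [he]; exact (hZA v).2 (N.X0U v hv)
      · rw [hu, ← ss_pp, mul_assoc, mul_ppS]
        exact (hZA _).2 (N.X0E e (by rw [he]; exact hv))

end Stg

end Run7.h19
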