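import Pool.Agent.Helper665_GA.ValidPaths
import Pool.Agent.Helper665_GA.Laurent
import Pool.Agent.Helper665_GA.DirectFinite
import Pool.Agent.Helper665_GA.StarK
import Pool.Agent.Run7.h19.Mon2
import Pool.Agent.Run7.h19.Frames
import Pool.Agent.Run7.h19.Pow

/-!
# The structure of the Leavitt path algebra of a loop graph (helper19)
-/

namespace Run7.h19

open Pool.Agent.Helper665_GA LaurentPolynomial LoopGraph Polynomial

variable {K : Type*} [Field K] {G : Graph}

/-- vertices in the Leavitt path algebra -/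
noncomputable abbrev pp (K : Type*) [Field K] {G : Graph} (v : G.V) : LPA K G :=
  (LPA.family K G).p v

/-- edges in the Leavitt path algebra -/
noncomputable abbrev ss (K : Type*) [Field K] {G : Graph} (e : G.E) : LPA K G :=
  (LPA.family K G).s e

/-- ghost edges in the Leavitt path algebra -/
noncomputable abbrev tt (K : Type*) [Field K] {G : Graph} (e : G.E) : LPA K G :=
  (LPA.family K G).t e

/-- The span of the paths ending in `k`. -/
def Nk (K : Type*) [Field K] {G : Graph} (k : G.V) : Submodule K (LPA K G) :=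
  Submodule.span K {a | ∃ l, a = LPA.sp K G l k}

/-- A loop at `k`. -/
structure LoopAt (k : G.V) (c : G.E) : Prop where
  src : G.src c = k
  rng : G.rng c = k

variable {k : G.V} {c : G.E}

theorem LoopAt.isLoop (h : LoopAt k c) : IsLoop k := ⟨c, h.src, h.rng⟩

theorem exists_loopAt {k : G.V} (h : IsLoop k) : ∃ c, LoopAt k c := by
  obtain ⟨c, h1, h2⟩ := h
  exact ⟨c, h1, h2⟩

theorem LoopAt.inCor (h : LoopAt k c) : InCor (pp K k) (ss K c) := by
  refine ⟨(LPA.family K G).p_mul_self k, ?_, ?_⟩
  · rw [← h.src]; exact (LPA.family K G).src_mul c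
  · rw [← h.rng]; exact (LPA.family K G).mul_rng c

theorem LoopAt.inCor' (h : LoopAt k c) : InCor (pp K k) (tt K c) := by
  refine ⟨(LPA.family K G).p_mul_self k, ?_, ?_⟩
  · rw [← h.rng]; exact (LPA.family K G).rng_mul c
  · rw [← h.src]; exact (LPA.family K G).mul_src c

theorem LoopAt.tt_mul_ss (h : LoopAt k c) : tt K c * ss K c = pp K k := by
  rw [← h.rng]; exact (LPA.family K G).ghost_mul_self c

theorem Nk_mul_s (h : LoopAt k c) {a : LPA K G} (ha : a ∈ Nk K k) : a * ss K c ∈ Nk K k := by
  induction ha using Submodule.span_induction with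
  | mem a ha =>
    obtain ⟨l, rfl⟩ := ha
    have h1 := (LPA.family K G).sP_append l c
    rw [h.src, h.rng] at h1
    exact Submodule.subset_span ⟨l ++ [c], h1.symm⟩
  | zero => rw [zero_mul]; exact Submodule.zero_mem _
  | add a b _ _ ha hb => rw [add_mul]; exact Submodule.add_mem _ ha hb
  | smul r a _ ha => rw [smul_mul_assoc]; exact Submodule.smul_mem _ _ ha

theorem Nk_mul_pw (h : LoopAt k c) {a : LPA K G} {n m : ℕ} (hnm : n ≤ m)
    (ha : a * pw (pp K k) (ss K c) n ∈ Nk K k) : a * pw (pp K k) (ss K c) m ∈ Nk K k := by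
  obtain ⟨j, rfl⟩ := Nat.exists_eq_add_of_le hnm
  clear hnm
  induction j with
  | zero => exact ha
  | succ j ih =>
    rw [← add_assoc, pw_succ, ← mul_assoc]
    exact Nk_mul_s h ih

theorem tP_mul_pw (h : LoopAt k c) (l : List G.E) (u : G.V) : ∃ N : ℕ,
    (LPA.tp K G l u * pw (pp K k) (ss K c) N = 0) ∨
      (u = k ∧ LPA.tp K G l u * pw (pp K k) (ss K c) N = pp K k) := by
  induction l with
  | nil =>
    refine ⟨0, ?_⟩
    by_cases hu : u = k
    · right
      subst hu
      exact ⟨rfl, (LPA.family K G).p_mul_self u⟩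
    · left
      exact (LPA.family K G).p_mul_of_ne u k hu
  | cons e l ih =>
    obtain ⟨N, hN⟩ := ih
    refine ⟨N + 1, ?_⟩
    have h1 : LPA.tp K G (e :: l) u * pw (pp K k) (ss K c) (N + 1)
        = LPA.tp K G l u * (tt K e * ss K c) * pw (pp K k) (ss K c) N := by
      rw [pw_succ' h.inCor]
      show LPA.tp K G l u * tt K e * _ = _
      noncomm_ring
    rw [h1]
    by_cases hec : e = c
    · subst hec
      rw [h.tt_mul_ss, mul_assoc, p_pw h.inCor]
      exact hN
    · left
      rw [(LPA.family K G).ghost_mul_of_ne e c hec, mul_zero, zero_mul]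

theorem exists_mul_pw_mem (h : LoopAt k c) (a : LPA K G) :
    ∃ N, a * pw (pp K k) (ss K c) N ∈ Nk K k := by
  induction a using LPA.mono_induction with
  | hm l l' v =>
    obtain ⟨N, hN⟩ := tP_mul_pw (K := K) h l' v
    refine ⟨N, ?_⟩
    rw [mul_assoc]
    rcases hN with hN | ⟨rfl, hN⟩
    · rw [hN, mul_zero]; exact Submodule.zero_mem _
    · rw [hN]
      exact Submodule.subset_span ⟨l, (LPA.family K G).sP_mul_p l v⟩
  | hz => exact ⟨0, by rw [zero_mul]; exact Submodule.zero_mem _⟩
  | ha a b ha hb =>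
    obtain ⟨N, hN⟩ := ha
    obtain ⟨M, hM⟩ := hb
    refine ⟨max N M, ?_⟩
    rw [add_mul]
    exact Submodule.add_mem _ (Nk_mul_pw h (le_max_left _ _) hN)
      (Nk_mul_pw h (le_max_right _ _) hM)
  | hs r a ha =>
    obtain ⟨N, hN⟩ := ha
    exact ⟨N, by rw [smul_mul_assoc]; exact Submodule.smul_mem _ _ hN⟩

theorem reach_start {l : List G.E} {v : G.V} (h : Valid l v) : Reach (start l v) v := by
  induction l with
  | nil => exact Relation.ReflTransGen.refl
  | cons e l ih =>
    have h1 := ih h.2
    rw [← h.1] at h1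
    exact Relation.ReflTransGen.head ⟨e, rfl, rfl⟩ h1

theorem p_mul_sp_of_not {l : List G.E} {v w : G.V} (h : ¬ (Valid l v ∧ start l v = w)) :
    pp K w * LPA.sp K G l v = 0 := by
  by_cases h1 : Valid l v
  · have h2 : start l v ≠ w := fun h2 => h ⟨h1, h2⟩
    show (LPA.family K G).p w * (LPA.family K G).sP l v = 0
    rw [← (LPA.family K G).p_start_sP l v, ← mul_assoc,
      (LPA.family K G).p_mul_of_ne _ _ h2.symm, zero_mul]
  · rw [LPA.sp, (LPA.family K G).sP_not_valid h1, mul_zero]

theorem tp_mul_p_of_not {l : List G.E} {v w : G.V} (h : ¬ (Valid l v ∧ start l v = w)) :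
    LPA.tp K G l v * pp K w = 0 := by
  by_cases h1 : Valid l v
  · have h2 : start l v ≠ w := fun h2 => h ⟨h1, h2⟩
    show (LPA.family K G).tP l v * (LPA.family K G).p w = 0
    rw [← (LPA.family K G).tP_p_start l v, mul_assoc,
      (LPA.family K G).p_mul_of_ne _ _ h2, mul_zero]
  · rw [LPA.tp, (LPA.family K G).tP_not_valid h1, zero_mul]

theorem p_mul_Nk {v : G.V} (hv : ¬ Reach v k) {a : LPA K G} (ha : a ∈ Nk K k) :
    pp K v * a = 0 := by
  induction ha using Submodule.span_induction with
  | mem a ha =>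
    obtain ⟨l, rfl⟩ := ha
    apply p_mul_sp_of_not
    rintro ⟨h1, rfl⟩
    exact hv (reach_start h1)
  | zero => rw [mul_zero]
  | add a b _ _ ha hb => rw [mul_add, ha, hb, add_zero]
  | smul r a _ ha => rw [mul_smul_comm, ha, smul_zero]

/-- Right multiplication with high powers of a loop kills everything below. -/
theorem kill_low (h : LoopAt k c) {v : G.V} (hv : ¬ Reach v k) (a : LPA K G) :
    ∃ N, pp K v * a * pw (pp K k) (ss K c) N = 0 := by
  obtain ⟨N, hN⟩ := exists_mul_pw_mem h a
  exact ⟨N, by rw [mul_assoc]; exact p_mul_Nk hv hN⟩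

section loopGraph

variable [LoopGraph G]

theorem sp_loop (h : LoopAt k c) {l : List G.E} (h1 : Valid l k) (h2 : start l k = k) :
    LPA.sp K G l k = pw (pp K k) (ss K c) l.length := by
  induction l with
  | nil => rfl
  | cons e l ih =>
    have h3 : G.rng e = k := by
      have h4 : Reach (G.rng e) k := by rw [h1.1]; exact reach_start h1.2
      have h5 : Reach k (G.rng e) := by
        have : G.src e = k := h2
        rw [← this]; exact Reach.edge e
      exact antisymm _ _ h4 h5
    have h4 : e = c := by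
      apply loop_unique e c
      · rw [h3]; exact h2.symm
      · rw [h.src, h.rng]
      · rw [h.src]; exact h2
    subst h4
    rw [List.length_cons, pw_succ' h.inCor, ← ih h1.2 (by rw [← h1.1, h3])]
    rfl

theorem p_mul_Nk_self (h : LoopAt k c) {a : LPA K G} (ha : a ∈ Nk K k) :
    ∃ q : K[X], pp K k * a = evp K (pp K k) (ss K c) q := by
  induction ha using Submodule.span_induction with
  | mem a ha =>
    obtain ⟨l, rfl⟩ := ha
    by_cases h1 : Valid l k ∧ start l k = k
    · refine ⟨X ^ l.length, ?_⟩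
      rw [evp_X_pow, sp_loop h h1.1 h1.2, p_pw h.inCor]
    · exact ⟨0, by rw [p_mul_sp_of_not h1, map_zero]⟩
  | zero => exact ⟨0, by rw [mul_zero, map_zero]⟩
  | add a b _ _ ha hb =>
    obtain ⟨q, hq⟩ := ha
    obtain ⟨r, hr⟩ := hb
    exact ⟨q + r, by rw [mul_add, map_add, hq, hr]⟩
  | smul r a _ ha =>
    obtain ⟨q, hq⟩ := ha
    exact ⟨r • q, by rw [mul_smul_comm, hq, map_smul]⟩

/-- High powers of the loop turn the elements of the corner into polynomials. -/
theorem exists_poly (h : LoopAt k c) (a : LPA K G) :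
    ∃ N, ∃ q : K[X], pp K k * a * pw (pp K k) (ss K c) N = evp K (pp K k) (ss K c) q := by
  obtain ⟨N, hN⟩ := exists_mul_pw_mem h a
  obtain ⟨q, hq⟩ := p_mul_Nk_self h hN
  exact ⟨N, q, by rw [mul_assoc, hq]⟩

end loopGraph

/-! ### the symbol -/

/-- The boundary path around a loop. -/
def xinf (h : LoopAt k c) : BPath G where
  vtx _ := k
  edg _ := some c
  ok_some _ e he := by
    cases he
    exact ⟨h.src, h.rng⟩
  ok_none _ hn := by simp at hn

theorem cons_xinf (h : LoopAt k c) : BPath.cons c (xinf h) h.rng = xinf h := by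
  apply BPath.ext'
  · exact h.src
  · intro n
    cases n <;> rfl

theorem ap_single (f : EE K G) (x : BPath G) (r : K[T;T⁻¹]) :
    f.ap (Finsupp.single x r) = r • f.ap (Finsupp.single x 1) := by
  rw [← map_smul, Finsupp.smul_single, smul_eq_mul, mul_one]

theorem rho_pw_xinf (h : LoopAt k c) (n : ℕ) :
    (rho K G (pw (pp K k) (ss K c) n)).ap (Finsupp.single (xinf h) 1)
      = Finsupp.single (xinf h) (T n) := by
  induction n with
  | zero =>
    have h0 : (xinf h).vtx 0 = k := rfl
    rw [pw_zero, LPA.rho_p, opP_single, if_pos h0]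
    simp
  | succ n ih =>
    have h0 : G.rng c = (xinf h).vtx 0 := h.rng
    rw [pw_succ' h.inCor, map_mul, EE.mul_ap, ih, LPA.rho_s, opS_single, dif_pos h0,
      cons_xinf, ← T_add]
    simp

theorem rho_evp_xinf (h : LoopAt k c) (q : K[X]) :
    (rho K G (evp K (pp K k) (ss K c) q)).ap (Finsupp.single (xinf h) 1)
      = Finsupp.single (xinf h) (Polynomial.toLaurent q) := by
  induction q using Polynomial.induction_on' with
  | add q q' hq hq' => rw [map_add, map_add, EE.add_ap, hq, hq', map_add, Finsupp.single_add]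
  | monomial n a =>
    rw [evp_monomial, map_smul, EE.smul_ap, rho_pw_xinf, Finsupp.smul_single,
      Polynomial.toLaurent_C_mul_T, LaurentPolynomial.smul_eq_C_mul]

theorem evp_injective (h : LoopAt k c) : Function.Injective (evp K (pp K k) (ss K c)) := by
  rw [injective_iff_map_eq_zero]
  intro q hq
  have h1 := rho_evp_xinf (K := K) h q
  rw [hq, map_zero, EE.zero_ap] at h1
  have h2 := (Finsupp.single_eq_zero.1 h1.symm)
  exact (map_eq_zero_iff _ Polynomial.toLaurent_injective).1 h2

/-- The symbol at a loop. -/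
noncomputable def sym (h : LoopAt k c) (a : LPA K G) : K[T;T⁻¹] :=
  (rho K G a).ap (Finsupp.single (xinf h) 1) (xinf h)

theorem sym_add (h : LoopAt k c) (a b : LPA K G) : sym h (a + b) = sym h a + sym h b := by
  rw [sym, map_add, EE.add_ap]; rfl

theorem sym_sub (h : LoopAt k c) (a b : LPA K G) : sym h (a - b) = sym h a - sym h b := by
  rw [sym, map_sub, EE.sub_ap]; rfl

theorem sym_zero (h : LoopAt k c) : sym h (0 : LPA K G) = 0 := by
  rw [sym, map_zero, EE.zero_ap]; rfl

theorem sym_smul (h : LoopAt k c) (r : K) (a : LPA K G) : sym h (r • a) = r • sym h a := by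
  rw [sym, map_smul, EE.smul_ap]; rfl

theorem sym_sum (h : LoopAt k c) {ι : Type*} (s : Finset ι) (a : ι → LPA K G) :
    sym h (∑ i ∈ s, a i) = ∑ i ∈ s, sym h (a i) := by
  classical
  induction s using Finset.induction_on with
  | empty => simp [sym_zero]
  | insert i s hi ih => rw [Finset.sum_insert hi, Finset.sum_insert hi, sym_add, ih]

theorem sym_evp (h : LoopAt k c) (q : K[X]) :
    sym h (evp K (pp K k) (ss K c) q) = Polynomial.toLaurent q := by
  rw [sym, rho_evp_xinf, Finsupp.single_eq_same]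

theorem sym_p (h : LoopAt k c) : sym h (pp K k) = 1 := by
  have := sym_evp (K := K) h 1
  rwa [evp_one, map_one] at this

theorem sym_mul_pw (h : LoopAt k c) (a : LPA K G) (n : ℕ) :
    sym h (a * pw (pp K k) (ss K c) n) = sym h a * T n := by
  rw [sym, map_mul, EE.mul_ap, rho_pw_xinf, ap_single, Finsupp.smul_apply, smul_eq_mul, mul_comm]
  rfl

section loopGraph

variable [LoopGraph G]

theorem rho_xinf (h : LoopAt k c) {a : LPA K G} (ha : pp K k * a = a) :
    (rho K G a).ap (Finsupp.single (xinf h) 1) = Finsupp.single (xinf h) (sym h a) := by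
  obtain ⟨N, q, hq⟩ := exists_poly h a
  rw [ha] at hq
  have h1 : (rho K G (a * pw (pp K k) (ss K c) N)).ap (Finsupp.single (xinf h) 1)
      = Finsupp.single (xinf h) (Polynomial.toLaurent q) := by rw [hq, rho_evp_xinf]
  rw [map_mul, EE.mul_ap, rho_pw_xinf, ap_single] at h1
  have h2 : (rho K G a).ap (Finsupp.single (xinf h) 1)
      = Finsupp.single (xinf h) (T (-N) * Polynomial.toLaurent q) := by
    have h3 := congrArg (fun z => (T (-(N : ℤ)) : K[T;T⁻¹]) • z) h1
    simp only [smul_smul, Finsupp.smul_single, smul_eq_mul] at h3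
    rw [← T_add, neg_add_cancel, T_zero, one_smul] at h3
    exact h3
  rw [sym, h2, Finsupp.single_eq_same]

theorem sym_mul (h : LoopAt k c) (a : LPA K G) {b : LPA K G} (hb : pp K k * b = b) :
    sym h (a * b) = sym h a * sym h b := by
  rw [sym, map_mul, EE.mul_ap, rho_xinf h hb, ap_single, Finsupp.smul_apply, smul_eq_mul,
    mul_comm]
  rfl

/-- Elements with symbol zero are killed by high powers. -/
theorem exists_kill (h : LoopAt k c) {a : LPA K G} (ha : pp K k * a = a) (h0 : sym h a = 0) :
    ∃ N, a * pw (pp K k) (ss K c) N = 0 := by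
  obtain ⟨N, q, hq⟩ := exists_poly h a
  rw [ha] at hq
  refine ⟨N, ?_⟩
  have h1 := sym_mul_pw h a N
  rw [h0, zero_mul, hq, sym_evp] at h1
  rw [hq, (map_eq_zero_iff _ Polynomial.toLaurent_injective).1 h1, map_zero]

omit [LoopGraph G] in
theorem sym_low (h : LoopAt k c) {v : G.V} (hv : ¬ Reach v k) (a b : LPA K G) :
    sym h (a * pp K v * b) = 0 := by
  obtain ⟨N, hN⟩ := kill_low (K := K) h hv b
  have h1 := sym_mul_pw h (a * pp K v * b) N
  have h2 : a * pp K v * b * pw (pp K k) (ss K c) N = 0 := by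
    rw [mul_assoc, mul_assoc, ← mul_assoc (pp K v), hN, mul_zero]
  rw [h2, sym_zero] at h1
  have h3 : sym h (a * pp K v * b) = sym h (a * pp K v * b) * T N * T (-N) := by
    rw [mul_assoc (sym h _), ← T_add, add_neg_cancel, T_zero, mul_one]
  rw [h3, ← h1, zero_mul]

end loopGraph

end Run7.h19
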